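import Pool.Agent.MP_ae0bd0_nt.B3.Defs
import Pool.Agent.MP_ae0bd0_nt.CM.A1
import Pool.Agent.MP_ae0bd0_nt.CM.I4

set_option autoImplicit false

open scoped ComplexConjugate
open Filter Topology CM27

namespace BS3

/-! ## [BS3-S0] sums over residue classes (file S0.lean) -/

/-- the quotient ring modulo `M` -/
abbrev s0_Q (M : ℕ) := Eis ⧸ Ideal.span {(M : Eis)}

/-- the representatives `⟨i, j⟩` and the multiples of `M` -/
def s0_e (m : ℕ) (p : (Fin m × Fin m) × Eis) : Eis :=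
  ⟨(p.1.1 : ℤ) + m * p.2.re, (p.1.2 : ℤ) + m * p.2.im⟩

theorem s0_e_bij {m : ℕ} (hm : m ≠ 0) : Function.Bijective (s0_e m) := by
  have hm' : (m : ℤ) ≠ 0 := by exact_mod_cast hm
  have hm0 : (0 : ℤ) < m := by positivity
  constructor
  · rintro ⟨⟨i, j⟩, a⟩ ⟨⟨i', j'⟩, a'⟩ h
    have h1 := congrArg QuadraticAlgebra.re h
    have h2 := congrArg QuadraticAlgebra.im h
    simp only [s0_e] at h1 h2
    have key : ∀ (x x' : Fin m) (y y' : ℤ), (x : ℤ) + m * y = x' + m * y' → x = x' ∧ y = y' := by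
      intro x x' y y' hxy
      have hx1 : ((x : ℕ) : ℤ) < m := by exact_mod_cast x.2
      have hx2 : ((x' : ℕ) : ℤ) < m := by exact_mod_cast x'.2
      have e1 : ((x : ℤ) + m * y) % m = x := by
        rw [Int.add_mul_emod_self_left, Int.emod_eq_of_lt (by positivity) hx1]
      have e2 : ((x' : ℤ) + m * y') % m = x' := by
        rw [Int.add_mul_emod_self_left, Int.emod_eq_of_lt (by positivity) hx2]
      have e3 : ((x : ℕ) : ℤ) = ((x' : ℕ) : ℤ) := by rw [← e1, ← e2, hxy]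
      refine ⟨Fin.ext (by exact_mod_cast e3), ?_⟩
      rw [e3] at hxy
      exact mul_left_cancel₀ hm' (add_left_cancel hxy)
    obtain ⟨r1, r2⟩ := key _ _ _ _ h1
    obtain ⟨r3, r4⟩ := key _ _ _ _ h2
    subst r1 r3
    have : a = a' := QuadraticAlgebra.ext r2 r4
    rw [this]
  · intro d
    have hk : ∀ x : ℤ, ∃ (i : Fin m) (y : ℤ), (i : ℤ) + m * y = x := by
      intro x
      have h1 := Int.emod_nonneg x hm'
      have h2 := Int.emod_lt_of_pos x hm0
      refine ⟨⟨(x % m).toNat, by omega⟩, x / m, ?_⟩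
      show (((x % m).toNat : ℕ) : ℤ) + m * (x / m) = x
      rw [Int.toNat_of_nonneg h1]
      exact Int.emod_add_mul_ediv x m
    obtain ⟨i, y, hi⟩ := hk d.re
    obtain ⟨j, y', hj⟩ := hk d.im
    exact ⟨((i, j), ⟨y, y'⟩), QuadraticAlgebra.ext hi hj⟩

theorem s0_e_eq (m : ℕ) (p : (Fin m × Fin m) × Eis) :
    s0_e m p = (⟨(p.1.1 : ℤ), (p.1.2 : ℤ)⟩ : Eis) + (m : Eis) * p.2 := by
  have h5 : ((m : ℕ) : Eis).re = m := by simp
  have h6 : ((m : ℕ) : Eis).im = 0 := by simp
  apply QuadraticAlgebra.ext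
  · simp only [QuadraticAlgebra.re_add, QuadraticAlgebra.re_mul, h5, h6]
    show (p.1.1 : ℤ) + m * p.2.re = _
    ring
  · simp only [QuadraticAlgebra.im_add, QuadraticAlgebra.im_mul, h5, h6]
    show (p.1.2 : ℤ) + m * p.2.im = _
    ring

/-- the classes of the representatives -/
noncomputable def s0_r (M : ℕ) (p : Fin M × Fin M) : s0_Q M :=
  Ideal.Quotient.mk _ (⟨(p.1 : ℤ), (p.2 : ℤ)⟩ : Eis)

theorem s0_r_bij {M : ℕ} (hM : M ≠ 0) : Function.Bijective (s0_r M) := by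
  constructor
  · rintro p p' h
    have h1 := (Ideal.Quotient.mk_eq_mk_iff_sub_mem _ _).1 h
    obtain ⟨b, hb⟩ := Ideal.mem_span_singleton.1 h1
    have h2 : s0_e M (p, 0) = s0_e M (p', b) := by
      rw [s0_e_eq, s0_e_eq]
      simp only [mul_zero, add_zero]
      linear_combination hb
    have h3 := (s0_e_bij hM).1 h2
    exact (Prod.ext_iff.1 h3).1
  · intro q
    obtain ⟨d, rfl⟩ := Ideal.Quotient.mk_surjective q
    obtain ⟨⟨p, b⟩, hp⟩ := (s0_e_bij hM).2 d
    refine ⟨p, ?_⟩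
    rw [s0_e_eq] at hp
    unfold s0_r
    rw [Ideal.Quotient.mk_eq_mk_iff_sub_mem, ← hp, Ideal.mem_span_singleton]
    exact ⟨-b, by ring⟩

theorem s0_out {M : ℕ} {f : Eis → ℂ} (hf : ∀ a b, f (a + (M : Eis) * b) = f a) (a b : Eis)
    (h : (Ideal.Quotient.mk (Ideal.span {(M : Eis)}) a) = Ideal.Quotient.mk _ b) : f a = f b := by
  have h1 := (Ideal.Quotient.mk_eq_mk_iff_sub_mem _ _).1 h
  obtain ⟨c, hc⟩ := Ideal.mem_span_singleton.1 h1
  rw [show a = b + (M : Eis) * c by linear_combination hc, hf]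

/-- the function on the quotient -/
noncomputable def s0_F (M : ℕ) (f : Eis → ℂ) (q : s0_Q M) : ℂ := f (Quotient.out q)

theorem s0_F_mk {M : ℕ} {f : Eis → ℂ} (hf : ∀ a b, f (a + (M : Eis) * b) = f a) (a : Eis) :
    s0_F M f (Ideal.Quotient.mk _ a) = f a :=
  s0_out hf _ _ (Quotient.out_eq _)

theorem s0_sum (M : ℕ) (hM : M ≠ 0) (f : Eis → ℂ) (hf : ∀ a b, f (a + (M : Eis) * b) = f a) :
    ∑ᶠ q : s0_Q M, s0_F M f q = rsum M f := by
  rw [← finsum_comp_equiv (Equiv.ofBijective _ (s0_r_bij hM)), finsum_eq_sum_of_fintype,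
    Fintype.sum_prod_type]
  unfold rsum
  rw [Finset.sum_range]
  refine Finset.sum_congr rfl fun i _ => ?_
  rw [Finset.sum_range]
  refine Finset.sum_congr rfl fun j _ => ?_
  exact s0_F_mk hf _

/-- The sum of a periodic function over the residue classes, for any bijection of the classes. -/
theorem rsum_mul (M : ℕ) (hM : M ≠ 0) (f : Eis → ℂ) (hf : ∀ a b, f (a + (M : Eis) * b) = f a)
    (c : Eis) (hc : IsCoprime c (M : Eis)) : rsum M (fun v => f (c * v)) = rsum M f := by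
  have hf' : ∀ a b, (fun v => f (c * v)) (a + (M : Eis) * b) = (fun v => f (c * v)) a := by
    intro a b
    show f (c * (a + (M : Eis) * b)) = f (c * a)
    rw [show c * (a + (M : Eis) * b) = c * a + (M : Eis) * (c * b) by ring, hf]
  rw [← s0_sum M hM f hf, ← s0_sum M hM _ hf']
  obtain ⟨x, y, hxy⟩ := hc
  have hu : IsUnit (Ideal.Quotient.mk (Ideal.span {(M : Eis)}) c) := by
    refine IsUnit.of_mul_eq_one (Ideal.Quotient.mk _ x) ?_
    rw [← map_mul, ← map_one (Ideal.Quotient.mk _), Ideal.Quotient.mk_eq_mk_iff_sub_mem,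
      Ideal.mem_span_singleton]
    exact ⟨-y, by linear_combination hxy⟩
  have hb : Function.Bijective fun q : s0_Q M => Ideal.Quotient.mk _ c * q :=
    IsUnit.isUnit_iff_mulLeft_bijective.1 hu
  rw [← finsum_comp_equiv (Equiv.ofBijective _ hb) (f := s0_F M f)]
  refine finsum_congr fun q => ?_
  obtain ⟨d, rfl⟩ := Ideal.Quotient.mk_surjective q
  rw [s0_F_mk (f := fun v => f (c * v)) hf', Equiv.ofBijective_apply, ← map_mul, s0_F_mk hf]

/-- comparison with the sum over the quotient ring -/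
theorem rsum_quot (M : ℕ) (hM : M ≠ 0) (f : Eis → ℂ) (hf : ∀ a b, f (a + (M : Eis) * b) = f a) :
    ∑ᶠ d : Eis ⧸ Ideal.span {(M : Eis)}, f d.out = rsum M f :=
  s0_sum M hM f hf

/-- sum over the lattice -/
theorem tsum_rsum (M : ℕ) (hM : M ≠ 0) (f : Eis → ℂ) (hf : Summable f) :
    ∑' a : Eis, f a = rsum M (fun v => ∑' a : Eis, f (v + (M : Eis) * a)) := by
  let e : ((Fin M × Fin M) × Eis) ≃ Eis := Equiv.ofBijective _ (s0_e_bij hM)
  rw [← e.tsum_eq]
  have hsume : Summable fun p => f (e p) := (e.summable_iff (f := f)).mpr hf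
  rw [hsume.tsum_prod, tsum_fintype, Fintype.sum_prod_type]
  unfold rsum
  rw [Finset.sum_range]
  refine Finset.sum_congr rfl fun i _ => ?_
  rw [Finset.sum_range]
  refine Finset.sum_congr rfl fun j _ => ?_
  refine tsum_congr fun a => ?_
  show f (s0_e M ((i, j), a)) = _
  rw [s0_e_eq]

/-- orthogonality -/
theorem rsum_ch {M : ℕ} (hM : M ≠ 0) {φ : Eis → ℂ} (hφ : IsCh M φ) (a : Eis)
    (ha : IsCoprime a (M : Eis)) (h1 : φ a ≠ 1) : rsum M φ = 0 := by
  have h := rsum_mul M hM φ hφ.per a ha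
  have h2 : rsum M (fun v => φ (a * v)) = φ a * rsum M φ := by
    unfold rsum
    rw [Finset.mul_sum]
    refine Finset.sum_congr rfl fun i _ => ?_
    rw [Finset.mul_sum]
    exact Finset.sum_congr rfl fun j _ => hφ.mul _ _
  rw [h2] at h
  have h3 : (φ a - 1) * rsum M φ = 0 := by linear_combination h
  rcases mul_eq_zero.1 h3 with h4 | h4
  · exact absurd (sub_eq_zero.1 h4) h1
  · exact h4

theorem coprime_iff (a : Eis) (M : ℕ) : IsCoprime a (M : Eis) ↔ IsCoprime a.norm (M : ℤ) := by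
  have h := i4_coprime_norm a (M : ℤ)
  rw [Int.cast_natCast] at h
  exact h

end BS3
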