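import Pool.Agent.MP_ae0bd0_nt.B3.ZDefs
import Pool.Agent.MP_ae0bd0_nt.B3.S0
import Pool.Agent.MP_ae0bd0_nt.CM.A3
import Pool.Agent.MP_ae0bd0_nt.CM.I4

set_option autoImplicit false

open scoped ComplexConjugate
open CM27

namespace BS3

/-! ## [BS3-Z2] the cubic residue symbol modulo a rational prime (file Z2.lean) -/

/-! ### auxiliary facts -/

/-- `ω` -/
def z2_om : Eis := ⟨0, 1⟩

theorem z2_dvd {ℓ : ℕ} {z : Eis} (h : (ℓ : Eis) ∣ z) : (ℓ : ℤ) ∣ z.re ∧ (ℓ : ℤ) ∣ z.im := by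
  obtain ⟨c, rfl⟩ := h
  refine ⟨⟨c.re, ?_⟩, ⟨c.im, ?_⟩⟩
  · simp [QuadraticAlgebra.re_mul]
  · simp [QuadraticAlgebra.im_mul]

theorem z2_star_nat (ℓ : ℕ) : star (ℓ : Eis) = (ℓ : Eis) := by
  ext
  · simp [QuadraticAlgebra.re_star]
  · simp [QuadraticAlgebra.im_star]

theorem z2_star_int (n : ℤ) : star (n : Eis) = (n : Eis) := by
  ext
  · simp [QuadraticAlgebra.re_star]
  · simp [QuadraticAlgebra.im_star]

theorem z2_dvd_star {ℓ : ℕ} {z : Eis} (h : (ℓ : Eis) ∣ z) : (ℓ : Eis) ∣ star z := by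
  obtain ⟨c, rfl⟩ := h
  refine ⟨star c, ?_⟩
  rw [star_mul', z2_star_nat]

theorem z2_coprime_star {ℓ : ℕ} {a : Eis} (h : IsCoprime a (ℓ : Eis)) :
    IsCoprime (star a) (ℓ : Eis) := by
  obtain ⟨u, v, h⟩ := h
  refine ⟨star u, star v, ?_⟩
  have := congrArg star h
  rwa [star_add, star_mul', star_mul', z2_star_nat, star_one] at this

theorem z2_om_sq : z2_om ^ 2 = ⟨-1, -1⟩ := by
  rw [pow_two]
  ext
  · simp [z2_om, QuadraticAlgebra.re_mul]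
  · simp [z2_om, QuadraticAlgebra.im_mul]

theorem z2_om_cube : z2_om ^ 3 = 1 := by
  rw [pow_succ, z2_om_sq]
  ext
  · simp [z2_om, QuadraticAlgebra.re_mul, QuadraticAlgebra.re_one]
  · simp [z2_om, QuadraticAlgebra.im_mul, QuadraticAlgebra.im_one]

theorem z2_om_sum : z2_om ^ 2 + z2_om + 1 = 0 := by
  rw [z2_om_sq]
  ext
  · simp [z2_om, QuadraticAlgebra.re_one]
  · simp [z2_om, QuadraticAlgebra.im_one]

theorem z2_star_om : star z2_om = z2_om ^ 2 := by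
  rw [z2_om_sq]
  ext
  · simp [z2_om, QuadraticAlgebra.re_star]
  · simp [z2_om, QuadraticAlgebra.im_star]

theorem z2_om_pow (n : ℕ) : z2_om ^ n = z2_om ^ (n % 3) := by
  conv_lhs => rw [← Nat.div_add_mod n 3, pow_add, pow_mul, z2_om_cube, one_pow, one_mul]

theorem z2_mem_C3 {e : Eis} : e ∈ C3 ↔ e = 1 ∨ e = z2_om ∨ e = z2_om ^ 2 := by
  rw [z2_om_sq]
  unfold C3 z2_om
  simp only [Finset.mem_insert, Finset.mem_singleton]
  rfl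

theorem z2_om_mem (n : ℕ) : z2_om ^ n ∈ C3 := by
  rw [z2_mem_C3, z2_om_pow]
  have : n % 3 = 0 ∨ n % 3 = 1 ∨ n % 3 = 2 := by omega
  rcases this with h | h | h <;> rw [h]
  · left; rw [pow_zero]
  · right; left; rw [pow_one]
  · right; right; rfl

theorem z2_C3_pow {e : Eis} (he : e ∈ C3) : ∃ n, e = z2_om ^ n := by
  rcases z2_mem_C3.1 he with h | h | h
  · exact ⟨0, by rw [h, pow_zero]⟩
  · exact ⟨1, by rw [h, pow_one]⟩
  · exact ⟨2, h⟩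

theorem z2_C3_mul {e e' : Eis} (he : e ∈ C3) (he' : e' ∈ C3) : e * e' ∈ C3 := by
  obtain ⟨n, rfl⟩ := z2_C3_pow he
  obtain ⟨m, rfl⟩ := z2_C3_pow he'
  rw [← pow_add]
  exact z2_om_mem _

theorem z2_C3_star {e : Eis} (he : e ∈ C3) : star e ∈ C3 := by
  obtain ⟨n, rfl⟩ := z2_C3_pow he
  rw [star_pow, z2_star_om, ← pow_mul]
  exact z2_om_mem _

theorem z2_C3_cube {e : Eis} (he : e ∈ C3) : e ^ 3 = 1 := by
  obtain ⟨n, rfl⟩ := z2_C3_pow he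
  rw [← pow_mul, mul_comm, pow_mul, z2_om_cube, one_pow]

theorem z2_C3_mul_star {e : Eis} (he : e ∈ C3) : e * star e = 1 := by
  obtain ⟨n, rfl⟩ := z2_C3_pow he
  rw [star_pow, z2_star_om, ← pow_mul, ← pow_add]
  have : n + 2 * n = 3 * n := by ring
  rw [this, pow_mul, z2_om_cube, one_pow]

theorem z2_C3_diff {ℓ : ℕ} (hℓ : ℓ.Prime) {e e' : Eis} (he : e ∈ C3) (he' : e' ∈ C3)
    (h : (ℓ : Eis) ∣ e - e') : e = e' := by
  obtain ⟨h1, h2⟩ := z2_dvd h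
  have hne : ¬ (ℓ : ℤ) ∣ 1 := by
    intro hd
    have : (ℓ : ℤ) ≤ 1 := Int.le_of_dvd one_pos hd
    have := hℓ.two_le
    omega
  have key : ∀ x y : ℤ, (ℓ : ℤ) ∣ x → (ℓ : ℤ) ∣ y → ∀ s t : ℤ, s * x + t * y = 1 → False := by
    intro x y hx hy s t hst
    apply hne
    rw [← hst]
    exact dvd_add (dvd_mul_of_dvd_right hx s) (dvd_mul_of_dvd_right hy t)
  unfold C3 at he he'
  simp only [Finset.mem_insert, Finset.mem_singleton] at he he'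
  rcases he with rfl | rfl | rfl <;> rcases he' with rfl | rfl | rfl
  · rfl
  · exact (key _ _ h1 h2 1 0 (by simp)).elim
  · exact (key _ _ h1 h2 0 1 (by simp)).elim
  · exact (key _ _ h1 h2 0 1 (by simp)).elim
  · rfl
  · exact (key _ _ h1 h2 1 0 (by simp)).elim
  · exact (key _ _ h1 h2 0 (-1) (by simp)).elim
  · exact (key _ _ h1 h2 (-1) 0 (by simp)).elim
  · rfl

theorem z2_mod {ℓ : ℕ} (hℓ : ℓ.Prime) (h3 : ℓ ≠ 3) : ℓ % 3 = 1 ∨ ℓ % 3 = 2 := by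
  have : ℓ % 3 ≠ 0 := by
    intro h
    exact h3 (((Nat.prime_dvd_prime_iff_eq Nat.prime_three hℓ).1 (Nat.dvd_of_mod_eq_zero h)).symm)
  omega

theorem z2_fermat {ℓ : ℕ} (hℓ : ℓ.Prime) (n : ℤ) : (ℓ : ℤ) ∣ n ^ ℓ - n := by
  have : Fact ℓ.Prime := ⟨hℓ⟩
  rw [← ZMod.intCast_zmod_eq_zero_iff_dvd]
  push_cast
  rw [ZMod.pow_card, sub_self]

theorem z2_cast_dvd {ℓ : ℕ} {n : ℤ} (h : (ℓ : ℤ) ∣ n) : (ℓ : Eis) ∣ (n : Eis) := by
  obtain ⟨c, rfl⟩ := h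
  exact ⟨(c : Eis), by push_cast; rfl⟩

theorem z2_decomp (a : Eis) : a = (a.re : Eis) + (a.im : Eis) * z2_om := by
  ext
  · simp [z2_om, QuadraticAlgebra.re_mul]
  · simp [z2_om, QuadraticAlgebra.im_mul]

theorem z2_frob {ℓ : ℕ} (hℓ : ℓ.Prime) (a : Eis) :
    (ℓ : Eis) ∣ a ^ ℓ - ((a.re : Eis) + (a.im : Eis) * z2_om ^ ℓ) := by
  obtain ⟨r, hr⟩ := exists_add_pow_prime_eq hℓ (a.re : Eis) ((a.im : Eis) * z2_om)
  have h1 := z2_cast_dvd (z2_fermat hℓ a.re)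
  have h2 := z2_cast_dvd (z2_fermat hℓ a.im)
  push_cast at h1 h2
  have e : a ^ ℓ - ((a.re : Eis) + (a.im : Eis) * z2_om ^ ℓ) =
      ((a.re : Eis) ^ ℓ - a.re) + ((a.im : Eis) ^ ℓ - a.im) * z2_om ^ ℓ +
        (ℓ : Eis) * ((a.re : Eis) * ((a.im : Eis) * z2_om) * r) := by
    rw [← z2_decomp a, mul_pow] at hr
    rw [hr]
    ring
  rw [e]
  exact dvd_add (dvd_add h1 (dvd_mul_of_dvd_left h2 _)) (dvd_mul_right _ _)

theorem z2_frob_one {ℓ : ℕ} (hℓ : ℓ.Prime) (h : ℓ % 3 = 1) (a : Eis) :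
    (ℓ : Eis) ∣ a ^ ℓ - a := by
  have h1 := z2_frob hℓ a
  rwa [z2_om_pow, h, pow_one, ← z2_decomp] at h1

theorem z2_frob_two {ℓ : ℕ} (hℓ : ℓ.Prime) (h : ℓ % 3 = 2) (a : Eis) :
    (ℓ : Eis) ∣ a ^ ℓ - star a := by
  have h1 := z2_frob hℓ a
  rw [z2_om_pow, h] at h1
  have e : star a = (a.re : Eis) + (a.im : Eis) * z2_om ^ 2 := by
    conv_lhs => rw [z2_decomp a, star_add, star_mul', z2_star_int, z2_star_int, z2_star_om]
  rwa [← e] at h1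

theorem z2_sq_mod {ℓ : ℕ} (h : ℓ % 3 = 1 ∨ ℓ % 3 = 2) : ℓ ^ 2 % 3 = 1 := by
  rw [Nat.pow_mod]
  rcases h with h | h <;> rw [h]

/-- `a^(ℓ-1) ≡ 1` -/
theorem z2_pow_one {ℓ : ℕ} (hℓ : ℓ.Prime) (h : ℓ % 3 = 1) {a : Eis}
    (ha : IsCoprime a (ℓ : Eis)) : (ℓ : Eis) ∣ (a ^ ((ℓ - 1) / 3)) ^ 3 - 1 := by
  have h1 := z2_frob_one hℓ h a
  have h2 : (ℓ - 1) / 3 * 3 = ℓ - 1 := by omega
  rw [← pow_mul, h2]
  have h3 : a ^ ℓ - a = a * (a ^ (ℓ - 1) - 1) := by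
    rw [mul_sub, mul_one, ← pow_succ', Nat.sub_add_cancel hℓ.one_le]
  rw [h3] at h1
  exact ha.symm.dvd_of_dvd_mul_left h1

theorem z2_pow_two {ℓ : ℕ} (hℓ : ℓ.Prime) (h : ℓ % 3 = 2) {a : Eis}
    (ha : IsCoprime a (ℓ : Eis)) : (ℓ : Eis) ∣ (a ^ ((ℓ ^ 2 - 1) / 3)) ^ 3 - 1 := by
  have hs := z2_sq_mod (Or.inr h)
  have hpos : 0 < ℓ ^ 2 := by have := hℓ.pos; positivity
  have h2 : (ℓ ^ 2 - 1) / 3 * 3 = ℓ ^ 2 - 1 := by omega
  rw [← pow_mul, h2]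
  have h1 : (ℓ : Eis) ∣ a ^ (ℓ ^ 2) - a := by
    have h4 := z2_frob_two hℓ h a
    have h5 := z2_frob_two hℓ h (star a)
    rw [star_star] at h5
    have h6 : (ℓ : Eis) ∣ (a ^ ℓ) ^ ℓ - (star a) ^ ℓ := h4.trans (sub_dvd_pow_sub_pow _ _ _)
    have e : a ^ (ℓ ^ 2) - a = ((a ^ ℓ) ^ ℓ - (star a) ^ ℓ) + ((star a) ^ ℓ - a) := by
      rw [← pow_mul, ← pow_two]
      ring
    rw [e]
    exact dvd_add h6 h5
  have h3 : a ^ (ℓ ^ 2) - a = a * (a ^ (ℓ ^ 2 - 1) - 1) := by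
    rw [mul_sub, mul_one, ← pow_succ', Nat.sub_add_cancel hpos]
  rw [h3] at h1
  exact ha.symm.dvd_of_dvd_mul_left h1

/-- uniqueness -/
theorem isCub_unique {ℓ : ℕ} (hℓ : ℓ.Prime) (h3 : ℓ ≠ 3) {a e e' : Eis}
    (ha : IsCoprime a (ℓ : Eis)) (he : e ∈ C3) (he' : e' ∈ C3) (h : IsCub ℓ a e)
    (h' : IsCub ℓ a e') : e = e' := by
  apply z2_C3_diff hℓ he he'
  rcases z2_mod hℓ h3 with hm | hm
  · have h1 := dvd_sub (h'.1 hm) (h.1 hm)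
    have e1 : a ^ ((ℓ - 1) / 3) - e' * star a ^ ((ℓ - 1) / 3) -
        (a ^ ((ℓ - 1) / 3) - e * star a ^ ((ℓ - 1) / 3)) =
        (star a) ^ ((ℓ - 1) / 3) * (e - e') := by ring
    rw [e1] at h1
    exact ((z2_coprime_star ha).pow_left.symm).dvd_of_dvd_mul_left h1
  · have h1 := dvd_sub (h'.2 hm) (h.2 hm)
    have e1 : a ^ ((ℓ ^ 2 - 1) / 3) - e' - (a ^ ((ℓ ^ 2 - 1) / 3) - e) = e - e' := by ring
    rwa [e1] at h1

/-- existence -/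
theorem isCub_exists {ℓ : ℕ} (hℓ : ℓ.Prime) (h3 : ℓ ≠ 3) {a : Eis}
    (ha : IsCoprime a (ℓ : Eis)) : ∃ e ∈ C3, IsCub ℓ a e := by
  have hsum := z2_om_sum
  have hcube := z2_om_cube
  rcases z2_mod hℓ h3 with hm | hm
  · set A := a ^ ((ℓ - 1) / 3) with hA
    set B := star a ^ ((ℓ - 1) / 3) with hB
    have h1 := z2_pow_one hℓ hm ha
    have h2 := z2_pow_one hℓ hm (z2_coprime_star ha)
    have h4 : (ℓ : Eis) ∣ (A - 1 * B) * ((A - z2_om * B) * (A - z2_om ^ 2 * B)) := by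
      have e1 : (A - 1 * B) * ((A - z2_om * B) * (A - z2_om ^ 2 * B)) =
          (A ^ 3 - 1) - (B ^ 3 - 1) := by
        linear_combination (-A ^ 2 * B + A * B ^ 2 + A * B ^ 2 * (z2_om - 1)) * hsum +
          (A * B ^ 2 - B ^ 3 - A * B ^ 2) * hcube
      rw [e1]
      exact dvd_sub h1 h2
    obtain ⟨lam, -, hlam⟩ := exists_primary_prime ℓ hℓ hm
    have hp := a3_prime_of_norm ℓ hℓ lam hlam
    have hlℓ : lam * star lam = (ℓ : Eis) := by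
      rw [a3_mul_star, hlam]
      push_cast
      rfl
    have hlco := i4_coprime_star ℓ hℓ hm lam hlam
    have key : ∀ e ∈ C3, lam ∣ A - e * B → IsCub ℓ a e := by
      intro e he hd
      refine ⟨fun _ => ?_, fun h => by omega⟩
      rw [← hlℓ]
      refine hlco.mul_dvd hd ?_
      obtain ⟨c, hc⟩ := hd
      refine ⟨-e * star c, ?_⟩
      have h5 := congrArg star hc
      rw [star_sub, star_mul', star_mul', hA, hB, star_pow, star_pow, star_star, ← hA, ← hB] at h5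
      linear_combination (-e) * h5 - A * z2_C3_mul_star he
    rcases hp.dvd_or_dvd ((Dvd.intro _ hlℓ).trans h4) with h5 | h5
    · exact ⟨1, z2_mem_C3.2 (Or.inl rfl), key _ (z2_mem_C3.2 (Or.inl rfl)) h5⟩
    · rcases hp.dvd_or_dvd h5 with h6 | h6
      · exact ⟨z2_om, z2_mem_C3.2 (Or.inr (Or.inl rfl)),
          key _ (z2_mem_C3.2 (Or.inr (Or.inl rfl))) h6⟩
      · exact ⟨z2_om ^ 2, z2_mem_C3.2 (Or.inr (Or.inr rfl)),
          key _ (z2_mem_C3.2 (Or.inr (Or.inr rfl))) h6⟩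
  · set T := a ^ ((ℓ ^ 2 - 1) / 3) with hT
    have h1 := z2_pow_two hℓ hm ha
    have hp := a3_prime_inert ℓ hℓ hm
    have e1 : T ^ 3 - 1 = (T - 1) * ((T - z2_om) * (T - z2_om ^ 2)) := by
      linear_combination (T ^ 2 - T - T * (z2_om - 1)) * hsum + (1 - T + T) * hcube
    rw [e1] at h1
    rcases hp.dvd_or_dvd h1 with h5 | h5
    · exact ⟨1, z2_mem_C3.2 (Or.inl rfl), fun h => by omega, fun _ => h5⟩
    · rcases hp.dvd_or_dvd h5 with h6 | h6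
      · exact ⟨z2_om, z2_mem_C3.2 (Or.inr (Or.inl rfl)), fun h => by omega, fun _ => h6⟩
      · exact ⟨z2_om ^ 2, z2_mem_C3.2 (Or.inr (Or.inr rfl)), fun h => by omega, fun _ => h6⟩

theorem kap_eq {ℓ : ℕ} (hℓ : ℓ.Prime) (h3 : ℓ ≠ 3) {a e : Eis}
    (ha : IsCoprime a (ℓ : Eis)) (he : e ∈ C3) (h : IsCub ℓ a e) : kap ℓ a = emb e := by
  have hex : IsCoprime a (ℓ : Eis) ∧ ∃ e ∈ C3, IsCub ℓ a e := ⟨ha, e, he, h⟩
  unfold kap
  rw [dif_pos hex]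
  congr 1
  exact isCub_unique hℓ h3 ha hex.2.choose_spec.1 he hex.2.choose_spec.2 h

theorem kap_zero {ℓ : ℕ} {a : Eis} (ha : ¬ IsCoprime a (ℓ : Eis)) : kap ℓ a = 0 := by
  unfold kap
  rw [dif_neg (fun h => ha h.1)]

theorem kap_mul {ℓ : ℕ} (hℓ : ℓ.Prime) (h3 : ℓ ≠ 3) (a b : Eis) :
    kap ℓ (a * b) = kap ℓ a * kap ℓ b := by
  by_cases ha : IsCoprime a (ℓ : Eis)
  swap
  · rw [kap_zero ha, zero_mul, kap_zero (fun h => ha h.of_mul_left_left)]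
  by_cases hb : IsCoprime b (ℓ : Eis)
  swap
  · rw [kap_zero hb, mul_zero, kap_zero (fun h => hb h.of_mul_left_right)]
  obtain ⟨e, he, h1⟩ := isCub_exists hℓ h3 ha
  obtain ⟨f, hf, h2⟩ := isCub_exists hℓ h3 hb
  rw [kap_eq hℓ h3 ha he h1, kap_eq hℓ h3 hb hf h2, ← map_mul]
  refine kap_eq hℓ h3 (ha.mul_left hb) (z2_C3_mul he hf) ⟨fun hm => ?_, fun hm => ?_⟩
  · have h4 := h1.1 hm
    have h5 := h2.1 hm
    have e1 : (a * b) ^ ((ℓ - 1) / 3) - e * f * star (a * b) ^ ((ℓ - 1) / 3) =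
        (a ^ ((ℓ - 1) / 3) - e * star a ^ ((ℓ - 1) / 3)) * b ^ ((ℓ - 1) / 3) +
          e * star a ^ ((ℓ - 1) / 3) *
            (b ^ ((ℓ - 1) / 3) - f * star b ^ ((ℓ - 1) / 3)) := by
      rw [star_mul', mul_pow, mul_pow]
      ring
    rw [e1]
    exact dvd_add (dvd_mul_of_dvd_left h4 _) (dvd_mul_of_dvd_right h5 _)
  · have h4 := h1.2 hm
    have h5 := h2.2 hm
    have e1 : (a * b) ^ ((ℓ ^ 2 - 1) / 3) - e * f =
        (a ^ ((ℓ ^ 2 - 1) / 3) - e) * b ^ ((ℓ ^ 2 - 1) / 3) +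
          e * (b ^ ((ℓ ^ 2 - 1) / 3) - f) := by
      rw [mul_pow]
      ring
    rw [e1]
    exact dvd_add (dvd_mul_of_dvd_left h4 _) (dvd_mul_of_dvd_right h5 _)

theorem kap_per {ℓ : ℕ} (hℓ : ℓ.Prime) (h3 : ℓ ≠ 3) (a b : Eis) :
    kap ℓ (a + (ℓ : Eis) * b) = kap ℓ a := by
  have hiff : IsCoprime (a + (ℓ : Eis) * b) (ℓ : Eis) ↔ IsCoprime a (ℓ : Eis) :=
    IsCoprime.add_mul_left_left_iff
  by_cases ha : IsCoprime a (ℓ : Eis)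
  swap
  · rw [kap_zero ha, kap_zero (fun h => ha (hiff.1 h))]
  obtain ⟨e, he, h1⟩ := isCub_exists hℓ h3 ha
  rw [kap_eq hℓ h3 ha he h1]
  have hd : ∀ n : ℕ, (ℓ : Eis) ∣ (a + (ℓ : Eis) * b) ^ n - a ^ n := fun n => by
    refine dvd_trans ?_ (sub_dvd_pow_sub_pow _ _ _)
    rw [add_sub_cancel_left]
    exact dvd_mul_right _ _
  have hd' : ∀ n : ℕ, (ℓ : Eis) ∣ star (a + (ℓ : Eis) * b) ^ n - star a ^ n := fun n => by
    have := z2_dvd_star (hd n)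
    rwa [star_sub, star_pow, star_pow] at this
  refine kap_eq hℓ h3 (hiff.2 ha) he ⟨fun hm => ?_, fun hm => ?_⟩
  · have e1 : (a + (ℓ : Eis) * b) ^ ((ℓ - 1) / 3) -
        e * star (a + (ℓ : Eis) * b) ^ ((ℓ - 1) / 3) =
        ((a + (ℓ : Eis) * b) ^ ((ℓ - 1) / 3) - a ^ ((ℓ - 1) / 3)) -
          e * (star (a + (ℓ : Eis) * b) ^ ((ℓ - 1) / 3) - star a ^ ((ℓ - 1) / 3)) +
          (a ^ ((ℓ - 1) / 3) - e * star a ^ ((ℓ - 1) / 3)) := by ring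
    rw [e1]
    exact dvd_add (dvd_sub (hd _) (dvd_mul_of_dvd_right (hd' _) _)) (h1.1 hm)
  · have e1 : (a + (ℓ : Eis) * b) ^ ((ℓ ^ 2 - 1) / 3) - e =
        ((a + (ℓ : Eis) * b) ^ ((ℓ ^ 2 - 1) / 3) - a ^ ((ℓ ^ 2 - 1) / 3)) +
          (a ^ ((ℓ ^ 2 - 1) / 3) - e) := by ring
    rw [e1]
    exact dvd_add (hd _) (h1.2 hm)

/-- rational integers are cubes -/
theorem kap_int {ℓ : ℕ} (hℓ : ℓ.Prime) (h3 : ℓ ≠ 3) (n : ℤ) (hn : ¬ (ℓ : ℤ) ∣ n) :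
    kap ℓ (n : Eis) = 1 := by
  have hpp : Prime (ℓ : ℤ) := Nat.prime_iff_prime_int.1 hℓ
  have hco : IsCoprime n (ℓ : ℤ) := ((Prime.coprime_iff_not_dvd hpp).2 hn).symm
  have hco' : IsCoprime (n : Eis) (ℓ : Eis) := by
    have := (i4_coprime_int n (ℓ : ℤ)).2 hco
    rwa [Int.cast_natCast] at this
  have h1 : kap ℓ (n : Eis) = emb 1 := by
    refine kap_eq hℓ h3 hco' (z2_mem_C3.2 (Or.inl rfl)) ⟨fun hm => ?_, fun hm => ?_⟩
    · rw [z2_star_int, one_mul, sub_self]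
      exact dvd_zero _
    · have h4 : (ℓ : ℤ) ∣ n ^ (ℓ - 1) - 1 := by
        have h5 := z2_fermat hℓ n
        have h6 : n ^ ℓ - n = n * (n ^ (ℓ - 1) - 1) := by
          rw [mul_sub, mul_one, ← pow_succ', Nat.sub_add_cancel hℓ.one_le]
        rw [h6] at h5
        exact hco.symm.dvd_of_dvd_mul_left h5
      have h7 : (ℓ ^ 2 - 1) / 3 = (ℓ - 1) * ((ℓ + 1) / 3) := by
        obtain ⟨j, hj⟩ : ∃ j, ℓ = 3 * j + 2 := ⟨ℓ / 3, by omega⟩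
        subst hj
        have e1 : (3 * j + 2 + 1) / 3 = j + 1 := by omega
        have e2 : (3 * j + 2) ^ 2 - 1 = 3 * ((3 * j + 1) * (j + 1)) := by
          have : (3 * j + 2) ^ 2 = 3 * ((3 * j + 1) * (j + 1)) + 1 := by ring
          omega
        rw [e1, e2, Nat.mul_div_cancel_left _ (by norm_num)]
        rfl
      have h8 : (ℓ : ℤ) ∣ n ^ ((ℓ ^ 2 - 1) / 3) - 1 := by
        rw [h7, pow_mul]
        refine h4.trans ?_
        have := sub_dvd_pow_sub_pow (n ^ (ℓ - 1)) 1 ((ℓ + 1) / 3)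
        rwa [one_pow] at this
      have h9 := z2_cast_dvd h8
      push_cast at h9
      exact h9
  rw [h1, map_one]

theorem kap_star {ℓ : ℕ} (hℓ : ℓ.Prime) (h3 : ℓ ≠ 3) (a : Eis) :
    kap ℓ (star a) = conj (kap ℓ a) := by
  by_cases ha : IsCoprime a (ℓ : Eis)
  swap
  · rw [kap_zero ha, map_zero, kap_zero (fun h => ha ?_)]
    have := z2_coprime_star h
    rwa [star_star] at this
  obtain ⟨e, he, h1⟩ := isCub_exists hℓ h3 ha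
  rw [kap_eq hℓ h3 ha he h1, ← emb_star]
  refine kap_eq hℓ h3 (z2_coprime_star ha) (z2_C3_star he) ⟨fun hm => ?_, fun hm => ?_⟩
  · have := z2_dvd_star (h1.1 hm)
    rwa [star_sub, star_mul', star_pow, star_pow] at this
  · have := z2_dvd_star (h1.2 hm)
    rwa [star_sub, star_pow] at this

theorem kap_cube {ℓ : ℕ} (hℓ : ℓ.Prime) (h3 : ℓ ≠ 3) {a : Eis} (ha : IsCoprime a (ℓ : Eis)) :
    kap ℓ a ^ 3 = 1 := by
  obtain ⟨e, he, h1⟩ := isCub_exists hℓ h3 ha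
  rw [kap_eq hℓ h3 ha he h1, ← map_pow, z2_C3_cube he, map_one]

theorem kap_omega {ℓ : ℕ} (hℓ : ℓ.Prime) (h3 : ℓ ≠ 3) :
    kap ℓ (⟨0, 1⟩ : Eis) = w ^ ((ℓ ^ 2 - 1) / 3) := by
  change kap ℓ z2_om = _
  have hw : emb z2_om = w := by
    rw [emb_apply]
    simp [z2_om]
  rw [← hw, ← map_pow]
  have hco : IsCoprime z2_om (ℓ : Eis) := by
    refine ⟨z2_om ^ 2, 0, ?_⟩
    rw [zero_mul, add_zero, ← pow_succ, z2_om_cube]
  refine kap_eq hℓ h3 hco (z2_om_mem _) ⟨fun hm => ?_, fun hm => ?_⟩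
  · obtain ⟨j, hj⟩ : ∃ j, ℓ = 3 * j + 1 := ⟨ℓ / 3, by omega⟩
    have e1 : (ℓ - 1) / 3 = j := by omega
    have e2 : (ℓ ^ 2 - 1) / 3 = j * (3 * j + 2) := by
      have : ℓ ^ 2 = 3 * (j * (3 * j + 2)) + 1 := by rw [hj]; ring
      omega
    rw [e1, e2, z2_star_om, ← pow_mul, ← pow_add]
    have e3 : j * (3 * j + 2) + 2 * j = j + 3 * (j * (j + 1)) := by ring
    rw [e3, pow_add, pow_mul z2_om 3, z2_om_cube, one_pow, mul_one, sub_self]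
    exact dvd_zero _
  · rw [sub_self]
    exact dvd_zero _

end BS3
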