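import Pool.Agent.MP_ae0bd0_nt.B3.ZDefs
import Pool.Agent.MP_ae0bd0_nt.B3.Z2
import Pool.Agent.MP_ae0bd0_nt.CM.B3
import Pool.Agent.MP_ae0bd0_nt.CM.I4

set_option autoImplicit false

open scoped ComplexConjugate
open CM27

namespace BS3

/-! ## [BS3-Z3] cubic reciprocity for split rational primes (file Z3.lean) -/

theorem z3_sum_pow {R ι : Type*} [CommRing R] (s : Finset ι) (f : ι → R) {ℓ : ℕ}
    (hℓ : ℓ.Prime) : ∃ r, (∑ i ∈ s, f i) ^ ℓ = ∑ i ∈ s, f i ^ ℓ + (ℓ : R) * r := by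
  classical
  induction s using Finset.induction_on with
  | empty => exact ⟨0, by simp [hℓ.ne_zero]⟩
  | insert a s ha ih =>
    obtain ⟨r, hr⟩ := ih
    obtain ⟨r', hr'⟩ := exists_add_pow_prime_eq hℓ (f a) (∑ i ∈ s, f i)
    rw [Finset.sum_insert ha, Finset.sum_insert ha, hr', hr]
    exact ⟨r + f a * (∑ i ∈ s, f i) * r', by ring⟩

/-- the same for algebraic integers -/
theorem z3_sum_pow_int {ι : Type*} (s : Finset ι) (f : ι → ℂ) (hf : ∀ i, IsIntegral ℤ (f i))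
    {ℓ : ℕ} (hℓ : ℓ.Prime) :
    ∃ r, IsIntegral ℤ r ∧ (∑ i ∈ s, f i) ^ ℓ = ∑ i ∈ s, f i ^ ℓ + (ℓ : ℂ) * r := by
  let f' : ι → integralClosure ℤ ℂ := fun i => ⟨f i, hf i⟩
  obtain ⟨r, hr⟩ := z3_sum_pow s f' hℓ
  refine ⟨(r : ℂ), r.2, ?_⟩
  have h := congrArg (fun x : integralClosure ℤ ℂ => (x : ℂ)) hr
  simpa [f'] using h

/-- a primitive additive character -/
theorem z3_psi (F : Type) [Field F] [Fintype F] : ∃ ψ : AddChar F ℂ, ψ.IsPrimitive := by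
  have hp : Fact (ringChar F).Prime := ⟨CharP.char_is_prime F _⟩
  let _ : Algebra (ZMod (ringChar F)) F := ZMod.algebra _ _
  let ψ' := (ZMod.stdAddChar (N := ringChar F)).compAddMonoidHom
    (Algebra.trace (ZMod (ringChar F)) F).toAddMonoidHom
  have hψ' : ψ' ≠ 1 := by
    obtain ⟨a, ha⟩ := FiniteField.trace_to_zmod_nondegenerate F (one_ne_zero (α := F))
    rw [one_mul] at ha
    refine AddChar.ne_one_iff.2 ⟨a, fun hf => ha ?_⟩
    apply ZMod.injective_stdAddChar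
    rw [AddChar.map_zero_eq_one]
    exact hf
  exact ⟨ψ', AddChar.IsPrimitive.of_ne_one hψ'⟩

theorem z3_integral_chi {F : Type} [Field F] [Fintype F] {χ : MulChar F ℂ} (hχ : χ ^ 3 = 1)
    (a : F) : IsIntegral ℤ (χ a) := by
  by_cases ha : a = 0
  · rw [ha, MulChar.map_zero]; exact isIntegral_zero
  · refine IsIntegral.of_pow (n := 3) (by norm_num) ?_
    rw [← MulChar.pow_apply' _ (by norm_num), hχ, MulChar.one_apply (isUnit_iff_ne_zero.2 ha)]
    exact isIntegral_one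

theorem z3_integral_psi {F : Type} [Field F] [Fintype F] (ψ : AddChar F ℂ) (a : F) :
    IsIntegral ℤ (ψ a) := by
  have hp : 0 < ringChar F := Nat.pos_of_ne_zero (CharP.ringChar_ne_zero_of_finite F)
  refine IsIntegral.of_pow hp ?_
  rw [← AddChar.map_nsmul_eq_pow, nsmul_eq_mul, CharP.cast_eq_zero, zero_mul,
    AddChar.map_zero_eq_one]
  exact isIntegral_one

theorem z3_integral_gauss {F : Type} [Field F] [Fintype F] {χ : MulChar F ℂ} (hχ : χ ^ 3 = 1)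
    (ψ : AddChar F ℂ) : IsIntegral ℤ (gaussSum χ ψ) :=
  IsIntegral.sum _ fun a _ => (z3_integral_chi hχ a).mul (z3_integral_psi ψ a)

/-- `χ(ℓ) g^ℓ ≡ g(χ^ℓ)` -/
theorem z3_frob {F : Type} [Field F] [Fintype F] {χ : MulChar F ℂ} (hχ : χ ^ 3 = 1)
    (ψ : AddChar F ℂ) {ℓ : ℕ} (hℓ : ℓ.Prime) (h1 : ℓ % 3 = 1) (h0 : (ℓ : F) ≠ 0) :
    ∃ r, IsIntegral ℤ r ∧ χ (ℓ : F) * gaussSum χ ψ ^ ℓ = gaussSum χ ψ + (ℓ : ℂ) * r := by
  obtain ⟨r, hr, hr'⟩ := z3_sum_pow_int Finset.univ (fun a : F => χ a * ψ a)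
    (fun a => (z3_integral_chi hχ a).mul (z3_integral_psi ψ a)) hℓ
  have hχℓ : χ ^ ℓ = χ := by
    have : ℓ = 3 * (ℓ / 3) + 1 := by omega
    rw [this, pow_succ, pow_mul, hχ, one_pow, one_mul]
  refine ⟨χ (ℓ : F) * r, (z3_integral_chi hχ _).mul hr, ?_⟩
  have h2 : ∑ a : F, (χ a * ψ a) ^ ℓ = gaussSum χ (AddChar.mulShift ψ (ℓ : F)) := by
    unfold gaussSum
    refine Finset.sum_congr rfl fun a _ => ?_
    rw [mul_pow, ← MulChar.pow_apply' _ hℓ.ne_zero, hχℓ, ← AddChar.map_nsmul_eq_pow,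
      nsmul_eq_mul, AddChar.mulShift_apply]
  have h3 := gaussSum_mulShift χ ψ (Units.mk0 (ℓ : F) h0)
  rw [Units.val_mk0] at h3
  have h4 : gaussSum χ ψ ^ ℓ = gaussSum χ (AddChar.mulShift ψ (ℓ : F)) + (ℓ : ℂ) * r := by
    rw [← h2]; exact hr'
  rw [h4, mul_add, h3]
  ring

theorem z3_mul_star (b : Eis) : b * star b = ((b.norm : ℤ) : Eis) := i4_mul_star b

theorem z3_emb_int (n : ℤ) : emb (n : Eis) = n := map_intCast emb n

theorem z3_emb_nat (n : ℕ) : emb (n : Eis) = n := map_natCast emb n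

theorem z3_rat_int {a : ℤ} {n : ℕ} (hn : n ≠ 0) (h : IsIntegral ℤ ((a : ℂ) / n)) :
    (n : ℤ) ∣ a := by
  have h1 : ((a : ℂ) / n) = algebraMap ℚ ℂ ((a : ℚ) / n) := by simp
  rw [h1, isIntegral_algebraMap_iff (algebraMap ℚ ℂ).injective] at h
  obtain ⟨y, hy⟩ := IsIntegrallyClosed.isIntegral_iff.1 h
  refine ⟨y, ?_⟩
  have hn' : (n : ℚ) ≠ 0 := by exact_mod_cast hn
  have h2 : (y : ℚ) = (a : ℚ) / n := by simpa using hy
  rw [eq_div_iff hn'] at h2
  have h3 : ((n : ℤ) * y : ℤ) = (a : ℤ) := by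
    have : (((n : ℤ) * y : ℤ) : ℚ) = ((a : ℤ) : ℚ) := by
      push_cast
      linarith
    exact_mod_cast this
  exact h3.symm

theorem z3_trace (c : Eis) : emb c + conj (emb c) = ((2 * c.re - c.im : ℤ) : ℂ) := by
  apply Complex.ext
  · rw [Complex.add_re, Complex.conj_re, emb_re, Complex.intCast_re]
    push_cast
    ring
  · rw [Complex.add_im, Complex.conj_im, emb_im, Complex.intCast_im]
    ring

/-- `emb c = ℓ r` with `r` an algebraic integer implies `ℓ ∣ c`. -/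
theorem z3_dvd {ℓ : ℕ} (hℓ : ℓ.Prime) (h3 : ℓ ≠ 3) (c : Eis) (r : ℂ) (hr : IsIntegral ℤ r)
    (h : emb c = (ℓ : ℂ) * r) : (ℓ : Eis) ∣ c := by
  have hℓ0 : (ℓ : ℂ) ≠ 0 := by exact_mod_cast hℓ.ne_zero
  have key : ∀ (c : Eis) (r : ℂ), IsIntegral ℤ r → emb c = (ℓ : ℂ) * r →
      (ℓ : ℤ) ∣ 2 * c.re - c.im := by
    intro c r hr h
    apply z3_rat_int hℓ.ne_zero
    rw [← z3_trace, h]
    have h2 : ((ℓ : ℂ) * r + conj ((ℓ : ℂ) * r)) / ℓ = r + conj r := by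
      rw [map_mul, Complex.conj_natCast]
      field_simp
    rw [h2]
    exact hr.add (hr.map (starRingEnd ℂ).toIntAlgHom)
  have h1 := key c r hr h
  have hwint : IsIntegral ℤ w := by
    refine IsIntegral.of_pow (n := 3) (by norm_num) ?_
    rw [b3_w_cube]; exact isIntegral_one
  have h2 := key ((⟨0, 1⟩ : Eis) * c) (w * r) (hwint.mul hr) (by
    rw [map_mul, h, emb_apply]
    push_cast
    ring)
  simp only [QuadraticAlgebra.re_mul, QuadraticAlgebra.im_mul] at h2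
  have hpp : Prime (ℓ : ℤ) := Nat.prime_iff_prime_int.1 hℓ
  have h4 : (ℓ : ℤ) ∣ 3 * c.re := by
    have := dvd_sub h1 h2
    have e : 2 * c.re - c.im - (2 * (0 * c.re + (-1) * 1 * c.im) - (0 * c.im + 1 * c.re +
      (-1) * 1 * c.im)) = 3 * c.re := by ring
    rwa [e] at this
  have h5 : (ℓ : ℤ) ∣ c.re := by
    rcases hpp.dvd_or_dvd h4 with h | h
    · exfalso
      have : ℓ ∣ 3 := by exact_mod_cast h
      exact h3 ((Nat.prime_dvd_prime_iff_eq hℓ Nat.prime_three).1 this)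
    · exact h
  have h6 : (ℓ : ℤ) ∣ c.im := by
    have := dvd_sub (dvd_mul_of_dvd_right h5 2) h1
    rwa [show 2 * c.re - (2 * c.re - c.im) = c.im by ring] at this
  obtain ⟨x, hx⟩ := h5
  obtain ⟨y, hy⟩ := h6
  refine ⟨⟨x, y⟩, ?_⟩
  ext
  · simp [hx]
  · simp [hy]

theorem z3_star_dvd {ℓ : ℕ} {c : Eis} (h : (ℓ : Eis) ∣ c) : (ℓ : Eis) ∣ star c := by
  obtain ⟨d, rfl⟩ := h
  refine ⟨star d, ?_⟩
  rw [star_mul, star_natCast, mul_comm]

theorem z3_C3_of_cube {z : ℂ} (hz : z ^ 3 = 1) : ∃ e ∈ C3, emb e = z ∧ e ^ 3 = 1 ∧ star e = e ^ 2 := by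
  have h : (z - 1) * ((z - w) * (z - w ^ 2)) = 0 := by
    have h1 := w_sq
    have h2 := b3_w_cube
    linear_combination hz - z ^ 2 * h1 + z * h1 + (z - 1) * (h2 ) 
  rcases mul_eq_zero.1 h with h | h
  · refine ⟨⟨1, 0⟩, by simp [C3], ?_, ?_, ?_⟩
    · rw [emb_apply]; push_cast; linear_combination -h
    · decide
    · decide
  rcases mul_eq_zero.1 h with h | h
  · refine ⟨⟨0, 1⟩, by simp [C3], ?_, ?_, ?_⟩
    · rw [emb_apply]; push_cast; linear_combination -h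
    · decide
    · decide
  · refine ⟨⟨-1, -1⟩, by simp [C3], ?_, ?_, ?_⟩
    · rw [emb_apply]; push_cast; linear_combination -h - w_sq
    · decide
    · decide

/-- Let `χ` be a cubic character of the finite field `F` with Jacobi sum `-b`. Then
`χ(ℓ) = (b / ℓ)_3` for the rational primes `ℓ ≡ 1 mod 3` prime to the characteristic. -/
theorem recip_split (F : Type) [Field F] [Fintype F] (h : Nat.card F % 3 = 1) (χ : MulChar F ℂ)
    (hχ : orderOf χ = 3) (b : Eis) (hb : Primary b) (hbn : b.norm = Nat.card F)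
    (hJ : jacobiSum χ χ = - emb b) (ℓ : ℕ) (hℓ : ℓ.Prime) (h1 : ℓ % 3 = 1)
    (h0 : (ℓ : F) ≠ 0) : χ (ℓ : F) = kap ℓ b := by
  have h3 : ℓ ≠ 3 := by rintro rfl; norm_num at h1
  have hχ3 : χ ^ 3 = 1 := by rw [← hχ]; exact pow_orderOf_eq_one χ
  have hχ1 : χ ≠ 1 := by
    rintro rfl
    rw [orderOf_one] at hχ
    norm_num at hχ
  obtain ⟨ψ, hψ⟩ := z3_psi F
  set g := gaussSum χ ψ with hg
  -- `g ^ 3`
  have hg3 : g ^ 3 = - ((Fintype.card F : ℂ) * emb b) := by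
    have h2 := gaussSum_pow_eq_prod_jacobiSum (χ := χ) (ψ := ψ) (by rw [hχ]; norm_num) hψ
    rw [hχ] at h2
    have h4 : Finset.Ico 1 (3 - 1) = {1} := rfl
    rw [h4, Finset.prod_singleton, pow_one, hJ] at h2
    have h5 : χ (-1) = 1 := by
      have h6 : χ (-1) ^ 3 = 1 := by
        rw [← MulChar.pow_apply' _ (by norm_num), hχ3, MulChar.one_apply (isUnit_one.neg)]
      rw [← map_pow] at h6
      have h7 : (-1 : F) ^ 3 = -1 := by ring
      rwa [h7] at h6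
    rw [hg, h2, h5]
    ring
  -- inverse Gauss sum
  have hgg := gaussSum_mul_gaussSum_eq_card hχ1 hψ
  rw [← hg] at hgg
  have hg' : IsIntegral ℤ (gaussSum χ⁻¹ ψ⁻¹) :=
    z3_integral_gauss (by rw [inv_pow, hχ3, inv_one]) _
  have hgint : IsIntegral ℤ g := z3_integral_gauss hχ3 ψ
  -- `q` is prime to `ℓ`
  have hcop : IsCoprime ((Nat.card F : ℕ) : ℤ) (ℓ : ℤ) := by
    rw [Nat.isCoprime_iff_coprime, Nat.coprime_comm, Nat.Prime.coprime_iff_not_dvd hℓ]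
    intro hd
    apply h0
    -- `ℓ ∣ q` implies `ℓ = char`
    have hp : (ringChar F).Prime := CharP.char_is_prime F _
    obtain ⟨n, -, hn⟩ := FiniteField.card F (ringChar F)
    rw [Nat.card_eq_fintype_card, hn] at hd
    have h5 : ℓ ∣ ringChar F := hℓ.dvd_of_dvd_pow hd
    have h6 : ℓ = ringChar F := (Nat.prime_dvd_prime_iff_eq hℓ hp).1 h5
    rw [h6]
    exact CharP.cast_eq_zero F _
  obtain ⟨m, n, hmn⟩ := hcop
  -- Frobenius
  obtain ⟨r, hr, hfr⟩ := z3_frob hχ3 ψ hℓ h1 h0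
  rw [← hg] at hfr
  have hχint := z3_integral_chi hχ3 (ℓ : F)
  have hstep : ∃ r, IsIntegral ℤ r ∧ χ (ℓ : F) * g ^ (ℓ - 1) = 1 + (ℓ : ℂ) * r := by
    have h5 : g ^ ℓ = g ^ (ℓ - 1) * g := by
      rw [← pow_succ, Nat.sub_add_cancel hℓ.one_lt.le]
    have h6 : (m : ℂ) * (Fintype.card F : ℂ) + n * (ℓ : ℂ) = 1 := by
      have := hmn
      rw [Nat.card_eq_fintype_card] at this
      exact_mod_cast this
    refine ⟨(n : ℂ) * (χ (ℓ : F) * g ^ (ℓ - 1) - 1) + m * (r * gaussSum χ⁻¹ ψ⁻¹), ?_, ?_⟩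
    · have hm : IsIntegral ℤ (m : ℂ) := isIntegral_algebraMap (R := ℤ) (x := m)
      have hn : IsIntegral ℤ (n : ℂ) := isIntegral_algebraMap (R := ℤ) (x := n)
      exact (hn.mul ((hχint.mul (hgint.pow _)).sub isIntegral_one)).add
        (hm.mul (hr.mul hg'))
    · rw [h5] at hfr
      linear_combination (-(χ (ℓ : F) * g ^ (ℓ - 1)) + 1) * h6 +
        (m : ℂ) * gaussSum χ⁻¹ ψ⁻¹ * hfr - (m : ℂ) * (χ (ℓ : F) * g ^ (ℓ - 1) - 1) * hgg
  obtain ⟨r₁, hr₁, h7⟩ := hstep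
  -- exponent
  set k := (ℓ - 1) / 3 with hk
  have hk3 : ℓ - 1 = 3 * k := by omega
  have hkeven : Even k := by
    have h8 : ℓ ≠ 2 := by rintro rfl; norm_num at h1
    have h9 : ℓ % 2 = 1 := hℓ.eq_two_or_odd.resolve_left h8
    rw [Nat.even_iff]
    omega
  have hqe : (Fintype.card F : ℂ) = emb (b * star b) := by
    rw [z3_mul_star, z3_emb_int, hbn, Nat.card_eq_fintype_card]
    simp
  rw [hk3, pow_mul, hg3, hkeven.neg_pow, hqe, ← map_mul, ← map_pow] at h7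
  have hχℓ3 : χ (ℓ : F) ^ 3 = 1 := by
    rw [← MulChar.pow_apply' _ (by norm_num), hχ3, MulChar.one_apply (isUnit_iff_ne_zero.2 h0)]
  obtain ⟨e, heC, he, he3, hes⟩ := z3_C3_of_cube hχℓ3
  have hdiv : (ℓ : Eis) ∣ e * (b * star b * b) ^ k - 1 := by
    refine z3_dvd hℓ h3 _ r₁ hr₁ ?_
    rw [map_sub, map_mul, he, map_one, h7]
    ring
  have hdiv2 := z3_star_dvd hdiv
  rw [star_sub, star_mul, star_one, star_pow, star_mul, star_mul, star_star, hes] at hdiv2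
  have hcopb : IsCoprime (b * star b) (ℓ : Eis) := by
    rw [z3_mul_star, hbn]
    refine ⟨(m : Eis), (n : Eis), ?_⟩
    exact_mod_cast congrArg (fun z : ℤ => (z : Eis)) hmn
  have hfin : (ℓ : Eis) ∣ b ^ k - e * star b ^ k := by
    have h8 := dvd_sub hdiv hdiv2
    have h9 : e * (b * star b * b) ^ k - 1 - ((star b * (b * star b)) ^ k * e ^ 2 - 1) =
        (e * (b * star b) ^ k) * (b ^ k - e * star b ^ k) := by
      rw [mul_pow (b * star b) b, mul_pow (star b)]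
      ring
    rw [h9] at h8
    have hcope : IsCoprime (ℓ : Eis) (e * (b * star b) ^ k) := by
      refine IsCoprime.mul_right ?_ (hcopb.symm.pow_right)
      exact ⟨0, e ^ 2, by linear_combination he3⟩
    exact hcope.dvd_of_dvd_mul_left h8
  have hcopb' : IsCoprime b (ℓ : Eis) := hcopb.of_mul_left_left
  rw [kap_eq hℓ h3 hcopb' heC ⟨fun _ => hfin, fun h2 => by omega⟩, he]

end BS3
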