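import Pool.Agent.MP_ae0bd0_nt.B3.Z3

set_option autoImplicit false

open scoped ComplexConjugate
open CM27

namespace BS3

/-! ## [BS3-Z4] cubic reciprocity for inert rational primes (file Z4.lean) -/

theorem z4_add_pow {R : Type*} [CommRing R] {ℓ : ℕ} (hℓ : ℓ.Prime) (x y : R) :
    ∃ r, (x + (ℓ : R) * y) ^ ℓ = x ^ ℓ + (ℓ : R) * r := by
  obtain ⟨r', hr'⟩ := exists_add_pow_prime_eq hℓ x ((ℓ : R) * y)
  obtain ⟨k, hk⟩ : ∃ k, ℓ = k + 1 := ⟨ℓ - 1, by have := hℓ.one_lt; omega⟩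
  have h1 : ((ℓ : R) * y) ^ ℓ = (ℓ : R) * (y * ((ℓ : R) * y) ^ k) := by
    have h2 : ∀ z : R, z ^ ℓ = z ^ k * z := fun z => by rw [hk, pow_succ]
    rw [h2]
    ring
  refine ⟨y * ((ℓ : R) * y) ^ k + x * ((ℓ : R) * y) * r', ?_⟩
  rw [hr', h1]
  ring

theorem z4_sum_pow {R ι : Type*} [CommRing R] (s : Finset ι) (f : ι → R) {ℓ : ℕ}
    (hℓ : ℓ.Prime) : ∃ r, (∑ i ∈ s, f i) ^ ℓ ^ 2 = ∑ i ∈ s, f i ^ ℓ ^ 2 + (ℓ : R) * r := by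
  obtain ⟨r1, h1⟩ := z3_sum_pow s f hℓ
  obtain ⟨r2, h2⟩ := z3_sum_pow s (fun i => f i ^ ℓ) hℓ
  obtain ⟨r3, h3⟩ := z4_add_pow hℓ (∑ i ∈ s, f i ^ ℓ) r1
  refine ⟨r2 + r3, ?_⟩
  rw [pow_two, pow_mul, h1, h3, h2]
  have h4 : ∀ i, (f i ^ ℓ) ^ ℓ = f i ^ (ℓ * ℓ) := fun i => (pow_mul _ _ _).symm
  simp only [h4]
  ring

/-- the same for algebraic integers -/
theorem z4_sum_pow_int {ι : Type*} (s : Finset ι) (f : ι → ℂ) (hf : ∀ i, IsIntegral ℤ (f i))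
    {ℓ : ℕ} (hℓ : ℓ.Prime) :
    ∃ r, IsIntegral ℤ r ∧ (∑ i ∈ s, f i) ^ ℓ ^ 2 = ∑ i ∈ s, f i ^ ℓ ^ 2 + (ℓ : ℂ) * r := by
  let f' : ι → integralClosure ℤ ℂ := fun i => ⟨f i, hf i⟩
  obtain ⟨r, hr⟩ := z4_sum_pow s f' hℓ
  refine ⟨(r : ℂ), r.2, ?_⟩
  have h := congrArg (fun x : integralClosure ℤ ℂ => (x : ℂ)) hr
  simpa [f'] using h

/-- `χ(ℓ)^2 g^(ℓ^2) ≡ g` -/
theorem z4_frob {F : Type} [Field F] [Fintype F] {χ : MulChar F ℂ} (hχ : χ ^ 3 = 1)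
    (ψ : AddChar F ℂ) {ℓ : ℕ} (hℓ : ℓ.Prime) (h1 : ℓ % 3 = 2) (h0 : (ℓ : F) ≠ 0) :
    ∃ r, IsIntegral ℤ r ∧
      χ (ℓ : F) ^ 2 * gaussSum χ ψ ^ ℓ ^ 2 = gaussSum χ ψ + (ℓ : ℂ) * r := by
  obtain ⟨r, hr, hr'⟩ := z4_sum_pow_int Finset.univ (fun a : F => χ a * ψ a)
    (fun a => (z3_integral_chi hχ a).mul (z3_integral_psi ψ a)) hℓ
  have hmod : ℓ ^ 2 % 3 = 1 := by rw [Nat.pow_mod, h1]
  have hχℓ : χ ^ ℓ ^ 2 = χ := by
    have : ℓ ^ 2 = 3 * (ℓ ^ 2 / 3) + 1 := by omega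
    rw [this, pow_succ, pow_mul, hχ, one_pow, one_mul]
  have hℓ2 : ℓ ^ 2 ≠ 0 := pow_ne_zero 2 hℓ.ne_zero
  refine ⟨χ (ℓ : F) ^ 2 * r, ((z3_integral_chi hχ _).pow 2).mul hr, ?_⟩
  have h2 : ∑ a : F, (χ a * ψ a) ^ ℓ ^ 2 = gaussSum χ (AddChar.mulShift ψ ((ℓ : F) ^ 2)) := by
    unfold gaussSum
    refine Finset.sum_congr rfl fun a _ => ?_
    rw [mul_pow, ← MulChar.pow_apply' _ hℓ2, hχℓ, ← AddChar.map_nsmul_eq_pow,
      nsmul_eq_mul, AddChar.mulShift_apply]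
    push_cast
    rfl
  have h3 := gaussSum_mulShift χ ψ (Units.mk0 ((ℓ : F) ^ 2) (pow_ne_zero 2 h0))
  rw [Units.val_mk0, map_pow] at h3
  have h4 : gaussSum χ ψ ^ ℓ ^ 2 =
      gaussSum χ (AddChar.mulShift ψ ((ℓ : F) ^ 2)) + (ℓ : ℂ) * r := by
    rw [← h2]; exact hr'
  rw [h4, mul_add, h3]
  ring

/-- `χ(ℓ) = (b / ℓ)_3` for the rational primes `ℓ ≡ 2 mod 3` prime to the characteristic. -/
theorem recip_inert (F : Type) [Field F] [Fintype F] (h : Nat.card F % 3 = 1) (χ : MulChar F ℂ)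
    (hχ : orderOf χ = 3) (b : Eis) (hb : Primary b) (hbn : b.norm = Nat.card F)
    (hJ : jacobiSum χ χ = - emb b) (ℓ : ℕ) (hℓ : ℓ.Prime) (h1 : ℓ % 3 = 2)
    (h0 : (ℓ : F) ≠ 0) : χ (ℓ : F) = kap ℓ b := by
  have _ := h
  have _ := hb
  have h3 : ℓ ≠ 3 := by rintro rfl; norm_num at h1
  have hχ3 : χ ^ 3 = 1 := by rw [← hχ]; exact pow_orderOf_eq_one χ
  have hχ1 : χ ≠ 1 := by
    rintro rfl
    rw [orderOf_one] at hχ
    norm_num at hχ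
  obtain ⟨ψ, hψ⟩ := z3_psi F
  set g := gaussSum χ ψ with hg
  -- `g ^ 3`
  have hg3 : g ^ 3 = - ((Fintype.card F : ℂ) * emb b) := by
    have h2 := gaussSum_pow_eq_prod_jacobiSum (χ := χ) (ψ := ψ) (by rw [hχ]; norm_num) hψ
    rw [hχ] at h2
    have h4 : Finset.Ico 1 (3 - 1) = {1} := rfl
    rw [h4, Finset.prod_singleton, pow_one, hJ] at h2
    have h5 : χ (-1) = 1 := by
      have h6 : χ (-1) ^ 3 = 1 := by
        rw [← MulChar.pow_apply' _ (by norm_num), hχ3, MulChar.one_apply (isUnit_one.neg)]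
      rw [← map_pow] at h6
      have h7 : (-1 : F) ^ 3 = -1 := by ring
      rwa [h7] at h6
    rw [hg, h2, h5]
    ring
  -- inverse Gauss sum
  have hgg := gaussSum_mul_gaussSum_eq_card hχ1 hψ
  rw [← hg] at hgg
  have hg' : IsIntegral ℤ (gaussSum χ⁻¹ ψ⁻¹) :=
    z3_integral_gauss (by rw [inv_pow, hχ3, inv_one]) _
  have hgint : IsIntegral ℤ g := z3_integral_gauss hχ3 ψ
  -- `q` is prime to `ℓ`
  have hndvd : ¬ ℓ ∣ Nat.card F := by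
    intro hd
    apply h0
    have hp : (ringChar F).Prime := CharP.char_is_prime F _
    obtain ⟨n, -, hn⟩ := FiniteField.card F (ringChar F)
    rw [Nat.card_eq_fintype_card, hn] at hd
    have h5 : ℓ ∣ ringChar F := hℓ.dvd_of_dvd_pow hd
    have h6 : ℓ = ringChar F := (Nat.prime_dvd_prime_iff_eq hℓ hp).1 h5
    rw [h6]
    exact CharP.cast_eq_zero F _
  have hcop : IsCoprime ((Nat.card F : ℕ) : ℤ) (ℓ : ℤ) := by
    rw [Nat.isCoprime_iff_coprime, Nat.coprime_comm, Nat.Prime.coprime_iff_not_dvd hℓ]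
    exact hndvd
  obtain ⟨m, n, hmn⟩ := hcop
  -- Frobenius
  obtain ⟨r, hr, hfr⟩ := z4_frob hχ3 ψ hℓ h1 h0
  rw [← hg] at hfr
  have hχint := (z3_integral_chi hχ3 (ℓ : F)).pow 2
  have hpos : 1 ≤ ℓ ^ 2 := Nat.one_le_pow _ _ hℓ.pos
  have hstep : ∃ r, IsIntegral ℤ r ∧ χ (ℓ : F) ^ 2 * g ^ (ℓ ^ 2 - 1) = 1 + (ℓ : ℂ) * r := by
    have h5 : g ^ ℓ ^ 2 = g ^ (ℓ ^ 2 - 1) * g := by
      rw [← pow_succ, Nat.sub_add_cancel hpos]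
    have h6 : (m : ℂ) * (Fintype.card F : ℂ) + n * (ℓ : ℂ) = 1 := by
      have := hmn
      rw [Nat.card_eq_fintype_card] at this
      exact_mod_cast this
    refine ⟨(n : ℂ) * (χ (ℓ : F) ^ 2 * g ^ (ℓ ^ 2 - 1) - 1) + m * (r * gaussSum χ⁻¹ ψ⁻¹), ?_, ?_⟩
    · have hm : IsIntegral ℤ (m : ℂ) := isIntegral_algebraMap (R := ℤ) (x := m)
      have hn : IsIntegral ℤ (n : ℂ) := isIntegral_algebraMap (R := ℤ) (x := n)
      exact (hn.mul ((hχint.mul (hgint.pow _)).sub isIntegral_one)).add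
        (hm.mul (hr.mul hg'))
    · rw [h5] at hfr
      linear_combination (-(χ (ℓ : F) ^ 2 * g ^ (ℓ ^ 2 - 1)) + 1) * h6 +
        (m : ℂ) * gaussSum χ⁻¹ ψ⁻¹ * hfr - (m : ℂ) * (χ (ℓ : F) ^ 2 * g ^ (ℓ ^ 2 - 1) - 1) * hgg
  obtain ⟨r₁, hr₁, h7⟩ := hstep
  -- exponent
  have hmod : ℓ ^ 2 % 3 = 1 := by rw [Nat.pow_mod, h1]
  set k := (ℓ ^ 2 - 1) / 3 with hk
  have hk3 : ℓ ^ 2 - 1 = 3 * k := by omega
  have hqe : -((Fintype.card F : ℂ) * emb b) = emb (((-(Nat.card F : ℤ) : ℤ) : Eis) * b) := by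
    rw [map_mul, z3_emb_int, Nat.card_eq_fintype_card]
    push_cast
    ring
  rw [hk3, pow_mul, hg3, hqe, ← map_pow emb] at h7
  have hχℓ3 : χ (ℓ : F) ^ 3 = 1 := by
    rw [← MulChar.pow_apply' _ (by norm_num), hχ3, MulChar.one_apply (isUnit_iff_ne_zero.2 h0)]
  obtain ⟨e, heC, he, he3, hes⟩ := z3_C3_of_cube hχℓ3
  have hdiv : (ℓ : Eis) ∣ e ^ 2 * (((-(Nat.card F : ℤ) : ℤ) : Eis) * b) ^ k - 1 := by
    refine z3_dvd hℓ h3 _ r₁ hr₁ ?_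
    rw [map_sub, map_mul, map_pow emb e 2, he, map_one, h7]
    ring
  -- Fermat
  have hfer : (ℓ : Eis) ∣ ((-(Nat.card F : ℤ) : ℤ) : Eis) ^ k - 1 := by
    have h8 : (ℓ : ℤ) ∣ (-(Nat.card F : ℤ)) ^ k - 1 := by
      have : Fact ℓ.Prime := ⟨hℓ⟩
      rw [← ZMod.intCast_zmod_eq_zero_iff_dvd]
      push_cast
      have h9 : k = (ℓ - 1) * ((ℓ + 1) / 3) := by
        obtain ⟨j, hj⟩ : ∃ j, ℓ = 3 * j + 2 := ⟨ℓ / 3, by omega⟩
        have h10 : (ℓ + 1) / 3 = j + 1 := by omega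
        have h11 : ℓ - 1 = 3 * j + 1 := by omega
        rw [h10, h11]
        have h12 : ℓ ^ 2 = 3 * ((3 * j + 1) * (j + 1)) + 1 := by rw [hj]; ring
        omega
      have h10 : (-(Nat.card F : ZMod ℓ)) ≠ 0 := by
        rw [neg_ne_zero]
        intro h11
        exact hndvd ((ZMod.natCast_eq_zero_iff _ _).1 h11)
      rw [h9, pow_mul, ZMod.pow_card_sub_one_eq_one h10, one_pow, sub_self]
    have := z2_cast_dvd h8
    push_cast at this ⊢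
    exact this
  have hfin : (ℓ : Eis) ∣ b ^ k - e := by
    have h8 : b ^ k - e = e * (e ^ 2 * (((-(Nat.card F : ℤ) : ℤ) : Eis) * b) ^ k - 1) -
        b ^ k * (((-(Nat.card F : ℤ) : ℤ) : Eis) ^ k - 1) := by
      rw [mul_pow]
      linear_combination (-(((-(Nat.card F : ℤ) : ℤ) : Eis) ^ k * b ^ k)) * he3
    rw [h8]
    exact dvd_sub (hdiv.mul_left _) (hfer.mul_left _)
  have hcopb : IsCoprime (b * star b) (ℓ : Eis) := by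
    rw [z3_mul_star, hbn]
    refine ⟨(m : Eis), (n : Eis), ?_⟩
    exact_mod_cast congrArg (fun z : ℤ => (z : Eis)) hmn
  have hcopb' : IsCoprime b (ℓ : Eis) := hcopb.of_mul_left_left
  rw [kap_eq hℓ h3 hcopb' heC ⟨fun h2 => by omega, fun _ => hfin⟩, he]

end BS3
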