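import Pool.Agent.MP_ae0bd0_nt.B3.Defs

set_option autoImplicit false

open Polynomial NumberField IsDedekindDomain CM27
open scoped Classical

namespace BS3

/-! ## [BS3-P4] additive reduction of `y² = x³ - 16 b²`, `b` odd, at `2` (file P4.lean) -/

/-- The elementary contradiction in a domain in which `2` is prime and `3` is invertible. -/
theorem localPoly_two_aux (A : Type) [CommRing A] [IsDomain A] (h2 : Prime (2 : A)) (i3 : A)
    (h3 : 3 * i3 = 1) (b : ℤ) (hb : Odd b) (e a1 a3 a4 a6 r : A)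
    (h4 : 16 * e ^ 4 * a4 = 3 * r ^ 2 - 8 * e ^ 4 * a1 * a3)
    (h6 : 64 * e ^ 6 * a6 = -16 * (b : A) ^ 2 + r ^ 3 - 16 * e ^ 6 * a3 ^ 2) : False := by
  have h20 : (2 : A) ≠ 0 := h2.ne_zero
  have e1 : r ^ 2 = 8 * (i3 * (2 * e ^ 4 * a4 + e ^ 4 * a1 * a3)) := by
    linear_combination (-i3) * h4 + (-(r ^ 2)) * h3
  obtain ⟨r1, hr1⟩ : (2 : A) ∣ r := by
    apply h2.dvd_of_dvd_pow (n := 2)
    exact ⟨4 * (i3 * (2 * e ^ 4 * a4 + e ^ 4 * a1 * a3)), by rw [e1]; ring⟩
  have e2 : r1 ^ 2 = 2 * (i3 * (2 * e ^ 4 * a4 + e ^ 4 * a1 * a3)) := by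
    rw [hr1] at e1
    have e3 : (2 * 2 : A) * r1 ^ 2
        = (2 * 2 : A) * (2 * (i3 * (2 * e ^ 4 * a4 + e ^ 4 * a1 * a3))) := by
      linear_combination e1
    exact mul_left_cancel₀ (mul_ne_zero h20 h20) e3
  obtain ⟨r2, hr2⟩ : (2 : A) ∣ r1 := by
    apply h2.dvd_of_dvd_pow (n := 2)
    exact ⟨_, e2⟩
  have h16 : (2 * 2 * (2 * 2) : A) ≠ 0 :=
    mul_ne_zero (mul_ne_zero h20 h20) (mul_ne_zero h20 h20)
  have e4 : 4 * e ^ 6 * a6 = -(b : A) ^ 2 + 4 * r2 ^ 3 - (e ^ 3 * a3) ^ 2 := by
    apply mul_left_cancel₀ h16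
    rw [hr1, hr2] at h6
    linear_combination h6
  obtain ⟨k, hk⟩ := hb
  have hbk : (b : A) = 2 * (k : A) + 1 := by rw [hk]; push_cast; ring
  obtain ⟨w1, hw1⟩ : (2 : A) ∣ e ^ 3 * a3 + 1 := by
    apply h2.dvd_of_dvd_pow (n := 2)
    refine ⟨-2 * e ^ 6 * a6 - 2 * k ^ 2 - 2 * k + 2 * r2 ^ 3 + e ^ 3 * a3, ?_⟩
    rw [hbk] at e4
    linear_combination e4
  have hw : e ^ 3 * a3 = 2 * w1 - 1 := by linear_combination hw1
  rw [hw, hbk] at e4
  apply h2.not_unit
  refine IsUnit.of_mul_eq_one (-e ^ 6 * a6 - k ^ 2 - k + r2 ^ 3 - w1 ^ 2 + w1) ?_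
  have e5 : (2 : A) * (2 * (-e ^ 6 * a6 - k ^ 2 - k + r2 ^ 3 - w1 ^ 2 + w1)) = 2 * 1 := by
    linear_combination (-1 : A) * e4
  exact mul_left_cancel₀ h20 e5

/-- Over a discrete valuation ring in which `2` is a uniformizer, the curve `y² = x³ - 16 b²`
(`b` odd) has no good model, so its local polynomial is `1`. -/
theorem localPoly_two (A : Type) [CommRing A] [IsDomain A] [IsDiscreteValuationRing A]
    (K : Type) [Field K] [Algebra A K] [IsFractionRing A K] [CharZero K] (b : ℤ) (hb : Odd b)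
    (h2 : Irreducible (2 : A)) : (W (-16 * b ^ 2) K).localPolynomial A = 1 := by
  obtain ⟨C, hC⟩ : ∃ C : WeierstrassCurve.VariableChange K,
      (W (-16 * b ^ 2) K).minimal A = C • (W (-16 * b ^ 2) K) := ⟨_, rfl⟩
  have hΔ0 : (W (-16 * b ^ 2) K).Δ = -(2 ^ 12 * (27 * (b : K) ^ 4)) := by
    simp only [W, WeierstrassCurve.Δ, WeierstrassCurve.b₂, WeierstrassCurve.b₄,
      WeierstrassCurve.b₆, WeierstrassCurve.b₈]
    push_cast
    ring
  have hc0 : (W (-16 * b ^ 2) K).c₄ = 0 := by
    simp [W, WeierstrassCurve.c₄, WeierstrassCurve.b₂, WeierstrassCurve.b₄]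
  have hΔ : ((W (-16 * b ^ 2) K).minimal A).Δ =
      (C.u⁻¹ : Kˣ) ^ 12 * (-(2 ^ 12 * (27 * (b : K) ^ 4))) := by
    rw [hC, WeierstrassCurve.variableChange_Δ, hΔ0]
  have hc4 : ((W (-16 * b ^ 2) K).minimal A).c₄ = 0 := by
    rw [hC, WeierstrassCurve.variableChange_c₄, hc0, mul_zero]
  have hmult : ¬ ((W (-16 * b ^ 2) K).minimal A).HasMultiplicativeReduction A := by
    intro h
    have h1 := h.multiplicativeReduction
    rw [hc4, map_zero] at h1
    exact zero_ne_one h1
  have hinj : Function.Injective (algebraMap A K) := IsFractionRing.injective A K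
  have hgood : ¬ ((W (-16 * b ^ 2) K).minimal A).HasGoodReduction A := by
    intro h
    have h1 := h.goodReduction
    rw [hΔ] at h1
    have hm : (IsDiscreteValuationRing.maximalIdeal A).asIdeal = Ideal.span {(2 : A)} :=
      (IsDiscreteValuationRing.irreducible_iff_uniformizer (2 : A)).1 h2
    have hv2 : (IsDiscreteValuationRing.maximalIdeal A).valuation K (2 : K)
        = WithZero.exp (-1 : ℤ) := by
      have h4 := HeightOneSpectrum.valuation_of_algebraMap
        (K := K) (IsDiscreteValuationRing.maximalIdeal A) (2 : A)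
      rw [HeightOneSpectrum.intValuation_singleton _ h2.ne_zero hm] at h4
      have h5 : ((algebraMap A K) (2 : A)) = 2 := map_ofNat _ 2
      rw [← h5]
      exact h4
    -- odd integers are units of `A`
    have hodd : ∀ n : ℤ, Odd n → IsUnit (n : A) := by
      intro n hn
      by_contra hcon
      have h5 : (n : A) ∈ IsLocalRing.maximalIdeal A := (IsLocalRing.mem_maximalIdeal _).2 hcon
      have h6 : (2 : A) ∈ IsLocalRing.maximalIdeal A :=
        (IsLocalRing.mem_maximalIdeal _).2 h2.not_isUnit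
      obtain ⟨k, hk⟩ := hn
      have h7 : (1 : A) ∈ IsLocalRing.maximalIdeal A := by
        have h8 : (1 : A) = (n : A) - (k : A) * 2 := by
          rw [hk]; push_cast; ring
        rw [h8]
        exact Ideal.sub_mem _ h5 (Ideal.mul_mem_left _ _ h6)
      exact (Ideal.ne_top_iff_one _).1 (IsLocalRing.maximalIdeal.isMaximal A).ne_top h7
    have hvu : ∀ a : A, IsUnit a →
        (IsDiscreteValuationRing.maximalIdeal A).valuation K (algebraMap A K a) = 1 := by
      intro a ha
      rw [HeightOneSpectrum.valuation_of_algebraMap]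
      rw [HeightOneSpectrum.intValuation_eq_one_iff]
      intro hmem
      exact (IsLocalRing.mem_maximalIdeal a).1 hmem ha
    have hv27 : (IsDiscreteValuationRing.maximalIdeal A).valuation K (27 * (b : K) ^ 4) = 1 := by
      have h5 : (27 * (b : K) ^ 4) = algebraMap A K ((27 : ℤ) * (b : A) ^ 4) := by
        rw [map_mul, map_pow, map_intCast, map_intCast]; push_cast; ring
      rw [h5]
      exact hvu _ ((hodd 27 (by decide)).mul ((hodd b hb).pow 4))
    rw [map_mul, map_pow, Valuation.map_neg, map_mul, map_pow, hv2, hv27, mul_one] at h1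
    have hu : (IsDiscreteValuationRing.maximalIdeal A).valuation K ((C.u⁻¹ : Kˣ) : K) ≠ 0 := by
      rw [Valuation.ne_zero_iff]
      exact Units.ne_zero _
    have h6 := congrArg WithZero.log h1
    rw [WithZero.log_mul (pow_ne_zero _ hu) (pow_ne_zero _ (by simp)), WithZero.log_pow,
      WithZero.log_pow, WithZero.log_exp, WithZero.log_one] at h6
    simp only [nsmul_eq_mul, Nat.cast_ofNat] at h6
    have h7 : WithZero.log ((IsDiscreteValuationRing.maximalIdeal A).valuation K
        ((C.u⁻¹ : Kˣ) : K)) = 1 := by omega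
    have h8 : (IsDiscreteValuationRing.maximalIdeal A).valuation K
        ((C.u⁻¹ : Kˣ) : K) = WithZero.exp (1 : ℤ) := by
      rw [← h7, WithZero.exp_log hu]
    have h9 : (IsDiscreteValuationRing.maximalIdeal A).valuation K
        ((C.u : K) / 2) ≤ 1 := by
      have h10 : (C.u : K) / 2 = (((C.u⁻¹ : Kˣ) : K) * 2)⁻¹ := by
        rw [Units.val_inv_eq_inv_val, mul_inv, inv_inv, div_eq_mul_inv]
      rw [h10, map_inv₀, map_mul, h8, hv2, ← WithZero.exp_add]
      simp
    obtain ⟨e, he⟩ := IsDiscreteValuationRing.exists_lift_of_le_one h9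
    have hue : (C.u : K) = 2 * algebraMap A K e := by
      rw [he]; field_simp
    have : ((W (-16 * b ^ 2) K).minimal A).IsIntegral A := inferInstance
    obtain ⟨Wi, hWi⟩ := this.integral
    rw [hC] at hWi
    have hu0 : (C.u : K) ≠ 0 := Units.ne_zero _
    have q1 : (C.u : K) * algebraMap A K Wi.a₁ = 2 * C.s := by
      have := congrArg WeierstrassCurve.a₁ hWi
      simp only [WeierstrassCurve.variableChange_a₁, W] at this
      change _ = algebraMap A K Wi.a₁ at this
      rw [← this, Units.val_inv_eq_inv_val]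
      field_simp
      ring
    have q2 : (C.u : K) ^ 2 * algebraMap A K Wi.a₂ = 3 * C.r - C.s ^ 2 := by
      have := congrArg WeierstrassCurve.a₂ hWi
      simp only [WeierstrassCurve.variableChange_a₂, W] at this
      change _ = algebraMap A K Wi.a₂ at this
      rw [← this, Units.val_inv_eq_inv_val]
      field_simp
      ring
    have q3 : (C.u : K) ^ 3 * algebraMap A K Wi.a₃ = 2 * C.t := by
      have := congrArg WeierstrassCurve.a₃ hWi
      simp only [WeierstrassCurve.variableChange_a₃, W] at this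
      change _ = algebraMap A K Wi.a₃ at this
      rw [← this, Units.val_inv_eq_inv_val]
      field_simp
      ring
    have q4 : (C.u : K) ^ 4 * algebraMap A K Wi.a₄ = 3 * C.r ^ 2 - 2 * C.s * C.t := by
      have := congrArg WeierstrassCurve.a₄ hWi
      simp only [WeierstrassCurve.variableChange_a₄, W] at this
      change _ = algebraMap A K Wi.a₄ at this
      rw [← this, Units.val_inv_eq_inv_val]
      field_simp
      ring
    have q6 : (C.u : K) ^ 6 * algebraMap A K Wi.a₆ = -16 * (b : K) ^ 2 + C.r ^ 3 - C.t ^ 2 := by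
      have := congrArg WeierstrassCurve.a₆ hWi
      simp only [WeierstrassCurve.variableChange_a₆, W] at this
      change _ = algebraMap A K Wi.a₆ at this
      rw [← this, Units.val_inv_eq_inv_val]
      push_cast
      field_simp
      ring
    obtain ⟨i3, hi3⟩ := (hodd 3 (by decide)).exists_right_inv
    have hi3' : (3 : A) * i3 = 1 := by
      have h11 : ((3 : ℤ) : A) = 3 := by norm_num
      rw [← h11]; exact hi3
    have hi3K : (3 : K) * algebraMap A K i3 = 1 := by
      have h12 := congrArg (algebraMap A K) hi3'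
      rwa [map_mul, map_ofNat, map_one] at h12
    have h2K : (2 : K) ≠ 0 := two_ne_zero
    have hs : C.s = algebraMap A K (e * Wi.a₁) := by
      rw [map_mul]
      apply mul_left_cancel₀ h2K
      rw [← q1, hue]; ring
    have ht : C.t = algebraMap A K (4 * e ^ 3 * Wi.a₃) := by
      rw [map_mul, map_mul, map_pow, map_ofNat]
      apply mul_left_cancel₀ h2K
      rw [← q3, hue]; ring
    have hr : C.r = algebraMap A K (i3 * (4 * e ^ 2 * Wi.a₂ + (e * Wi.a₁) ^ 2)) := by
      rw [map_mul, map_add, map_pow, ← hs, map_mul, map_mul, map_pow, map_ofNat]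
      rw [hue] at q2
      linear_combination (-(algebraMap A K i3)) * q2 + (-C.r) * hi3K
    refine localPoly_two_aux A h2.prime i3 hi3' b hb e Wi.a₁ Wi.a₃ Wi.a₄ Wi.a₆
      (i3 * (4 * e ^ 2 * Wi.a₂ + (e * Wi.a₁) ^ 2)) ?_ ?_
    · apply hinj
      have h13 : (algebraMap A K) (16 * e ^ 4 * Wi.a₄) = 16 * algebraMap A K e ^ 4 *
          algebraMap A K Wi.a₄ := by
        rw [map_mul, map_mul, map_pow, map_ofNat]
      have h14 : (algebraMap A K) (3 * (i3 * (4 * e ^ 2 * Wi.a₂ + (e * Wi.a₁) ^ 2)) ^ 2 -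
          8 * e ^ 4 * Wi.a₁ * Wi.a₃) = 3 * C.r ^ 2 -
          8 * algebraMap A K e ^ 4 * algebraMap A K Wi.a₁ * algebraMap A K Wi.a₃ := by
        rw [map_sub, map_mul, map_pow, ← hr, map_mul, map_mul, map_mul, map_pow, map_ofNat,
          map_ofNat]
      rw [h13, h14]
      rw [hue, hs, ht, map_mul, map_mul, map_mul, map_pow, map_ofNat] at q4
      linear_combination q4
    · apply hinj
      have h13 : (algebraMap A K) (64 * e ^ 6 * Wi.a₆) = 64 * algebraMap A K e ^ 6 *
          algebraMap A K Wi.a₆ := by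
        rw [map_mul, map_mul, map_pow, map_ofNat]
      have h14 : (algebraMap A K) (-16 * (b : A) ^ 2 +
          (i3 * (4 * e ^ 2 * Wi.a₂ + (e * Wi.a₁) ^ 2)) ^ 3 -
          16 * e ^ 6 * Wi.a₃ ^ 2) = -16 * (b : K) ^ 2 + C.r ^ 3 -
          16 * algebraMap A K e ^ 6 * algebraMap A K Wi.a₃ ^ 2 := by
        rw [map_sub, map_add, map_mul, map_neg, map_pow, map_intCast, map_pow, ← hr, map_mul,
          map_mul, map_pow, map_pow, map_ofNat]
      rw [h13, h14]
      rw [hue, ht, map_mul, map_mul, map_pow, map_ofNat] at q6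
      linear_combination q6
  unfold WeierstrassCurve.localPolynomial
  rw [if_neg hgood, if_neg (fun h => hmult h.toHasMultiplicativeReduction), if_neg hmult]

end BS3
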