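import Pool.Agent.MP_ae0bd0_nt.B3.P5
import Pool.Agent.MP_ae0bd0_nt.CM.F4

set_option autoImplicit false

open ArithmeticFunction Filter IsDedekindDomain NumberField CM27

namespace BS3

/-! ## [BS3-P6] the `L`-function of `y² = x³ + k` over an abelian field is the product of the
twisted `L`-functions -/

/-- Local data over `ℚ`: `c` is multiplicative, vanishes at the powers of the bad primes, and at the
good primes it is given by the eigenvalues of Frobenius. -/
structure LocData (k : ℤ) (c : ArithmeticFunction ℂ) : Prop where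
  mul : c.IsMultiplicative
  bad : ∀ p : ℕ, p.Prime → (p : ℤ) ∣ 6 * k → ∀ j : ℕ, j ≠ 0 → c (p ^ j) = 0
  good : ∀ p : ℕ, p.Prime → ¬ (p : ℤ) ∣ 6 * k → ∃ α β : ℂ, α * β = p ∧
    (∀ j, c (p ^ j) = ∑ i ∈ Finset.range (j + 1), α ^ i * β ^ (j - i)) ∧
    ∀ (f : ℕ) (F : Type) [Field F] [Finite F], 0 < f → Nat.card F = p ^ f →
      (Nat.card (W k F).toAffine.Point : ℂ) = p ^ f + 1 - (α ^ f + β ^ f)

/-- The coefficients twisted by (the primitive character of) `χ`. -/
noncomputable def twc (c : ArithmeticFunction ℂ) {m : ℕ} (χ : DirichletCharacter ℂ m) :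
    ArithmeticFunction ℂ :=
  ⟨fun n => pval χ n * c n, by rw [c.map_zero, mul_zero]⟩

theorem twc_apply (c : ArithmeticFunction ℂ) {m : ℕ} (χ : DirichletCharacter ℂ m) (n : ℕ) :
    twc c χ n = pval χ n * c n := rfl

theorem isMultiplicative_twc {c : ArithmeticFunction ℂ} (hc : c.IsMultiplicative) {m : ℕ}
    (χ : DirichletCharacter ℂ m) : (twc c χ).IsMultiplicative := by
  constructor
  · rw [twc_apply, pval_one, hc.1, one_mul]
  · intro a b hab
    rw [twc_apply, twc_apply, twc_apply, pval_mul, hc.2 hab]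
    ring

theorem loc_twc {c : ArithmeticFunction ℂ} {m : ℕ} (χ : DirichletCharacter ℂ m) {p : ℕ} (α β : ℂ)
    (h : ∀ k, c (p ^ k) = ∑ i ∈ Finset.range (k + 1), α ^ i * β ^ (k - i)) :
    loc p (twc c χ) * ((1 - PowerSeries.C (pval χ p) * (PowerSeries.C α * PowerSeries.X)) *
      (1 - PowerSeries.C (pval χ p) * (PowerSeries.C β * PowerSeries.X))) = 1 := by
  have h1 : loc p (twc c χ) = PowerSeries.mk (fun k => (pval χ p * α) ^ k) *
      PowerSeries.mk (fun k => (pval χ p * β) ^ k) := by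
    ext k
    rw [coeff_loc, twc_apply, pval_pow, h k, PowerSeries.coeff_mul,
      Finset.Nat.sum_antidiagonal_eq_sum_range_succ_mk, Finset.mul_sum]
    refine Finset.sum_congr rfl fun i hi => ?_
    rw [Finset.mem_range] at hi
    rw [PowerSeries.coeff_mk, PowerSeries.coeff_mk, mul_pow, mul_pow]
    have : k = i + (k - i) := by omega
    conv_lhs => rw [this, pow_add, Nat.add_sub_cancel_left]
    ring
  have h2 := geom_mul (pval χ p * α)
  have h3 := geom_mul (pval χ p * β)
  rw [map_mul] at h2 h3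
  rw [h1]
  linear_combination (PowerSeries.mk (fun k => (pval χ p * β) ^ k)) *
    (1 - PowerSeries.C (pval χ p) * PowerSeries.C β * PowerSeries.X) * h2 + h3

theorem loc_twc_bad {c : ArithmeticFunction ℂ} (hc : c.IsMultiplicative) {m : ℕ}
    (χ : DirichletCharacter ℂ m) {p : ℕ} (h : ∀ j : ℕ, j ≠ 0 → c (p ^ j) = 0) :
    loc p (twc c χ) = 1 := by
  ext k
  rw [coeff_loc, twc_apply, PowerSeries.coeff_one]
  by_cases hk : k = 0
  · rw [hk, pow_zero, pval_one, hc.1, if_pos rfl, one_mul]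
  · rw [h k hk, mul_zero, if_neg hk]

section
variable (k : ℤ) (K : Type) [Field K] [NumberField K]

/-- The local Euler factors of `W k` -/
noncomputable def fw (v : HeightOneSpectrum (𝓞 K)) : ArithmeticFunction ℤ :=
  ((W k K).baseChange (v.adicCompletion K)).localEulerFactor (v.adicCompletionIntegers K)

theorem constantCoeff_localPowerSeries (v : HeightOneSpectrum (𝓞 K)) :
    PowerSeries.constantCoeff (((W k K).baseChange (v.adicCompletion K)).localPowerSeries
      (v.adicCompletionIntegers K)) = 1 := by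
  rw [WeierstrassCurve.localPowerSeries, PowerSeries.constantCoeff_invOfUnit]
  simp

theorem LFunction_eq : (W k K).LFunction = eulerProduct (fw k K) := rfl

theorem isMultiplicative_LFunction : (W k K).LFunction.IsMultiplicative := by
  rw [LFunction_eq]
  refine isMultiplicative_eulerProduct _ fun v => ?_
  exact isMultiplicative_ofPowerSeries_of_isPrimePow _ (isPrimePow_qv K v) _
    (constantCoeff_localPowerSeries k K v)

theorem loc_LFunction {p : ℕ} (hp : p.Prime) (S : Finset (HeightOneSpectrum (𝓞 K)))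
    (hS : ∀ v : HeightOneSpectrum (𝓞 K), (p : 𝓞 K) ∈ v.asIdeal → v ∈ S) :
    loc p (W k K).LFunction = ∏ v ∈ S, loc p (fw k K v) :=
  loc_eulerProduct hp (qv K) _ (constantCoeff_localPowerSeries k K) (one_lt_qv K) S
    fun v hv => coprime_qv K hp v fun h => hv (hS v h)

/-- the local factor at a place of good reduction -/
theorem loc_fw (v : HeightOneSpectrum (𝓞 K)) {p f : ℕ} (hp : p.Prime) (hf : 0 < f)
    (h6 : ((6 * k : ℤ) : 𝓞 K) ∉ v.asIdeal) (hq : Nat.card (𝓞 K ⧸ v.asIdeal) = p ^ f) (α β : ℂ)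
    (hαβ : α * β = p)
    (h : ∀ (F : Type) [Field F] [Finite F], Nat.card F = p ^ f →
      (Nat.card (W k F).toAffine.Point : ℂ) = p ^ f + 1 - (α ^ f + β ^ f)) :
    PowerSeries.map (Int.castRingHom ℂ) (loc p (fw k K v)) *
      ((1 - (PowerSeries.C α * PowerSeries.X) ^ f) * (1 - (PowerSeries.C β * PowerSeries.X) ^ f))
      = 1 := by
  obtain ⟨hc, hfin⟩ := card_residue K v
  set κ := IsLocalRing.ResidueField (v.adicCompletionIntegers K) with hk
  have hkq : Nat.card κ = p ^ f := by rw [hc, hq]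
  set a : ℤ := (Nat.card κ : ℤ) + 1 - Nat.card (W k κ).toAffine.Point with ha
  have h1 : fw k K v = ofPowerSeries (p ^ f) (PowerSeries.invOfUnit
        ((1 - Polynomial.C a * Polynomial.X + Polynomial.C (Nat.card κ : ℤ) * Polynomial.X ^ 2 :
          Polynomial ℤ) : PowerSeries ℤ) 1) := by
    rw [fw, eulerFactor_good K v k h6 κ hc, ← ha, hkq]
  have h2 : ((1 - Polynomial.C a * Polynomial.X + Polynomial.C (Nat.card κ : ℤ) * Polynomial.X ^ 2 :
          Polynomial ℤ) : PowerSeries ℤ) =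
      1 - PowerSeries.C a * PowerSeries.X + PowerSeries.C (Nat.card κ : ℤ) * PowerSeries.X ^ 2 := by
    rw [Polynomial.coe_add, Polynomial.coe_sub, Polynomial.coe_mul, Polynomial.coe_mul,
      Polynomial.coe_pow, Polynomial.coe_C, Polynomial.coe_C, Polynomial.coe_X, Polynomial.coe_one]
  rw [h2] at h1
  have h3 : fw k K v * ofPowerSeries (p ^ f) (1 - PowerSeries.C a * PowerSeries.X +
      PowerSeries.C (Nat.card κ : ℤ) * PowerSeries.X ^ 2) = 1 := by
    rw [h1, ← map_mul, PowerSeries.invOfUnit_mul, map_one]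
    simp
  have h4 := congrArg (loc p) h3
  rw [loc_mul hp, loc_one hp, loc_quad hp hf] at h4
  have h5 := congrArg (PowerSeries.map (Int.castRingHom ℂ)) h4
  rw [map_mul, map_one] at h5
  have h6 : (a : ℂ) = α ^ f + β ^ f := by
    rw [ha]
    push_cast
    rw [h κ hkq, hkq]
    push_cast
    ring
  have h7 : ((Nat.card κ : ℤ) : ℂ) = α ^ f * β ^ f := by
    rw [hkq, ← mul_pow, hαβ]
    push_cast
    rfl
  have h8 : PowerSeries.map (Int.castRingHom ℂ) (1 - PowerSeries.C a * PowerSeries.X ^ f +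
      PowerSeries.C (Nat.card κ : ℤ) * (PowerSeries.X ^ f * PowerSeries.X ^ f)) =
      ((1 - (PowerSeries.C α * PowerSeries.X) ^ f) *
        (1 - (PowerSeries.C β * PowerSeries.X) ^ f)) := by
    simp only [map_add, map_sub, map_mul, map_one, PowerSeries.map_C, map_pow, PowerSeries.map_X,
      Int.coe_castRingHom, h6, h7, mul_pow]
    ring
  rw [h8] at h5
  exact h5

/-- the `L`-function with complex values -/
noncomputable def LW : ArithmeticFunction ℂ :=
  ⟨fun n => ((W k K).LFunction n : ℂ), by simp⟩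

theorem LW_apply (n : ℕ) : LW k K n = ((W k K).LFunction n : ℂ) := rfl

theorem isMultiplicative_LW : (LW k K).IsMultiplicative := by
  have h := isMultiplicative_LFunction k K
  constructor
  · rw [LW_apply, h.1, Int.cast_one]
  · intro a b hab
    rw [LW_apply, LW_apply, LW_apply, h.2 hab, Int.cast_mul]

theorem loc_LW (p : ℕ) :
    loc p (LW k K) = PowerSeries.map (Int.castRingHom ℂ) (loc p (W k K).LFunction) := by
  ext j
  rw [PowerSeries.coeff_map, coeff_loc, coeff_loc, LW_apply]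
  rfl

end

theorem int_not_mem {K : Type} [Field K] [NumberField K] (v : HeightOneSpectrum (𝓞 K))
    {p : ℕ} (hp : p.Prime) (hv : (p : 𝓞 K) ∈ v.asIdeal) (n : ℤ) (hn : ¬ (p : ℤ) ∣ n) :
    (n : 𝓞 K) ∉ v.asIdeal := by
  intro h
  have h1 : IsCoprime (p : ℤ) n := (Nat.prime_iff_prime_int.1 hp).coprime_iff_not_dvd.2 hn
  obtain ⟨a, b, hab⟩ := h1
  have h2 : ((a : 𝓞 K)) * p + b * n = 1 := by exact_mod_cast congrArg (Int.cast : ℤ → 𝓞 K) hab
  have h3 : (1 : 𝓞 K) ∈ v.asIdeal := by
    rw [← h2]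
    exact Ideal.add_mem _ (Ideal.mul_mem_left _ _ hv) (Ideal.mul_mem_left _ _ h)
  exact v.isPrime.ne_top ((Ideal.eq_top_iff_one _).2 h3)

theorem loc_LW_eq {k : ℤ} {c : ArithmeticFunction ℂ} (hc : LocData k c) (K : Type) [Field K]
    [NumberField K] {m : ℕ} (S : Finset (DirichletCharacter ℂ m)) (hS : SplitData K S)
    (hbad : ∀ p : ℕ, p.Prime → (p : ℤ) ∣ 6 * k → ∀ v : HeightOneSpectrum (𝓞 K),
      (p : 𝓞 K) ∈ v.asIdeal → fw k K v = 1) {p : ℕ} (hp : p.Prime) :
    loc p (LW k K) = loc p (∏ χ ∈ S, twc c χ) := by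
  obtain ⟨f, g, hf, hfin, hcard, hres, hprod⟩ := hS p hp
  rw [loc_LW, loc_LFunction k K hp hfin.toFinset (fun v hv => by simpa using hv), loc_prod hp,
    map_prod]
  by_cases h3 : (p : ℤ) ∣ 6 * k
  · rw [Finset.prod_eq_one, Finset.prod_eq_one]
    · intro χ _
      exact loc_twc_bad hc.mul χ (hc.bad p hp h3)
    · intro v hv
      rw [hbad p hp h3 v (by simpa using hv), loc_one hp, map_one]
  · obtain ⟨α, β, hαβ, hpsi, hpts⟩ := hc.good p hp h3
    set D : PowerSeries ℂ := (1 - (PowerSeries.C α * PowerSeries.X) ^ f) *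
      (1 - (PowerSeries.C β * PowerSeries.X) ^ f) with hD
    have h1 : (∏ v ∈ hfin.toFinset, PowerSeries.map (Int.castRingHom ℂ) (loc p (fw k K v))) *
        D ^ g = 1 := by
      have hc : hfin.toFinset.card = g := by
        rw [← hcard, Set.ncard_eq_toFinset_card _ hfin]
      rw [← hc, ← Finset.prod_const, ← Finset.prod_mul_distrib]
      apply Finset.prod_eq_one
      intro v hv
      have hv1 : (p : 𝓞 K) ∈ v.asIdeal := by simpa using hv
      exact loc_fw k K v hp hf (int_not_mem v hp hv1 _ h3) (hres v hv1) α β hαβ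
        (fun κ _ _ hk => hpts f κ hf hk)
    have h2 : (∏ χ ∈ S, loc p (twc c χ)) * D ^ g = 1 := by
      rw [hD, mul_pow, ← prod_subst S (fun χ => pval χ p) f g hprod,
        ← prod_subst S (fun χ => pval χ p) f g hprod, ← Finset.prod_mul_distrib,
        ← Finset.prod_mul_distrib]
      apply Finset.prod_eq_one
      intro χ _
      exact loc_twc χ α β hpsi
    calc _ = (∏ v ∈ hfin.toFinset, PowerSeries.map (Int.castRingHom ℂ) (loc p (fw k K v))) *
        ((∏ χ ∈ S, loc p (twc c χ)) * D ^ g) := by rw [h2, mul_one]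
      _ = ((∏ v ∈ hfin.toFinset, PowerSeries.map (Int.castRingHom ℂ) (loc p (fw k K v))) * D ^ g) *
        (∏ χ ∈ S, loc p (twc c χ)) := by ring
      _ = _ := by rw [h1, one_mul]

theorem LW_eq {k : ℤ} {c : ArithmeticFunction ℂ} (hc : LocData k c) (K : Type) [Field K]
    [NumberField K] {m : ℕ} (S : Finset (DirichletCharacter ℂ m)) (hS : SplitData K S)
    (hbad : ∀ p : ℕ, p.Prime → (p : ℤ) ∣ 6 * k → ∀ v : HeightOneSpectrum (𝓞 K),
      (p : 𝓞 K) ∈ v.asIdeal → fw k K v = 1) :
    LW k K = ∏ χ ∈ S, twc c χ := by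
  rw [ArithmeticFunction.IsMultiplicative.eq_iff_eq_on_prime_powers _ (isMultiplicative_LW k K) _
    (isMultiplicative_finsetProd _ _ fun χ _ => isMultiplicative_twc hc.mul χ)]
  intro p i hp
  rw [← coeff_loc, ← coeff_loc, loc_LW_eq hc K S hS hbad hp]

end BS3
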