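import Pool.Agent.MP_ae0bd0_nt.B3.Defs
import Pool.Agent.MP_ae0bd0_nt.CM.A1

/-!
# [BS3] cubic residue symbols modulo rational primes: definitions
-/

set_option autoImplicit false

open scoped ComplexConjugate
open CM27

namespace BS3

/-- The cube roots of unity `1, ω, ω²`. -/
def C3 : Finset Eis := {⟨1, 0⟩, ⟨0, 1⟩, ⟨-1, -1⟩}

/-- `(a / ℓ)_3 = e` for a rational prime `ℓ ≠ 3`: `a^k ≡ e (star a)^k mod ℓ`, `k = (ℓ - 1) / 3`, if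
`ℓ ≡ 1 mod 3`, and `a^k ≡ e mod ℓ`, `k = (ℓ² - 1) / 3`, if `ℓ ≡ 2 mod 3`. -/
def IsCub (ℓ : ℕ) (a e : Eis) : Prop :=
  (ℓ % 3 = 1 → (ℓ : Eis) ∣ a ^ ((ℓ - 1) / 3) - e * star a ^ ((ℓ - 1) / 3)) ∧
  (ℓ % 3 = 2 → (ℓ : Eis) ∣ a ^ ((ℓ ^ 2 - 1) / 3) - e)

open Classical in
/-- The cubic residue symbol `(a / ℓ)_3` with values in `ℂ` (`0` if `a` is not prime to `ℓ`). -/
noncomputable def kap (ℓ : ℕ) (a : Eis) : ℂ :=
  if h : IsCoprime a (ℓ : Eis) ∧ ∃ e ∈ C3, IsCub ℓ a e then emb h.2.choose else 0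

/-- The cubic residue symbol `(a / n)_3`. -/
noncomputable def kapn (n : ℕ) (a : Eis) : ℂ := n.factorization.prod fun p k => kap p a ^ k

/-- The character of `y² = x³ - r²`: `χ₋₄(N a) (a / 2r)_3`. -/
noncomputable def phr (r : ℕ) (a : Eis) : ℂ := ch4 a * kapn (2 * r) a

/-- Admissible `r`: cube-free, `r ≡ ± 4 mod 9`, all prime factors are `2` or `≡ 7 mod 12`. -/
def Adm (r : ℕ) : Prop := (r % 9 = 4 ∨ r % 9 = 5) ∧ (∀ p, p.Prime → ¬ p ^ 3 ∣ r) ∧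
  ∀ p, p.Prime → p ∣ r → p = 2 ∨ p % 12 = 7

end BS3
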