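import Pool.Agent.MP_ae0bd0_nt.B3.P3
import Pool.Agent.MP_ae0bd0_nt.B3.P4
import Pool.Agent.MP_ae0bd0_nt.B3.P6
import Pool.Agent.MP_ae0bd0_nt.B3.ZDefs
import Pool.Agent.MP_ae0bd0_nt.CM.C3

set_option autoImplicit false

open Polynomial NumberField IsDedekindDomain CM27
open scoped Classical

namespace BS3

/-! ## [BS3-Z7] the bad Euler factors of `y² = x³ - r²` (file Z7.lean; uses P3, P4) -/

theorem z7_cop (K : Type) [Field K] [NumberField K] (v : HeightOneSpectrum (𝓞 K)) (p : ℕ)
    (hp : p.Prime) (hv : (p : 𝓞 K) ∈ v.asIdeal) (n : ℤ) (hn : ¬ (p : ℤ) ∣ n) :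
    IsUnit (n : v.adicCompletionIntegers K) := by
  apply p5_isUnit_coprime K v p hv n
  exact ((Nat.Prime.coprime_iff_not_dvd hp).2 (by
      intro h; exact hn (by exact Int.natCast_dvd.2 h)) : Nat.Coprime p n.natAbs).symm
        |> Int.isCoprime_iff_gcd_eq_one.2

theorem z7_fw (k : ℤ) (K : Type) [Field K] [NumberField K] (v : HeightOneSpectrum (𝓞 K))
    (h : (W k (v.adicCompletion K)).localPolynomial (v.adicCompletionIntegers K) = 1) :
    fw k K v = 1 := by
  unfold fw
  rw [p5_baseChange]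
  unfold WeierstrassCurve.localEulerFactor WeierstrassCurve.localPowerSeries
  rw [h]
  exact p5_one _

theorem bad_r (r : ℕ) (hr : Adm r) (K : Type) [Field K] [NumberField K] (p : ℕ) (hp : p.Prime)
    (hpr : (p : ℤ) ∣ 6 * (-(r : ℤ) ^ 2)) (hun : Unram p K) (v : HeightOneSpectrum (𝓞 K))
    (hv : (p : 𝓞 K) ∈ v.asIdeal) : fw (-(r : ℤ) ^ 2) K v = 1 := by
  have hirr : Irreducible (p : v.adicCompletionIntegers K) :=
    irreducible_completion K v p hv (hun v hv)
  have := p5_charZero K v
  apply z7_fw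
  obtain ⟨hr9, hcf, hpf⟩ := hr
  have hr0 : r ≠ 0 := by
    rintro rfl
    simp at hr9
  -- `p = 2`, `p = 3` or `p ∣ r`
  have hcase : p = 3 ∨ p = 2 ∨ (p % 12 = 7 ∧ p ∣ r) := by
    have hpZ : Prime (p : ℤ) := Nat.prime_iff_prime_int.1 hp
    rcases hpZ.dvd_or_dvd hpr with h | h
    · have h1 : p ∣ 6 := by exact_mod_cast h
      have h2 : p ≤ 6 := Nat.le_of_dvd (by norm_num) h1
      interval_cases p <;> first | (left; rfl) | (right; left; rfl) | (exfalso; revert hp h1; decide)
    · rw [dvd_neg] at h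
      have h1 : (p : ℤ) ∣ (r : ℤ) := hpZ.dvd_of_dvd_pow h
      have h2 : p ∣ r := by exact_mod_cast h1
      rcases hpf p hp h2 with h3 | h3
      · exact Or.inr (Or.inl h3)
      · exact Or.inr (Or.inr ⟨h3, h2⟩)
  -- `r = p ^ e * r'`
  obtain ⟨e, r', hr', hre⟩ := Nat.exists_eq_pow_mul_and_not_dvd hr0 p hp.ne_one
  have he : e ≤ 2 := by
    by_contra hcon
    push Not at hcon
    apply hcf p hp
    rw [hre]
    exact Dvd.dvd.mul_right (pow_dvd_pow p hcon) _
  have hr'u : IsUnit ((r' : ℤ) : v.adicCompletionIntegers K) :=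
    z7_cop K v p hp hv r' (by intro h; exact hr' (by exact_mod_cast h))
  rcases hcase with rfl | rfl | ⟨h7, hdvd⟩
  · have h3 : ¬ 3 ∣ r := by omega
    have he0 : e = 0 := by
      by_contra hcon
      exact h3 (by rw [hre]; exact Dvd.dvd.mul_right (dvd_pow_self 3 hcon) _)
    rw [he0, pow_zero, one_mul] at hre
    rw [← hre] at hr'u
    have h2 : IsUnit ((2 : ℤ) : v.adicCompletionIntegers K) :=
      z7_cop K v 3 hp hv 2 (by norm_num)
    refine localPoly_add (v.adicCompletionIntegers K) (v.adicCompletion K) (-(r : ℤ) ^ 2)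
      ((3 : ℕ) : v.adicCompletionIntegers K) hirr 3 (by norm_num) (by norm_num)
      (((2 : ℤ) : v.adicCompletionIntegers K) ^ 4 * ((r : ℤ) : v.adicCompletionIntegers K) ^ 4)
      ((h2.pow 4).mul (hr'u.pow 4)) ?_
    push_cast
    ring
  · have h3 : IsUnit ((3 : ℤ) : v.adicCompletionIntegers K) :=
      z7_cop K v 2 hp hv 3 (by norm_num)
    interval_cases e
    · rw [pow_zero, one_mul] at hre
      rw [← hre] at hr'u
      refine localPoly_add (v.adicCompletionIntegers K) (v.adicCompletion K) (-(r : ℤ) ^ 2)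
        ((2 : ℕ) : v.adicCompletionIntegers K) hirr 4 (by norm_num) (by norm_num)
        (((3 : ℤ) : v.adicCompletionIntegers K) ^ 3 * ((r : ℤ) : v.adicCompletionIntegers K) ^ 4)
        ((h3.pow 3).mul (hr'u.pow 4)) ?_
      push_cast
      ring
    · refine localPoly_add (v.adicCompletionIntegers K) (v.adicCompletion K) (-(r : ℤ) ^ 2)
        ((2 : ℕ) : v.adicCompletionIntegers K) hirr 8 (by norm_num) (by norm_num)
        (((3 : ℤ) : v.adicCompletionIntegers K) ^ 3 * ((r' : ℤ) : v.adicCompletionIntegers K) ^ 4)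
        ((h3.pow 3).mul (hr'u.pow 4)) ?_
      rw [hre]
      push_cast
      ring
    · have h4 : -(r : ℤ) ^ 2 = -16 * (r' : ℤ) ^ 2 := by
        rw [hre]
        push_cast
        ring
      rw [h4]
      refine localPoly_two (v.adicCompletionIntegers K) (v.adicCompletion K) (r' : ℤ) ?_ ?_
      · rw [Int.odd_coe_nat, ← Nat.not_even_iff_odd, even_iff_two_dvd]
        exact hr'
      · exact_mod_cast hirr
  · have h2 : IsUnit ((2 : ℤ) : v.adicCompletionIntegers K) := by
      apply z7_cop K v p hp hv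
      intro h
      have := Int.le_of_dvd (by norm_num) h
      omega
    have h3 : IsUnit ((3 : ℤ) : v.adicCompletionIntegers K) := by
      apply z7_cop K v p hp hv
      intro h
      have := Int.le_of_dvd (by norm_num) h
      omega
    interval_cases e
    · exact absurd (by rw [pow_zero, one_mul] at hre; rw [← hre]; exact hdvd) hr'
    · refine localPoly_add (v.adicCompletionIntegers K) (v.adicCompletion K) (-(r : ℤ) ^ 2)
        ((p : ℕ) : v.adicCompletionIntegers K) hirr 4 (by norm_num) (by norm_num)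
        (((2 : ℤ) : v.adicCompletionIntegers K) ^ 4 * ((3 : ℤ) : v.adicCompletionIntegers K) ^ 3 *
          ((r' : ℤ) : v.adicCompletionIntegers K) ^ 4)
        (((h2.pow 4).mul (h3.pow 3)).mul (hr'u.pow 4)) ?_
      rw [hre]
      push_cast
      ring
    · refine localPoly_add (v.adicCompletionIntegers K) (v.adicCompletion K) (-(r : ℤ) ^ 2)
        ((p : ℕ) : v.adicCompletionIntegers K) hirr 8 (by norm_num) (by norm_num)
        (((2 : ℤ) : v.adicCompletionIntegers K) ^ 4 * ((3 : ℤ) : v.adicCompletionIntegers K) ^ 3 *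
          ((r' : ℤ) : v.adicCompletionIntegers K) ^ 4)
        (((h2.pow 4).mul (h3.pow 3)).mul (hr'u.pow 4)) ?_
      rw [hre]
      push_cast
      ring

end BS3
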