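import Pool.Agent.MP_ae0bd0_nt.B3.Defs
import Pool.Agent.MP_ae0bd0_nt.CM.G1
import Pool.Agent.MP_ae0bd0_nt.CM.A1

set_option autoImplicit false

open scoped ComplexConjugate
open Filter Topology CM27

namespace BS3

/-! ## [BS3-F0] algebra of the six units, summability (file F0.lean) -/

theorem mem_U6 (u : Eis) : u ∈ U6 ↔ IsUnit u := by
  rw [eis_isUnit_iff, norm_eq]
  constructor
  · intro h
    simp only [U6, Finset.mem_insert, Finset.mem_singleton] at h
    rcases h with rfl | rfl | rfl | rfl | rfl | rfl <;> norm_num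
  · intro h
    obtain ⟨x, y⟩ := u
    simp only at h
    have h1 : y ≤ 1 := by nlinarith [sq_nonneg (2 * x - y)]
    have h2 : -1 ≤ y := by nlinarith [sq_nonneg (2 * x - y)]
    have h3 : x ≤ 1 := by nlinarith [sq_nonneg (2 * y - x)]
    have h4 : -1 ≤ x := by nlinarith [sq_nonneg (2 * y - x)]
    simp only [U6, Finset.mem_insert, Finset.mem_singleton, QuadraticAlgebra.mk.injEq]
    have hy : y = -1 ∨ y = 0 ∨ y = 1 := by omega
    have hx : x = -1 ∨ x = 0 ∨ x = 1 := by omega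
    rcases hx with rfl | rfl | rfl <;> rcases hy with rfl | rfl | rfl <;> simp_all

theorem f0_sum (f : Eis → ℂ) : ∑ e ∈ U6, f e =
    f ⟨1, 0⟩ + (f ⟨-1, 0⟩ + (f ⟨0, 1⟩ + (f ⟨0, -1⟩ + (f ⟨1, 1⟩ + f ⟨-1, -1⟩)))) := by
  unfold U6
  rw [Finset.sum_insert (by simp), Finset.sum_insert (by simp), Finset.sum_insert (by simp),
    Finset.sum_insert (by simp), Finset.sum_insert (by simp), Finset.sum_singleton]

theorem f0_e1 : emb ⟨1, 0⟩ = 1 := by simp [emb_apply]
theorem f0_e2 : emb ⟨-1, 0⟩ = -1 := by simp [emb_apply]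
theorem f0_e3 : emb ⟨0, 1⟩ = w := by simp [emb_apply]
theorem f0_e4 : emb ⟨0, -1⟩ = -w := by simp [emb_apply]
theorem f0_e5 : emb ⟨1, 1⟩ = 1 + w := by simp [emb_apply]
theorem f0_e6 : emb ⟨-1, -1⟩ = -(1 + w) := by
  simp only [emb_apply]
  push_cast
  ring

theorem f0_prod (x : ℂ) : 729 * x ^ 6 - 1 =
    (3 * x + 1) * (3 * x - 1) * ((3 * x + w) * (3 * x - w)) *
      ((3 * x + (1 + w)) * (3 * x - (1 + w))) := by
  have h1 : (3 * x + w) * (3 * x - w) = 9 * x ^ 2 + 1 + w := by linear_combination (-1) * w_sq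
  have h2 : (3 * x + (1 + w)) * (3 * x - (1 + w)) = 9 * x ^ 2 - w := by
    linear_combination (-1) * w_sq
  rw [h1, h2]
  linear_combination (9 * x ^ 2 - 1) * w_sq

theorem f0_pair (x e : ℂ) (h1 : 3 * x + e ≠ 0) (h2 : 3 * x - e ≠ 0) :
    e * (x + e / 3)⁻¹ + -e * (x + -e / 3)⁻¹ = -6 * (e * e) / ((3 * x + e) * (3 * x - e)) := by
  have h3 : x + e / 3 = (3 * x + e) / 3 := by ring
  have h4 : x + -e / 3 = (3 * x - e) / 3 := by ring
  rw [h3, h4]
  field_simp
  ring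

/-- decomposition into simple fractions -/
theorem six_sum (x : ℂ) (hx : 729 * x ^ 6 ≠ 1) :
    ∑ e ∈ U6, emb e * (x + emb e / 3)⁻¹ = -18 * (729 * x ^ 6 - 1)⁻¹ := by
  have h0 : 729 * x ^ 6 - 1 ≠ 0 := sub_ne_zero.2 hx
  have hp := f0_prod x
  rw [hp] at h0
  simp only [mul_ne_zero_iff] at h0
  obtain ⟨⟨⟨a1, a2⟩, a3, a4⟩, a5, a6⟩ := h0
  rw [f0_sum, f0_e1, f0_e2, f0_e3, f0_e4, f0_e5, f0_e6, hp]
  have p1 := f0_pair x 1 a1 a2
  have p2 := f0_pair x w a3 a4
  have p3 := f0_pair x (1 + w) a5 a6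
  have h1 : (3 * x + w) * (3 * x - w) = 9 * x ^ 2 + 1 + w := by linear_combination (-1) * w_sq
  have h2 : (3 * x + (1 + w)) * (3 * x - (1 + w)) = 9 * x ^ 2 - w := by
    linear_combination (-1) * w_sq
  have h3 : (3 * x + 1) * (3 * x - 1) = 9 * x ^ 2 - 1 := by ring
  have h5 : (1 + w) * (1 + w) = w := by linear_combination w_sq
  have b1 : 9 * x ^ 2 + 1 + w ≠ 0 := h1 ▸ mul_ne_zero a3 a4
  have b2 : 9 * x ^ 2 - w ≠ 0 := h2 ▸ mul_ne_zero a5 a6
  have b3 : 9 * x ^ 2 - 1 ≠ 0 := h3 ▸ mul_ne_zero a1 a2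
  rw [h1, w_sq] at p2
  rw [h2, h5] at p3
  rw [h3] at p1
  rw [h1, h2, h3]
  have e1 : (1 : ℂ) * (x + 1 / 3)⁻¹ + (-1 * (x + -1 / 3)⁻¹ + (w * (x + w / 3)⁻¹ +
      (-w * (x + -w / 3)⁻¹ + ((1 + w) * (x + (1 + w) / 3)⁻¹ +
        -(1 + w) * (x + -(1 + w) / 3)⁻¹)))) =
      (1 * (x + 1 / 3)⁻¹ + -1 * (x + -1 / 3)⁻¹) + (w * (x + w / 3)⁻¹ + -w * (x + -w / 3)⁻¹) +
      ((1 + w) * (x + (1 + w) / 3)⁻¹ + -(1 + w) * (x + -(1 + w) / 3)⁻¹) := by ring
  rw [e1, p1, p2, p3, ← div_eq_mul_inv, div_add_div _ _ b3 b1, div_add_div _ _ (mul_ne_zero b3 b1) b2]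
  congr 1
  linear_combination (6 + 12 * (9 * x ^ 2 - 1) * (-1)) * w_sq

theorem sum_U6 : ∑ e ∈ U6, emb e = 0 ∧ ∑ e ∈ U6, emb e * emb e = 0 ∧
    ∑ e ∈ U6, emb e * conj (emb e) = 6 := by
  refine ⟨?_, ?_, ?_⟩
  · rw [f0_sum, f0_e1, f0_e2, f0_e3, f0_e4, f0_e5, f0_e6]
    ring
  · rw [f0_sum, f0_e1, f0_e2, f0_e3, f0_e4, f0_e5, f0_e6]
    linear_combination 4 * w_sq
  · have h : ∀ e ∈ U6, emb e * conj (emb e) = 1 := by
      intro e he
      rw [Complex.mul_conj, normSq_emb, (eis_isUnit_iff e).1 ((mem_U6 e).1 he)]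
      simp
    rw [Finset.sum_congr rfl h, Finset.sum_const]
    have : U6.card = 6 := by
      unfold U6
      rw [Finset.card_insert_of_notMem (by simp), Finset.card_insert_of_notMem (by simp),
        Finset.card_insert_of_notMem (by simp), Finset.card_insert_of_notMem (by simp),
        Finset.card_insert_of_notMem (by simp), Finset.card_singleton]
    rw [this]
    norm_num

theorem summable_Fz (z : ℂ) : Summable fun a : Eis => (729 * (z + emb a) ^ 6 - 1)⁻¹ := by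
  refine Summable.of_norm_bounded_eventually (g := fun a : Eis => ‖z + emb a‖ ^ (-(6 : ℝ)))
    (summable_norm_shift z 6 (by norm_num)) ?_
  have h1 := (summable_norm_shift z 6 (by norm_num)).tendsto_cofinite_zero
  have h2 : ∀ᶠ a : Eis in cofinite, z + emb a ≠ 0 := by
    rw [eventually_cofinite]
    apply Set.Subsingleton.finite
    intro a ha b hb
    simp only [ne_eq, not_not, Set.mem_ofPred_eq] at ha hb
    apply emb_injective
    linear_combination ha - hb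
  filter_upwards [h1.eventually_lt_const (show (0 : ℝ) < 1 by norm_num), h2] with a ha ha0
  have h3 : 0 < ‖z + emb a‖ := norm_pos_iff.2 ha0
  have h4 : 1 < ‖z + emb a‖ := by
    by_contra hcon
    push Not at hcon
    have := Real.rpow_le_rpow_of_nonpos h3 hcon (show (-(6 : ℝ)) ≤ 0 by norm_num)
    rw [Real.one_rpow] at this
    linarith
  rw [norm_inv, Real.rpow_neg h3.le]
  apply inv_anti₀ (by positivity)
  have h5 : ‖(729 : ℂ) * (z + emb a) ^ 6‖ ≤ ‖(729 : ℂ) * (z + emb a) ^ 6 - 1‖ + 1 := by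
    have := norm_add_le ((729 : ℂ) * (z + emb a) ^ 6 - 1) 1
    simpa using this
  rw [norm_mul, norm_pow] at h5
  have h6 : ‖(729 : ℂ)‖ = 729 := by simp
  rw [h6] at h5
  have h7 : ‖z + emb a‖ ^ (6 : ℝ) = ‖z + emb a‖ ^ 6 := by
    rw [← Real.rpow_natCast]
    norm_num
  rw [h7]
  have h8 : 1 ≤ ‖z + emb a‖ ^ 6 := one_le_pow₀ h4.le
  linarith

theorem f0_pow (e : Eis) (he : e ∈ U6) : emb e ^ 6 = 1 := by
  simp only [U6, Finset.mem_insert, Finset.mem_singleton] at he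
  have hw3 : w ^ 3 = 1 := by linear_combination (w - 1) * w_sq
  have hw6 : w ^ 6 = 1 := by
    rw [show (6 : ℕ) = 3 * 2 from rfl, pow_mul, hw3, one_pow]
  have hv : (1 + w) ^ 6 = 1 := by
    have h5 : (1 + w) * (1 + w) = w := by linear_combination w_sq
    rw [show (1 + w) ^ 6 = ((1 + w) * (1 + w)) ^ 3 by ring, h5, hw3]
  rcases he with rfl | rfl | rfl | rfl | rfl | rfl
  · rw [f0_e1]; norm_num
  · rw [f0_e2]; norm_num
  · rw [f0_e3]; exact hw6
  · rw [f0_e4, Even.neg_pow (by decide)]; exact hw6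
  · rw [f0_e5]; exact hv
  · rw [f0_e6, Even.neg_pow (by decide)]; exact hv

theorem f0_root (x : ℂ) (h : 729 * x ^ 6 = 1) : ∃ e ∈ U6, 3 * x + emb e = 0 := by
  have h0 : 729 * x ^ 6 - 1 = 0 := sub_eq_zero.2 h
  rw [f0_prod] at h0
  simp only [mul_eq_zero] at h0
  rcases h0 with ((h1 | h1) | (h1 | h1)) | (h1 | h1)
  · exact ⟨⟨1, 0⟩, by simp [U6], by rw [f0_e1]; exact h1⟩
  · exact ⟨⟨-1, 0⟩, by simp [U6], by rw [f0_e2]; linear_combination h1⟩
  · exact ⟨⟨0, 1⟩, by simp [U6], by rw [f0_e3]; exact h1⟩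
  · exact ⟨⟨0, -1⟩, by simp [U6], by rw [f0_e4]; linear_combination h1⟩
  · exact ⟨⟨1, 1⟩, by simp [U6], by rw [f0_e5]; exact h1⟩
  · exact ⟨⟨-1, -1⟩, by simp [U6], by rw [f0_e6]; linear_combination h1⟩

/-- `729 (z + a)^6 = 1` iff `z` is congruent to `ε / 3` for a unit `ε`. -/
theorem NP_iff (z : ℂ) : NP z ↔ ∀ e ∈ U6, z + emb e / 3 ∉ Set.range emb := by
  constructor
  · rintro h e he ⟨b, hb⟩
    apply h (-b)
    have h1 : z + emb (-b) = -(emb e / 3) := by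
      rw [map_neg]
      linear_combination -hb
    rw [h1, Even.neg_pow (by decide), div_pow, f0_pow e he]
    norm_num
  · intro h a ha
    obtain ⟨e, he, h1⟩ := f0_root _ ha
    apply h e he
    refine ⟨-a, ?_⟩
    rw [map_neg]
    linear_combination (-1 / 3) * h1

/-- Torsion points of order prime to `3` are not poles. -/
theorem NP_of (N : ℕ) (hN : ¬ 3 ∣ N) (z : ℂ) (hz : (N : ℂ) * z ∈ Set.range emb) : NP z := by
  rw [NP_iff]
  rintro e he ⟨a, ha⟩
  obtain ⟨b, hb⟩ := hz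
  have h1 : emb ((N : Eis) * e) = emb (3 * ((N : Eis) * a - b)) := by
    rw [map_mul, map_mul, map_sub, map_mul, map_natCast, map_ofNat]
    linear_combination (-3 * (N : ℂ)) * ha + (3 : ℂ) * hb
  have h2 := emb_injective h1
  have h3 : ((N : Eis)).re = N := by simp
  have h4 : ((N : Eis)).im = 0 := by simp
  have h5 : (3 : Eis).re = 3 := rfl
  have h6 : (3 : Eis).im = 0 := rfl
  have hre := congrArg QuadraticAlgebra.re h2
  have him := congrArg QuadraticAlgebra.im h2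
  simp only [QuadraticAlgebra.re_mul, QuadraticAlgebra.im_mul, h3, h4, h5, h6] at hre him
  simp only [zero_mul, mul_zero, add_zero] at hre him
  simp only [U6, Finset.mem_insert, Finset.mem_singleton] at he
  rcases he with rfl | rfl | rfl | rfl | rfl | rfl <;> simp only at hre him <;> omega

end BS3
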