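import Pool.Agent.MP_ae0bd0_nt.B3.E2c
import Pool.Agent.MP_ae0bd0_nt.B3.F0

set_option autoImplicit false

open scoped ComplexConjugate
open Filter Topology CM27

namespace BS3

/-! ## [BS3-E3] differences of `Fst` are differences of `Fz` (file E3.lean; uses E2c, F0) -/

theorem e3_tors (z : ℂ) (hz : Tors z) (e : Eis) : Tors (z + emb e / 3) := by
  obtain ⟨N, hN, a, ha⟩ := hz
  refine ⟨3 * N, by omega, 3 * a + (N : Eis) * e, ?_⟩
  simp only [map_add, map_mul, map_ofNat, map_natCast, ha]
  push_cast
  ring

theorem e3_sum {f g : Eis → ℂ} :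
    ∑ k ∈ U6 ×ˢ (Finset.univ : Finset Bool), (if k.2 = true then f k.1 else - g k.1) =
      ∑ e ∈ U6, f e - ∑ e ∈ U6, g e := by
  rw [Finset.sum_product]
  simp only [Fintype.sum_bool, if_true]
  rw [← Finset.sum_sub_distrib]
  refine Finset.sum_congr rfl fun e _ => ?_
  simp [sub_eq_add_neg]

theorem Fst_sub (z z' : ℂ) (hz : Tors z) (hz' : Tors z') (h : NP z) (h' : NP z') :
    Fst z - Fst z' = Fz z - Fz z' := by
  obtain ⟨s1, s2, s3⟩ := sum_U6
  have key := Kr_block (U6 ×ˢ (Finset.univ : Finset Bool))
    (fun k => if k.2 = true then emb k.1 else - emb k.1)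
    (fun k => if k.2 = true then z + emb k.1 / 3 else z' + emb k.1 / 3) ?_ ?_ ?_ ?_
  · have e1 : ∀ k : Eis × Bool, (if k.2 = true then emb k.1 else - emb k.1) *
        Kr (if k.2 = true then z + emb k.1 / 3 else z' + emb k.1 / 3) =
        if k.2 = true then emb k.1 * Kr (z + emb k.1 / 3) else
          - (emb k.1 * Kr (z' + emb k.1 / 3)) := by
      intro k; split_ifs <;> ring
    have e2 : ∀ (a : Eis) (k : Eis × Bool), (if k.2 = true then emb k.1 else - emb k.1) *
        ((if k.2 = true then z + emb k.1 / 3 else z' + emb k.1 / 3) + emb a)⁻¹ =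
        if k.2 = true then emb k.1 * ((z + emb a) + emb k.1 / 3)⁻¹ else
          - (emb k.1 * ((z' + emb a) + emb k.1 / 3)⁻¹) := by
      intro a k
      split_ifs
      · rw [show z + emb k.1 / 3 + emb a = z + emb a + emb k.1 / 3 by ring]
      · rw [show z' + emb k.1 / 3 + emb a = z' + emb a + emb k.1 / 3 by ring]; ring
    simp only [e1, e2] at key
    rw [e3_sum (f := fun e => emb e * Kr (z + emb e / 3))
      (g := fun e => emb e * Kr (z' + emb e / 3))] at key
    have e3 : ∀ a : Eis, ∑ k ∈ U6 ×ˢ (Finset.univ : Finset Bool),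
        (if k.2 = true then emb k.1 * ((z + emb a) + emb k.1 / 3)⁻¹ else
          - (emb k.1 * ((z' + emb a) + emb k.1 / 3)⁻¹)) =
        -18 * (729 * (z + emb a) ^ 6 - 1)⁻¹ - -18 * (729 * (z' + emb a) ^ 6 - 1)⁻¹ := by
      intro a
      rw [e3_sum (f := fun e => emb e * ((z + emb a) + emb e / 3)⁻¹)
        (g := fun e => emb e * ((z' + emb a) + emb e / 3)⁻¹), six_sum _ (h a), six_sum _ (h' a)]
    simp only [e3] at key
    rw [Summable.tsum_sub ((summable_Fz z).mul_left _) ((summable_Fz z').mul_left _),
      tsum_mul_left, tsum_mul_left] at key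
    exact key
  · rw [e3_sum (f := fun e => emb e) (g := fun e => emb e)]; ring
  · have e1 : ∀ k : Eis × Bool, (if k.2 = true then emb k.1 else - emb k.1) *
        (if k.2 = true then z + emb k.1 / 3 else z' + emb k.1 / 3) =
        if k.2 = true then emb k.1 * (z + emb k.1 / 3) else
          - (emb k.1 * (z' + emb k.1 / 3)) := by
      intro k; split_ifs <;> ring
    simp only [e1]
    rw [e3_sum (f := fun e => emb e * (z + emb e / 3)) (g := fun e => emb e * (z' + emb e / 3)),
      ← Finset.sum_sub_distrib]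
    have : ∀ e : Eis, emb e * (z + emb e / 3) - emb e * (z' + emb e / 3) = emb e * (z - z') := by
      intro e; ring
    simp only [this]
    rw [← Finset.sum_mul, s1, zero_mul]
  · have e1 : ∀ k : Eis × Bool, (if k.2 = true then emb k.1 else - emb k.1) *
        conj (if k.2 = true then z + emb k.1 / 3 else z' + emb k.1 / 3) =
        if k.2 = true then emb k.1 * conj (z + emb k.1 / 3) else
          - (emb k.1 * conj (z' + emb k.1 / 3)) := by
      intro k; split_ifs <;> ring
    simp only [e1]
    rw [e3_sum (f := fun e => emb e * conj (z + emb e / 3))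
      (g := fun e => emb e * conj (z' + emb e / 3)), ← Finset.sum_sub_distrib]
    have : ∀ e : Eis, emb e * conj (z + emb e / 3) - emb e * conj (z' + emb e / 3) =
        emb e * (conj z - conj z') := by
      intro e
      simp only [map_add]
      ring
    simp only [this]
    rw [← Finset.sum_mul, s1, zero_mul]
  · rintro ⟨e, b⟩ hk
    have he : e ∈ U6 := (Finset.mem_product.1 hk).1
    cases b
    · simp only [Bool.false_eq_true, if_false]
      exact ⟨e3_tors z' hz' e, (NP_iff z').1 h' e he⟩
    · simp only [if_true]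
      exact ⟨e3_tors z hz e, (NP_iff z).1 h e he⟩

end BS3
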