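import Pool.Agent.MP_ae0bd0_nt.B3.F0
import Pool.Agent.MP_ae0bd0_nt.CM.H5
import Pool.Agent.MP_ae0bd0_nt.CM.A1

set_option autoImplicit false

open scoped ComplexConjugate
open Filter Topology CM27

namespace BS3

/-! ## [BS3-X0] the function `XX`, duplication (file X0.lean; uses CM27.H5) -/

theorem x0_mem (a : Eis) : emb a ∈ L0.lattice := (mem_L0 _).2 ⟨a, rfl⟩

theorem x0_add (z : ℂ) (a : Eis) : L0.weierstrassP (z + emb a) = L0.weierstrassP z :=
  L0.weierstrassP_add_coe z ⟨emb a, x0_mem a⟩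

theorem XX_add (z : ℂ) (a : Eis) : XX (z + emb a) = XX z := by
  unfold XX
  rw [x0_add]

/-- the lattice -/
noncomputable def x0_equiv : Eis ≃ L0.lattice :=
  Equiv.ofBijective (fun a => (⟨emb a, x0_mem a⟩ : L0.lattice)) ⟨fun a b h =>
    emb_injective (congrArg Subtype.val h), fun l => by
      obtain ⟨a, ha⟩ := (mem_L0 _).1 l.2
      exact ⟨a, Subtype.ext ha⟩⟩

theorem x0_wp (z : ℂ) :
    L0.weierstrassP z = ∑' a : Eis, (1 / (z - emb a) ^ 2 - 1 / (emb a) ^ 2) := by
  unfold PeriodPair.weierstrassP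
  rw [← x0_equiv.tsum_eq]
  rfl

theorem x0_emb_ne {u : Eis} (hu : IsUnit u) : emb u ≠ 0 := (hu.map emb).ne_zero

theorem wp_unit (z : ℂ) (u : Eis) (hu : IsUnit u) :
    L0.weierstrassP (emb u * z) = (emb u)⁻¹ ^ 2 * L0.weierstrassP z := by
  have h0 := x0_emb_ne hu
  rw [x0_wp, x0_wp, ← tsum_mul_left, ← (Units.mulLeft hu.unit).tsum_eq]
  refine tsum_congr fun a => ?_
  have h1 : (Units.mulLeft hu.unit) a = u * a := rfl
  rw [h1, map_mul, ← mul_sub, mul_pow, mul_pow, inv_pow, mul_sub]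
  congr 1
  · rw [one_div, one_div, mul_inv]
  · rw [one_div, one_div, mul_inv]

theorem x0_six {u : Eis} (hu : IsUnit u) : emb u ^ 6 = 1 := by
  have h := (mem_U6 u).2 hu
  simp only [U6, Finset.mem_insert, Finset.mem_singleton] at h
  rcases h with rfl | rfl | rfl | rfl | rfl | rfl
  · simp [emb_apply]
  · simp only [emb_apply]; norm_num
  · simp only [emb_apply]
    push_cast
    rw [zero_add, one_mul, h1_w_six]
  · simp only [emb_apply]
    push_cast
    have h1 := h1_w_six
    linear_combination h1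
  · simp only [emb_apply]
    push_cast
    have h1 := h1_w_six'
    linear_combination h1
  · simp only [emb_apply]
    push_cast
    have h1 := h1_w_six'
    linear_combination h1

theorem XX_unit (z : ℂ) (u : Eis) (hu : IsUnit u) : XX (emb u * z) = XX z := by
  unfold XX
  rw [wp_unit z u hu]
  have h1 : ((emb u)⁻¹ ^ 2) ^ 3 = 1 := by
    rw [← pow_mul, inv_pow, x0_six hu, inv_one]
  rw [mul_pow, h1, one_mul]

theorem XX_dup (z : ℂ) (hz : Off z) : XX (2 * z) * (4 * XX z + 1) ^ 3 =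
    XX z * (XX z - 2) ^ 3 := by
  have h1 := h5_dup hz
  have hg := g3_ne
  unfold XX
  generalize L0.weierstrassP (2 * z) = P2 at *
  generalize L0.weierstrassP z = P at *
  generalize L0.g₃ = g at *
  have h2 : (P2 * (4 * P ^ 3 - g)) ^ 3 = (P ^ 4 + 2 * g * P) ^ 3 := by rw [h1]
  field_simp
  linear_combination h2

theorem XX_half (z : ℂ) (hz : z ∉ Set.range emb) (h2 : 2 * z ∈ Set.range emb) :
    4 * XX z + 1 = 0 := by
  obtain ⟨a, ha⟩ := h2
  have hz' : z ∉ L0.lattice := fun h => hz ((mem_L0 _).1 h)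
  have h1 : L0.derivWeierstrassP z = 0 := by
    have h3 := L0.derivWeierstrassP_add_coe (-z) ⟨emb a, x0_mem a⟩
    have h4 : -z + ((⟨emb a, x0_mem a⟩ : L0.lattice) : ℂ) = z := by
      show -z + emb a = z
      rw [ha]; ring
    rw [h4, L0.derivWeierstrassP_neg] at h3
    linear_combination h3 / 2
  have h3 := h5_sq hz'
  rw [h1] at h3
  have hg := g3_ne
  unfold XX
  field_simp
  linear_combination h3

/-- `℘` vanishes at the points of order `√-3` -/
theorem wp_zero (z : ℂ) (hz : z ∉ Set.range emb) (h : emb th * z ∈ Set.range emb) :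
    L0.weierstrassP z = 0 := by
  obtain ⟨a, ha⟩ := h
  have hu : IsUnit (⟨0, 1⟩ : Eis) := by
    rw [← mem_U6]; simp [U6]
  have h1 := wp_unit z ⟨0, 1⟩ hu
  have hw : emb (⟨0, 1⟩ : Eis) = w := by simp [emb_apply]
  rw [hw] at h1
  have hth : emb th = 1 + 2 * w := by simp [emb_apply, th]
  have h2 : w * z + emb ((⟨-1, -1⟩ : Eis) * a) = z := by
    rw [map_mul, ha, hth, emb_apply]
    push_cast
    have := w_sq
    linear_combination (-2 * z) * this
  have h3 := x0_add (w * z) ((⟨-1, -1⟩ : Eis) * a)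
  rw [h2, h1] at h3
  have h4 : w ≠ 0 := by
    rw [← hw]; exact x0_emb_ne hu
  have h5 : w ^ 2 ≠ 1 := by
    intro h5
    have h6 := w_sq
    have h7 : w = -2 := by linear_combination h6 - h5
    rw [h7] at h5
    norm_num at h5
  have h6 : (w ^ 2 - 1) * L0.weierstrassP z = 0 := by
    field_simp at h3
    linear_combination h3
  rcases mul_eq_zero.1 h6 with h7 | h7
  · exact absurd (sub_eq_zero.1 h7) h5
  · exact h7

theorem x0_third : XX (1 / 3) = -1 := by
  have hoff := h1_off_third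
  have h1 : L0.weierstrassP (2 * (1 / 3)) = L0.weierstrassP (1 / 3) := by
    have h2 := x0_add (-(1 / 3)) 1
    rw [map_one, L0.weierstrassP_neg] at h2
    rw [← h2]
    congr 1
    norm_num
  have h2 := h5_dup hoff
  rw [h1] at h2
  have h3 : L0.weierstrassP (1 / 3) ≠ 0 := by
    intro h3
    have h4 := lam_mul_deriv (1 / 3) hoff
    rw [h3] at h4
    have h5 : lam (1 / 3) * L0.derivWeierstrassP (1 / 3) = 0 := by rw [h4]; ring
    rcases mul_eq_zero.1 h5 with h6 | h6
    · exact lam_third_ne_zero h6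
    · exact h5_deriv_ne hoff h6
  have h4 : L0.weierstrassP (1 / 3) ^ 3 = L0.g₃ := by
    have h5 : L0.weierstrassP (1 / 3) * (L0.weierstrassP (1 / 3) ^ 3 - L0.g₃) = 0 := by
      linear_combination h2 / 3
    rcases mul_eq_zero.1 h5 with h6 | h6
    · exact absurd h6 h3
    · exact sub_eq_zero.1 h6
  unfold XX
  rw [h4, neg_div, div_self g3_ne]

/-- `X = -1` at the poles of `Fz` (the points of exact order `3`) -/
theorem XX_third (z : ℂ) (hz : ¬ NP z) : XX z = -1 := by
  rw [NP_iff] at hz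
  push Not at hz
  obtain ⟨e, he, a, ha⟩ := hz
  have hu : IsUnit (-e) := ((mem_U6 e).1 he).neg
  have h1 : z = emb (-e) * (1 / 3) + emb a := by
    rw [ha, map_neg]; ring
  rw [h1, XX_add, XX_unit _ _ hu, x0_third]

end BS3
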