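import Pool.Agent.MP_ae0bd0_nt.B3.F1
import Pool.Agent.MP_ae0bd0_nt.B3.X0

set_option autoImplicit false

open scoped ComplexConjugate
open Filter Topology CM27

namespace BS3

/-! ## [BS3-F2] Liouville's theorem for `Fz` (file F2.lean; uses F1, X0) -/

/-- the product whose constancy is to be shown -/
noncomputable def f2_G (z : ℂ) : ℂ := (Fz z - Fz 0) * (L0.g₃ - L0.weierstrassP z ^ 3)

/-- the extension over the removable singularities -/
noncomputable def f2_Gt (t : ℂ) : ℂ := limUnder (𝓝[≠] t) f2_G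

theorem f2_NP_of_range (t : ℂ) (ht : t ∈ Set.range emb) : NP t :=
  NP_of 1 (by norm_num) t (by simpa using ht)

theorem f2_three_mul (z : ℂ) (h : z ∈ Set.range emb ∨ ¬ NP z) : 3 * z ∈ Set.range emb := by
  rcases h with ⟨a, rfl⟩ | h
  · exact ⟨3 * a, by rw [map_mul, map_ofNat]⟩
  · rw [NP_iff] at h
    push Not at h
    obtain ⟨e, -, a, ha⟩ := h
    refine ⟨3 * a - e, ?_⟩
    rw [map_sub, map_mul, map_ofNat, ha]
    ring

theorem f2_near (t : ℂ) : ∀ᶠ z in 𝓝[≠] t, z ∉ Set.range emb ∧ NP z := by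
  have h1 := L0.compl_lattice_sdiff_singleton_mem_nhds (3 * t)
  have h2 : Tendsto (fun z : ℂ => 3 * z) (𝓝 t) (𝓝 (3 * t)) :=
    (Continuous.tendsto (by fun_prop) t)
  have h3 := h2.eventually h1
  filter_upwards [nhdsWithin_le_nhds h3, self_mem_nhdsWithin] with z hz hz1
  by_contra hcon
  have h4 : 3 * z ∈ Set.range emb := by
    apply f2_three_mul
    by_contra h5
    push Not at h5
    exact hcon h5
  apply hz
  refine ⟨(mem_L0 _).2 h4, ?_⟩
  intro h4
  apply hz1
  have h5 : 3 * z = 3 * t := h4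
  exact mul_left_cancel₀ three_ne_zero h5

theorem f2_local_off (t : ℂ) (ht : t ∉ Set.range emb) (h : NP t) : AnalyticAt ℂ f2_G t := by
  have h1 := Fz_analytic t h
  have h2 := L0.analyticOnNhd_weierstrassP t (fun h => ht ((mem_L0 t).1 h))
  unfold f2_G
  fun_prop

theorem f2_G_add (z : ℂ) (a : Eis) : f2_G (z + emb a) = f2_G z := by
  have h1 := L0.weierstrassP_add_coe z ⟨emb a, (mem_L0 _).2 ⟨a, rfl⟩⟩
  simp only at h1
  rw [f2_G, f2_G, Fz_add, h1]

theorem f2_local_zero : ∃ h : ℂ → ℂ, AnalyticAt ℂ h 0 ∧ ∀ᶠ z in 𝓝[≠] (0 : ℂ), f2_G z = h z := by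
  obtain ⟨h, hh, hl⟩ := Fz_near_zero
  have ha := L0.analyticAt_weierstrassPExcept 0
  refine ⟨fun z => h z * (z ^ 6 * L0.g₃ - (1 + z ^ 2 * L0.weierstrassPExcept 0 z) ^ 3),
    by fun_prop, ?_⟩
  filter_upwards [nhdsWithin_le_nhds hl, self_mem_nhdsWithin] with z h1 h4
  have hz : z ≠ 0 := h4
  have h5 := L0.weierstrassPExcept_def 0 z
  simp only [ZeroMemClass.coe_zero, sub_zero] at h5
  have h7 : L0.weierstrassP z = L0.weierstrassPExcept 0 z + 1 / z ^ 2 := by
    rw [h5]; simp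
  rw [f2_G, h1, h7]
  field_simp
  ring

theorem f2_XX (z : ℂ) (h : XX z = -1) : L0.weierstrassP z ^ 3 = L0.g₃ := by
  rw [XX] at h
  have := g3_ne
  field_simp at h
  linear_combination -h

/-- the local form at a pole of `Fz` -/
theorem f2_local_pole (t : ℂ) (ht : ¬ NP t) : ∃ h : ℂ → ℂ, AnalyticAt ℂ h t ∧ h t ≠ 0 ∧
    ∀ᶠ z in 𝓝[≠] t, f2_G z = h z := by
  have ht0 : t ∉ L0.lattice := fun h => ht (f2_NP_of_range t ((mem_L0 t).1 h))
  have ha := L0.analyticOnNhd_weierstrassP t ht0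
  obtain ⟨c, hc, h, hh, hl⟩ := Fz_pole t ht
  have hv : L0.weierstrassP t ^ 3 = L0.g₃ := f2_XX t (XX_third t ht)
  have hb : AnalyticAt ℂ (fun z => L0.g₃ - L0.weierstrassP z ^ 3) t := by fun_prop
  obtain ⟨k, hk, hk2⟩ := h4_pow_factor hb 1 (by
    intro i hi
    have : i = 0 := by omega
    subst this
    simp [hv])
  have hd1 : HasDerivAt (fun z => L0.g₃ - L0.weierstrassP z ^ 3)
      (0 - 3 * L0.weierstrassP t ^ 2 * L0.derivWeierstrassP t) t := by
    have h2 := ((h5_hasDerivAt ht0).fun_pow 3).const_sub L0.g₃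
    refine h2.congr_deriv ?_
    push_cast
    ring
  have hd2 : HasDerivAt (fun z => (z - t) ^ 1 * k z) (k t) t := by
    have h1 : HasDerivAt (fun z : ℂ => (z - t)) 1 t := (hasDerivAt_id t).sub_const t
    have h2 := (h1.fun_pow 1).fun_mul hk.differentiableAt.hasDerivAt
    refine h2.congr_deriv ?_
    simp
  have hkt : k t = 0 - 3 * L0.weierstrassP t ^ 2 * L0.derivWeierstrassP t :=
    (hd2.congr_of_eventuallyEq hk2).unique hd1
  have hsq := h5_sq ht0
  have hk0 : k t ≠ 0 := by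
    intro h0
    rw [h0] at hkt
    have h1 : L0.weierstrassP t ≠ 0 := by
      intro h2
      rw [h2] at hv
      apply g3_ne
      rw [← hv]; ring
    have h2 : L0.derivWeierstrassP t = 0 := by
      have h3 : L0.weierstrassP t ^ 2 * L0.derivWeierstrassP t = 0 := by
        linear_combination (1 / 3 : ℂ) * hkt
      rcases mul_eq_zero.1 h3 with h4 | h4
      · exact absurd (pow_eq_zero_iff two_ne_zero |>.1 h4) h1
      · exact h4
    rw [h2, hv] at hsq
    apply g3_ne
    linear_combination (-1 / 3 : ℂ) * hsq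
  refine ⟨fun z => c * k z + (h z - Fz 0) * (z - t) * k z, by fun_prop, ?_, ?_⟩
  · simp [hc, hk0]
  · filter_upwards [hl, nhdsWithin_le_nhds hk2, self_mem_nhdsWithin] with z h1 h2 h3
    have h4 : z - t ≠ 0 := sub_ne_zero.2 h3
    rw [f2_G, h1, h2]
    field_simp
    ring

/-- local analytic extension at every point -/
theorem f2_local (t : ℂ) : ∃ h : ℂ → ℂ, AnalyticAt ℂ h t ∧ ∀ᶠ z in 𝓝[≠] t, f2_G z = h z := by
  by_cases hN : NP t
  · by_cases ht2 : t ∈ Set.range emb
    · obtain ⟨a, rfl⟩ := ht2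
      obtain ⟨h, hh, hl⟩ := f2_local_zero
      refine ⟨fun z => h (z - emb a), ?_, ?_⟩
      · have : AnalyticAt ℂ h (emb a - emb a) := by simpa using hh
        exact this.comp (f := fun z => z - emb a) (by fun_prop)
      · have h1 : Tendsto (fun z : ℂ => z - emb a) (𝓝[≠] (emb a)) (𝓝[≠] 0) := by
          apply tendsto_nhdsWithin_of_tendsto_nhds_of_eventually_within
          · have : Tendsto (fun z : ℂ => z - emb a) (𝓝 (emb a)) (𝓝 (emb a - emb a)) :=
              (Continuous.tendsto (by fun_prop) _)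
            rw [sub_self] at this
            exact this.mono_left nhdsWithin_le_nhds
          · filter_upwards [self_mem_nhdsWithin] with z hz
            exact sub_ne_zero.2 hz
        filter_upwards [h1.eventually hl] with z h2
        rw [← h2]
        have h3 := f2_G_add (z - emb a) a
        rw [sub_add_cancel] at h3
        exact h3
    · exact ⟨f2_G, f2_local_off t ht2 hN, Eventually.of_forall fun _ => rfl⟩
  · obtain ⟨h, hh, -, hl⟩ := f2_local_pole t hN
    exact ⟨h, hh, hl⟩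

theorem f2_Gt_of {h : ℂ → ℂ} {t : ℂ} (hh : ContinuousAt h t) (hl : ∀ᶠ z in 𝓝[≠] t, f2_G z = h z) :
    f2_Gt t = h t := by
  apply Tendsto.limUnder_eq
  have h1 : Tendsto h (𝓝[≠] t) (𝓝 (h t)) := hh.tendsto.mono_left nhdsWithin_le_nhds
  exact h1.congr' (hl.mono fun z hz => hz.symm)

theorem f2_Gt_analytic (t : ℂ) : AnalyticAt ℂ f2_Gt t := by
  obtain ⟨h, hh, hl⟩ := f2_local t
  refine hh.congr ?_
  rw [eventually_nhdsWithin_iff] at hl
  filter_upwards [hh.eventually_analyticAt, hl.eventually_nhds] with z h1 h2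
  symm
  by_cases hz : z = t
  · subst hz
    exact f2_Gt_of h1.continuousAt (eventually_nhdsWithin_iff.2 hl)
  · apply f2_Gt_of h1.continuousAt
    apply Filter.Eventually.filter_mono nhdsWithin_le_nhds
    filter_upwards [h2, (isOpen_compl_singleton.mem_nhds hz : ({t}ᶜ : Set ℂ) ∈ 𝓝 z)] with y h3 h4
    exact h3 h4

theorem f2_Gt_eq (z : ℂ) (h : z ∉ Set.range emb) (h2 : NP z) : f2_Gt z = f2_G z :=
  f2_Gt_of (f2_local_off z h h2).continuousAt (Eventually.of_forall fun _ => rfl)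

theorem f2_Gt_add (z : ℂ) (a : Eis) : f2_Gt (z + emb a) = f2_Gt z := by
  have h1 : Continuous f2_Gt := continuous_iff_continuousAt.2 fun t => (f2_Gt_analytic t).continuousAt
  have h2 : Tendsto (fun y => f2_Gt (y + emb a)) (𝓝[≠] z) (𝓝 (f2_Gt (z + emb a))) :=
    (Continuous.tendsto (by fun_prop) z).mono_left nhdsWithin_le_nhds
  have h3 : Tendsto f2_Gt (𝓝[≠] z) (𝓝 (f2_Gt z)) :=
    (h1.tendsto z).mono_left nhdsWithin_le_nhds
  refine tendsto_nhds_unique h2 (h3.congr' ?_)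
  filter_upwards [f2_near z] with y hy
  have hy1 : y + emb a ∉ Set.range emb := by
    rintro ⟨b, hb⟩
    exact hy.1 ⟨b - a, by rw [map_sub, hb]; ring⟩
  rw [f2_Gt_eq y hy.1 hy.2, f2_Gt_eq _ hy1 ((NP_add y a).2 hy.2), f2_G_add y]

theorem f2_Gt_const (z z' : ℂ) : f2_Gt z = f2_Gt z' := by
  have hd : Differentiable ℂ f2_Gt := fun x => (f2_Gt_analytic x).differentiableAt
  refine hd.apply_eq_apply_of_bounded (IsZLattice.isCompact_range_of_periodic L0.lattice _
    hd.continuous fun z w hw => ?_).isBounded z z'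
  obtain ⟨a, rfl⟩ := (mem_L0 w).1 hw
  exact f2_Gt_add z a

theorem XX_F : ∃ K : ℂ, K ≠ 0 ∧ ∀ z, z ∉ Set.range emb → NP z →
    (Fz z - Fz 0) * (1 + XX z) = K := by
  refine ⟨f2_Gt 0 / L0.g₃, ?_, ?_⟩
  · apply div_ne_zero _ g3_ne
    have hN : ¬ NP (-(1 / 3 : ℂ)) := by
      rw [NP]
      push Not
      refine ⟨0, ?_⟩
      rw [map_zero]
      norm_num
    obtain ⟨h, hh, h0, hl⟩ := f2_local_pole _ hN
    rw [f2_Gt_const 0 (-(1 / 3 : ℂ)), f2_Gt_of hh.continuousAt hl]
    exact h0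
  · intro z h1 h2
    rw [f2_Gt_const 0 z, f2_Gt_eq z h1 h2, f2_G, XX]
    have := g3_ne
    field_simp
    ring

end BS3
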