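import Pool.Agent.MP_ae0bd0_nt.B3.X2
import Pool.Agent.MP_ae0bd0_nt.B3.E3
import Pool.Agent.MP_ae0bd0_nt.B3.F2

set_option autoImplicit false

open scoped ComplexConjugate
open Filter Topology CM27

namespace BS3

/-! ## [BS3-B4] the points of order `4` (file B4.lean; uses X0, X2, E3, F2) -/

/-- a rational combination `(p + q w) / d` lies in `ℤ[ω]` only if `d` divides `p` and `q` -/
theorem b4_mem (p q d : ℤ) (hd : d ≠ 0)
    (h : ((p : ℂ) + q * w) / d ∈ Set.range emb) : d ∣ p ∧ d ∣ q := by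
  obtain ⟨a, ha⟩ := h
  have hd' : (d : ℂ) ≠ 0 := by exact_mod_cast hd
  have h1 : emb (⟨p, q⟩ : Eis) = emb ((d : Eis) * a) := by
    rw [map_mul, ha, emb_apply]
    simp only [map_intCast]
    field_simp
  have h2 := emb_injective h1
  have h3 : p = d * a.re := by
    have := congrArg QuadraticAlgebra.re h2
    simpa using this
  have h4 : q = d * a.im := by
    have := congrArg QuadraticAlgebra.im h2
    simpa using this
  exact ⟨⟨_, h3⟩, ⟨_, h4⟩⟩

theorem b4_quad (X : ℂ) (h : (-1 / 4 : ℂ) * (4 * X + 1) ^ 3 = X * (X - 2) ^ 3) :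
    2 * X ^ 2 + 10 * X - 1 = 0 := by
  have h1 : (2 * X ^ 2 + 10 * X - 1) ^ 2 = 0 := by linear_combination (-4) * h
  exact pow_eq_zero_iff (two_ne_zero) |>.1 h1

theorem XX_four : 2 * XX (1 / 4) ^ 2 + 10 * XX (1 / 4) - 1 = 0 ∧
    2 * XX ((2 + w) / 4) ^ 2 + 10 * XX ((2 + w) / 4) - 1 = 0 ∧
    XX (1 / 4) ≠ XX ((2 + w) / 4) := by
  have o1 : Off (1 / 4) := by
    intro h
    have h1 := b4_mem 1 0 2 (by norm_num) (by
      convert h using 1
      push_cast
      ring)
    omega
  have o2 : Off ((2 + w) / 4) := by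
    intro h
    have h1 := b4_mem 2 1 2 (by norm_num) (by
      convert h using 1
      push_cast
      ring)
    omega
  have e1 : 2 * XX (1 / 4) ^ 2 + 10 * XX (1 / 4) - 1 = 0 := by
    have h1 := XX_half (2 * (1 / 4)) o1 ⟨1, by rw [map_one]; ring⟩
    have h2 := XX_dup (1 / 4) o1
    apply b4_quad
    have h3 : XX (2 * (1 / 4)) = -1 / 4 := by linear_combination h1 / 4
    rw [h3] at h2
    exact h2
  have e2 : 2 * XX ((2 + w) / 4) ^ 2 + 10 * XX ((2 + w) / 4) - 1 = 0 := by
    have h1 := XX_half (2 * ((2 + w) / 4)) o2 ⟨⟨2, 1⟩, by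
      rw [emb_apply]
      push_cast
      ring⟩
    have h2 := XX_dup ((2 + w) / 4) o2
    apply b4_quad
    have h3 : XX (2 * ((2 + w) / 4)) = -1 / 4 := by linear_combination h1 / 4
    rw [h3] at h2
    exact h2
  refine ⟨e1, e2, ?_⟩
  intro heq
  have hu : IsUnit (⟨1, 1⟩ : Eis) := by
    refine IsUnit.of_mul_eq_one (⟨0, -1⟩ : Eis) ?_
    ext <;> simp [QuadraticAlgebra.re_one, QuadraticAlgebra.im_one]
  have hth : emb th = 1 + 2 * w := by
    rw [emb_apply]
    simp only [th]
    push_cast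
    ring
  have hoff : emb th * (1 / 4) ∉ Set.range emb := by
    intro h
    have h1 := b4_mem 1 2 4 (by norm_num) (by
      convert h using 1
      rw [hth]
      push_cast
      ring)
    omega
  have h1 := XX_sqrt (1 / 4) hoff
  have h2 : XX (emb th * (1 / 4)) = XX ((2 + w) / 4) := by
    rw [← XX_unit ((2 + w) / 4) ⟨1, 1⟩ hu]
    congr 1
    rw [hth, emb_apply]
    push_cast
    linear_combination (-1 / 4) * w_sq
  rw [h2, ← heq] at h1
  set X := XX (1 / 4) with hX
  have h3 : X = 5 / 52 := by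
    linear_combination (1 / 702) * h1 - ((14 * X - 137 / 2) / 702) * e1
  rw [h3] at e1
  norm_num at e1

theorem k_four : ((1 + XX (1 / 4))⁻¹ - (1 + XX ((2 + w) / 4))⁻¹) ^ 2 = 4 / 3 := by
  obtain ⟨h1, h2, h3⟩ := XX_four
  set X := XX (1 / 4) with hX
  set Y := XX ((2 + w) / 4) with hY
  have hs : X + Y = -5 := by
    have h4 : (X - Y) * (X + Y + 5) = 0 := by linear_combination (h1 - h2) / 2
    have h5 := (mul_eq_zero.1 h4).resolve_left (sub_ne_zero.2 h3)
    linear_combination h5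
  have hp : X * Y = -1 / 2 := by
    have h4 : Y = -5 - X := by linear_combination hs
    rw [h4]
    linear_combination -h1 / 2
  have hX1 : 1 + X ≠ 0 := by
    intro h
    have : X = -1 := by linear_combination h
    rw [this] at h1
    norm_num at h1
  have hY1 : 1 + Y ≠ 0 := by
    intro h
    have : Y = -1 := by linear_combination h
    rw [this] at h2
    norm_num at h2
  have h6 : (1 + X) * (1 + Y) = -9 / 2 := by linear_combination hs + hp
  have h7 : ((1 + X)⁻¹ - (1 + Y)⁻¹) * ((1 + X) * (1 + Y)) = Y - X := by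
    field_simp
    ring
  rw [h6] at h7
  have h8 : (Y - X) ^ 2 = 27 := by linear_combination (X + Y - 5) * hs - 4 * hp
  rw [← h7] at h8
  linear_combination (4 / 81) * h8

theorem Fst_four (K : ℂ) (hK : ∀ z, z ∉ Set.range emb → NP z → (Fz z - Fz 0) * (1 + XX z) = K) :
    Fst (1 / 4) - Fst ((2 + w) / 4) =
      K * ((1 + XX (1 / 4))⁻¹ - (1 + XX ((2 + w) / 4))⁻¹) := by
  obtain ⟨h1, h2, h3⟩ := XX_four
  have hX1 : 1 + XX (1 / 4) ≠ 0 := by
    intro h
    have : XX (1 / 4) = -1 := by linear_combination h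
    rw [this] at h1
    norm_num at h1
  have hY1 : 1 + XX ((2 + w) / 4) ≠ 0 := by
    intro h
    have : XX ((2 + w) / 4) = -1 := by linear_combination h
    rw [this] at h2
    norm_num at h2
  have r1 : (4 : ℂ) * (1 / 4) ∈ Set.range emb := ⟨1, by rw [map_one]; ring⟩
  have r2 : (4 : ℂ) * ((2 + w) / 4) ∈ Set.range emb := ⟨⟨2, 1⟩, by
      rw [emb_apply]
      push_cast
      ring⟩
  have n1 : NP (1 / 4) := NP_of 4 (by norm_num) _ (by exact_mod_cast r1)
  have n2 : NP ((2 + w) / 4) := NP_of 4 (by norm_num) _ (by exact_mod_cast r2)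
  have z1 : (1 / 4 : ℂ) ∉ Set.range emb := by
    intro h
    have h1 := b4_mem 1 0 4 (by norm_num) (by
      convert h using 1
      push_cast
      ring)
    omega
  have z2 : ((2 + w) / 4 : ℂ) ∉ Set.range emb := by
    intro h
    have h1 := b4_mem 2 1 4 (by norm_num) (by
      convert h using 1
      push_cast
      ring)
    omega
  have k1 := hK _ z1 n1
  have k2 := hK _ z2 n2
  rw [Fst_sub (1 / 4) ((2 + w) / 4) ⟨4, by norm_num, by exact_mod_cast r1⟩
    ⟨4, by norm_num, by exact_mod_cast r2⟩ n1 n2]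
  have m1 : Fz (1 / 4) - Fz 0 = K * (1 + XX (1 / 4))⁻¹ := by
    rw [← k1]
    field_simp
  have m2 : Fz ((2 + w) / 4) - Fz 0 = K * (1 + XX ((2 + w) / 4))⁻¹ := by
    rw [← k2]
    field_simp
  linear_combination m1 - m2

end BS3
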