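import Pool.Agent.MP_ae0bd0_nt.B3.S0

set_option autoImplicit false

open scoped ComplexConjugate
open Filter Topology CM27

namespace BS3

/-! ## [BS3-O1] sums of functions invariant under the units (file O1.lean; uses S0) -/

/-- `v ≡ 1` or `v ≡ 2 + ω` modulo `4`. -/
def o1_P (x y : ZMod 4) : Bool := (x == 1 && y == 0) || (x == 2 && y == 1)

theorem o1_count : ∀ x y : ZMod 4,
    ((if o1_P x y then 1 else 0) + (if o1_P (-x) (-y) then 1 else 0) +
      (if o1_P (-y) (x - y) then 1 else 0) + (if o1_P y (y - x) then 1 else 0) +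
      (if o1_P (x - y) x then 1 else 0) + (if o1_P (y - x) (-x) then 1 else 0) : ℕ) =
      if (x = 0 ∨ x = 2) ∧ (y = 0 ∨ y = 2) then 0 else 1 := by
  decide

/-- The part of `g` on the classes `1`, `2 + ω`. -/
noncomputable def o1_T (g : Eis → ℂ) (v : Eis) : ℂ :=
  if o1_P ((v.re : ℤ) : ZMod 4) ((v.im : ℤ) : ZMod 4) then g v else 0

theorem o1_T_per {M : ℕ} (h4 : 4 ∣ M) {g : Eis → ℂ} (hper : ∀ a b, g (a + (M : Eis) * b) = g a)
    (a b : Eis) : o1_T g (a + (M : Eis) * b) = o1_T g a := by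
  have hM : ((M : ℤ) : ZMod 4) = 0 := by
    have : (4 : ℤ) ∣ (M : ℤ) := by exact_mod_cast h4
    exact (ZMod.intCast_zmod_eq_zero_iff_dvd _ 4).2 this
  have h1 : (((a + (M : Eis) * b).re : ℤ) : ZMod 4) = ((a.re : ℤ) : ZMod 4) := by
    have : (a + (M : Eis) * b).re = a.re + M * b.re := by
      simp [QuadraticAlgebra.re_mul]
    rw [this]
    push_cast
    push_cast at hM
    rw [hM]; ring
  have h2 : (((a + (M : Eis) * b).im : ℤ) : ZMod 4) = ((a.im : ℤ) : ZMod 4) := by
    have : (a + (M : Eis) * b).im = a.im + M * b.im := by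
      simp [QuadraticAlgebra.im_mul]
    rw [this]
    push_cast
    push_cast at hM
    rw [hM]; ring
  rw [o1_T, o1_T, h1, h2, hper]

theorem o1_unit {e : Eis} (he : e ∈ U6) : IsUnit e := by
  rw [isUnit_iff_exists_inv]
  simp only [U6, Finset.mem_insert, Finset.mem_singleton] at he
  rcases he with rfl | rfl | rfl | rfl | rfl | rfl
  · exact ⟨⟨1, 0⟩, by decide⟩
  · exact ⟨⟨-1, 0⟩, by decide⟩
  · exact ⟨⟨-1, -1⟩, by decide⟩
  · exact ⟨⟨1, 1⟩, by decide⟩
  · exact ⟨⟨0, -1⟩, by decide⟩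
  · exact ⟨⟨0, 1⟩, by decide⟩

theorem o1_sum_U6 (f : Eis → ℂ) : ∑ e ∈ U6, f e =
    f ⟨1, 0⟩ + (f ⟨-1, 0⟩ + (f ⟨0, 1⟩ + (f ⟨0, -1⟩ + (f ⟨1, 1⟩ + f ⟨-1, -1⟩)))) := by
  rw [U6, Finset.sum_insert (by decide), Finset.sum_insert (by decide),
    Finset.sum_insert (by decide), Finset.sum_insert (by decide),
    Finset.sum_insert (by decide), Finset.sum_singleton]

theorem o1_split {g : Eis → ℂ} (hu : ∀ u a, IsUnit u → g (u * a) = g a)
    (h2 : ∀ a, ¬ Odd a.norm → g a = 0) (v : Eis) : ∑ e ∈ U6, o1_T g (e * v) = g v := by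
  have hT : ∀ e ∈ U6, o1_T g (e * v) =
      ((if o1_P (((e * v).re : ℤ) : ZMod 4) (((e * v).im : ℤ) : ZMod 4) then 1 else 0 : ℕ) : ℂ) *
        g v := by
    intro e he
    rw [o1_T, hu e v (o1_unit he)]
    split_ifs <;> simp
  rw [Finset.sum_congr rfl hT, ← Finset.sum_mul, ← Nat.cast_sum]
  have hc := o1_count ((v.re : ℤ) : ZMod 4) ((v.im : ℤ) : ZMod 4)
  have hsum : (∑ e ∈ U6, (if o1_P (((e * v).re : ℤ) : ZMod 4) (((e * v).im : ℤ) : ZMod 4)
      then 1 else 0 : ℕ)) =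
      if ((((v.re : ℤ) : ZMod 4) = 0 ∨ ((v.re : ℤ) : ZMod 4) = 2) ∧
        (((v.im : ℤ) : ZMod 4) = 0 ∨ ((v.im : ℤ) : ZMod 4) = 2)) then 0 else 1 := by
    rw [← hc, U6, Finset.sum_insert (by decide), Finset.sum_insert (by decide),
      Finset.sum_insert (by decide), Finset.sum_insert (by decide),
      Finset.sum_insert (by decide), Finset.sum_singleton]
    simp only [QuadraticAlgebra.re_mul, QuadraticAlgebra.im_mul]
    push_cast
    ring_nf
  rw [hsum]
  split_ifs with hcond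
  · rw [h2 v]
    · simp
    · rw [norm_eq]
      obtain ⟨h3, h4⟩ := hcond
      have key : ∀ n : ℤ, (((n : ℤ) : ZMod 4) = 0 ∨ ((n : ℤ) : ZMod 4) = 2) → Even n := by
        intro n hn
        rcases hn with hn | hn
        · have := (ZMod.intCast_zmod_eq_zero_iff_dvd n 4).1 hn
          obtain ⟨k, hk⟩ := this
          exact ⟨2 * k, by push_cast at hk; omega⟩
        · have h5 : ((n - 2 : ℤ) : ZMod 4) = 0 := by
            push_cast; rw [hn]; decide
          have := (ZMod.intCast_zmod_eq_zero_iff_dvd (n - 2) 4).1 h5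
          obtain ⟨k, hk⟩ := this
          exact ⟨2 * k + 1, by push_cast at hk; omega⟩
      obtain ⟨i, hi⟩ := key _ h3
      obtain ⟨j, hj⟩ := key _ h4
      rw [Int.not_odd_iff_even, hi, hj]
      exact ⟨2 * i ^ 2 - 2 * i * j + 2 * j ^ 2, by ring⟩
  · simp

theorem val_rsum_lt (A : ValuationSubring ℂ) (M : ℕ) (hM : M ≠ 0) (h4 : 4 ∣ M) (g : Eis → ℂ)
    (hper : ∀ a b, g (a + (M : Eis) * b) = g a) (hu : ∀ u a, IsUnit u → g (u * a) = g a)
    (h2 : ∀ a, ¬ Odd a.norm → g a = 0) (hr : ∀ a, A.valuation (g a) < 1) :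
    A.valuation (rsum M g) < A.valuation 6 := by
  have hT1 : ∀ a, A.valuation (o1_T g a) < 1 := by
    intro a
    rw [o1_T]
    split_ifs
    · exact hr a
    · rw [map_zero]; exact zero_lt_one
  have hsum : rsum M g = 6 * rsum M (o1_T g) := by
    have h1 : rsum M g = ∑ e ∈ U6, rsum M (fun v => o1_T g (e * v)) := by
      have : ∀ v, g v = ∑ e ∈ U6, o1_T g (e * v) := fun v => (o1_split hu h2 v).symm
      simp only [rsum]
      rw [Finset.sum_comm]
      rw [Finset.sum_comm (s := U6)]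
      rw [Finset.sum_comm]
      refine Finset.sum_congr rfl fun i _ => ?_
      rw [Finset.sum_comm]
      exact Finset.sum_congr rfl fun j _ => this _
    have h3 : ∀ e ∈ U6, rsum M (fun v => o1_T g (e * v)) = rsum M (o1_T g) := by
      intro e he
      refine rsum_mul M hM (o1_T g) (o1_T_per h4 hper) e ?_
      obtain ⟨u, hu'⟩ := isUnit_iff_exists_inv'.1 (o1_unit he)
      exact ⟨u, 0, by rw [hu', zero_mul, add_zero]⟩
    rw [h1, Finset.sum_congr rfl h3, Finset.sum_const]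
    have : U6.card = 6 := by decide
    rw [this]
    simp
  have hS : A.valuation (rsum M (o1_T g)) < 1 := by
    rw [rsum]
    refine Valuation.map_sum_lt _ one_ne_zero fun i _ => ?_
    exact Valuation.map_sum_lt _ one_ne_zero fun j _ => hT1 _
  have h6 : A.valuation 6 ≠ 0 := by
    rw [Valuation.ne_zero_iff]; norm_num
  rw [hsum, map_mul]
  calc A.valuation 6 * A.valuation (rsum M (o1_T g)) < A.valuation 6 * 1 :=
        mul_lt_mul_of_pos_left hS (zero_lt_iff.2 h6)
    _ = A.valuation 6 := mul_one _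

end BS3
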