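import Pool.Agent.MP_ae0bd0_nt.B3.Defs
import Pool.Agent.MP_ae0bd0_nt.CM.I1

set_option autoImplicit false

open scoped ComplexConjugate
open CM27

namespace BS3

/-! ## [BS3-V1] a valuation ring of the complex numbers above `3` (file V1.lean) -/

theorem exists_val3 : ∃ A : ValuationSubring ℂ, A.valuation 3 < 1 := by
  classical
  set R : Subring ℂ := (Int.castRingHom ℂ).range with hR
  let three : R := ⟨3, ⟨3, by simp⟩⟩
  have hI : (Ideal.span {three} : Ideal R) ≠ ⊤ := by
    rw [Ne, Ideal.eq_top_iff_one, Ideal.mem_span_singleton']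
    rintro ⟨⟨a, n, hn⟩, ha⟩
    have h1 := congrArg Subtype.val ha
    simp only [Subring.coe_mul, Subring.coe_one, three] at h1
    rw [← hn] at h1
    simp only [eq_intCast] at h1
    have h2 : n * 3 = 1 := by exact_mod_cast h1
    omega
  obtain ⟨B, -, hB⟩ := Ideal.image_subset_nonunits_valuationSubring _ hI
  refine ⟨B, ?_⟩
  have h2 : (3 : ℂ) ∈ B.nonunits := hB ⟨three, Ideal.mem_span_singleton_self three, rfl⟩
  exact (ValuationSubring.mem_nonunits_iff B).1 h2

theorem val_emb_le (A : ValuationSubring ℂ) (a : Eis) : A.valuation (emb a) ≤ 1 :=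
  CM27.val_emb A a

theorem val_int3 (A : ValuationSubring ℂ) (h3 : A.valuation 3 < 1) (n : ℤ) (hn : ¬ 3 ∣ n) :
    A.valuation (n : ℂ) = 1 := by
  refine le_antisymm (i1_val_int A n) ?_
  by_contra h
  push Not at h
  have hcop : IsCoprime n 3 := by
    have h1 : IsCoprime (3 : ℤ) n := (Int.isCoprime_iff_gcd_eq_one).2 (by
      have hp : Nat.Prime 3 := Nat.prime_three
      have h2 : ¬ 3 ∣ n.natAbs := fun hd => hn (by
        have := Int.natCast_dvd_natCast.2 hd
        rw [Int.dvd_natAbs] at this
        exact_mod_cast this)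
      have h3 := (Nat.Prime.coprime_iff_not_dvd hp).2 h2
      simpa [Int.gcd] using h3)
    exact h1.symm
  obtain ⟨a, b, hab⟩ := hcop
  have h4 : (1 : ℂ) = a * n + b * 3 := by
    have := congrArg (Int.cast : ℤ → ℂ) hab
    push_cast at this
    exact this.symm
  have h5 : A.valuation (1 : ℂ) < 1 := by
    rw [h4]
    refine Valuation.map_add_lt _ ?_ ?_
    · rw [map_mul]
      calc A.valuation (a : ℂ) * A.valuation (n : ℂ) ≤ 1 * A.valuation (n : ℂ) :=
            mul_le_mul_left (i1_val_int A a) _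
        _ < 1 := by rw [one_mul]; exact h
    · rw [map_mul]
      calc A.valuation (b : ℂ) * A.valuation 3 ≤ 1 * A.valuation 3 :=
            mul_le_mul_left (i1_val_int A b) _
        _ < 1 := by rw [one_mul]; exact h3
  rw [map_one] at h5
  exact lt_irrefl _ h5

theorem val_norm3 (A : ValuationSubring ℂ) (h3 : A.valuation 3 < 1) (a : Eis)
    (ha : ¬ (3 : ℤ) ∣ a.norm) : A.valuation (emb a) = 1 := by
  refine le_antisymm (val_emb A a) ?_
  have h4 : emb a * emb (star a) = ((a.norm : ℤ) : ℂ) := by
    rw [emb_star, Complex.mul_conj, normSq_emb]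
    push_cast
    rfl
  have h5 := val_int3 A h3 a.norm ha
  rw [← h4, map_mul] at h5
  by_contra h
  push Not at h
  have h6 : A.valuation (emb a) * A.valuation (emb (star a)) ≤ A.valuation (emb a) * 1 :=
    mul_le_mul_right (val_emb A _) _
  rw [h5, mul_one] at h6
  exact absurd h6 (not_le.2 h)

theorem v1_th_sq : emb th ^ 2 = -3 := by
  have h := w_sq
  rw [emb_apply]
  simp only [th]
  push_cast
  linear_combination 4 * h

theorem val_th (A : ValuationSubring ℂ) : A.valuation (emb th) ^ 2 = A.valuation 3 := by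
  rw [← map_pow, v1_th_sq, Valuation.map_neg]

theorem v1_cube_sub (A : ValuationSubring ℂ) (h3 : A.valuation 3 < 1) (x : ℂ)
    (hx : A.valuation x ≤ 1) (h : A.valuation (x ^ 3 - 1) < 1) : A.valuation (x - 1) < 1 := by
  have hx1 : A.valuation (x - 1) ≤ 1 := by
    refine (Valuation.map_sub _ _ _).trans ?_
    rw [map_one]
    exact max_le hx le_rfl
  have h4 : A.valuation (3 * (x * (x - 1))) < 1 := by
    rw [map_mul, map_mul]
    calc A.valuation 3 * (A.valuation x * A.valuation (x - 1)) ≤ A.valuation 3 * (1 * 1) :=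
          mul_le_mul_right (mul_le_mul' hx hx1) _
      _ < 1 := by rw [mul_one, mul_one]; exact h3
  have h5 : A.valuation ((x - 1) ^ 3) < 1 := by
    have e : (x - 1) ^ 3 = (x ^ 3 - 1) - 3 * (x * (x - 1)) := by ring
    rw [e]
    exact Valuation.map_sub_lt _ h h4
  rw [map_pow] at h5
  by_contra h6
  push Not at h6
  exact absurd h5 (not_lt.2 (one_le_pow₀ h6))

theorem val_root3 (A : ValuationSubring ℂ) (h3 : A.valuation 3 < 1) (ζ : ℂ) (n : ℕ)
    (h : ζ ^ 3 ^ n = 1) : A.valuation ζ = 1 ∧ A.valuation (ζ - 1) < 1 := by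
  have h1 : A.valuation ζ = 1 := by
    have h3 := congrArg A.valuation h
    rw [map_pow, map_one] at h3
    exact (pow_eq_one_iff.1 h3).resolve_right (by positivity)
  refine ⟨h1, ?_⟩
  have key : ∀ n : ℕ, ∀ x : ℂ, A.valuation x = 1 → x ^ 3 ^ n = 1 → A.valuation (x - 1) < 1 := by
    intro n
    induction n with
    | zero =>
      intro x _ hx
      simp only [pow_zero, pow_one] at hx
      rw [hx, sub_self, map_zero]
      exact zero_lt_one
    | succ n ih =>
      intro x hx1 hx
      refine v1_cube_sub A h3 x hx1.le (ih (x ^ 3) (by rw [map_pow, hx1, one_pow]) ?_)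
      rw [← pow_mul, ← pow_succ']
      exact hx
  exact key n ζ h1 h

end BS3
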