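import Pool.Agent.MP_ae0bd0_nt.B3.T1
import Pool.Agent.MP_ae0bd0_nt.B3.V1
import Pool.Agent.MP_ae0bd0_nt.CM.A3

set_option autoImplicit false

open scoped ComplexConjugate
open scoped Classical
open Filter Topology CM27

namespace BS3

/-! ## [BS3-T2] the level `4 m` (file T2.lean; uses T1, V1) -/

theorem t2_ne (M : ℕ) (hM : M ≠ 0) : (M : Eis) ≠ 0 := by
  intro h
  have h1 := congrArg QuadraticAlgebra.re h
  simp at h1
  omega

theorem t2_per (M : ℕ) (hM : M ≠ 0) (h4 : 4 ∣ M) (a b : Eis) :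
    (if IsCoprime (a + (M : Eis) * b) (M : Eis) then
      ch4 (a + (M : Eis) * b) * Fst (emb (a + (M : Eis) * b) / M) else 0) =
    (if IsCoprime a (M : Eis) then ch4 a * Fst (emb a / M) else 0) := by
  have hc : IsCoprime (a + (M : Eis) * b) (M : Eis) ↔ IsCoprime a (M : Eis) :=
    IsCoprime.add_mul_left_left_iff
  simp only [hc]
  split_ifs with h
  · have hMC : (M : ℂ) ≠ 0 := by exact_mod_cast hM
    have e1 : emb (a + (M : Eis) * b) / M = emb a / M + emb b := by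
      rw [map_add, map_mul, map_natCast]
      field_simp
    have e2 : ch4 (a + (M : Eis) * b) = ch4 a := by
      obtain ⟨k, rfl⟩ := h4
      have : a + ((4 * k : ℕ) : Eis) * b = a + 4 * ((k : Eis) * b) := by
        push_cast
        ring
      rw [this, ch4_per]
    have e3 : Tors (emb a / M) := by
      have := tors_div a (M : Eis) (t2_ne M hM)
      rwa [map_natCast] at this
    rw [e1, e2, Fst_add _ e3]
  · rfl

theorem TS_rsum (M : ℕ) (hM : M ≠ 0) (h4 : 4 ∣ M) : TS (M : Eis) =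
    rsum M (fun v => if IsCoprime v (M : Eis) then ch4 v * Fst (emb v / M) else 0) := by
  rw [← rsum_quot M hM _ (t2_per M hM h4), TS, map_natCast]

theorem t2_class (u v k : Eis) (hu : IsUnit u) :
    Fst (emb (u * v + 4 * k) / 4) = Fst (emb v / 4) := by
  have h4 : (4 : Eis) ≠ 0 := by
    have := t2_ne 4 (by norm_num)
    rwa [Nat.cast_ofNat] at this
  have e : emb (u * v + 4 * k) / 4 = emb u * (emb v / 4) + emb k := by
    rw [map_add, map_mul, map_mul, map_ofNat]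
    ring
  have ht : Tors (emb v / 4) := by
    have := tors_div v 4 h4
    rwa [map_ofNat] at this
  rw [e, Fst_add _ (tors_mul ht u), Fst_unit _ ht u hu]

theorem t2_cop (a : Eis) : IsCoprime a ((4 : ℕ) : Eis) ↔ a.norm % 2 = 1 := by
  rw [coprime_iff, show ((4 : ℕ) : ℤ) = 2 ^ 2 by norm_num, IsCoprime.pow_right_iff two_pos,
    Int.isCoprime_iff_gcd_eq_one, ← Int.odd_iff]
  constructor
  · intro h
    by_contra hc
    rw [Int.not_odd_iff_even] at hc
    obtain ⟨k, hk⟩ := hc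
    have h2 : (2 : ℤ) ∣ (Int.gcd a.norm 2 : ℤ) := Int.dvd_coe_gcd ⟨k, by omega⟩ dvd_rfl
    rw [h] at h2
    norm_num at h2
  · intro h
    rw [← Int.isCoprime_iff_gcd_eq_one]
    obtain ⟨k, hk⟩ := h
    exact ⟨1, -k, by rw [hk]; ring⟩

theorem t2_term1 (x u k : Eis) (hu : u ∈ U6) (hx : x = u * 1 + 4 * k)
    (hn : x.norm % 4 = 1) :
    (if IsCoprime x ((4 : ℕ) : Eis) then ch4 x * Fst (emb x / (4 : ℕ)) else 0) = Fst (1 / 4) := by
  rw [if_pos ((t2_cop x).2 (by omega))]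
  have h1 : ch4 x = 1 := by
    unfold ch4
    have : ((x.norm : ℤ) : ZMod 4) = 1 := by
      have h2 : (4 : ℤ) ∣ x.norm - 1 := by omega
      have h3 := (ZMod.intCast_zmod_eq_zero_iff_dvd (x.norm - 1) 4).2 (by exact_mod_cast h2)
      push_cast at h3
      exact sub_eq_zero.1 h3
    rw [this]
    simp
  have h2 := t2_class u 1 k ((mem_U6 u).1 hu)
  rw [map_one] at h2
  rw [h1, one_mul, hx]
  push_cast
  exact h2

theorem t2_term2 (x u k : Eis) (hu : u ∈ U6) (hx : x = u * ⟨2, 1⟩ + 4 * k)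
    (hn : x.norm % 4 = 3) :
    (if IsCoprime x ((4 : ℕ) : Eis) then ch4 x * Fst (emb x / (4 : ℕ)) else 0) =
      - Fst ((2 + w) / 4) := by
  rw [if_pos ((t2_cop x).2 (by omega))]
  have h1 : ch4 x = -1 := by
    unfold ch4
    have : ((x.norm : ℤ) : ZMod 4) = 3 := by
      have h2 : (4 : ℤ) ∣ x.norm - 3 := by omega
      have h3 := (ZMod.intCast_zmod_eq_zero_iff_dvd (x.norm - 3) 4).2 (by exact_mod_cast h2)
      push_cast at h3
      exact sub_eq_zero.1 h3
    rw [this]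
    have h5 : ZMod.χ₄ (3 : ZMod 4) = -1 := by decide
    rw [h5]
    simp
  have h2 := t2_class u ⟨2, 1⟩ k ((mem_U6 u).1 hu)
  have h3 : emb (⟨2, 1⟩ : Eis) = 2 + w := by
    rw [emb_apply]
    push_cast
    ring
  rw [h3] at h2
  have h6 : ((4 : ℕ) : ℂ) = 4 := by norm_num
  rw [h1, hx, neg_one_mul, h6, h2]

theorem t2_term0 (x : Eis) (hn : x.norm % 2 = 0) :
    (if IsCoprime x ((4 : ℕ) : Eis) then ch4 x * Fst (emb x / (4 : ℕ)) else 0) = 0 := by
  rw [if_neg]
  rw [t2_cop]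
  omega

theorem TS_four : TS 4 = 6 * (Fst (1 / 4) - Fst ((2 + w) / 4)) := by
  have h := TS_rsum 4 (by norm_num) dvd_rfl
  have e : ((4 : ℕ) : Eis) = 4 := by push_cast; rfl
  have h4 : (4 : Eis) = ⟨4, 0⟩ := rfl
  have h' : TS 4 = TS ((4 : ℕ) : Eis) := by rw [e]
  rw [h', h, rsum]
  simp only [Finset.sum_range_succ, Finset.sum_range_zero, zero_add]
  rw [t2_term0 ⟨(0 : ℕ), (0 : ℕ)⟩ (by rw [norm_eq]; norm_num),
    t2_term1 ⟨(0 : ℕ), (1 : ℕ)⟩ ⟨0, 1⟩ 0 (by simp [U6]) (by ext <;> simp)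
      (by rw [norm_eq]; norm_num),
    t2_term0 ⟨(0 : ℕ), (2 : ℕ)⟩ (by rw [norm_eq]; norm_num),
    t2_term1 ⟨(0 : ℕ), (3 : ℕ)⟩ ⟨0, -1⟩ ⟨0, 1⟩ (by simp [U6]) (by rw [h4]; ext <;> simp)
      (by rw [norm_eq]; norm_num),
    t2_term1 ⟨(1 : ℕ), (0 : ℕ)⟩ ⟨1, 0⟩ 0 (by simp [U6]) (by ext <;> simp)
      (by rw [norm_eq]; norm_num),
    t2_term1 ⟨(1 : ℕ), (1 : ℕ)⟩ ⟨1, 1⟩ 0 (by simp [U6]) (by ext <;> simp)
      (by rw [norm_eq]; norm_num),
    t2_term2 ⟨(1 : ℕ), (2 : ℕ)⟩ ⟨1, 1⟩ 0 (by simp [U6]) (by ext <;> simp)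
      (by rw [norm_eq]; norm_num),
    t2_term2 ⟨(1 : ℕ), (3 : ℕ)⟩ ⟨0, -1⟩ ⟨0, 1⟩ (by simp [U6]) (by rw [h4]; ext <;> simp)
      (by rw [norm_eq]; norm_num),
    t2_term0 ⟨(2 : ℕ), (0 : ℕ)⟩ (by rw [norm_eq]; norm_num),
    t2_term2 ⟨(2 : ℕ), (1 : ℕ)⟩ ⟨1, 0⟩ 0 (by simp [U6]) (by ext <;> simp)
      (by rw [norm_eq]; norm_num),
    t2_term0 ⟨(2 : ℕ), (2 : ℕ)⟩ (by rw [norm_eq]; norm_num),
    t2_term2 ⟨(2 : ℕ), (3 : ℕ)⟩ ⟨-1, 0⟩ ⟨1, 1⟩ (by simp [U6]) (by rw [h4]; ext <;> simp)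
      (by rw [norm_eq]; norm_num),
    t2_term1 ⟨(3 : ℕ), (0 : ℕ)⟩ ⟨-1, 0⟩ ⟨1, 0⟩ (by simp [U6]) (by rw [h4]; ext <;> simp)
      (by rw [norm_eq]; norm_num),
    t2_term2 ⟨(3 : ℕ), (1 : ℕ)⟩ ⟨0, 1⟩ ⟨1, 0⟩ (by simp [U6]) (by rw [h4]; ext <;> simp)
      (by rw [norm_eq]; norm_num),
    t2_term2 ⟨(3 : ℕ), (2 : ℕ)⟩ ⟨-1, -1⟩ ⟨1, 1⟩ (by simp [U6]) (by rw [h4]; ext <;> simp)
      (by rw [norm_eq]; norm_num),
    t2_term1 ⟨(3 : ℕ), (3 : ℕ)⟩ ⟨-1, -1⟩ ⟨1, 1⟩ (by simp [U6]) (by rw [h4]; ext <;> simp)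
      (by rw [norm_eq]; norm_num)]
  ring

theorem t2_norm_mul (a b : Eis) : (a * b).norm = a.norm * b.norm := map_mul _ _ _

theorem t2_norm_star (a : Eis) : (star a).norm = a.norm := by
  rw [norm_eq, norm_eq]
  simp only [QuadraticAlgebra.re_star, QuadraticAlgebra.im_star]
  ring

theorem t2_coprime_int (a b : ℤ) : IsCoprime (a : Eis) (b : Eis) ↔ IsCoprime a b := by
  constructor
  · rintro ⟨u, v, h⟩
    refine ⟨u.re, v.re, ?_⟩
    have h1 := congrArg QuadraticAlgebra.re h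
    simpa only [QuadraticAlgebra.re_add, QuadraticAlgebra.re_mul, QuadraticAlgebra.re_intCast,
      QuadraticAlgebra.im_intCast, QuadraticAlgebra.re_one, mul_zero, add_zero, Int.cast_id]
      using h1
  · intro h
    have := h.map (Int.castRingHom Eis)
    simpa using this

/-- a prime of norm `p`, `p ≡ 1 mod 3`, is coprime to its conjugate -/
theorem t2_coprime_star (p : ℕ) (hp : p.Prime) (h : p % 3 = 1) (a : Eis) (hn : a.norm = p) :
    IsCoprime a (star a) := by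
  have hpp : Prime (p : ℤ) := Nat.prime_iff_prime_int.1 hp
  -- the trace is prime to `p`
  have htr : IsCoprime (2 * a.re - a.im) (p : ℤ) := by
    rw [isCoprime_comm, Prime.coprime_iff_not_dvd hpp]
    intro hd
    have e : 4 * (p : ℤ) = (2 * a.re - a.im) ^ 2 + 3 * a.im ^ 2 := by
      rw [← hn, norm_eq]
      ring
    have h1 : (p : ℤ) ∣ 3 * a.im ^ 2 := by
      have : (p : ℤ) ∣ 4 * (p : ℤ) - (2 * a.re - a.im) ^ 2 :=
        dvd_sub (dvd_mul_left _ _) (dvd_pow hd two_ne_zero)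
      rw [e] at this
      simpa using this
    have h3 : ¬ (p : ℤ) ∣ 3 := by
      intro h3
      have h4 : p ∣ 3 := by exact_mod_cast h3
      have h5 := (Nat.prime_dvd_prime_iff_eq hp Nat.prime_three).1 h4
      rw [h5] at h
      omega
    have h2 : (p : ℤ) ∣ a.im := by
      rcases hpp.dvd_or_dvd h1 with h4 | h4
      · exact absurd h4 h3
      · exact hpp.dvd_of_dvd_pow h4
    have h5 : (p : ℤ) ∣ a.re ^ 2 := by
      have e2 : a.re ^ 2 = p + a.im * (a.re - a.im) := by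
        rw [← hn, norm_eq]
        ring
      rw [e2]
      exact dvd_add dvd_rfl (Dvd.dvd.mul_right h2 _)
    have h6 : (p : ℤ) ∣ a.re := hpp.dvd_of_dvd_pow h5
    obtain ⟨u, hu⟩ := h2
    obtain ⟨v, hv⟩ := h6
    have h7 : (p : ℤ) = (p : ℤ) * (p * (v ^ 2 - v * u + u ^ 2)) := by
      conv_lhs => rw [← hn, norm_eq, hu, hv]
      ring
    have h8 : (p : ℤ) * (v ^ 2 - v * u + u ^ 2) = 1 := by
      have hp0 : (p : ℤ) ≠ 0 := hpp.ne_zero
      apply mul_left_cancel₀ hp0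
      rw [← h7, mul_one]
    exact hpp.not_isUnit (IsUnit.of_mul_eq_one _ h8)
  have h1 : IsCoprime ((2 * a.re - a.im : ℤ) : Eis) ((p : ℤ) : Eis) := (t2_coprime_int _ _).2 htr
  have h2 : ((2 * a.re - a.im : ℤ) : Eis) = star a + a * 1 := by
    ext
    · simp only [QuadraticAlgebra.re_intCast, QuadraticAlgebra.re_add, QuadraticAlgebra.re_star,
        mul_one, Int.cast_id]
      ring
    · simp only [QuadraticAlgebra.im_intCast, QuadraticAlgebra.im_add, QuadraticAlgebra.im_star,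
        mul_one]
      ring
  have h3 : ((p : ℤ) : Eis) = a * star a := by rw [a3_mul_star, hn]
  rw [h2, h3] at h1
  have h4 := h1.of_mul_right_left
  exact (IsCoprime.add_mul_left_left_iff.1 h4).symm

/-- the factor `π + 1` is a unit above `3` -/
theorem t2_factor (A : ValuationSubring ℂ) (hA : A.valuation 3 < 1) (a : Eis) (ha : Primary a) :
    A.valuation (emb a + 1) = 1 := by
  have h1 : emb a + 1 = emb (a + 1) := by rw [map_add, map_one]
  rw [h1]
  apply val_norm3 A hA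
  intro hd
  rw [primary_iff] at ha
  have h2 := a3_norm_mod (a + 1)
  simp only [QuadraticAlgebra.re_add, QuadraticAlgebra.im_add, QuadraticAlgebra.re_one,
    QuadraticAlgebra.im_one] at h2
  have h3 : (a.re + 1 + (a.im + 0)) % 3 = 2 := by omega
  rw [pow_two, Int.mul_emod, h3] at h2
  omega

theorem t2_ch4 (p : ℕ) (hp : p % 12 = 7) (a : Eis) (hn : a.norm = p) : ch4 a = -1 := by
  unfold ch4
  rw [hn]
  have : (((p : ℤ) : ZMod 4)) = 3 := by
    have h2 : (4 : ℤ) ∣ (p : ℤ) - 3 := by omega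
    have h3 := (ZMod.intCast_zmod_eq_zero_iff_dvd ((p : ℤ) - 3) 4).2 (by exact_mod_cast h2)
    push_cast at h3
    push_cast
    exact sub_eq_zero.1 h3
  rw [this]
  have h5 : ZMod.χ₄ (3 : ZMod 4) = -1 := by decide
  rw [h5]
  simp

theorem t2_odd (m : ℕ) (hm : ∀ p, p.Prime → p ∣ m → p % 12 = 7) : ¬ 2 ∣ m := by
  intro h
  have := hm 2 Nat.prime_two h
  omega

theorem TS_level (m : ℕ) (hm : Good m) : ∃ P : ℂ, TS ((4 * m : ℕ) : Eis) = P * TS 4 ∧
    ∀ A : ValuationSubring ℂ, A.valuation 3 < 1 → A.valuation P = 1 := by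
  have hpos : ∀ m : ℕ, Good m → 0 < m := by
    intro m hm
    rcases Nat.eq_zero_or_pos m with h | h
    · exfalso
      have := hm.1
      rw [h] at this
      exact not_squarefree_zero this
    · exact h
  induction m using Nat.strong_induction_on with
  | _ m ih =>
    rcases Nat.eq_or_lt_of_le (hpos m hm) with h1 | h1
    · refine ⟨1, ?_, fun A _ => map_one _⟩
      have : m = 1 := h1.symm
      subst this
      rw [one_mul]
      norm_num
    · have hp := Nat.minFac_prime (show m ≠ 1 by omega)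
      obtain ⟨m', hm'⟩ := Nat.minFac_dvd m
      set p := m.minFac with hpdef
      have hgood : p % 12 = 7 := hm.2 p hp ⟨m', hm'⟩
      have hsq := hm.1
      rw [hm'] at hsq
      obtain ⟨hcop, -, hsq'⟩ := Nat.squarefree_mul_iff.1 hsq
      have hlevel : Good m' :=
        ⟨hsq', fun q hq hd => hm.2 q hq (by rw [hm']; exact Dvd.dvd.mul_left hd _)⟩
      have hm'0 := hpos m' hlevel
      have hlt : m' < m := by
        have := hp.two_le
        rw [hm']
        nlinarith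
      obtain ⟨P, hP, hPv⟩ := ih m' hlt hlevel
      obtain ⟨a, ha, hn⟩ := exists_primary_prime p hp (by omega)
      have hn2 : (star a).norm = p := by rw [t2_norm_star, hn]
      have hodd : ¬ 2 ∣ m' := t2_odd m' hlevel.2
      have hcop4 : Nat.Coprime p (4 * m') := by
        refine Nat.Coprime.mul_right ?_ hcop
        rw [show (4 : ℕ) = 2 ^ 2 by norm_num]
        refine Nat.Coprime.pow_right 2 ?_
        rw [Nat.coprime_primes hp Nat.prime_two]
        intro h
        rw [h] at hgood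
        omega
      have hcopE : ∀ b : Eis, b.norm = p → IsCoprime ((4 * m' : ℕ) : Eis) b := by
        intro b hb
        rw [isCoprime_comm, coprime_iff, hb]
        exact Nat.isCoprime_iff_coprime.2 hcop4
      have h0 : ((4 * m' : ℕ) : Eis) ≠ 0 := t2_ne _ (by omega)
      have hd4 : (4 : Eis) ∣ ((4 * m' : ℕ) : Eis) := ⟨(m' : Eis), by push_cast; ring⟩
      have hdom := eis_isDomain
      have ha0 : a ≠ 0 := by
        rintro rfl
        have : (0 : Eis).norm = 0 := by rw [norm_eq]; simp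
        rw [this] at hn
        have := hp.pos
        omega
      have e1 := TS_mul ((4 * m' : ℕ) : Eis) a hd4 h0 ha p hp hn (hcopE a hn)
      have e2 := TS_mul (((4 * m' : ℕ) : Eis) * a) (star a) (Dvd.dvd.mul_right hd4 _)
        (mul_ne_zero h0 ha0) ha.star p hp hn2
        (IsCoprime.mul_left (hcopE _ hn2) (t2_coprime_star p hp (by omega) a hn))
      have e3 : ((4 * m : ℕ) : Eis) = ((4 * m' : ℕ) : Eis) * a * star a := by
        rw [mul_assoc, a3_mul_star, hn]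
        conv_lhs => rw [hm']
        push_cast
        ring
      refine ⟨(emb (star a) + 1) * (emb a + 1) * P, ?_, ?_⟩
      · rw [e3, e2, e1, hP, t2_ch4 p hgood a hn, t2_ch4 p hgood _ hn2]
        ring
      · intro A hA
        rw [map_mul, map_mul, hPv A hA, mul_one, t2_factor A hA a ha,
          t2_factor A hA (star a) ha.star, mul_one]

end BS3
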