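import Pool.Agent.MP_ae0bd0_nt.B3.X3
import Pool.Agent.MP_ae0bd0_nt.B3.B4
import Pool.Agent.MP_ae0bd0_nt.B3.T2
import Pool.Agent.MP_ae0bd0_nt.B3.O1

set_option autoImplicit false

open scoped ComplexConjugate
open scoped Classical
open Filter Topology CM27

namespace BS3

/-! ## [BS3-N1] non-vanishing (file N1.lean) -/

theorem n1_hh_add (z : ℂ) (a : Eis) : hh (z + emb a) = hh z := by
  rw [hh, hh, SS, SS, XX_add]

theorem n1_hh_unit (z : ℂ) (u : Eis) (hu : IsUnit u) : hh (emb u * z) = hh z := by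
  rw [hh, hh, SS, SS, XX_unit z u hu]

theorem n1_ch4_sq (a : Eis) (h : Odd a.norm) : ch4 a * ch4 a = 1 := by
  unfold ch4
  have : (ZMod.χ₄ ((a.norm : ℤ) : ZMod 4)) = 1 ∨ (ZMod.χ₄ ((a.norm : ℤ) : ZMod 4)) = -1 := by
    have h1 : a.norm % 4 = 1 ∨ a.norm % 4 = 3 := by
      rw [Int.odd_iff] at h; omega
    rcases h1 with h1 | h1
    · exact Or.inl (ZMod.χ₄_int_one_mod_four h1)
    · exact Or.inr (ZMod.χ₄_int_three_mod_four h1)
  rcases this with h1 | h1 <;> rw [h1] <;> norm_num

theorem n1_odd (M : ℕ) (h4 : 4 ∣ M) (a : Eis) (h : IsCoprime a (M : Eis)) : Odd a.norm := by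
  rw [coprime_iff] at h
  rw [← Int.not_even_iff_odd, even_iff_two_dvd]
  intro h2
  have h3 : (2 : ℤ) ∣ (M : ℤ) := by
    have : (4 : ℤ) ∣ (M : ℤ) := by exact_mod_cast h4
    omega
  have := h.isUnit_of_dvd' h2 h3
  norm_num [Int.isUnit_iff] at this

/-- the base character: `χ₋₄ ∘ N` restricted to the classes prime to `M` -/
noncomputable def n1_base (M : ℕ) (a : Eis) : ℂ := if IsCoprime a (M : Eis) then ch4 a else 0

theorem n1_coprime_per (M : ℕ) (a b : Eis) :
    IsCoprime (a + (M : Eis) * b) (M : Eis) ↔ IsCoprime a (M : Eis) :=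
  IsCoprime.add_mul_left_left_iff

theorem n1_isCh_base (M : ℕ) (h4 : 4 ∣ M) : IsCh M (n1_base M) where
  one := by
    rw [n1_base, if_pos isCoprime_one_left]
    have h1 : ((1 : Eis).norm : ℤ) = 1 := map_one _
    simp only [ch4, h1]
    simp
  mul a b := by
    by_cases ha : IsCoprime a (M : Eis)
    · by_cases hb : IsCoprime b (M : Eis)
      · rw [n1_base, n1_base, n1_base, if_pos ha, if_pos hb, if_pos (ha.mul_left hb), ch4_mul]
      · rw [n1_base, n1_base, n1_base, if_neg hb, mul_zero, if_neg]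
        exact fun h => hb h.of_mul_left_right
    · rw [n1_base, n1_base, n1_base, if_neg ha, zero_mul, if_neg]
      exact fun h => ha h.of_mul_left_left
  per a b := by
    obtain ⟨k, rfl⟩ := h4
    have h1 : ch4 (a + ((4 * k : ℕ) : Eis) * b) = ch4 a := by
      have : a + ((4 * k : ℕ) : Eis) * b = a + 4 * ((k : Eis) * b) := by push_cast; ring
      rw [this, ch4_per]
    simp only [n1_base, n1_coprime_per, h1]
  unit u hu := by
    have hcop : IsCoprime u (M : Eis) := by
      obtain ⟨f, hf⟩ := hu.exists_left_inv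
      exact ⟨f, 0, by rw [hf, zero_mul, add_zero]⟩
    have h1 : (u.norm : ℤ) = 1 := (eis_isUnit_iff u).1 hu
    rw [n1_base, if_pos hcop]
    simp only [ch4, h1]
    simp
  zero a ha := by rw [n1_base, if_neg ha]

/-- an element prime to `4 m` with `ch4 = -1` -/
theorem n1_exists (m : ℕ) (hodd : Odd m) : ∃ a : Eis, IsCoprime a ((4 * m : ℕ) : Eis) ∧
    ch4 a = -1 := by
  refine ⟨⟨1 + m ^ 2, m ^ 2⟩, ?_, ?_⟩
  · rw [coprime_iff, norm_eq]
    have h1 : (1 + (m : ℤ) ^ 2) ^ 2 - (1 + (m : ℤ) ^ 2) * (m : ℤ) ^ 2 + ((m : ℤ) ^ 2) ^ 2 =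
        1 + (m : ℤ) * (m + m ^ 3) := by ring
    simp only [h1]
    push_cast
    refine IsCoprime.mul_right ?_ ?_
    · have h2 : IsCoprime (1 + (m : ℤ) * (m + m ^ 3)) (2 : ℤ) := by
        have hm : Odd (m : ℤ) := by exact_mod_cast hodd
        have : Odd (1 + (m : ℤ) * (m + m ^ 3)) := by
          have h3 : Even ((m : ℤ) + m ^ 3) := hm.add_odd (hm.pow)
          exact odd_one.add_even (h3.mul_left _)
        exact Int.isCoprime_iff_gcd_eq_one.2 (Int.isCoprime_iff_gcd_eq_one.1
          ((Int.isCoprime_two_right).2 this))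
      have : (4 : ℤ) = 2 * 2 := by norm_num
      rw [this]
      exact h2.mul_right h2
    · exact ⟨1, -(m + m ^ 3), by ring⟩
  · have h1 : (⟨1 + m ^ 2, m ^ 2⟩ : Eis).norm % 4 = 3 := by
      rw [norm_eq]
      have h2 : (m : ℤ) ^ 2 % 4 = 1 := by
        obtain ⟨k, hk⟩ := hodd
        rw [hk]
        push_cast
        ring_nf
        omega
      have h3 : (1 + (m : ℤ) ^ 2) ^ 2 - (1 + (m : ℤ) ^ 2) * (m : ℤ) ^ 2 + ((m : ℤ) ^ 2) ^ 2 =
        1 + (m : ℤ) ^ 2 + (m : ℤ) ^ 2 * (m : ℤ) ^ 2 := by ring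
      simp only [h3]
      rw [Int.add_emod, Int.add_emod 1, Int.mul_emod, h2]
      norm_num
    simp only [ch4, ZMod.χ₄_int_three_mod_four h1]
    norm_num

theorem n1_odd_m (m : ℕ) (hm : Good m) : Odd m := by
  rw [← Nat.not_even_iff_odd, even_iff_two_dvd]
  intro h
  have := hm.2 2 Nat.prime_two h
  norm_num at this

theorem n1_not_three (m : ℕ) (hm : Good m) : ¬ 3 ∣ 4 * m := by
  intro h
  rcases (Nat.Prime.dvd_mul Nat.prime_three).1 h with h1 | h1
  · norm_num at h1
  · have := hm.2 3 Nat.prime_three h1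
    norm_num at this

theorem n1_notmem (M : ℕ) (hM : 1 < M) (v : Eis) (hv : IsCoprime v (M : Eis)) :
    emb v / M ∉ Set.range emb := by
  rintro ⟨b, hb⟩
  have hM' : (M : ℂ) ≠ 0 := by exact_mod_cast (by omega : M ≠ 0)
  have h1 : emb v = emb ((M : Eis) * b) := by
    rw [map_mul, map_natCast, hb]
    field_simp
  have h2 : v = (M : Eis) * b := emb_injective h1
  rw [coprime_iff, h2] at hv
  have h3 : ((M : Eis) * b).norm = (M : ℤ) * (M * b.norm) := by
    have h4 : ((M : Eis) * b).norm = (M : Eis).norm * b.norm := map_mul _ _ _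
    have h5 : ((M : Eis)).norm = (M : ℤ) ^ 2 := by
      rw [norm_eq]; simp
    rw [h4, h5]; ring
  rw [h3] at hv
  have h4 := hv.isUnit_of_dvd' (Dvd.intro _ rfl) dvd_rfl
  rw [Int.isUnit_iff] at h4
  omega

theorem n1_mul (M : ℕ) (hM : M ≠ 0) (v : Eis) : (M : ℂ) * (emb v / M) ∈ Set.range emb := by
  have hM' : (M : ℂ) ≠ 0 := by exact_mod_cast hM
  exact ⟨v, by field_simp⟩

theorem n1_tors (M : ℕ) (hM : M ≠ 0) (v : Eis) : Tors (emb v / M) := ⟨M, hM, n1_mul M hM v⟩

theorem n1_rsum_congr (M : ℕ) (f g : Eis → ℂ) (h : ∀ v, f v = g v) : rsum M f = rsum M g := by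
  rw [show f = g from funext h]

theorem n1_rsum_smul (M : ℕ) (c : ℂ) (f : Eis → ℂ) : rsum M (fun v => c * f v) = c * rsum M f := by
  simp only [rsum, Finset.mul_sum]

theorem n1_rsum_add (M : ℕ) (f g : Eis → ℂ) : rsum M (fun v => f v + g v) =
    rsum M f + rsum M g := by
  simp only [rsum, Finset.sum_add_distrib]

/-- the sum of `ψ · Fst` in terms of `hh` -/
theorem n1_sum (M : ℕ) (hM : 1 < M) (h3 : ¬ 3 ∣ M) (K : ℂ)
    (hK : ∀ z, z ∉ Set.range emb → NP z → (Fz z - Fz 0) * (1 + XX z) = K)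
    (ψ : Eis → ℂ) (hψ : IsCh M ψ) (h0 : rsum M ψ = 0) :
    rsum M (fun v => ψ v * Fst (emb v / M)) =
      (-(4 * emb th / 3) * K) * rsum M (fun v => ψ v * hh (emb v / M)) := by
  have hM0 : M ≠ 0 := by omega
  set C : ℂ := Fst (emb 1 / M) - Fz (emb 1 / M) + Fz 0 + K * (4 / 3) with hC
  have key : ∀ v : Eis, ψ v * Fst (emb v / M) =
      C * ψ v + (-(4 * emb th / 3) * K) * (ψ v * hh (emb v / M)) := by
    intro v
    by_cases hv : IsCoprime v (M : Eis)
    · have h1 := Fst_sub (emb v / M) (emb 1 / M) (n1_tors M hM0 v) (n1_tors M hM0 1)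
        (NP_of M h3 _ (n1_mul M hM0 v)) (NP_of M h3 _ (n1_mul M hM0 1))
      have h2 := hK (emb v / M) (n1_notmem M hM v hv) (NP_of M h3 _ (n1_mul M hM0 v))
      obtain ⟨h4, h5⟩ := inv_one_add M h3 (emb v / M) (n1_mul M hM0 v) (n1_notmem M hM v hv)
      have h6 : Fz (emb v / M) - Fz 0 = K * (4 / 3 - 4 * emb th / 3 * hh (emb v / M)) := by
        rw [← h5, ← h2, mul_assoc, mul_inv_cancel₀ h4, mul_one]
      rw [hC]
      linear_combination (ψ v) * h1 + (ψ v) * h6
    · rw [hψ.zero v hv]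
      ring
  rw [n1_rsum_congr M _ _ key, n1_rsum_add, n1_rsum_smul, n1_rsum_smul, h0, mul_zero, zero_add]

theorem sum_ne_zero (m : ℕ) (hm : Good m) (φ : Eis → ℂ) (hφ : IsCh (4 * m) φ) (n : ℕ)
    (hχ : ∀ a, IsCoprime a ((4 * m : ℕ) : Eis) → (φ a * ch4 a) ^ 3 ^ n = 1) :
    rsum (4 * m) (fun v => φ v * Fst (emb v / (4 * m : ℕ))) ≠ 0 := by
  have hm0 : m ≠ 0 := hm.1.ne_zero
  set M : ℕ := 4 * m with hMdef
  have hM1 : 1 < M := by omega
  have hM0 : M ≠ 0 := by omega
  have h4M : 4 ∣ M := ⟨m, rfl⟩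
  have h3M : ¬ 3 ∣ M := n1_not_three m hm
  obtain ⟨K, hK0, hK⟩ := XX_F
  obtain ⟨A, hA⟩ := exists_val3
  obtain ⟨a0, ha0, ha1⟩ := n1_exists m (n1_odd_m m hm)
  have hbase := n1_isCh_base M h4M
  -- the character sums vanish
  have hs1 : rsum M φ = 0 := by
    refine rsum_ch hM0 hφ a0 ha0 ?_
    intro h1
    have h2 := hχ a0 ha0
    rw [h1, ha1, one_mul, Odd.neg_one_pow (Odd.pow (by decide))] at h2
    norm_num at h2
  have hs2 : rsum M (n1_base M) = 0 := by
    refine rsum_ch hM0 hbase a0 ha0 ?_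
    rw [n1_base, if_pos ha0, ha1]
    norm_num
  have e1 := n1_sum M hM1 h3M K hK φ hφ hs1
  have e2 := n1_sum M hM1 h3M K hK (n1_base M) hbase hs2
  set H : ℂ := rsum M (fun v => φ v * hh (emb v / M)) with hH
  set H0 : ℂ := rsum M (fun v => n1_base M v * hh (emb v / M)) with hH0
  -- the base sum
  obtain ⟨P, hP, hPv⟩ := TS_level m hm
  have e3 : rsum M (fun v => n1_base M v * Fst (emb v / M)) = P * TS 4 := by
    rw [← hP, TS_rsum M hM0 h4M]
    refine n1_rsum_congr M _ _ fun v => ?_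
    rw [n1_base]
    split_ifs
    · rfl
    · rw [zero_mul]
  rw [TS_four, Fst_four K hK] at e3
  set k : ℂ := (1 + XX (1 / 4))⁻¹ - (1 + XX ((2 + w) / 4))⁻¹ with hk
  have hk2 : k ^ 2 = 4 / 3 := k_four
  have hth : emb th ^ 2 = -3 := by
    have h1 : emb th = 1 + 2 * w := by rw [emb_apply, th]; push_cast; ring
    rw [h1]
    linear_combination 4 * w_sq
  have e4 : -(4 * emb th / 3) * H0 = P * 6 * k := by
    have h1 : (-(4 * emb th / 3) * K) * H0 = P * (6 * (K * k)) := by rw [← e2, e3]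
    have h2 : K * (-(4 * emb th / 3) * H0) = K * (P * 6 * k) := by linear_combination h1
    exact mul_left_cancel₀ hK0 h2
  -- valuations
  have hv0 : A.valuation (3 : ℂ) ≠ 0 := by
    rw [_root_.map_ne_zero]
    norm_num
  have hv2 : A.valuation (2 : ℂ) = 1 := by
    have := val_int3 A hA 2 (by norm_num)
    exact_mod_cast this
  have hv4 : A.valuation (4 : ℂ) = 1 := by
    have := val_int3 A hA 4 (by norm_num)
    exact_mod_cast this
  have hv6 : A.valuation (6 : ℂ) = A.valuation 3 := by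
    have : (6 : ℂ) = 2 * 3 := by norm_num
    rw [this, map_mul, hv2, one_mul]
  have hvH0 : A.valuation H0 = A.valuation 6 := by
    have h1 : (16 * (emb th ^ 2) / 9) * H0 ^ 2 = (P ^ 2 * 36) * k ^ 2 := by
      linear_combination (-(4 * emb th / 3) * H0 + P * 6 * k) * e4
    rw [hth, hk2] at h1
    have h2 : H0 ^ 2 * 4 = - (P ^ 2 * 6 ^ 2) := by linear_combination (-3 / 4 : ℂ) * h1
    have h3 := congrArg A.valuation h2
    rw [Valuation.map_neg, map_mul, map_pow, map_mul, map_pow, map_pow, hv4, hPv A hA, mul_one,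
      one_pow, one_mul] at h3
    exact (pow_left_inj₀ zero_le' zero_le' two_ne_zero).1 h3
  have hdiff : A.valuation (H - H0) < A.valuation 6 := by
    have h1 : H - H0 = rsum M (fun v => (φ v - n1_base M v) * hh (emb v / M)) := by
      have h2 : rsum M (fun v => (φ v - n1_base M v) * hh (emb v / M)) =
          rsum M (fun v => φ v * hh (emb v / M) + (-1) * (n1_base M v * hh (emb v / M))) :=
        n1_rsum_congr M _ _ fun v => by ring
      rw [h2, n1_rsum_add, n1_rsum_smul, hH, hH0]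
      ring
    rw [h1]
    refine val_rsum_lt A M hM0 h4M _ ?_ ?_ ?_ ?_
    · intro a b
      have hM' : (M : ℂ) ≠ 0 := by exact_mod_cast hM0
      have h2 : emb (a + (M : Eis) * b) / M = emb a / M + emb b := by
        rw [map_add, map_mul, map_natCast]
        field_simp
      simp only [hφ.per, hbase.per, h2, n1_hh_add]
    · intro u a hu
      have h2 : emb (u * a) / M = emb u * (emb a / M) := by
        rw [map_mul]; ring
      simp only [hφ.mul, hbase.mul, hφ.unit u hu, hbase.unit u hu, one_mul, h2,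
        n1_hh_unit _ u hu]
    · intro a ha
      have h2 : ¬ IsCoprime a (M : Eis) := fun h => ha (n1_odd M h4M a h)
      rw [hφ.zero a h2, hbase.zero a h2]
      ring
    · intro a
      by_cases ha : IsCoprime a (M : Eis)
      · have h2 : φ a - n1_base M a = ch4 a * (φ a * ch4 a - 1) := by
          rw [n1_base, if_pos ha]
          linear_combination (-φ a) * n1_ch4_sq a (n1_odd M h4M a ha)
        have h3 : A.valuation (ch4 a) ≤ 1 := by
          have h4 := n1_ch4_sq a (n1_odd M h4M a ha)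
          have h5 := congrArg A.valuation h4
          rw [map_mul, map_one, ← sq] at h5
          exact (pow_le_one_iff_of_nonneg zero_le' two_ne_zero).1 h5.le
        have h4 := (val_root3 A hA _ n (hχ a ha)).2
        have h5 := hh_val A hA M h3M (emb a / M) (n1_mul M hM0 a) (n1_notmem M hM1 a ha)
        change A.valuation ((φ a - n1_base M a) * hh (emb a / M)) < 1
        rw [h2, map_mul, map_mul]
        calc A.valuation (ch4 a) * A.valuation (φ a * ch4 a - 1) * A.valuation (hh (emb a / M))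
            ≤ 1 * A.valuation (φ a * ch4 a - 1) * 1 := by gcongr
          _ = A.valuation (φ a * ch4 a - 1) := by rw [one_mul, mul_one]
          _ < 1 := h4
      · change A.valuation ((φ a - n1_base M a) * hh (emb a / M)) < 1
        rw [hφ.zero a ha, hbase.zero a ha, sub_zero, zero_mul, map_zero]
        exact zero_lt_one
  have hHne : H ≠ 0 := by
    intro h0
    rw [h0, zero_sub, Valuation.map_neg, hvH0] at hdiff
    exact lt_irrefl _ hdiff
  have hgoal : rsum M (fun v => φ v * Fst (emb v / M)) ≠ 0 := by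
    rw [e1]
    refine mul_ne_zero (mul_ne_zero ?_ hK0) hHne
    have : emb th ≠ 0 := by
      intro h0
      rw [h0] at hth
      norm_num at hth
    exact neg_ne_zero.2 (div_ne_zero (mul_ne_zero (by norm_num) this) (by norm_num))
  exact hgoal

end BS3
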