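import Pool.Agent.MP_ae0bd0_nt.B3.E2c
import Pool.Agent.MP_ae0bd0_nt.B3.F0
import Pool.Agent.MP_ae0bd0_nt.CM.A1

set_option autoImplicit false

open scoped ComplexConjugate
open Filter Topology CM27

namespace BS3

/-! ## [BS3-K2] periodicity, homogeneity and distribution relation (file K2.lean; uses E2c, F0) -/

theorem tors_add {z z' : ℂ} (hz : Tors z) (hz' : Tors z') : Tors (z + z') := by
  obtain ⟨N, hN, a, ha⟩ := hz
  obtain ⟨N', hN', a', ha'⟩ := hz'
  refine ⟨N * N', mul_ne_zero hN hN', (N' : Eis) * a + (N : Eis) * a', ?_⟩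
  rw [map_add, map_mul, map_mul, ha, ha', map_natCast, map_natCast]
  push_cast
  ring

theorem tors_mul {z : ℂ} (hz : Tors z) (a : Eis) : Tors (emb a * z) := by
  obtain ⟨N, hN, c, hc⟩ := hz
  refine ⟨N, hN, a * c, ?_⟩
  rw [map_mul, hc]
  ring

theorem k2_emb_ne {g : Eis} (hg : g ≠ 0) : emb g ≠ 0 := by
  intro h
  apply hg
  apply emb_injective
  rw [h, map_zero]

theorem tors_div (a g : Eis) (hg : g ≠ 0) : Tors (emb a / emb g) := by
  have h1 := a1_norm_pos hg
  have h2 := k2_emb_ne hg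
  refine ⟨g.norm.toNat, by omega, a * star g, ?_⟩
  have h3 : ((g.norm.toNat : ℕ) : ℂ) = emb g * emb (star g) := by
    rw [← map_mul, ← QuadraticAlgebra.algebraMap_norm_eq_mul_star]
    have h4 : ((g.norm.toNat : ℕ) : ℂ) = ((g.norm : ℤ) : ℂ) := by
      rw [← Int.cast_natCast, Int.toNat_of_nonneg h1.le]
    rw [h4]
    simp [emb_apply]
  rw [h3, map_mul]
  field_simp

theorem k2_tors_emb (a : Eis) : Tors (emb a) := ⟨1, one_ne_zero, a, by push_cast; ring⟩

theorem Kr_add (z : ℂ) (hz : Tors z) (a : Eis) : Kr (z + emb a) = Kr z := by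
  obtain ⟨Φ, h1, h2, h3⟩ := Kr_spec z hz
  obtain ⟨Ψ, k1, k2, k3⟩ := Kr_spec (z + emb a) (tors_add hz (k2_tors_emb a))
  rw [← h3, ← k3]
  refine ident Ψ Φ k1.differentiableOn h1.differentiableOn fun s hs => ?_
  rw [h2 s hs, k2 s hs, Hs_add]

theorem k2_unit_norm {u : Eis} (hu : IsUnit u) : ‖emb u‖ = 1 := by
  have h1 := norm_emb_sq u
  rw [(eis_isUnit_iff u).1 hu] at h1
  push_cast at h1
  have h2 := norm_nonneg (emb u)
  nlinarith

theorem k2_gs_unit (s : ℂ) {u : Eis} (hu : IsUnit u) : gs s (emb u) = (emb u)⁻¹ := by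
  have h1 := k2_unit_norm hu
  rw [gs, h1, Complex.inv_def, Complex.normSq_eq_norm_sq, h1]
  simp

theorem k2_Hs_unit (s z : ℂ) {u : Eis} (hu : IsUnit u) :
    Hs s (emb u * z) = (emb u)⁻¹ * Hs s z := by
  obtain ⟨v, rfl⟩ := hu
  unfold Hs
  rw [← tsum_mul_left, ← (Units.mulLeft v).tsum_eq (fun b : Eis => gs s (emb ↑v * z + emb b))]
  refine tsum_congr fun a => ?_
  rw [Units.mulLeft_apply, map_mul, ← mul_add, gs_mul, k2_gs_unit s v.isUnit]

theorem Kr_unit (z : ℂ) (hz : Tors z) (u : Eis) (hu : IsUnit u) :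
    Kr (emb u * z) = (emb u)⁻¹ * Kr z := by
  obtain ⟨Φ, h1, h2, h3⟩ := Kr_spec z hz
  obtain ⟨Ψ, k1, k2, k3⟩ := Kr_spec (emb u * z) (tors_mul hz u)
  rw [← h3, ← k3]
  refine ident Ψ (fun s => (emb u)⁻¹ * Φ s) k1.differentiableOn
    (h1.const_mul _).differentiableOn fun s hs => ?_
  rw [h2 s hs, k2 s hs, k2_Hs_unit s z hu]

/-! ### residues modulo a prime of norm `p` -/

section

variable {p : ℕ} (hp : p.Prime) {b : Eis} (hb : b.norm = p)

include hp hb

theorem k2_b_ne : b ≠ 0 := by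
  rintro rfl
  rw [norm_eq] at hb
  simp at hb
  exact hp.ne_zero (by exact_mod_cast hb.symm)

theorem k2_emb_ne' : emb b ≠ 0 := by
  intro h
  apply k2_b_ne hp hb
  apply emb_injective
  rw [h, map_zero]

omit hp in
theorem k2_p_eq : (p : Eis) = b * star b := by
  have h := QuadraticAlgebra.algebraMap_norm_eq_mul_star b
  rw [hb] at h
  rw [← h]
  simp

theorem k2_dvd_int (t : ℤ) (h : b ∣ (t : Eis)) : (p : ℤ) ∣ t := by
  obtain ⟨c, hc⟩ := h
  have h1 := congrArg QuadraticAlgebra.norm hc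
  rw [map_mul, hb] at h1
  have h2 : QuadraticAlgebra.norm ((t : ℤ) : Eis) = t ^ 2 := by
    rw [norm_eq]
    simp
  rw [h2] at h1
  exact (Nat.prime_iff_prime_int.1 hp).dvd_of_dvd_pow ⟨_, h1⟩

theorem k2_surj (c : Eis) : ∃ t : ℕ, t < p ∧ b ∣ c - (t : Eis) := by
  have hpz : Prime (p : ℤ) := Nat.prime_iff_prime_int.1 hp
  have hy : ¬ (p : ℤ) ∣ b.im := by
    intro hy
    have h1 := hb
    rw [norm_eq] at h1
    have h2 : (p : ℤ) ∣ b.re ^ 2 := by
      have : b.re ^ 2 = p + b.im * (b.re - b.im) := by linarith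
      rw [this]
      exact dvd_add dvd_rfl (Dvd.dvd.mul_right hy _)
    have h3 := hpz.dvd_of_dvd_pow h2
    obtain ⟨x, hx⟩ := h3
    obtain ⟨y, hy⟩ := hy
    rw [hx, hy] at h1
    have h4 : (p : ℤ) * (p * (x ^ 2 - x * y + y ^ 2)) = p * 1 := by linarith
    have h5 := mul_left_cancel₀ hpz.ne_zero h4
    exact hpz.not_isUnit (IsUnit.of_mul_eq_one _ h5)
  have hcop : IsCoprime (b.im) (p : ℤ) := ((hpz.coprime_iff_not_dvd).2 hy).symm
  obtain ⟨y', k, hyk⟩ := hcop
  -- y' * b.im + k * p = 1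
  let t0 : ℤ := c.re - c.im * b.re * y'
  have hp0 : (0:ℤ) < p := by exact_mod_cast hp.pos
  refine ⟨(t0 % p).toNat, ?_, ?_⟩
  · have := Int.emod_lt_of_pos t0 hp0
    have h0 := Int.emod_nonneg t0 hp0.ne'
    omega
  · have h0 := Int.emod_nonneg t0 hp0.ne'
    have h1 : (((t0 % p).toNat : ℕ) : Eis) = ((t0 % p : ℤ) : Eis) := by
      rw [← Int.cast_natCast, Int.toNat_of_nonneg h0]
    rw [h1]
    have h2 : t0 % p = t0 - p * (t0 / p) := by rw [Int.emod_def]
    have h3 : b ∣ (p : Eis) := ⟨star b, k2_p_eq hb⟩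
    have h4 : c - ((t0 % p : ℤ) : Eis) = b * ((y' * c.im : ℤ) : Eis) +
        (p : Eis) * ((t0 / p : ℤ) + (⟨0, 1⟩ : Eis) * ((k * c.im : ℤ) : Eis)) := by
      rw [h2]
      have hyk' : c.im = c.im * (y' * b.im + k * p) := by rw [hyk, mul_one]
      ext
      · simp [t0]
        ring
      · simp [t0]
        linear_combination hyk'
    rw [h4]
    exact dvd_add (Dvd.intro _ rfl) (Dvd.dvd.mul_right h3 _)

/-- the bijection -/
theorem k2_bij : Function.Bijective (fun q : Fin p × Eis => ((q.1 : ℕ) : Eis) + b * q.2) := by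
  constructor
  · rintro ⟨t, a⟩ ⟨t', a'⟩ h
    simp only at h
    have h1 : b ∣ (((t : ℕ) - (t' : ℕ) : ℤ) : Eis) := by
      refine ⟨a' - a, ?_⟩
      push_cast
      linear_combination h
    have h2 := k2_dvd_int hp hb _ h1
    have h3 : ((t : ℕ) : ℤ) = ((t' : ℕ) : ℤ) := by
      have ht := t.2
      have ht' := t'.2
      obtain ⟨k, hk⟩ := h2
      have hk0 : k = 0 := by
        by_contra hk0
        rcases lt_or_gt_of_ne hk0 with hk1 | hk1
        · nlinarith
        · nlinarith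
      rw [hk0] at hk
      linarith
    have h4 : t = t' := Fin.ext (by exact_mod_cast h3)
    subst h4
    have h5 : b * a = b * a' := by linear_combination h
    have h6 : emb b * emb a = emb b * emb a' := by rw [← map_mul, ← map_mul, h5]
    have h7 := mul_left_cancel₀ (k2_emb_ne' hp hb) h6
    rw [emb_injective h7]
  · intro c
    obtain ⟨t, ht, a, ha⟩ := k2_surj hp hb c
    refine ⟨(⟨t, ht⟩, a), ?_⟩
    simp only
    rw [← ha]
    ring

theorem k2_dist (s z : ℂ) (hs : 3 / 2 < s.re) :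
    ∑ t ∈ Finset.range p, Hs s (z + t / emb b) = gs s (emb b)⁻¹ * Hs s (emb b * z) := by
  have hb0 := k2_emb_ne' hp hb
  let e := Equiv.ofBijective _ (k2_bij hp hb)
  have h1 : ∀ q : Fin p × Eis, gs s (emb b)⁻¹ * gs s (emb b * z + emb (e q)) =
      gs s (z + ((q.1 : ℕ) : ℂ) / emb b + emb q.2) := by
    intro q
    rw [← gs_mul]
    congr 1
    change (emb b)⁻¹ * (emb b * z + emb (((q.1 : ℕ) : Eis) + b * q.2)) = _
    rw [map_add, map_mul, map_natCast]
    field_simp
    ring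
  have h2 : Summable fun c : Eis => gs s (emb b)⁻¹ * gs s (emb b * z + emb c) :=
    (summable_gs s (emb b * z) hs).mul_left _
  have h3 : ∑' c : Eis, gs s (emb b)⁻¹ * gs s (emb b * z + emb c) =
      ∑' t : Fin p, ∑' a : Eis, gs s (emb b)⁻¹ * gs s (emb b * z + emb (e (t, a))) := by
    rw [← e.tsum_eq]
    exact Summable.tsum_prod (e.summable_iff.2 h2)
  unfold Hs
  rw [← tsum_mul_left, h3, tsum_fintype, Finset.sum_range]
  refine Finset.sum_congr rfl fun t _ => ?_
  refine tsum_congr fun a => ?_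
  exact (h1 (t, a)).symm

end

theorem Kr_dist (p : ℕ) (hp : p.Prime) (b : Eis) (hb : b.norm = p) (z : ℂ) (hz : Tors z) :
    ∑ t ∈ Finset.range p, Kr (z + t / emb b) = emb b * Kr (emb b * z) := by
  have hb0 := k2_emb_ne' hp hb
  have hbne := k2_b_ne hp hb
  have hzt : ∀ t : ℕ, Tors (z + t / emb b) := by
    intro t
    have h := tors_div (t : Eis) b hbne
    rw [map_natCast] at h
    exact tors_add hz h
  choose Φ h1 h2 h3 using fun t : ℕ => Kr_spec (z + t / emb b) (hzt t)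
  obtain ⟨Ψ, k1, k2, k3⟩ := Kr_spec (emb b * z) (tors_mul hz b)
  have hg : Differentiable ℂ (fun s : ℂ => gs s (emb b)⁻¹) := by
    unfold gs
    refine (differentiable_const _).mul ?_
    intro s
    refine DifferentiableAt.const_cpow (by fun_prop) (Or.inl ?_)
    rw [Ne, Complex.ofReal_eq_zero, norm_eq_zero]
    exact inv_ne_zero hb0
  have key := ident (fun s => ∑ t ∈ Finset.range p, Φ t s)
    (fun s => gs s (emb b)⁻¹ * Ψ s)
    (DifferentiableOn.fun_sum fun t _ => (h1 t).differentiableOn)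
    (hg.mul k1).differentiableOn (by
      intro s hs
      rw [k2 s hs, Finset.sum_congr rfl (fun t _ => h2 t s hs), k2_dist hp hb s z hs])
  rw [Finset.sum_congr rfl (fun t _ => h3 t), k3, gs_one, inv_inv] at key
  exact key

theorem k2_three_ne : (3 : Eis) ≠ 0 := by
  intro h
  have := congrArg QuadraticAlgebra.re h
  have h3 : (3 : Eis).re = 3 := rfl
  rw [h3] at this
  simp at this

theorem k2_tors_third {z : ℂ} (hz : Tors z) (e : Eis) : Tors (z + emb e / 3) := by
  have h := tors_div e 3 k2_three_ne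
  rw [map_ofNat] at h
  exact tors_add hz h

theorem Fst_add (z : ℂ) (hz : Tors z) (a : Eis) : Fst (z + emb a) = Fst z := by
  unfold Fst
  refine Finset.sum_congr rfl fun e _ => ?_
  rw [add_right_comm, Kr_add _ (k2_tors_third hz e)]

theorem Fst_unit (z : ℂ) (hz : Tors z) (u : Eis) (hu : IsUnit u) : Fst (emb u * z) = Fst z := by
  obtain ⟨v, rfl⟩ := hu
  unfold Fst
  symm
  refine Finset.sum_bij (fun e _ => (v : Eis) * e) ?_ ?_ ?_ ?_
  · intro e he
    rw [mem_U6] at he ⊢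
    exact v.isUnit.mul he
  · intro e _ e' _ h
    exact v.isUnit.mul_left_cancel h
  · intro e he
    refine ⟨((v⁻¹ : Eisˣ) : Eis) * e, ?_, ?_⟩
    · rw [mem_U6] at he ⊢
      exact (v⁻¹).isUnit.mul he
    · rw [← mul_assoc, Units.mul_inv, one_mul]
  · intro e _
    have h0 : emb (v : Eis) ≠ 0 := by
      intro h
      have := k2_unit_norm v.isUnit
      rw [h, norm_zero] at this
      exact zero_ne_one this
    rw [map_mul, show emb (v : Eis) * z + emb ↑v * emb e / 3 = emb ↑v * (z + emb e / 3) by ring,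
      Kr_unit _ (k2_tors_third hz e) _ v.isUnit]
    field_simp

theorem Fst_dist (p : ℕ) (hp : p.Prime) (b : Eis) (hb : b.norm = p) (hb1 : Primary b) (z : ℂ)
    (hz : Tors z) : ∑ t ∈ Finset.range p, Fst (z + t / emb b) = emb b * Fst (emb b * z) := by
  obtain ⟨c, hc⟩ := hb1
  unfold Fst
  rw [Finset.sum_comm, Finset.mul_sum]
  refine Finset.sum_congr rfl fun e _ => ?_
  have h1 := Kr_dist p hp b hb (z + emb e / 3) (k2_tors_third hz e)
  have h2 : emb b * (z + emb e / 3) = (emb b * z + emb e / 3) + emb (c * e) := by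
    have h3 : emb b = 3 * emb c + 1 := by
      have h4 : b = 3 * c + 1 := by rw [← hc]; ring
      rw [h4, map_add, map_mul, map_ofNat, map_one]
    rw [map_mul, h3]
    ring
  rw [h2, Kr_add _ (k2_tors_third (tors_mul hz b) e)] at h1
  rw [← Finset.mul_sum]
  have h5 : ∑ t ∈ Finset.range p, Kr (z + t / emb b + emb e / 3) =
      ∑ t ∈ Finset.range p, Kr (z + emb e / 3 + t / emb b) := by
    refine Finset.sum_congr rfl fun t _ => ?_
    rw [add_right_comm]
  rw [h5, h1]
  ring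

end BS3
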