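import Pool.Agent.MP_ae0bd0_nt.B3.Defs
import Pool.Agent.MP_ae0bd0_nt.CM.G1

set_option autoImplicit false

open scoped ComplexConjugate
open Filter Topology CM27

namespace BS3

/-! ## [BS3-S1] the Dirichlet series as a lattice sum (file S1.lean) -/

/-- the point `(i, j) + m a` -/
private def s1_e (m : ℕ) (p : (Fin m × Fin m) × Eis) : Eis :=
  ⟨(p.1.1 : ℤ) + m * p.2.re, (p.1.2 : ℤ) + m * p.2.im⟩

private theorem s1_e_bij {m : ℕ} (hm : m ≠ 0) : Function.Bijective (s1_e m) := by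
  have hm' : (m : ℤ) ≠ 0 := by exact_mod_cast hm
  have hm0 : (0 : ℤ) < m := by positivity
  constructor
  · rintro ⟨⟨i, j⟩, a⟩ ⟨⟨i', j'⟩, a'⟩ h
    have h1 := congrArg QuadraticAlgebra.re h
    have h2 := congrArg QuadraticAlgebra.im h
    simp only [s1_e] at h1 h2
    have key : ∀ (x x' : Fin m) (y y' : ℤ), (x : ℤ) + m * y = x' + m * y' → x = x' ∧ y = y' := by
      intro x x' y y' hxy
      have hx1 : ((x : ℕ) : ℤ) < m := by exact_mod_cast x.2
      have hx2 : ((x' : ℕ) : ℤ) < m := by exact_mod_cast x'.2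
      have e1 : ((x : ℤ) + m * y) % m = x := by
        rw [Int.add_mul_emod_self_left, Int.emod_eq_of_lt (by positivity) hx1]
      have e2 : ((x' : ℤ) + m * y') % m = x' := by
        rw [Int.add_mul_emod_self_left, Int.emod_eq_of_lt (by positivity) hx2]
      have e3 : ((x : ℕ) : ℤ) = ((x' : ℕ) : ℤ) := by rw [← e1, ← e2, hxy]
      refine ⟨Fin.ext (by exact_mod_cast e3), ?_⟩
      rw [e3] at hxy
      exact mul_left_cancel₀ hm' (add_left_cancel hxy)
    obtain ⟨r1, r2⟩ := key _ _ _ _ h1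
    obtain ⟨r3, r4⟩ := key _ _ _ _ h2
    subst r1 r3
    have : a = a' := QuadraticAlgebra.ext r2 r4
    rw [this]
  · intro d
    have hk : ∀ x : ℤ, ∃ (i : Fin m) (y : ℤ), (i : ℤ) + m * y = x := by
      intro x
      have h1 := Int.emod_nonneg x hm'
      have h2 := Int.emod_lt_of_pos x hm0
      refine ⟨⟨(x % m).toNat, by omega⟩, x / m, ?_⟩
      show (((x % m).toNat : ℕ) : ℤ) + m * (x / m) = x
      rw [Int.toNat_of_nonneg h1]
      exact Int.emod_add_mul_ediv x m
    obtain ⟨i, y, hi⟩ := hk d.re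
    obtain ⟨j, y', hj⟩ := hk d.im
    exact ⟨((i, j), ⟨y, y'⟩), QuadraticAlgebra.ext hi hj⟩

private theorem s1_e_eq {m : ℕ} (p : (Fin m × Fin m) × Eis) :
    s1_e m p = (⟨(p.1.1 : ℤ), (p.1.2 : ℤ)⟩ : Eis) + (m : Eis) * p.2 := by
  have h5 : ((m : ℕ) : Eis).re = m := by simp
  have h6 : ((m : ℕ) : Eis).im = 0 := by simp
  apply QuadraticAlgebra.ext
  · simp only [QuadraticAlgebra.re_add, QuadraticAlgebra.re_mul, h5, h6]
    show (p.1.1 : ℤ) + m * p.2.re = _
    ring
  · simp only [QuadraticAlgebra.im_add, QuadraticAlgebra.im_mul, h5, h6]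
    show (p.1.2 : ℤ) + m * p.2.im = _
    ring

private theorem s1_finite {m : ℕ} (hm : m ≠ 0) : Finite (Eis ⧸ Ideal.span {(m : Eis)}) := by
  refine Finite.of_surjective (fun p : Fin m × Fin m =>
    Ideal.Quotient.mk (Ideal.span {(m : Eis)}) (⟨(p.1 : ℤ), (p.2 : ℤ)⟩ : Eis)) ?_
  intro q
  obtain ⟨d, rfl⟩ := Ideal.Quotient.mk_surjective q
  obtain ⟨p, rfl⟩ := (s1_e_bij hm).2 d
  refine ⟨p.1, ?_⟩
  rw [s1_e_eq]
  apply Ideal.Quotient.eq.2
  rw [Ideal.mem_span_singleton]
  exact ⟨-p.2, by ring⟩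

theorem ch_root {M : ℕ} (hM : M ≠ 0) {φ : Eis → ℂ} (hφ : IsCh M φ) :
    ∃ k : ℕ, k ≠ 0 ∧ ∀ a, IsCoprime a (M : Eis) → φ a ^ k = 1 := by
  have hfin := s1_finite hM
  have : Finite (Eis ⧸ Ideal.span {(M : Eis)})ˣ := inferInstance
  refine ⟨Nat.card (Eis ⧸ Ideal.span {(M : Eis)})ˣ, Nat.card_pos.ne', fun a ha => ?_⟩
  obtain ⟨x, y, hxy⟩ := ha
  set π := Ideal.Quotient.mk (Ideal.span {(M : Eis)}) with hπ
  have hMπ : π (M : Eis) = 0 := by
    rw [hπ, Ideal.Quotient.eq_zero_iff_mem, Ideal.mem_span_singleton]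
  have h1 : π x * π a = 1 := by
    rw [← map_mul, ← map_one π, ← hxy, map_add, map_mul π y, hMπ, mul_zero, add_zero]
  have hu : IsUnit (π a) := IsUnit.of_mul_eq_one_right _ h1
  obtain ⟨U, hU⟩ := hu
  have h2 : U ^ Nat.card (Eis ⧸ Ideal.span {(M : Eis)})ˣ = 1 := pow_card_eq_one'
  have h3 : π (a ^ Nat.card (Eis ⧸ Ideal.span {(M : Eis)})ˣ) = π 1 := by
    rw [map_pow, ← hU, ← Units.val_pow_eq_pow_val, h2, map_one, Units.val_one]
  have h4 := Ideal.Quotient.eq.1 h3
  rw [Ideal.mem_span_singleton] at h4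
  obtain ⟨b, hb⟩ := h4
  have h5 : ∀ n : ℕ, φ (a ^ n) = φ a ^ n := by
    intro n
    induction n with
    | zero => rw [pow_zero, pow_zero, hφ.one]
    | succ n ih => rw [pow_succ, pow_succ, hφ.mul, ih]
  rw [← h5]
  have h6 : a ^ Nat.card (Eis ⧸ Ideal.span {(M : Eis)})ˣ = 1 + (M : Eis) * b := by
    rw [← hb]; ring
  rw [h6, hφ.per, hφ.one]

private theorem s1_norm_le {M : ℕ} (hM : M ≠ 0) {φ : Eis → ℂ} (hφ : IsCh M φ) (a : Eis) :
    ‖φ a‖ ≤ 1 := by
  by_cases h : IsCoprime a (M : Eis)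
  · obtain ⟨k, hk, h1⟩ := ch_root hM hφ
    have h2 : ‖φ a‖ ^ k = 1 := by rw [← norm_pow, h1 a h, norm_one]
    exact ((pow_eq_one_iff_of_nonneg (norm_nonneg _) hk).1 h2).le
  · rw [hφ.zero a h, norm_zero]
    exact zero_le_one

private theorem s1_cpow {x : ℝ} (hx : 0 < x) (s : ℂ) :
    (x : ℂ) ^ (-2 * s) = (((x ^ 2 : ℝ) : ℂ)) ^ (-s) := by
  have hx2 : (0 : ℝ) < x ^ 2 := by positivity
  rw [Complex.cpow_def_of_ne_zero (by exact_mod_cast hx.ne'),
    Complex.cpow_def_of_ne_zero (by exact_mod_cast hx2.ne'), ← Complex.ofReal_log hx.le,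
    ← Complex.ofReal_log hx2.le, Real.log_pow]
  congr 1
  push_cast
  ring

private theorem s1_gs_emb {a : Eis} {n : ℕ} (hn : n ≠ 0) (ha : a.norm = n) (s : ℂ) :
    gs s (emb a) = conj (emb a) * (n : ℂ) ^ (-s) := by
  have h1 : ‖emb a‖ ^ 2 = (n : ℝ) := by rw [norm_emb_sq, ha]; simp
  have h2 : 0 < ‖emb a‖ := by
    rw [norm_pos_iff]
    intro h
    rw [h, norm_zero] at h1
    have : (n : ℝ) ≠ 0 := by exact_mod_cast hn
    apply this
    rw [← h1]; norm_num
  unfold gs
  rw [s1_cpow h2, h1]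
  simp

theorem series {M : ℕ} (hM : M ≠ 0) {φ : Eis → ℂ} (hφ : IsCh M φ) (u : ℤ) (hu : u = 1 ∨ u = -1)
    (h3 : (3 : ℤ) ∣ M - u) (s : ℂ) (hs : 3 / 2 < s.re) :
    LSeriesSummable (cf φ) s ∧ LSeries (cf φ) s = φ 3 * (3 * M : ℂ) ^ (1 - 2 * s) *
      rsum M (fun v => φ v * Hs s (emb v / M + u / 3)) := by
  classical
  have hmC : (M : ℂ) ≠ 0 := by exact_mod_cast hM
  set f : Eis → ℂ := fun a => if Primary a then φ a * gs s (emb a) else 0 with hf
  -- absolute summability
  have hbound : ∀ a : Eis, ‖f a‖ ≤ ‖emb a‖ ^ (-(2 * s.re - 1)) := by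
    intro a
    simp only [hf]
    split_ifs
    · rw [norm_mul, norm_gs s (emb a) (by linarith)]
      have h1 : ‖φ a‖ ≤ 1 := s1_norm_le hM hφ a
      calc ‖φ a‖ * ‖emb a‖ ^ (1 - 2 * s.re) ≤ 1 * ‖emb a‖ ^ (1 - 2 * s.re) :=
            mul_le_mul_of_nonneg_right h1 (Real.rpow_nonneg (norm_nonneg _) _)
        _ = ‖emb a‖ ^ (-(2 * s.re - 1)) := by rw [one_mul, neg_sub]
    · rw [norm_zero]
      exact Real.rpow_nonneg (norm_nonneg _) _
  have hsum : Summable f :=
    Summable.of_norm_bounded (summable_norm (2 * s.re - 1) (by linarith)) hbound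
  -- sum over the fibres of the norm
  have hfib := hsum.hasSum.tsum_fiberwise (fun a : Eis => a.norm.toNat)
  have hterm : (fun n : ℕ => ∑' b : (fun a : Eis => a.norm.toNat) ⁻¹' {n}, f b)
      = LSeries.term (cf φ) s := by
    funext n
    have hfin : ∑' b : (fun a : Eis => a.norm.toNat) ⁻¹' {n}, f b
        = ∑ a ∈ primSet n, f a := by
      rw [tsum_subtype ((fun a : Eis => a.norm.toNat) ⁻¹' {n}) f]
      rw [tsum_eq_sum (s := primSet n)]
      · refine Finset.sum_congr rfl fun a ha => ?_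
        rw [Set.indicator_of_mem]
        rw [mem_primSet] at ha
        show a.norm.toNat = n
        rw [ha.1]; simp
      · intro a ha
        by_cases h1 : a ∈ (fun a : Eis => a.norm.toNat) ⁻¹' {n}
        · rw [Set.indicator_of_mem h1]
          simp only [hf]
          rw [if_neg]
          intro hp
          apply ha
          rw [mem_primSet]
          refine ⟨?_, hp⟩
          have h2 : a.norm.toNat = n := h1
          have h3 := norm_nonneg' a
          omega
        · rw [Set.indicator_of_notMem h1]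
    rw [hfin]
    by_cases hn : n = 0
    · subst hn
      rw [LSeries.term_zero]
      refine Finset.sum_eq_zero fun a ha => ?_
      rw [mem_primSet] at ha
      exfalso
      obtain ⟨h1, h2⟩ := ha
      rw [norm_eq] at h1
      rw [primary_iff] at h2
      have h3 : a.re = 0 := by
        push_cast at h1
        nlinarith [sq_nonneg (a.re - 2 * a.im), sq_nonneg a.re]
      omega
    · rw [LSeries.term_of_ne_zero hn]
      have h1 : ∀ a ∈ primSet n, f a = (n : ℂ) ^ (-s) * (φ a * conj (emb a)) := by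
        intro a ha
        rw [mem_primSet] at ha
        simp only [hf]
        rw [if_pos ha.2, s1_gs_emb hn ha.1]
        ring
      rw [Finset.sum_congr rfl h1, ← Finset.mul_sum, cf, Complex.cpow_neg]
      ring
  rw [hterm] at hfib
  refine ⟨hfib.summable, ?_⟩
  have hL : LSeries (cf φ) s = ∑' a, f a := hfib.tsum_eq
  rw [hL]
  have hu2 : u * u = 1 := by rcases hu with rfl | rfl <;> norm_num
  -- the primary elements
  let ι : Eis → Eis := fun d => (M : Eis) * (u : Eis) + 3 * d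
  have h3r : (3 : Eis).re = 3 := rfl
  have h3i : (3 : Eis).im = 0 := rfl
  have h3ne : (3 : Eis) ≠ 0 := by
    intro h
    have := congrArg QuadraticAlgebra.re h
    rw [h3r] at this
    simp at this
  have hι : Function.Injective ι := by
    intro d d' h
    have h1 : (3 : Eis) * d = 3 * d' := add_left_cancel h
    have h2 := congrArg QuadraticAlgebra.re h1
    have h4 := congrArg QuadraticAlgebra.im h1
    simp only [QuadraticAlgebra.re_mul, QuadraticAlgebra.im_mul, h3r, h3i] at h2 h4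
    apply QuadraticAlgebra.ext <;> linarith
  have hMu : ∃ e : Eis, (M : Eis) * (u : Eis) = 1 + 3 * e := by
    obtain ⟨t, ht⟩ := h3
    refine ⟨((t * u : ℤ) : Eis), ?_⟩
    have h1 : (M : ℤ) * u = 1 + 3 * (t * u) := by
      have : (M : ℤ) = u + 3 * t := by linarith
      rw [this]
      linear_combination hu2
    have h2 : (((M : ℤ) * u : ℤ) : Eis) = ((1 + 3 * (t * u) : ℤ) : Eis) := by rw [h1]
    push_cast at h2 ⊢
    exact h2
  obtain ⟨e₀, he₀⟩ := hMu
  have hprim : ∀ d, Primary (ι d) := by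
    intro d
    refine ⟨e₀ + d, ?_⟩
    show (M : Eis) * (u : Eis) + 3 * d - 1 = _
    rw [he₀]
    ring
  have hsupp : Function.support f ⊆ Set.range ι := by
    intro a ha
    rw [Function.mem_support] at ha
    simp only [hf] at ha
    split_ifs at ha with hp
    · obtain ⟨d, hd⟩ := hp
      refine ⟨d - e₀, ?_⟩
      show (M : Eis) * (u : Eis) + 3 * (d - e₀) = a
      rw [he₀]
      linear_combination -hd
    · exact absurd rfl ha
  rw [← hι.tsum_eq hsupp]
  have hsumι : Summable fun d => f (ι d) := hsum.comp_injective hι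
  -- residue classes modulo `M`
  let e : ((Fin M × Fin M) × Eis) ≃ Eis := Equiv.ofBijective _ (s1_e_bij hM)
  have he : ∀ p, e p = (⟨(p.1.1 : ℤ), (p.1.2 : ℤ)⟩ : Eis) + (M : Eis) * p.2 := s1_e_eq
  rw [← e.tsum_eq]
  have hsume : Summable fun p => f (ι (e p)) := (e.summable_iff (f := fun d => f (ι d))).mpr hsumι
  rw [hsume.tsum_prod, tsum_fintype, Fintype.sum_prod_type]
  unfold rsum
  rw [Finset.mul_sum, Finset.sum_range]
  refine Finset.sum_congr rfl fun i _ => ?_
  rw [Finset.mul_sum, Finset.sum_range]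
  refine Finset.sum_congr rfl fun j _ => ?_
  unfold Hs
  simp only []
  rw [← tsum_mul_left, ← tsum_mul_left]
  refine tsum_congr fun a => ?_
  have hch : φ (ι (e ((i, j), a))) = φ 3 * φ ⟨(i : ℕ), (j : ℕ)⟩ := by
    have h1 : ι (e ((i, j), a)) = 3 * (⟨((i : ℕ) : ℤ), ((j : ℕ) : ℤ)⟩ : Eis) +
        (M : Eis) * ((u : Eis) + 3 * a) := by
      show (M : Eis) * (u : Eis) + 3 * e ((i, j), a) = _
      rw [he]
      ring
    rw [h1, hφ.per, hφ.mul]
  have hgs : gs s (emb (ι (e ((i, j), a)))) = (3 * M : ℂ) ^ (1 - 2 * s) *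
      gs s (emb (⟨(i : ℕ), (j : ℕ)⟩ : Eis) / M + u / 3 + emb a) := by
    have h5 : emb (ι (e ((i, j), a))) =
        (3 * M : ℂ) * (emb (⟨(i : ℕ), (j : ℕ)⟩ : Eis) / M + u / 3 + emb a) := by
      show emb ((M : Eis) * (u : Eis) + 3 * e ((i, j), a)) = _
      rw [he, map_add, map_mul, map_mul, map_add, map_mul, map_natCast, map_intCast]
      have : emb (3 : Eis) = 3 := map_ofNat emb 3
      rw [this]
      field_simp
      ring
    rw [h5, gs_mul]
    congr 1
    have hpos : (0 : ℝ) < 3 * M := by positivity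
    have h6 : ((3 : ℂ) * M) = ((3 * M : ℝ) : ℂ) := by push_cast; ring
    unfold gs
    rw [h6, Complex.conj_ofReal, Complex.norm_real, Real.norm_of_nonneg hpos.le]
    rw [sub_eq_add_neg, Complex.cpow_add _ _ (by exact_mod_cast hpos.ne'), Complex.cpow_one]
    congr 2
    ring
  simp only [hf]
  rw [if_pos (hprim _), hch, hgs]
  ring

end BS3
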