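import Pool.Agent.MP_ae0bd0_nt.B3.E3
import Pool.Agent.MP_ae0bd0_nt.B3.K2
import Pool.Agent.MP_ae0bd0_nt.B3.S0
import Pool.Agent.MP_ae0bd0_nt.B3.S1

set_option autoImplicit false

open scoped ComplexConjugate
open Filter Topology CM27

namespace BS3

/-! ## [BS3-S2] the twisted `L`-series are entire; their value at `1`
(file S2.lean; uses E2c, K2, S0, S1) -/

theorem s2_rsum_congr (M : ℕ) (f g : Eis → ℂ) (h : ∀ v, f v = g v) : rsum M f = rsum M g := by
  rw [show f = g from funext h]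

theorem s2_rsum_smul (M : ℕ) (c : ℂ) (f : Eis → ℂ) : rsum M (fun v => c * f v) = c * rsum M f := by
  simp only [rsum, Finset.mul_sum]

theorem s2_rsum_sum {ι : Type} (S : Finset ι) (M : ℕ) (f : ι → Eis → ℂ) :
    rsum M (fun v => ∑ i ∈ S, f i v) = ∑ i ∈ S, rsum M (f i) := by
  simp only [rsum]
  have h1 : ∀ i j : ℕ, (∑ k ∈ S, f k (⟨i, j⟩ : Eis)) = ∑ k ∈ S, f k ⟨i, j⟩ := fun _ _ => rfl
  rw [Finset.sum_comm' (s := S) (t := fun _ => Finset.range M) (t' := Finset.range M)
    (s' := fun _ => S) (by simp [and_comm])]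
  refine Finset.sum_congr rfl fun i _ => ?_
  rw [Finset.sum_comm]

theorem s2_card : U6.card = 6 := by decide

theorem s2_star (e : Eis) (he : e ∈ U6) : emb (star e) = (emb e)⁻¹ := by
  have h1 : e.norm = 1 := (eis_isUnit_iff e).1 ((mem_U6 e).1 he)
  have h2 : emb e * emb (star e) = 1 := by
    rw [emb_star, Complex.mul_conj, normSq_emb, h1]
    norm_num
  exact eq_inv_of_mul_eq_one_right h2

theorem s2_star_mem (e : Eis) (he : e ∈ U6) : star e ∈ U6 := by
  rw [mem_U6, eis_isUnit_iff] at he ⊢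
  rw [QuadraticAlgebra.norm_star, he]

theorem s2_neg_mem (e : Eis) (he : e ∈ U6) : -e ∈ U6 := by
  rw [mem_U6] at he ⊢
  exact he.neg

theorem s2_u (M : ℕ) (h3 : ¬ 3 ∣ M) : ∃ u : ℤ, (u = 1 ∨ u = -1) ∧ (3 : ℤ) ∣ M - u := by
  have : M % 3 = 1 ∨ M % 3 = 2 := by omega
  rcases this with h | h
  · exact ⟨1, Or.inl rfl, by omega⟩
  · exact ⟨-1, Or.inr rfl, by omega⟩

theorem s2_tors (M : ℕ) (hM : M ≠ 0) (u : ℤ) (v : Eis) : Tors (emb v / M + u / 3) := by
  refine ⟨3 * M, by positivity, 3 * v + ((M : ℤ) * u : ℤ), ?_⟩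
  have hM' : (M : ℂ) ≠ 0 := by exact_mod_cast hM
  rw [map_add, map_mul, map_ofNat, map_intCast]
  push_cast
  field_simp

/-- averaging over the six units -/
theorem s2_average {M : ℕ} (hM : M ≠ 0) {φ : Eis → ℂ} (hφ : IsCh M φ) (u : ℤ)
    (hu : u = 1 ∨ u = -1) :
    6 * rsum M (fun v => φ v * Kr (emb v / M + u / 3)) =
      u * rsum M (fun v => φ v * Fst (emb v / M)) := by
  have hM' : (M : ℂ) ≠ 0 := by exact_mod_cast hM
  set G : Eis → ℂ := fun v => φ v * Kr (emb v / M + u / 3) with hG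
  have hper : ∀ a b, G (a + (M : Eis) * b) = G a := by
    intro a b
    have h1 : emb (a + (M : Eis) * b) / M + u / 3 = (emb a / M + u / 3) + emb b := by
      rw [map_add, map_mul, map_natCast]
      field_simp
      ring
    simp only [hG]
    rw [hφ.per, h1, Kr_add _ (s2_tors M hM u a)]
  have h1 : ∀ e ∈ U6, rsum M G = rsum M (fun v => φ v * ((emb e)⁻¹ *
      Kr (emb v / M + (emb e)⁻¹ * (u / 3)))) := by
    intro e he
    have hue : IsUnit e := (mem_U6 e).1 he
    have hcop : IsCoprime e (M : Eis) := by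
      obtain ⟨f, hf⟩ := hue.exists_left_inv
      exact ⟨f, 0, by rw [hf, zero_mul, add_zero]⟩
    rw [← rsum_mul M hM G hper e hcop]
    refine s2_rsum_congr M _ _ fun v => ?_
    have he0 : emb e ≠ 0 := by
      intro h0
      have := emb_injective (h0.trans (map_zero emb).symm)
      rw [this] at hue
      exact not_isUnit_zero hue
    have h2 : emb (e * v) / M + u / 3 = emb e * (emb v / M + (emb e)⁻¹ * (u / 3)) := by
      rw [map_mul]
      field_simp
    have h3 : Tors (emb v / M + (emb e)⁻¹ * (u / 3)) := by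
      have h4 : emb v / M + (emb e)⁻¹ * (u / 3) = emb (star e) * (emb (e * v) / M + u / 3) := by
        rw [s2_star e he, map_mul]
        field_simp
      rw [h4]
      exact tors_mul (s2_tors M hM u (e * v)) _
    simp only [hG]
    rw [hφ.mul, hφ.unit e hue, one_mul, h2, Kr_unit _ h3 e hue]
  have h2 : 6 * rsum M G = ∑ e ∈ U6, rsum M (fun v => φ v * ((emb e)⁻¹ *
      Kr (emb v / M + (emb e)⁻¹ * (u / 3)))) := by
    rw [← Finset.sum_congr rfl h1, Finset.sum_const, s2_card]
    norm_num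
  rw [h2, ← s2_rsum_sum, ← s2_rsum_smul]
  refine s2_rsum_congr M _ _ fun v => ?_
  rw [← Finset.mul_sum, Fst]
  have h3 : ∑ e ∈ U6, (emb e)⁻¹ * Kr (emb v / M + (emb e)⁻¹ * (u / 3)) =
      u * ∑ e ∈ U6, emb e * Kr (emb v / M + emb e / 3) := by
    rw [Finset.mul_sum]
    rcases hu with rfl | rfl
    · refine Finset.sum_bij' (fun e _ => star e) (fun e _ => star e) s2_star_mem s2_star_mem
        (fun e _ => star_star e) (fun e _ => star_star e) ?_
      intro e he
      rw [s2_star e he]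
      push_cast
      rw [one_mul]
      congr 3
      ring
    · refine Finset.sum_bij' (fun e _ => -star e) (fun e _ => -star e)
        (fun e he => s2_neg_mem _ (s2_star_mem e he)) (fun e he => s2_neg_mem _ (s2_star_mem e he))
        (fun e _ => by rw [star_neg, star_star, neg_neg])
        (fun e _ => by rw [star_neg, star_star, neg_neg]) ?_
      intro e he
      rw [map_neg, s2_star e he]
      push_cast
      rw [neg_one_mul, neg_mul, neg_neg]
      congr 3
      ring
  rw [h3]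
  ring

theorem L_entire {M : ℕ} (hM : M ≠ 0) (h3 : ¬ 3 ∣ M) {φ : Eis → ℂ} (hφ : IsCh M φ) :
    ∃ Φ : ℂ → ℂ, Differentiable ℂ Φ ∧
      (∀ s : ℂ, 3 / 2 < s.re → LSeriesSummable (cf φ) s ∧ Φ s = LSeries (cf φ) s) ∧
      ∃ c : ℂ, c ≠ 0 ∧ Φ 1 = c * rsum M (fun v => φ v * Fst (emb v / M)) := by
  obtain ⟨u, hu, hu3⟩ := s2_u M h3
  have hM' : (M : ℂ) ≠ 0 := by exact_mod_cast hM
  have h3M : (3 * M : ℂ) ≠ 0 := mul_ne_zero three_ne_zero hM'
  have key := fun v : Eis => Kr_spec (emb v / M + u / 3) (s2_tors M hM u v)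
  choose Φ hΦ1 hΦ2 hΦ3 using key
  refine ⟨fun s => φ 3 * (3 * M : ℂ) ^ (1 - 2 * s) * rsum M (fun v => φ v * Φ v s), ?_, ?_, ?_⟩
  · have h1 : Differentiable ℂ fun s : ℂ => (3 * M : ℂ) ^ (1 - 2 * s) := by
      intro s
      exact ((differentiableAt_const _).sub ((differentiableAt_const _).mul
        differentiableAt_id)).const_cpow (Or.inl h3M)
    have h2 : Differentiable ℂ fun s : ℂ => rsum M (fun v => φ v * Φ v s) := by
      unfold rsum
      refine Differentiable.fun_sum fun i _ => Differentiable.fun_sum fun j _ => ?_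
      exact (hΦ1 _).const_mul _
    exact ((differentiable_const _).mul h1).mul h2
  · intro s hs
    obtain ⟨h1, h2⟩ := series hM hφ u hu hu3 s hs
    refine ⟨h1, ?_⟩
    rw [h2]
    have h3 : rsum M (fun v => φ v * Φ v s) =
        rsum M (fun v => φ v * Hs s (emb v / M + u / 3)) :=
      s2_rsum_congr M _ _ fun v => by rw [hΦ2 v s hs]
    change φ 3 * (3 * M : ℂ) ^ (1 - 2 * s) * rsum M (fun v => φ v * Φ v s) = _
    rw [h3]
  · refine ⟨φ 3 * (3 * M : ℂ)⁻¹ * (u / 6), ?_, ?_⟩
    · have hcop : IsCoprime (3 : Eis) (M : Eis) := by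
        have h1 : IsCoprime (3 : ℤ) (M : ℤ) :=
          (Nat.isCoprime_iff_coprime (m := 3) (n := M)).2
            ((Nat.Prime.coprime_iff_not_dvd Nat.prime_three).2 h3)
        have := h1.map (Int.castRingHom Eis)
        simpa using this
      obtain ⟨k, hk, hroot⟩ := ch_root hM hφ
      have hφ3 : φ 3 ≠ 0 := by
        intro h0
        have := hroot 3 hcop
        rw [h0, zero_pow hk] at this
        exact zero_ne_one this
      refine mul_ne_zero (mul_ne_zero hφ3 (inv_ne_zero h3M)) ?_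
      rcases hu with rfl | rfl <;> norm_num
    · have h1 := s2_average hM hφ u hu
      have h2 : rsum M (fun v => φ v * Φ v 1) = rsum M (fun v => φ v * Kr (emb v / M + u / 3)) :=
        s2_rsum_congr M _ _ fun v => by rw [hΦ3]
      have h4 : (3 * M : ℂ) ^ (1 - 2 * (1 : ℂ)) = (3 * M : ℂ)⁻¹ := by
        rw [show (1 - 2 * (1 : ℂ)) = -1 by norm_num, Complex.cpow_neg_one]
      change φ 3 * (3 * M : ℂ) ^ (1 - 2 * (1 : ℂ)) * rsum M (fun v => φ v * Φ v 1) = _
      rw [h2, h4]
      linear_combination (φ 3 * (3 * M : ℂ)⁻¹ / 6) * h1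

end BS3
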