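import Pool.Agent.MP_ae0bd0_nt.B3.Defs
import Pool.Agent.MP_ae0bd0_nt.CM.D6

set_option autoImplicit false

open Polynomial NumberField IsDedekindDomain CM27
open scoped Classical

namespace BS3

/-! ## [BS3-P9] order of the characters -/

theorem chars_pow_gen (m : ℕ) [NeZero m] (M : Type) [Field M] [NumberField M]
    [IsCyclotomicExtension {m} ℚ M] (F : IntermediateField ℚ M) (N : ℕ)
    (h : Module.finrank ℚ F = N) (χ : DirichletCharacter ℂ m) (hχ : χ ∈ chars m F) :
    χ ^ N = 1 := by
  have hgal : IsGalois ℚ M := IsCyclotomicExtension.isGalois {m} ℚ M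
  have hmem : ∀ σ : Gal(M/ℚ), σ ∈ F.fixingSubgroup →
      χ (IsCyclotomicExtension.Rat.galEquivZMod m M σ : (ZMod m)ˣ) = 1 := by
    unfold chars at hχ
    simpa using hχ
  have hidx : F.fixingSubgroup.index = N := by
    have h1 := F.fixingSubgroup.index_mul_card
    have h2 : Nat.card F.fixingSubgroup = Module.finrank F M :=
      IsGalois.card_fixingSubgroup_eq_finrank F
    have h3 : Nat.card Gal(M/ℚ) = Module.finrank ℚ M := IsGalois.card_aut_eq_finrank ℚ M
    have h4 : Module.finrank ℚ F * Module.finrank F M = Module.finrank ℚ M :=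
      Module.finrank_mul_finrank ℚ F M
    rw [h2, h3, ← h4, h] at h1
    have h5 : 0 < Module.finrank F M := Module.finrank_pos
    exact Nat.eq_of_mul_eq_mul_right h5 h1
  let e := IsCyclotomicExtension.Rat.galEquivZMod m M
  have hidx' : (F.fixingSubgroup.map e.toMonoidHom).index = N := by
    rw [← hidx]
    exact Subgroup.index_map_equiv _ e
  ext a
  have h6 := (F.fixingSubgroup.map e.toMonoidHom).pow_index_mem a
  rw [hidx'] at h6
  obtain ⟨σ, hσ, hσa⟩ := h6
  have h7 := hmem σ hσ
  have h8 : (IsCyclotomicExtension.Rat.galEquivZMod m M σ : (ZMod m)ˣ) = a ^ N := hσa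
  rw [h8, Units.val_pow_eq_pow_val, map_pow] at h7
  rw [MulChar.pow_apply_coe, MulChar.one_apply_coe]
  exact h7

end BS3
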