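import Pool.Agent.MP_ae0bd0_nt.CM.GDefs
import Pool.Agent.MP_ae0bd0_nt.CM.CDefs
import Mathlib

/-!
# [BS3] MP_ae0bd0_nt, second theorem (prime 3): definitions

Curves `y² = x³ + k` (in particular `y² = x³ - 16`), fields of `3`-power degree.
-/

set_option autoImplicit false

open scoped ComplexConjugate
open CM27

namespace BS3

/-- The Weierstrass curve `y² = x³ + k`. -/
def W (k : ℤ) (K : Type*) [CommRing K] : WeierstrassCurve K := ⟨0, 0, 0, 0, (k : K)⟩

/-- Good levels: squarefree products of primes `≡ 7 mod 12` (including the empty product). -/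
def Good (m : ℕ) : Prop := Squarefree m ∧ ∀ p, p.Prime → p ∣ m → p % 12 = 7

/-! ### analytic part -/

/-- The six units of the Eisenstein integers. -/
def U6 : Finset Eis := {⟨1, 0⟩, ⟨-1, 0⟩, ⟨0, 1⟩, ⟨0, -1⟩, ⟨1, 1⟩, ⟨-1, -1⟩}

/-- `√-3 = 1 + 2 ω`. -/
def th : Eis := ⟨1, 2⟩

/-- Characters of level `M` of the Eisenstein integers which are trivial on the units. -/
structure IsCh (M : ℕ) (φ : Eis → ℂ) : Prop where
  one : φ 1 = 1
  mul : ∀ a b, φ (a * b) = φ a * φ b
  per : ∀ a b, φ (a + (M : Eis) * b) = φ a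
  unit : ∀ u, IsUnit u → φ u = 1
  zero : ∀ a, ¬ IsCoprime a (M : Eis) → φ a = 0

/-- The Dirichlet coefficients attached to `φ`. -/
noncomputable def cf (φ : Eis → ℂ) (n : ℕ) : ℂ := ∑ a ∈ primSet n, φ a * conj (emb a)

/-- The sum of `f` over the residue classes modulo the positive integer `M`. -/
noncomputable def rsum (M : ℕ) (f : Eis → ℂ) : ℂ :=
  ∑ i ∈ Finset.range M, ∑ j ∈ Finset.range M, f ⟨i, j⟩

/-- `z` is a torsion point of `ℂ/ℤ[ω]`. -/
def Tors (z : ℂ) : Prop := ∃ N : ℕ, N ≠ 0 ∧ (N : ℂ) * z ∈ Set.range emb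

open Classical in
/-- The value at `s = 1` of the analytic continuation of `s ↦ Hs s z`. -/
noncomputable def Kr (z : ℂ) : ℂ :=
  if h : ∃ Φ : ℂ → ℂ, Differentiable ℂ Φ ∧ ∀ s : ℂ, 3 / 2 < s.re → Φ s = Hs s z then h.choose 1
  else 0

/-- The symmetrised values `∑ ε Kr (z + ε / 3)`, `ε` the six units. -/
noncomputable def Fst (z : ℂ) : ℂ := ∑ e ∈ U6, emb e * Kr (z + emb e / 3)

/-- `z` is not a pole of `Fz`. -/
def NP (z : ℂ) : Prop := ∀ a : Eis, 729 * (z + emb a) ^ 6 ≠ 1

/-- The elliptic function `-18 ∑ 1 / (729 (z + a)^6 - 1)`. -/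
noncomputable def Fz (z : ℂ) : ℂ := -18 * ∑' a : Eis, (729 * (z + emb a) ^ 6 - 1)⁻¹

/-- The cube of the normalised `x`-coordinate, `-℘³/g₃` (`y² = 4 X + 1`). -/
noncomputable def XX (z : ℂ) : ℂ := - L0.weierstrassP z ^ 3 / L0.g₃

/-- `s = y² / √-27`. -/
noncomputable def SS (z : ℂ) : ℂ := (4 * XX z + 1) / (3 * emb th)

/-- `h = s / (1 + √-3 s)`; `1 / (1 + X) = 4/3 - (4 √-3 / 3) h`. -/
noncomputable def hh (z : ℂ) : ℂ := SS z / (1 + emb th * SS z)

/-- The character `χ₋₄ ∘ N`. -/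
noncomputable def ch4 (a : Eis) : ℂ := ((ZMod.χ₄ ((a.norm : ℤ) : ZMod 4) : ℤ) : ℂ)

open Classical in
/-- The sum over the residue classes prime to `g` (`4 ∣ g`). -/
noncomputable def TS (g : Eis) : ℂ :=
  ∑ᶠ d : Eis ⧸ Ideal.span {g},
    if IsCoprime d.out g then ch4 d.out * Fst (emb d.out / emb g) else 0

/-! ### algebraic part -/

/-- `K(√D)` -/
abbrev Q2 (D : ℤ) (K : Type) [Field K] := QuadraticAlgebra K (D : K) 0

/-- The property that `D` is not a square in `K`. -/
abbrev NonSq (D : ℤ) (K : Type) [Field K] : Prop := ∀ r : K, r ^ 2 ≠ (D : K) + 0 * r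

theorem nonSq_iff (D : ℤ) (K : Type) [Field K] : NonSq D K ↔ ∀ r : K, r ^ 2 ≠ (D : K) := by
  simp [NonSq]

/-- The map `K(√D) → L(√D)` induced by `K → L`. -/
def mapQ {D : ℤ} {K L : Type} [Field K] [Field L] (f : K →+* L) : Q2 D K →+* Q2 D L where
  toFun z := ⟨f z.re, f z.im⟩
  map_one' := by ext <;> simp [QuadraticAlgebra.re_one, QuadraticAlgebra.im_one]
  map_mul' a b := by ext <;> simp
  map_zero' := by ext <;> simp
  map_add' a b := by ext <;> simp

theorem mapQ_apply {D : ℤ} {K L : Type} [Field K] [Field L] (f : K →+* L) (z : Q2 D K) :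
    mapQ f z = ⟨f z.re, f z.im⟩ := rfl

/-- The descent map `P = (x, y) ↦ y - c √D` on the curve `y² = x³ + D c²`. -/
def zq (D c : ℤ) {k : ℤ} {K : Type} [Field K] : (W k K).toAffine.Point → Q2 D K
  | .zero => 1
  | .some _ y _ => ⟨y, -(c : K)⟩

theorem W_map {K L : Type*} [CommRing K] [CommRing L] (k : ℤ) (f : K →+* L) :
    (W k K).map f = W k L := by
  simp [W, WeierstrassCurve.map]

/-- The map on points induced by a homomorphism of fields. -/
def ptW {k : ℤ} {K L : Type} [Field K] [Field L] (f : K →+* L) :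
    (W k K).toAffine.Point → (W k L).toAffine.Point
  | .zero => .zero
  | .some x y h => .some (f x) (f y) (by
      have h1 := (WeierstrassCurve.Affine.map_nonsingular (W k K).toAffine f.injective x y).2 h
      have h2 : ((W k K).toAffine.map f) = (W k L).toAffine := W_map k f
      rwa [h2] at h1)

theorem W_equation {k : ℤ} {K : Type} [Field K] (x y : K) :
    (W k K).toAffine.Equation x y ↔ y ^ 2 = x ^ 3 + k := by
  rw [WeierstrassCurve.Affine.equation_iff]
  simp [W]

theorem W_nonsingular {k : ℤ} (hk : k ≠ 0) {K : Type} [Field K] [CharZero K] (x y : K) :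
    (W k K).toAffine.Nonsingular x y ↔ y ^ 2 = x ^ 3 + k := by
  rw [← W_equation]
  refine ⟨fun h => h.1, fun h => ?_⟩
  rw [WeierstrassCurve.Affine.nonsingular_iff]
  refine ⟨h, ?_⟩
  rw [W_equation] at h
  simp only [W]
  by_contra hcon
  push Not at hcon
  obtain ⟨h1, h2⟩ := hcon
  have hx : x = 0 := by
    have : (3 : K) * x ^ 2 = 0 := by
      have := h1
      linear_combination -this
    rcases mul_eq_zero.1 this with h3 | h3
    · exact absurd h3 (by norm_num)
    · exact pow_eq_zero_iff (two_ne_zero) |>.1 h3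
  have hy : y = 0 := by
    have : (2 : K) * y = 0 := by linear_combination h2
    rcases mul_eq_zero.1 this with h3 | h3
    · exact absurd h3 (by norm_num)
    · exact h3
  rw [hx, hy] at h
  have : (k : K) = 0 := by linear_combination -h
  exact hk (by exact_mod_cast this)

/-! ### the splitting of primes in number fields -/

open NumberField IsDedekindDomain in
/-- The primes split in `K` as prescribed by the set of characters `S` (`K` is the abelian field
belonging to `S`). -/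
def SplitData (K : Type) [Field K] [NumberField K] {m : ℕ} (S : Finset (DirichletCharacter ℂ m)) :
    Prop :=
  ∀ p : ℕ, p.Prime → ∃ f g : ℕ, 0 < f ∧
      {v : HeightOneSpectrum (𝓞 K) | (p : 𝓞 K) ∈ v.asIdeal}.Finite ∧
      {v : HeightOneSpectrum (𝓞 K) | (p : 𝓞 K) ∈ v.asIdeal}.ncard = g ∧
      (∀ v : HeightOneSpectrum (𝓞 K), (p : 𝓞 K) ∈ v.asIdeal →
        Nat.card (𝓞 K ⧸ v.asIdeal) = p ^ f) ∧
      ∀ u : ℂ, ∏ χ ∈ S, (1 - pval χ p * u) = (1 - u ^ f) ^ g

open NumberField IsDedekindDomain in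
/-- `p` is unramified in `K`. -/
def Unram (p : ℕ) (K : Type) [Field K] [NumberField K] : Prop :=
  ∀ v : HeightOneSpectrum (𝓞 K), (p : 𝓞 K) ∈ v.asIdeal → (p : 𝓞 K) ∉ v.asIdeal ^ 2

end BS3
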