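import Pool.Agent.MP_ae0bd0_nt.B3.Defs

set_option autoImplicit false

open Polynomial NumberField IsDedekindDomain CM27
open scoped Classical

namespace BS3

/-! ## [BS3-Q10] exclusion of the unit `2 + √3` at `3` (file Q10.lean) -/

section
open WithZero

/-- `x` has order at least `n` -/
def q10_ge {F : Type} [Field F] (w : Valuation F ℤᵐ⁰) (x : F) (n : ℤ) : Prop := w x ≤ exp (-n)

/-- `x` has order `n` -/
def q10_eq {F : Type} [Field F] (w : Valuation F ℤᵐ⁰) (x : F) (n : ℤ) : Prop := w x = exp (-n)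

variable {F : Type} [Field F] {w : Valuation F ℤᵐ⁰} {x y : F} {n m : ℤ}

theorem q10_eq.ge (h : q10_eq w x n) : q10_ge w x n := le_of_eq h

theorem q10_ge.mono (h : q10_ge w x n) (hm : m ≤ n) : q10_ge w x m :=
  le_trans h (exp_le_exp.2 (by omega))

theorem q10_ge_zero : q10_ge w 0 n := by
  unfold q10_ge
  rw [map_zero]
  exact zero_le

theorem q10_ge.add (h1 : q10_ge w x n) (h2 : q10_ge w y n) : q10_ge w (x + y) n :=
  (w.map_add x y).trans (max_le h1 h2)

theorem q10_ge.neg (h1 : q10_ge w x n) : q10_ge w (-x) n := by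
  unfold q10_ge; rw [Valuation.map_neg]; exact h1

theorem q10_eq.neg (h1 : q10_eq w x n) : q10_eq w (-x) n := by
  unfold q10_eq; rw [Valuation.map_neg]; exact h1

theorem q10_ge.sub (h1 : q10_ge w x n) (h2 : q10_ge w y n) : q10_ge w (x - y) n := by
  rw [sub_eq_add_neg]; exact h1.add h2.neg

theorem q10_ge.mul (h1 : q10_ge w x n) (h2 : q10_ge w y m) : q10_ge w (x * y) (n + m) := by
  unfold q10_ge
  rw [map_mul, neg_add, exp_add]
  exact mul_le_mul' h1 h2

theorem q10_eq.mul (h1 : q10_eq w x n) (h2 : q10_eq w y m) : q10_eq w (x * y) (n + m) := by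
  unfold q10_eq
  rw [map_mul, neg_add, exp_add, h1, h2]

theorem q10_eq.add (h1 : q10_eq w x n) (h2 : q10_ge w y (n + 1)) : q10_eq w (x + y) n := by
  unfold q10_eq
  have h3 : w y < w x := by
    rw [h1]
    exact lt_of_le_of_lt h2 (exp_lt_exp.2 (by omega))
  rw [w.map_add_eq_of_lt_left h3]
  exact h1

theorem q10_exists (hx : x ≠ 0) : ∃ n, q10_eq w x n :=
  ⟨-(log (w x)), by unfold q10_eq; rw [neg_neg, exp_log ((Valuation.ne_zero_iff w).2 hx)]⟩

theorem q10_eq.unique (h1 : q10_eq w x n) (h2 : q10_eq w x m) : n = m := by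
  unfold q10_eq at h1 h2
  rw [h1, exp_inj] at h2
  omega

theorem q10_eq.le (h1 : q10_eq w x n) (h2 : q10_ge w x m) : m ≤ n := by
  unfold q10_eq at h1
  unfold q10_ge at h2
  rw [h1, exp_le_exp] at h2
  omega

theorem q10_one : q10_eq w 1 0 := by
  unfold q10_eq; rw [map_one, neg_zero, exp_zero]

theorem q10_int (w : Valuation F ℤᵐ⁰) (k : ℤ) : q10_ge w (k : F) 0 := by
  have hn : ∀ k : ℕ, q10_ge w (k : F) 0 := by
    intro k
    induction k with
    | zero => rw [Nat.cast_zero]; exact q10_ge_zero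
    | succ k ih => rw [Nat.cast_succ]; exact ih.add q10_one.ge
  rcases Int.eq_nat_or_neg k with ⟨a, rfl | rfl⟩
  · simpa using hn a
  · simpa using (hn a).neg

theorem q10_int_unit (h3 : q10_eq w (3 : F) 1) (k : ℤ) (hk : ¬ 3 ∣ k) : q10_eq w (k : F) 0 := by
  have hk0 : (k : F) ≠ 0 := by
    intro h0
    obtain ⟨a, b, hab⟩ : ∃ a b : ℤ, k * a + 3 * b = 1 := by
      have hc : IsCoprime k 3 := by
        rw [isCoprime_comm]
        exact (Prime.coprime_iff_not_dvd Int.prime_three).2 hk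
      obtain ⟨a, b, hab⟩ := hc
      exact ⟨a, b, by linarith⟩
    have h1 : (3 : F) * (b : F) = 1 := by
      have h2 : ((k * a + 3 * b : ℤ) : F) = 1 := by rw [hab]; simp
      push_cast at h2
      rw [h0, zero_mul, zero_add] at h2
      exact h2
    have h4 := h3.ge.mul (q10_int w b)
    rw [h1] at h4
    have := q10_one.le h4
    omega
  obtain ⟨n, hn⟩ := q10_exists (w := w) hk0
  have h1 := hn.le (q10_int w k)
  by_contra hcon
  have hn1 : 1 ≤ n := by
    rcases lt_or_ge n 1 with h | h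
    · exfalso
      apply hcon
      have : n = 0 := by omega
      rw [← this]; exact hn
    · exact h
  obtain ⟨a, b, hab⟩ : ∃ a b : ℤ, k * a + 3 * b = 1 := by
    have hc : IsCoprime k 3 := by
      rw [isCoprime_comm]
      exact (Prime.coprime_iff_not_dvd Int.prime_three).2 hk
    obtain ⟨a, b, hab⟩ := hc
    exact ⟨a, b, by linarith⟩
  have h2 : ((k * a + 3 * b : ℤ) : F) = 1 := by rw [hab]; simp
  push_cast at h2
  have h3' : q10_ge w ((k : F) * (a : F)) 1 := ((hn.ge.mul (q10_int w a))).mono (by omega)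
  have h4 : q10_ge w ((3 : F) * (b : F)) 1 := ((h3.ge.mul (q10_int w b))).mono (by omega)
  have h5 := h3'.add h4
  rw [h2] at h5
  have := q10_one.le h5
  omega

theorem q10_int_three (h3 : q10_eq w (3 : F) 1) (k : ℤ) (hk : 3 ∣ k) (hk9 : ¬ 9 ∣ k) :
    q10_eq w (k : F) 1 := by
  obtain ⟨a, rfl⟩ := hk
  have ha : ¬ 3 ∣ a := by
    rintro ⟨b, rfl⟩
    exact hk9 ⟨b, by ring⟩
  have := h3.mul (q10_int_unit h3 a ha)
  push_cast
  simpa using this

theorem q10_int_nine (h3 : q10_eq w (3 : F) 1) (k : ℤ) (hk : q10_ge w (k : F) 2) : 9 ∣ k := by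
  by_contra h9
  by_cases h : 3 ∣ k
  · have := (q10_int_three h3 k h h9).le hk
    omega
  · have := (q10_int_unit h3 k h).le hk
    omega

/-- a cube congruent to `±1` modulo the prime is congruent to `±1` modulo 9 -/
theorem q10_cube (h3 : q10_eq w (3 : F) 1) {d : F} (hd : q10_ge w d 0) (e : ℤ) (he : e = 1 ∨ e = -1)
    (h : q10_ge w (d ^ 3 - (e : F)) 1) : q10_ge w (d ^ 3 - (e : F)) 2 := by
  have he3 : (e : F) ^ 3 = e := by rcases he with rfl | rfl <;> norm_num
  have h1 : q10_ge w ((d - (e : F)) ^ 3) 1 := by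
    have h2 : (d - (e : F)) ^ 3 = (d ^ 3 - (e : F)) + 3 * (-(d ^ 2 * e) + d * e * e) := by
      linear_combination (-1 : F) * he3
    rw [h2]
    refine h.add ?_
    have h4 : q10_ge w (-(d ^ 2 * (e : F)) + d * e * e) 0 := by
      have a1 : q10_ge w (d ^ 2 * (e : F)) 0 := by
        have := (hd.mul hd).mul (q10_int w e)
        rw [← sq] at this
        simpa using this
      have a2 : q10_ge w (d * (e : F) * e) 0 := by
        have := (hd.mul (q10_int w e)).mul (q10_int w e)
        simpa using this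
      exact a1.neg.add a2
    have := h3.ge.mul h4
    simpa using this
  have h5 : q10_ge w (d - (e : F)) 1 := by
    by_cases h0 : d - (e : F) = 0
    · rw [h0]; exact q10_ge_zero
    · obtain ⟨n, hn⟩ := q10_exists (w := w) h0
      have h6 : q10_eq w ((d - (e : F)) ^ 3) (n + n + n) := by
        have := (hn.mul hn).mul hn
        rwa [← sq, ← pow_succ] at this
      have := h6.le h1
      exact hn.ge.mono (by omega)
  have h7 : d ^ 3 - (e : F) = (d - e) * ((d - e) * (d - e) + 3 * (d * e)) := by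
    linear_combination he3
  rw [h7]
  have h8 : q10_ge w ((d - (e : F)) * (d - e) + 3 * (d * e)) 1 := by
    refine ((h5.mul h5).mono (by omega)).add ?_
    have := h3.ge.mul (hd.mul (q10_int w e))
    simpa using this
  exact (h5.mul h8).mono (by omega)

theorem q10_v3 {F : Type} [Field F] [NumberField F] (v : HeightOneSpectrum (𝓞 F))
    (h3 : (3 : 𝓞 F) ∈ v.asIdeal) (h9 : (3 : 𝓞 F) ∉ v.asIdeal ^ 2) :
    q10_eq (v.valuation F) (3 : F) 1 := by
  unfold q10_eq
  have e : (3 : F) = algebraMap (𝓞 F) F 3 := (map_ofNat (algebraMap (𝓞 F) F) 3).symm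
  rw [e, HeightOneSpectrum.valuation_of_algebraMap]
  have h1 : v.intValuation (3 : 𝓞 F) ≤ exp (-((1 : ℕ) : ℤ)) := by
    rw [HeightOneSpectrum.intValuation_le_pow_iff_mem, pow_one]
    exact h3
  have h2 : ¬ v.intValuation (3 : 𝓞 F) ≤ exp (-((2 : ℕ) : ℤ)) := by
    rw [HeightOneSpectrum.intValuation_le_pow_iff_mem]
    exact h9
  have h0 : v.intValuation (3 : 𝓞 F) ≠ 0 :=
    HeightOneSpectrum.intValuation_ne_zero v 3 (by norm_num)
  rw [← exp_log h0, exp_le_exp] at h1 h2
  rw [← exp_log h0, exp_inj]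
  omega

end

theorem q10_aux {F : Type} [Field F] [CharZero F] (w : Valuation F (WithZero (Multiplicative ℤ)))
    (h3 : q10_eq w (3 : F) 1) (b : ℤ) (hb : ¬ 3 ∣ b)
    (hb4 : ¬ b % 9 = 4) (hb5 : ¬ b % 9 = 5) (c d : F) :
    c ^ 3 + 6 * c ^ 2 * d + 9 * c * d ^ 2 + 6 * d ^ 3 ≠ -12 * (b : F) := by
  intro h
  have h2 : q10_eq w (2 : F) 0 := by
    have := q10_int_unit h3 2 (by norm_num)
    simpa using this
  have hbu := q10_int_unit h3 b hb
  have hR : q10_eq w (-12 * (b : F)) 1 := by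
    have h1 := (((h3.mul h2).mul h2).mul hbu).neg
    have h4 : -((3 : F) * 2 * 2 * b) = -12 * (b : F) := by ring
    rw [h4] at h1
    simpa using h1
  have hF0 : (b : F) ≠ 0 := by
    intro h0
    apply hb
    have : b = 0 := by exact_mod_cast h0
    rw [this]; exact dvd_zero 3
  have key : ∀ n : ℤ, q10_eq w d n → q10_ge w c (n + 1) → False := by
    intro n hn hc
    have t1 : q10_ge w (c ^ 3) (3 * n + 3) := by
      have := (hc.mul hc).mul hc
      rw [← sq, ← pow_succ] at this
      exact this.mono (by omega)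
    have t2 : q10_ge w (6 * c ^ 2 * d) (3 * n + 3) := by
      have := ((h3.ge.mul h2.ge).mul (hc.mul hc)).mul hn.ge
      have e : (3 : F) * 2 * (c * c) * d = 6 * c ^ 2 * d := by ring
      rw [e] at this
      exact this.mono (by omega)
    have t3 : q10_ge w (9 * c * d ^ 2) (3 * n + 3) := by
      have := ((h3.ge.mul h3.ge).mul hc).mul (hn.ge.mul hn.ge)
      have e : (3 : F) * 3 * c * (d * d) = 9 * c * d ^ 2 := by ring
      rw [e] at this
      exact this.mono (by omega)
    have hd3 : q10_eq w (d ^ 3) (3 * n) := by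
      have := (hn.mul hn).mul hn
      rw [← sq, ← pow_succ] at this
      have e : n + n + n = 3 * n := by ring
      rwa [e] at this
    have t4 : q10_eq w (6 * d ^ 3) (3 * n + 1) := by
      have := (h3.mul h2).mul hd3
      have e : (3 : F) * 2 * d ^ 3 = 6 * d ^ 3 := by ring
      rw [e] at this
      have e2 : (1 : ℤ) + 0 + 3 * n = 3 * n + 1 := by ring
      rwa [e2] at this
    have hS : q10_eq w (6 * d ^ 3 + (c ^ 3 + 6 * c ^ 2 * d + 9 * c * d ^ 2)) (3 * n + 1) :=
      t4.add (((t1.add t2).add t3).mono (by omega))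
    have e : 6 * d ^ 3 + (c ^ 3 + 6 * c ^ 2 * d + 9 * c * d ^ 2) = -12 * (b : F) := by
      rw [← h]; ring
    rw [e] at hS
    have hn0 := hS.unique hR
    have hn1 : n = 0 := by omega
    subst hn1
    -- `d³ + 2b` has order at least 2
    have h6 : q10_ge w ((6 : F) * (d ^ 3 + 2 * b)) 3 := by
      have e : (6 : F) * (d ^ 3 + 2 * b) = -(c ^ 3 + 6 * c ^ 2 * d + 9 * c * d ^ 2) := by
        linear_combination h
      rw [e]
      exact (((t1.add t2).add t3).mono (by omega)).neg
    have h7 : q10_ge w (d ^ 3 + 2 * (b : F)) 2 := by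
      by_cases h0 : d ^ 3 + 2 * (b : F) = 0
      · rw [h0]; exact q10_ge_zero
      · obtain ⟨k, hk⟩ := q10_exists (w := w) h0
        have h8 := (h3.mul h2).mul hk
        have e : (3 : F) * 2 * (d ^ 3 + 2 * b) = (6 : F) * (d ^ 3 + 2 * b) := by ring
        rw [e] at h8
        have := h8.le h6
        exact hk.ge.mono (by omega)
    obtain ⟨e, he, hbe⟩ : ∃ e : ℤ, (e = 1 ∨ e = -1) ∧ 3 ∣ e - b := by
      have : b % 3 = 1 ∨ b % 3 = 2 := by omega
      rcases this with h' | h'
      · exact ⟨1, Or.inl rfl, by omega⟩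
      · exact ⟨-1, Or.inr rfl, by omega⟩
    have h9 : q10_ge w (d ^ 3 - (e : F)) 1 := by
      have e1 : d ^ 3 - (e : F) = (d ^ 3 + 2 * b) - ((e + 2 * b : ℤ) : F) := by
        push_cast; ring
      rw [e1]
      refine (h7.mono (by omega)).sub ?_
      obtain ⟨a, ha⟩ : 3 ∣ e + 2 * b := by omega
      rw [ha]
      push_cast
      have := h3.ge.mul (q10_int w a)
      simpa using this
    have h10 := q10_cube h3 hn.ge e he h9
    have h11 : q10_ge w ((e + 2 * b : ℤ) : F) 2 := by
      have e1 : ((e + 2 * b : ℤ) : F) = (d ^ 3 + 2 * b) - (d ^ 3 - (e : F)) := by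
        push_cast; ring
      rw [e1]
      exact h7.sub h10
    have h12 := q10_int_nine h3 _ h11
    rcases he with rfl | rfl <;> omega
  by_cases hc0 : c = 0
  · by_cases hd0 : d = 0
    · rw [hc0, hd0] at h
      apply hF0
      have : (12 : F) * b = 0 := by linear_combination (1 : F) * h
      rcases mul_eq_zero.1 this with h' | h'
      · norm_num at h'
      · exact h'
    · obtain ⟨n, hn⟩ := q10_exists (w := w) hd0
      exact key n hn (by rw [hc0]; exact q10_ge_zero)
  · obtain ⟨m, hm⟩ := q10_exists (w := w) hc0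
    have main : q10_ge w d m → False := by
      intro hd
      have t2 : q10_ge w (6 * c ^ 2 * d) (3 * m + 1) := by
        have := ((h3.ge.mul h2.ge).mul (hm.ge.mul hm.ge)).mul hd
        have e : (3 : F) * 2 * (c * c) * d = 6 * c ^ 2 * d := by ring
        rw [e] at this
        exact this.mono (by omega)
      have t3 : q10_ge w (9 * c * d ^ 2) (3 * m + 1) := by
        have := ((h3.ge.mul h3.ge).mul hm.ge).mul (hd.mul hd)
        have e : (3 : F) * 3 * c * (d * d) = 9 * c * d ^ 2 := by ring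
        rw [e] at this
        exact this.mono (by omega)
      have t4 : q10_ge w (6 * d ^ 3) (3 * m + 1) := by
        have := (h3.ge.mul h2.ge).mul ((hd.mul hd).mul hd)
        have e : (3 : F) * 2 * (d * d * d) = 6 * d ^ 3 := by ring
        rw [e] at this
        exact this.mono (by omega)
      have t1 : q10_eq w (c ^ 3) (3 * m) := by
        have := (hm.mul hm).mul hm
        rw [← sq, ← pow_succ] at this
        have e : m + m + m = 3 * m := by ring
        rwa [e] at this
      have hS := t1.add ((t2.add t3).add t4)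
      have e : c ^ 3 + (6 * c ^ 2 * d + 9 * c * d ^ 2 + 6 * d ^ 3) = -12 * (b : F) := by
        rw [← h]; ring
      rw [e] at hS
      have := hS.unique hR
      omega
    by_cases hd0 : d = 0
    · exact main (by rw [hd0]; exact q10_ge_zero)
    · obtain ⟨n, hn⟩ := q10_exists (w := w) hd0
      rcases le_or_gt m n with hmn | hmn
      · exact main (hn.ge.mono hmn)
      · exact key n hn (hm.ge.mono (by omega))

theorem cubic_no_sol {F : Type} [Field F] [NumberField F] (v : HeightOneSpectrum (𝓞 F))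
    (h3 : (3 : 𝓞 F) ∈ v.asIdeal) (h9 : (3 : 𝓞 F) ∉ v.asIdeal ^ 2) (b : ℤ) (hb : ¬ 3 ∣ b)
    (hb4 : ¬ b % 9 = 4) (hb5 : ¬ b % 9 = 5) (c d : F) :
    c ^ 3 + 6 * c ^ 2 * d + 9 * c * d ^ 2 + 6 * d ^ 3 ≠ -12 * (b : F) :=
  q10_aux (v.valuation F) (q10_v3 v h3 h9) b hb hb4 hb5 c d

theorem not_eps {F : Type} [Field F] [NumberField F] (v : HeightOneSpectrum (𝓞 F))
    (h3 : (3 : 𝓞 F) ∈ v.asIdeal) (h9 : (3 : 𝓞 F) ∉ v.asIdeal ^ 2) (b : ℤ) (hb : ¬ 3 ∣ b)
    (hb4 : ¬ b % 9 = 4) (hb5 : ¬ b % 9 = 5) (y : F) (s : Q2 3 F) :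
    (⟨y, -((12 * b : ℤ) : F)⟩ : Q2 3 F) ≠ (⟨2, 1⟩ : Q2 3 F) * s ^ 3 ∧
    (⟨y, -((12 * b : ℤ) : F)⟩ : Q2 3 F) ≠ (⟨2, -1⟩ : Q2 3 F) * s ^ 3 := by
  obtain ⟨c, d⟩ := s
  constructor
  · intro h
    have h1 := congrArg QuadraticAlgebra.im h
    simp only [pow_succ, pow_zero, one_mul, QuadraticAlgebra.im_mul, QuadraticAlgebra.re_mul] at h1
    push_cast at h1
    refine cubic_no_sol v h3 h9 b hb hb4 hb5 c d ?_
    linear_combination (-1 : F) * h1
  · intro h
    have h1 := congrArg QuadraticAlgebra.im h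
    simp only [pow_succ, pow_zero, one_mul, QuadraticAlgebra.im_mul, QuadraticAlgebra.re_mul] at h1
    push_cast at h1
    refine cubic_no_sol v h3 h9 b hb hb4 hb5 (-c) d ?_
    linear_combination (-1 : F) * h1

end BS3
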