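import Pool.Agent.MP_ae0bd0_nt.B3.Defs

set_option autoImplicit false

open CM27
open scoped Classical

namespace BS3

/-! ## [BS3-Q11] from cubes to points (file Q11.lean) -/

theorem q11_cube {F : Type} [Field F] (D : ℤ) (u v : F) (s : Q2 D F)
    (h : (⟨u, v⟩ : Q2 D F) = s ^ 3) :
    u = s.re ^ 3 + 3 * (D : F) * s.re * s.im ^ 2 ∧ v = 3 * s.re ^ 2 * s.im + D * s.im ^ 3 := by
  have h3 : s ^ 3 = s * s * s := by ring
  rw [h3] at h
  have h1 := congrArg (fun q : Q2 D F => q.re) h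
  have h2 := congrArg (fun q : Q2 D F => q.im) h
  simp only [QuadraticAlgebra.re_mul, QuadraticAlgebra.im_mul] at h1 h2
  constructor
  · rw [h1]; ring
  · rw [h2]; ring

/-- If the classes of the points of `y² = x³ - 16 b²` and of `Y² = X³ + 432 b²` are cubes, then every
point of `y² = x³ - 16 b²` is the image of another point under the map `x₁ ↦ X ↦ x`
(multiplication by `±3`). -/
theorem exists_back {F : Type} [Field F] [CharZero F] (hω : ∀ u : F, u ^ 3 = 1 → u = 1)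
    (b : ℤ) (hb : b ≠ 0) (hm1 : ∀ r : F, r ^ 2 ≠ -1) (h3 : ∀ r : F, r ^ 2 ≠ 3)
    (hA : ∀ x y : F, y ^ 2 = x ^ 3 - 16 * (b : F) ^ 2 →
      ∃ s : Q2 (-1) F, (⟨y, -((4 * b : ℤ) : F)⟩ : Q2 (-1) F) = s ^ 3)
    (hB : ∀ x y : F, y ^ 2 = x ^ 3 + 432 * (b : F) ^ 2 →
      ∃ s : Q2 3 F, (⟨y, -((12 * b : ℤ) : F)⟩ : Q2 3 F) = s ^ 3)
    (x y : F) (hxy : y ^ 2 = x ^ 3 - 16 * (b : F) ^ 2) :
    ∃ x1 y1 X : F, y1 ^ 2 = x1 ^ 3 - 16 * (b : F) ^ 2 ∧ x1 ≠ 0 ∧ X ≠ 0 ∧
      X * x1 ^ 2 = x1 ^ 3 - 64 * (b : F) ^ 2 ∧ x * (9 * X ^ 2) = X ^ 3 + 1728 * (b : F) ^ 2 := by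
  have hbF : (b : F) ≠ 0 := by exact_mod_cast hb
  obtain ⟨s, hs⟩ := hA x y hxy
  obtain ⟨hy, hi⟩ := q11_cube (-1) _ _ s hs
  set a : F := s.re with ha
  set β : F := s.im with hβ
  push_cast at hy hi
  have hβ0 : β ≠ 0 := by
    intro h0
    rw [h0] at hi
    have : (4 : F) * b = 0 := by linear_combination -hi
    exact hbF (by simpa using this)
  have hx0 : a ^ 2 + β ^ 2 ≠ 0 := by
    intro h0
    refine hm1 (a / β) ?_
    field_simp
    linear_combination h0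
  have hx : x = a ^ 2 + β ^ 2 := by
    have h1 : x ^ 3 = (a ^ 2 + β ^ 2) ^ 3 := by
      have e1 : (4 * (b : F)) = -(3 * a ^ 2 * β - β ^ 3) := by linear_combination -hi
      have e2 : x ^ 3 = y ^ 2 + (4 * (b : F)) ^ 2 := by linear_combination -hxy
      rw [e2, e1, hy]
      ring
    have h2 : (x / (a ^ 2 + β ^ 2)) ^ 3 = 1 := by
      rw [div_pow, h1, div_self (pow_ne_zero 3 hx0)]
    have h4 := hω _ h2
    rwa [div_eq_one_iff_eq hx0] at h4
  -- the second curve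
  set X : F := -12 * b / β with hX
  have hX0 : X ≠ 0 := by
    rw [hX]
    exact div_ne_zero (mul_ne_zero (by norm_num) hbF) hβ0
  have hXY : (36 * a * b / β) ^ 2 = X ^ 3 + 432 * (b : F) ^ 2 := by
    rw [hX]
    field_simp
    linear_combination (-432 : F) * hi
  obtain ⟨t, ht⟩ := hB X (36 * a * b / β) hXY
  obtain ⟨hY, hj⟩ := q11_cube 3 _ _ t ht
  set c : F := t.re with hc
  set d : F := t.im with hd
  push_cast at hY hj
  have hcd : c ^ 2 * d + d ^ 3 = -4 * b := by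
    have h3' : (3 : F) ≠ 0 := by norm_num
    have : (3 : F) * (c ^ 2 * d + d ^ 3) = 3 * (-4 * b) := by linear_combination -hj
    exact mul_left_cancel₀ h3' this
  have hd0 : d ≠ 0 := by
    intro h0
    rw [h0] at hcd
    have : (4 : F) * b = 0 := by linear_combination hcd
    exact hbF (by simpa using this)
  have hn0 : c ^ 2 - 3 * d ^ 2 ≠ 0 := by
    intro h0
    refine h3 (c / d) ?_
    field_simp
    linear_combination h0
  have hXcd : X = c ^ 2 - 3 * d ^ 2 := by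
    have h1 : X ^ 3 = (c ^ 2 - 3 * d ^ 2) ^ 3 := by
      have e2 : X ^ 3 = (36 * a * b / β) ^ 2 - 3 * (-(12 * (b : F))) ^ 2 := by
        linear_combination -hXY
      rw [e2, hY, hj]
      ring
    have h2 : (X / (c ^ 2 - 3 * d ^ 2)) ^ 3 = 1 := by
      rw [div_pow, h1, div_self (pow_ne_zero 3 hn0)]
    have h4 := hω _ h2
    rwa [div_eq_one_iff_eq hn0] at h4
  refine ⟨-4 * b / d, 4 * b * c / d, X, ?_, ?_, hX0, ?_, ?_⟩
  · field_simp
    linear_combination 16 * hcd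
  · exact div_ne_zero (mul_ne_zero (by norm_num) hbF) hd0
  · rw [hXcd]
    field_simp
    linear_combination 16 * hcd
  · rw [hx, hX]
    field_simp
    linear_combination (-432 : F) * hi

end BS3
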