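import Pool.Agent.MP_ae0bd0_nt.B3.Defs

set_option autoImplicit false

open Polynomial NumberField IsDedekindDomain CM27
open scoped Classical

namespace BS3

/-! ## [BS3-Q12] no points (file Q12.lean) -/

section
open WithZero

/-- `x` has order at least `n` -/
def q12_ge {F : Type} [Field F] (w : Valuation F ℤᵐ⁰) (x : F) (n : ℤ) : Prop := w x ≤ exp (-n)

/-- `x` has order `n` -/
def q12_eq {F : Type} [Field F] (w : Valuation F ℤᵐ⁰) (x : F) (n : ℤ) : Prop := w x = exp (-n)

variable {F : Type} [Field F] {w : Valuation F ℤᵐ⁰} {x y : F} {n m : ℤ}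

theorem q12_eq.ge (h : q12_eq w x n) : q12_ge w x n := le_of_eq h

theorem q12_ge.mono (h : q12_ge w x n) (hm : m ≤ n) : q12_ge w x m :=
  le_trans h (exp_le_exp.2 (by omega))

theorem q12_ge_zero : q12_ge w 0 n := by
  unfold q12_ge
  rw [map_zero]
  exact zero_le

theorem q12_ge.add (h1 : q12_ge w x n) (h2 : q12_ge w y n) : q12_ge w (x + y) n :=
  (w.map_add x y).trans (max_le h1 h2)

theorem q12_ge.neg (h1 : q12_ge w x n) : q12_ge w (-x) n := by
  unfold q12_ge; rw [Valuation.map_neg]; exact h1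

theorem q12_eq.neg (h1 : q12_eq w x n) : q12_eq w (-x) n := by
  unfold q12_eq; rw [Valuation.map_neg]; exact h1

theorem q12_ge.sub (h1 : q12_ge w x n) (h2 : q12_ge w y n) : q12_ge w (x - y) n := by
  rw [sub_eq_add_neg]; exact h1.add h2.neg

theorem q12_ge.mul (h1 : q12_ge w x n) (h2 : q12_ge w y m) : q12_ge w (x * y) (n + m) := by
  unfold q12_ge
  rw [map_mul, neg_add, exp_add]
  exact mul_le_mul' h1 h2

theorem q12_eq.mul (h1 : q12_eq w x n) (h2 : q12_eq w y m) : q12_eq w (x * y) (n + m) := by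
  unfold q12_eq
  rw [map_mul, neg_add, exp_add, h1, h2]

theorem q12_eq.add (h1 : q12_eq w x n) (h2 : q12_ge w y (n + 1)) : q12_eq w (x + y) n := by
  unfold q12_eq
  have h3 : w y < w x := by
    rw [h1]
    exact lt_of_le_of_lt h2 (exp_lt_exp.2 (by omega))
  rw [w.map_add_eq_of_lt_left h3]
  exact h1

theorem q12_exists (hx : x ≠ 0) : ∃ n, q12_eq w x n :=
  ⟨-(log (w x)), by unfold q12_eq; rw [neg_neg, exp_log ((Valuation.ne_zero_iff w).2 hx)]⟩

theorem q12_eq.unique (h1 : q12_eq w x n) (h2 : q12_eq w x m) : n = m := by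
  unfold q12_eq at h1 h2
  rw [h1, exp_inj] at h2
  omega

theorem q12_eq.le (h1 : q12_eq w x n) (h2 : q12_ge w x m) : m ≤ n := by
  unfold q12_eq at h1
  unfold q12_ge at h2
  rw [h1, exp_le_exp] at h2
  omega

theorem q12_one : q12_eq w 1 0 := by
  unfold q12_eq; rw [map_one, neg_zero, exp_zero]

theorem q12_int (w : Valuation F ℤᵐ⁰) (k : ℤ) : q12_ge w (k : F) 0 := by
  have hn : ∀ k : ℕ, q12_ge w (k : F) 0 := by
    intro k
    induction k with
    | zero => rw [Nat.cast_zero]; exact q12_ge_zero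
    | succ k ih => rw [Nat.cast_succ]; exact ih.add q12_one.ge
  rcases Int.eq_nat_or_neg k with ⟨a, rfl | rfl⟩
  · simpa using hn a
  · simpa using (hn a).neg

theorem q12_int_unit (h3 : q12_eq w (3 : F) 1) (k : ℤ) (hk : ¬ 3 ∣ k) : q12_eq w (k : F) 0 := by
  have hk0 : (k : F) ≠ 0 := by
    intro h0
    obtain ⟨a, b, hab⟩ : ∃ a b : ℤ, k * a + 3 * b = 1 := by
      have hc : IsCoprime k 3 := by
        rw [isCoprime_comm]
        exact (Prime.coprime_iff_not_dvd Int.prime_three).2 hk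
      obtain ⟨a, b, hab⟩ := hc
      exact ⟨a, b, by linarith⟩
    have h1 : (3 : F) * (b : F) = 1 := by
      have h2 : ((k * a + 3 * b : ℤ) : F) = 1 := by rw [hab]; simp
      push_cast at h2
      rw [h0, zero_mul, zero_add] at h2
      exact h2
    have h4 := h3.ge.mul (q12_int w b)
    rw [h1] at h4
    have := q12_one.le h4
    omega
  obtain ⟨n, hn⟩ := q12_exists (w := w) hk0
  have h1 := hn.le (q12_int w k)
  by_contra hcon
  have hn1 : 1 ≤ n := by
    rcases lt_or_ge n 1 with h | h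
    · exfalso
      apply hcon
      have : n = 0 := by omega
      rw [← this]; exact hn
    · exact h
  obtain ⟨a, b, hab⟩ : ∃ a b : ℤ, k * a + 3 * b = 1 := by
    have hc : IsCoprime k 3 := by
      rw [isCoprime_comm]
      exact (Prime.coprime_iff_not_dvd Int.prime_three).2 hk
    obtain ⟨a, b, hab⟩ := hc
    exact ⟨a, b, by linarith⟩
  have h2 : ((k * a + 3 * b : ℤ) : F) = 1 := by rw [hab]; simp
  push_cast at h2
  have h3' : q12_ge w ((k : F) * (a : F)) 1 := ((hn.ge.mul (q12_int w a))).mono (by omega)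
  have h4 : q12_ge w ((3 : F) * (b : F)) 1 := ((h3.ge.mul (q12_int w b))).mono (by omega)
  have h5 := h3'.add h4
  rw [h2] at h5
  have := q12_one.le h5
  omega

theorem q12_int_three (h3 : q12_eq w (3 : F) 1) (k : ℤ) (hk : 3 ∣ k) (hk9 : ¬ 9 ∣ k) :
    q12_eq w (k : F) 1 := by
  obtain ⟨a, rfl⟩ := hk
  have ha : ¬ 3 ∣ a := by
    rintro ⟨b, rfl⟩
    exact hk9 ⟨b, by ring⟩
  have := h3.mul (q12_int_unit h3 a ha)
  push_cast
  simpa using this

theorem q12_int_nine (h3 : q12_eq w (3 : F) 1) (k : ℤ) (hk : q12_ge w (k : F) 2) : 9 ∣ k := by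
  by_contra h9
  by_cases h : 3 ∣ k
  · have := (q12_int_three h3 k h h9).le hk
    omega
  · have := (q12_int_unit h3 k h).le hk
    omega

theorem q12_v3 {F : Type} [Field F] [NumberField F] (v : HeightOneSpectrum (𝓞 F))
    (h3 : (3 : 𝓞 F) ∈ v.asIdeal) (h9 : (3 : 𝓞 F) ∉ v.asIdeal ^ 2) :
    q12_eq (v.valuation F) (3 : F) 1 := by
  unfold q12_eq
  have e : (3 : F) = algebraMap (𝓞 F) F 3 := (map_ofNat (algebraMap (𝓞 F) F) 3).symm
  rw [e, HeightOneSpectrum.valuation_of_algebraMap]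
  have h1 : v.intValuation (3 : 𝓞 F) ≤ exp (-((1 : ℕ) : ℤ)) := by
    rw [HeightOneSpectrum.intValuation_le_pow_iff_mem, pow_one]
    exact h3
  have h2 : ¬ v.intValuation (3 : 𝓞 F) ≤ exp (-((2 : ℕ) : ℤ)) := by
    rw [HeightOneSpectrum.intValuation_le_pow_iff_mem]
    exact h9
  have h0 : v.intValuation (3 : 𝓞 F) ≠ 0 :=
    HeightOneSpectrum.intValuation_ne_zero v 3 (by norm_num)
  rw [← exp_log h0, exp_le_exp] at h1 h2
  rw [← exp_log h0, exp_inj]
  omega

end

theorem q12_aux {F : Type} [Field F] (w : Valuation F (WithZero (Multiplicative ℤ)))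
    (h3 : q12_eq w (3 : F) 1) (b : ℤ) (hb : b % 9 = 1 ∨ b % 9 = 8)
    (x x1 y1 X : F) (hp : y1 ^ 2 = x1 ^ 3 - 16 * (b : F) ^ 2) (hx1 : x1 ≠ 0) (hX : X ≠ 0)
    (e1 : X * x1 ^ 2 = x1 ^ 3 - 64 * (b : F) ^ 2)
    (e2 : x * (9 * X ^ 2) = X ^ 3 + 1728 * (b : F) ^ 2) :
    ∃ n1 n : ℤ, q12_eq w x1 n1 ∧ q12_eq w x n ∧ n ≤ -2 ∧ (n1 < 0 → n = n1 - 2) := by
  obtain ⟨m, hm⟩ : ∃ m : ℤ, b ^ 2 = 9 * m + 1 := by
    rcases hb with h | h
    · obtain ⟨k, hk⟩ : ∃ k : ℤ, b = 9 * k + 1 := ⟨b / 9, by omega⟩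
      exact ⟨9 * k ^ 2 + 2 * k, by rw [hk]; ring⟩
    · obtain ⟨k, hk⟩ : ∃ k : ℤ, b = 9 * k + 8 := ⟨b / 9, by omega⟩
      exact ⟨9 * k ^ 2 + 16 * k + 7, by rw [hk]; ring⟩
  have hbF : (b : F) ^ 2 = ((9 * m + 1 : ℤ) : F) := by
    rw [← hm]; push_cast; ring
  have h64 : q12_eq w (64 * (b : F) ^ 2) 0 := by
    have h := q12_int_unit h3 (64 * (9 * m + 1)) (by omega)
    have e : ((64 * (9 * m + 1) : ℤ) : F) = 64 * (b : F) ^ 2 := by
      rw [hbF]; push_cast; ring
    rwa [e] at h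
  have h1728 : q12_eq w (1728 * (b : F) ^ 2) 3 := by
    have h := ((h3.mul h3).mul h3).mul h64
    have e : (3 : F) * 3 * 3 * (64 * (b : F) ^ 2) = 1728 * (b : F) ^ 2 := by ring
    rw [e] at h
    have e' : (1 : ℤ) + 1 + 1 + 0 = 3 := by norm_num
    rwa [e'] at h
  obtain ⟨n1, hn1⟩ := q12_exists (w := w) hx1
  obtain ⟨N, hN⟩ := q12_exists (w := w) hX
  have hx13 : q12_eq w (x1 ^ 3) (3 * n1) := by
    have := (hn1.mul hn1).mul hn1
    rw [← sq, ← pow_succ] at this
    have e : n1 + n1 + n1 = 3 * n1 := by ring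
    rwa [e] at this
  have hX3 : q12_eq w (X ^ 3) (3 * N) := by
    have := (hN.mul hN).mul hN
    rw [← sq, ← pow_succ] at this
    have e : N + N + N = 3 * N := by ring
    rwa [e] at this
  have hXx : q12_eq w (X * x1 ^ 2) (N + 2 * n1) := by
    have := hN.mul (hn1.mul hn1)
    rw [← sq] at this
    have e : N + (n1 + n1) = N + 2 * n1 := by ring
    rwa [e] at this
  -- order of `X`
  have hord : N ≤ 0 ∧ (n1 < 0 → N = n1) := by
    rcases lt_trichotomy n1 0 with hneg | hzero | hpos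
    · have h1 : q12_eq w (x1 ^ 3 + -(64 * (b : F) ^ 2)) (3 * n1) :=
        hx13.add (h64.neg.ge.mono (by omega))
      rw [← sub_eq_add_neg, ← e1] at h1
      have h2 := h1.unique hXx
      exact ⟨by omega, fun _ => by omega⟩
    · have hN0 : N = 0 := by
        by_cases hc : q12_ge w (x1 - 1) 1
        · exfalso
          have h4 : q12_ge w (x1 ^ 3 - 1) 2 := by
            have e : x1 ^ 3 - 1 = (x1 - 1) * ((x1 - 1) * (x1 - 1) + 3 * x1) := by ring
            rw [e]
            have h5 : q12_ge w ((x1 - 1) * (x1 - 1) + 3 * x1) 1 := by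
              refine ((hc.mul hc).mono (by omega)).add ?_
              exact (h3.ge.mul hn1.ge).mono (by omega)
            exact (hc.mul h5).mono (by omega)
          have h6 := q12_int_three h3 (1 - 16 * (9 * m + 1)) (by omega) (by omega)
          have h7 : q12_eq w (y1 ^ 2) 1 := by
            have e : y1 ^ 2 = ((1 - 16 * (9 * m + 1) : ℤ) : F) + (x1 ^ 3 - 1) := by
              rw [hp, hbF]; push_cast; ring
            rw [e]
            exact h6.add h4
          have hy0 : y1 ≠ 0 := by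
            rintro rfl
            have h8 : q12_ge w ((0 : F) ^ 2) 2 := by
              rw [zero_pow (by norm_num)]; exact q12_ge_zero
            have := h7.le h8
            omega
          obtain ⟨k, hk⟩ := q12_exists (w := w) hy0
          have h9 := hk.mul hk
          rw [← sq] at h9
          have := h9.unique h7
          omega
        · -- `x1 ^ 3 - 64 b ^ 2` is a unit
          have hx10 : x1 - 1 ≠ 0 := by
            intro h0
            apply hc
            rw [h0]; exact q12_ge_zero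
          obtain ⟨k, hk⟩ := q12_exists (w := w) hx10
          have hk0 : k = 0 := by
            have h4 : q12_ge w (x1 - 1) 0 := by
              rw [hzero] at hn1
              exact hn1.ge.sub q12_one.ge
            have h5 := hk.le h4
            by_contra hne
            exact hc (hk.ge.mono (by omega))
          subst hk0
          have h6 : q12_eq w ((x1 - 1) * (x1 - 1) * (x1 - 1)) 0 := by
            have := (hk.mul hk).mul hk
            simpa using this
          have h7 : q12_ge w (3 * (x1 * (x1 - 1))) 1 := by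
            have := h3.ge.mul (hn1.ge.mul hk.ge)
            exact this.mono (by omega)
          have h8 : q12_ge w ((1 - 64 * (9 * m + 1) : ℤ) : F) 1 := by
            obtain ⟨a, ha⟩ : 3 ∣ 1 - 64 * (9 * m + 1) := by omega
            rw [ha]
            push_cast
            have := h3.ge.mul (q12_int w a)
            simpa using this
          have h9 := h6.add (h7.add h8)
          have e : (x1 - 1) * (x1 - 1) * (x1 - 1) + (3 * (x1 * (x1 - 1)) +
              ((1 - 64 * (9 * m + 1) : ℤ) : F)) = X * x1 ^ 2 := by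
            rw [e1, hbF]; push_cast; ring
          rw [e] at h9
          have := h9.unique hXx
          omega
      exact ⟨by omega, fun h => by omega⟩
    · have h1 : q12_eq w (-(64 * (b : F) ^ 2) + x1 ^ 3) 0 :=
        h64.neg.add (hx13.ge.mono (by omega))
      have e : -(64 * (b : F) ^ 2) + x1 ^ 3 = X * x1 ^ 2 := by rw [e1]; ring
      rw [e] at h1
      have h2 := h1.unique hXx
      exact ⟨by omega, fun _ => by omega⟩
  have hS : q12_eq w (x * (9 * X ^ 2)) (3 * N) := by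
    rw [e2]
    exact hX3.add (h1728.ge.mono (by omega))
  have hx0 : x ≠ 0 := by
    rintro rfl
    rw [zero_mul] at hS
    have := hS.le (q12_ge_zero (w := w) (n := 3 * N + 1))
    omega
  obtain ⟨n, hn⟩ := q12_exists (w := w) hx0
  have h9X : q12_eq w (9 * X ^ 2) (2 + 2 * N) := by
    have := (h3.mul h3).mul (hN.mul hN)
    have e : (3 : F) * 3 * (X * X) = 9 * X ^ 2 := by ring
    rw [e] at this
    have e' : (1 : ℤ) + 1 + (N + N) = 2 + 2 * N := by ring
    rwa [e'] at this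
  have hfin := (hn.mul h9X).unique hS
  exact ⟨n1, n, hn1, hn, by omega, fun h => by have := hord.2 h; omega⟩

theorem no_points {F : Type} [Field F] [NumberField F] (v : HeightOneSpectrum (𝓞 F))
    (h3 : (3 : 𝓞 F) ∈ v.asIdeal) (h9 : (3 : 𝓞 F) ∉ v.asIdeal ^ 2) (b : ℤ)
    (hb : b % 9 = 1 ∨ b % 9 = 8)
    (hback : ∀ x y : F, y ^ 2 = x ^ 3 - 16 * (b : F) ^ 2 →
      ∃ x1 y1 X : F, y1 ^ 2 = x1 ^ 3 - 16 * (b : F) ^ 2 ∧ x1 ≠ 0 ∧ X ≠ 0 ∧
      X * x1 ^ 2 = x1 ^ 3 - 64 * (b : F) ^ 2 ∧ x * (9 * X ^ 2) = X ^ 3 + 1728 * (b : F) ^ 2)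
    (x y : F) : y ^ 2 ≠ x ^ 3 - 16 * (b : F) ^ 2 := by
  have hw := q12_v3 v h3 h9
  have key : ∀ k : ℕ, ∀ x y : F, y ^ 2 = x ^ 3 - 16 * (b : F) ^ 2 →
      ∃ n : ℤ, q12_eq (v.valuation F) x n ∧ n ≤ -2 - 2 * (k : ℤ) := by
    intro k
    induction k with
    | zero =>
      intro x y hxy
      obtain ⟨x1, y1, X, hp, hx1, hX, e1, e2⟩ := hback x y hxy
      obtain ⟨n1, n, hn1, hn, hle, -⟩ := q12_aux (v.valuation F) hw b hb x x1 y1 X hp hx1 hX e1 e2
      exact ⟨n, hn, by push_cast; omega⟩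
    | succ k ih =>
      intro x y hxy
      obtain ⟨x1, y1, X, hp, hx1, hX, e1, e2⟩ := hback x y hxy
      obtain ⟨n1, n, hn1, hn, hle, himp⟩ :=
        q12_aux (v.valuation F) hw b hb x x1 y1 X hp hx1 hX e1 e2
      obtain ⟨n1', hn1', hle'⟩ := ih x1 y1 hp
      have h := hn1.unique hn1'
      subst h
      have := himp (by omega)
      exact ⟨n, hn, by push_cast; omega⟩
  intro hxy
  obtain ⟨n, hn, -⟩ := key 0 x y hxy
  obtain ⟨n', hn', hle⟩ := key n.natAbs x y hxy
  have := hn.unique hn'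
  omega

end BS3
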