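import Pool.Agent.MP_ae0bd0_nt.B3.Defs

set_option autoImplicit false

open CM27
open scoped Classical

namespace BS3

/-! ## [BS3-Q2] action of homomorphisms on points (file Q2.lean) -/

theorem zq_ptW {D c k : ℤ} {K L : Type} [Field K] [Field L] (f : K →+* L)
    (P : (W k K).toAffine.Point) : zq D c (ptW f P) = mapQ f (zq D c P) := by
  cases P with
  | zero => simp only [ptW, zq, map_one]
  | some x y h => simp only [ptW, zq, mapQ_apply, map_neg, map_intCast]

theorem q2_negY {k : ℤ} {K L : Type} [Field K] [Field L] (f : K →+* L) (x y : K) :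
    (W k L).toAffine.negY (f x) (f y) = f ((W k K).toAffine.negY x y) := by
  rw [← W_map k f]
  exact WeierstrassCurve.Affine.map_negY f x y

theorem q2_addX {k : ℤ} {K L : Type} [Field K] [Field L] (f : K →+* L) (x₁ x₂ l : K) :
    (W k L).toAffine.addX (f x₁) (f x₂) (f l) = f ((W k K).toAffine.addX x₁ x₂ l) := by
  rw [← W_map k f]
  exact WeierstrassCurve.Affine.map_addX f x₁ x₂ l

theorem q2_addY {k : ℤ} {K L : Type} [Field K] [Field L] (f : K →+* L) (x₁ x₂ y₁ l : K) :
    (W k L).toAffine.addY (f x₁) (f x₂) (f y₁) (f l) = f ((W k K).toAffine.addY x₁ x₂ y₁ l) := by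
  rw [← W_map k f]
  exact WeierstrassCurve.Affine.map_addY f x₁ y₁ x₂ l

theorem q2_slope {k : ℤ} {K L : Type} [Field K] [Field L] (f : K →+* L) (x₁ x₂ y₁ y₂ : K) :
    (W k L).toAffine.slope (f x₁) (f x₂) (f y₁) (f y₂) =
      f ((W k K).toAffine.slope x₁ x₂ y₁ y₂) := by
  rw [← W_map k f]
  exact WeierstrassCurve.Affine.map_slope f x₁ x₂ y₁ y₂

theorem ptW_add {k : ℤ} {K L : Type} [Field K] [Field L] (f : K →+* L)
    (P Q : (W k K).toAffine.Point) : ptW f (P + Q) = ptW f P + ptW f Q := by
  cases P with
  | zero =>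
    have h0 : (WeierstrassCurve.Affine.Point.zero : (W k K).toAffine.Point) = 0 := rfl
    have h1 : ptW f (0 : (W k K).toAffine.Point) = 0 := rfl
    rw [h0, zero_add, h1, zero_add]
  | some x₁ y₁ h₁ =>
    cases Q with
    | zero =>
      have h0 : (WeierstrassCurve.Affine.Point.zero : (W k K).toAffine.Point) = 0 := rfl
      have h1 : ptW f (0 : (W k K).toAffine.Point) = 0 := rfl
      rw [h0, add_zero, h1, add_zero]
    | some x₂ y₂ h₂ =>
      by_cases hxy : x₁ = x₂ ∧ y₁ = (W k K).toAffine.negY x₂ y₂
      · rw [WeierstrassCurve.Affine.Point.add_of_Y_eq hxy.1 hxy.2]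
        have h1 : ptW f (0 : (W k K).toAffine.Point) = 0 := rfl
        rw [h1]
        symm
        apply WeierstrassCurve.Affine.Point.add_of_Y_eq
        · rw [hxy.1]
        · rw [hxy.2, q2_negY]
      · rw [WeierstrassCurve.Affine.Point.add_some hxy]
        have hxy' : ¬ (f x₁ = f x₂ ∧ f y₁ = (W k L).toAffine.negY (f x₂) (f y₂)) := by
          rintro ⟨h3, h4⟩
          rw [q2_negY] at h4
          exact hxy ⟨f.injective h3, f.injective h4⟩
        simp only [ptW]
        rw [WeierstrassCurve.Affine.Point.add_some hxy']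
        rw [WeierstrassCurve.Affine.Point.some.injEq]
        rw [q2_slope, q2_addX, q2_addY]
        exact ⟨rfl, rfl⟩

theorem ptW_comp {k : ℤ} {K L M : Type} [Field K] [Field L] [Field M] (f : K →+* L) (g : L →+* M)
    (P : (W k K).toAffine.Point) : ptW g (ptW f P) = ptW (g.comp f) P := by
  cases P <;> rfl

theorem ptW_id {k : ℤ} {K : Type} [Field K] (P : (W k K).toAffine.Point) :
    ptW (RingHom.id K) P = P := by
  cases P <;> rfl

theorem ptW_injective {k : ℤ} {K L : Type} [Field K] [Field L] (f : K →+* L) :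
    Function.Injective (ptW f : (W k K).toAffine.Point → (W k L).toAffine.Point) := by
  intro P Q h
  cases P with
  | zero =>
    cases Q with
    | zero => rfl
    | some x y hQ => simp only [ptW] at h; cases h
  | some x y hP =>
    cases Q with
    | zero => simp only [ptW] at h; cases h
    | some x' y' hQ =>
      simp only [ptW, WeierstrassCurve.Affine.Point.some.injEq] at h
      rw [WeierstrassCurve.Affine.Point.some.injEq]
      exact ⟨f.injective h.1, f.injective h.2⟩

end BS3
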