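import Pool.Agent.MP_ae0bd0_nt.B3.Defs

set_option autoImplicit false

namespace BS3

/-! ## [BS3-Q3] fixed classes of a `3`-group (file Q3.lean) -/

/-- If a finite `3`-group acts on an abelian group `A` and `N` is a stable subgroup containing
`3 A`, `N ≠ A`, then some nonzero class in `A / N` is fixed. -/
theorem exists_fixed_class {A G : Type} [AddCommGroup A] [Group G] [Finite G]
    [DistribMulAction G A] (n : ℕ) (hG : Nat.card G = 3 ^ n) (N : AddSubgroup A)
    (h3 : ∀ Q : A, 3 • Q ∈ N) (hst : ∀ (σ : G) (Q : A), Q ∈ N → σ • Q ∈ N) (P0 : A)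
    (hP0 : P0 ∉ N) : ∃ P : A, P ∉ N ∧ ∀ σ : G, σ • P - P ∈ N := by
  have hNs : ∀ σ : G, N ≤ N.comap (DistribSMul.toAddMonoidHom A σ) := by
    intro σ a ha
    rw [AddSubgroup.mem_comap, DistribSMul.toAddMonoidHom_apply]
    exact hst σ a ha
  set act : G → (A ⧸ N) →+ (A ⧸ N) := fun σ =>
    QuotientAddGroup.map N N (DistribSMul.toAddMonoidHom A σ) (hNs σ) with hact
  have hact_mk : ∀ σ (a : A), act σ (QuotientAddGroup.mk a) = QuotientAddGroup.mk (σ • a) :=
    fun σ a => rfl
  have hact_one : ∀ x, act 1 x = x := by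
    intro x
    obtain ⟨a, rfl⟩ := QuotientAddGroup.mk_surjective x
    rw [hact_mk, one_smul]
  have hact_mul : ∀ σ τ x, act (σ * τ) x = act σ (act τ x) := by
    intro σ τ x
    obtain ⟨a, rfl⟩ := QuotientAddGroup.mk_surjective x
    rw [hact_mk, hact_mk, hact_mk, mul_smul]
  set W : AddSubgroup (A ⧸ N) :=
    AddSubgroup.closure (Set.range fun σ : G => (QuotientAddGroup.mk (σ • P0) : A ⧸ N)) with hW
  have hWs : ∀ σ x, x ∈ W → act σ x ∈ W := by
    intro σ x hx
    have h1 : W ≤ W.comap (act σ) := by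
      rw [hW, AddSubgroup.closure_le]
      rintro _ ⟨τ, rfl⟩
      change act σ (QuotientAddGroup.mk (τ • P0)) ∈ AddSubgroup.closure _
      rw [hact_mk, ← mul_smul]
      exact AddSubgroup.subset_closure ⟨σ * τ, rfl⟩
    exact h1 hx
  let _ : MulAction G W :=
    { smul := fun σ w => ⟨act σ w, hWs σ w w.2⟩
      one_smul := fun w => Subtype.ext (hact_one w)
      mul_smul := fun σ τ w => Subtype.ext (hact_mul σ τ w) }
  have hthree : ∀ x : A ⧸ N, 3 • x = 0 := by
    intro x
    obtain ⟨a, rfl⟩ := QuotientAddGroup.mk_surjective x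
    rw [← QuotientAddGroup.mk_nsmul]
    exact (QuotientAddGroup.eq_zero_iff _).2 (h3 a)
  have hfin : Finite W := by
    have hfg : AddGroup.FG W := by
      rw [AddGroup.fg_iff_addSubgroup_fg]
      exact (AddSubgroup.fg_iff W).2 ⟨_, rfl, Set.finite_range _⟩
    refine AddCommGroup.finite_of_fg_isAddTorsion W ?_
    intro w
    rw [isOfFinAddOrder_iff_nsmul_eq_zero]
    exact ⟨3, by norm_num, Subtype.ext (hthree w)⟩
  set p0 : W := ⟨QuotientAddGroup.mk P0, AddSubgroup.subset_closure ⟨1, by simp⟩⟩ with hp0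
  have hp0ne : p0 ≠ 0 := by
    intro h
    apply hP0
    have h1 : (QuotientAddGroup.mk P0 : A ⧸ N) = 0 := congrArg Subtype.val h
    exact (QuotientAddGroup.eq_zero_iff _).1 h1
  have hfact : Fact (Nat.Prime 3) := ⟨Nat.prime_three⟩
  have hcard : 3 ∣ Nat.card W := by
    have h1 : addOrderOf p0 = 3 := by
      refine addOrderOf_eq_prime (Subtype.ext (hthree _)) hp0ne
    rw [← h1]
    exact addOrderOf_dvd_natCard p0
  have hp : IsPGroup 3 G := IsPGroup.of_card hG
  have h0 : (0 : W) ∈ MulAction.fixedPoints G W := by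
    intro σ
    exact Subtype.ext (map_zero (act σ))
  obtain ⟨b, hb, hb0⟩ := hp.exists_fixed_point_of_prime_dvd_card_of_fixed_point W hcard h0
  obtain ⟨P, hP⟩ := QuotientAddGroup.mk_surjective (b : A ⧸ N)
  refine ⟨P, fun hQ => hb0 ?_, fun σ => ?_⟩
  · apply Subtype.ext
    rw [← hP]
    exact ((QuotientAddGroup.eq_zero_iff _).2 hQ).symm
  · have h1 : act σ (b : A ⧸ N) = b := congrArg Subtype.val (hb σ)
    rw [← hP, hact_mk] at h1
    have h2 := (QuotientAddGroup.eq.1 h1.symm)
    rwa [neg_add_eq_sub] at h2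

end BS3
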