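import Pool.Agent.MP_ae0bd0_nt.B3.Defs

set_option autoImplicit false

open CM27
open scoped Classical

namespace BS3

/-! ## [BS3-Q4] descent of invariant classes (file Q4.lean) -/

/-- uniqueness of cube roots -/
theorem q4_unique {K : Type} [Field K] (hω : ∀ u : K, u ^ 3 = 1 → u = 1) {u v : K} (hv : v ≠ 0)
    (h : u ^ 3 = v ^ 3) : u = v := by
  have h1 : (u / v) ^ 3 = 1 := by
    rw [div_pow, h, div_self (pow_ne_zero 3 hv)]
  have h2 := hω _ h1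
  rw [div_eq_one_iff_eq hv] at h2
  exact h2

/-- Invariant classes modulo cubes come from `ℚ(√D)` (uniqueness of cube roots and Hilbert 90). -/
theorem descend_cube {D : ℤ} {F : Type} [Field F] [NumberField F] [IsGalois ℚ F]
    [Fact (NonSq D F)] (hω : ∀ u : Q2 D F, u ^ 3 = 1 → u = 1) (z : Q2 D F) (hz : z ≠ 0)
    (hinv : ∀ σ : F ≃ₐ[ℚ] F, ∃ u : Q2 D F, mapQ (σ : F →+* F) z = z * u ^ 3) :
    ∃ t : Q2 D F, t ≠ 0 ∧ ∃ z0 : Q2 D ℚ, mapQ (algebraMap ℚ F) z0 = z * t ^ 3 := by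
  have hcomp : ∀ (σ τ : F ≃ₐ[ℚ] F) (x : Q2 D F), mapQ (σ : F →+* F) (mapQ (τ : F →+* F) x) =
      mapQ ((σ * τ : F ≃ₐ[ℚ] F) : F →+* F) x := by
    intro σ τ x
    rfl
  choose u hu1 using hinv
  have hune : ∀ σ, u σ ≠ 0 := by
    intro σ h
    have h1 := hu1 σ
    rw [h] at h1
    have h2 : mapQ (D := D) (σ : F →+* F) z = 0 := by
      rw [h1]; ring
    rw [map_eq_zero_iff _ (mapQ (D := D) (σ : F →+* F)).injective] at h2
    exact hz h2
  -- the cocycle condition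
  have hcoc : ∀ σ τ, u (σ * τ) = u σ * mapQ (σ : F →+* F) (u τ) := by
    intro σ τ
    apply q4_unique hω
    · refine mul_ne_zero (hune σ) ?_
      rw [Ne, map_eq_zero_iff _ (mapQ (D := D) (σ : F →+* F)).injective]
      exact hune τ
    · have h1 := hu1 (σ * τ)
      rw [← hcomp, hu1 τ, map_mul, map_pow, hu1 σ] at h1
      have h2 : z * (u (σ * τ) ^ 3) = z * (u σ * mapQ (σ : F →+* F) (u τ)) ^ 3 := by
        rw [← h1]
        ring
      exact mul_left_cancel₀ hz h2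
  -- linear independence of the automorphisms
  have hinj : Function.Injective (fun σ : F ≃ₐ[ℚ] F =>
      ((mapQ (σ : F →+* F) : Q2 D F →+* Q2 D F) : Q2 D F →* Q2 D F)) := by
    intro σ τ h
    apply AlgEquiv.ext
    intro a
    have h1 := DFunLike.congr_fun h (⟨a, 0⟩ : Q2 D F)
    change mapQ (σ : F →+* F) (⟨a, 0⟩ : Q2 D F) = mapQ (τ : F →+* F) (⟨a, 0⟩ : Q2 D F) at h1
    rw [mapQ_apply, mapQ_apply] at h1
    exact congrArg QuadraticAlgebra.re h1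
  have hli := (linearIndependent_monoidHom (Q2 D F) (Q2 D F)).comp _ hinj
  obtain ⟨c, hc⟩ : ∃ c : Q2 D F, ∑ τ : F ≃ₐ[ℚ] F, u τ * mapQ (τ : F →+* F) c ≠ 0 := by
    by_contra hcon
    push Not at hcon
    refine hune 1 (Fintype.linearIndependent_iff.mp hli u ?_ 1)
    funext c
    rw [Finset.sum_apply]
    exact hcon c
  set θ := ∑ τ : F ≃ₐ[ℚ] F, u τ * mapQ (τ : F →+* F) c with hθ
  have hσθ : ∀ σ : F ≃ₐ[ℚ] F, u σ * mapQ (σ : F →+* F) θ = θ := by
    intro σ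
    rw [hθ, map_sum, Finset.mul_sum]
    rw [← Equiv.sum_comp (Equiv.mulLeft σ) (fun τ : F ≃ₐ[ℚ] F => u τ * mapQ (τ : F →+* F) c)]
    refine Finset.sum_congr rfl fun τ _ => ?_
    rw [map_mul, hcomp, Equiv.coe_mulLeft, hcoc]
    ring
  have hfix : ∀ σ : F ≃ₐ[ℚ] F, mapQ (σ : F →+* F) (z * θ ^ 3) = z * θ ^ 3 := by
    intro σ
    rw [map_mul, map_pow, hu1]
    have h1 := hσθ σ
    calc z * u σ ^ 3 * mapQ (σ : F →+* F) θ ^ 3 = z * (u σ * mapQ (σ : F →+* F) θ) ^ 3 := by ring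
      _ = z * θ ^ 3 := by rw [h1]
  refine ⟨θ, hc, ?_⟩
  have hrat : ∀ x : F, (∀ σ : F ≃ₐ[ℚ] F, σ x = x) → ∃ q : ℚ, algebraMap ℚ F q = x := by
    intro x hx
    exact (IsGalois.mem_range_algebraMap_iff_fixed x).mpr hx
  obtain ⟨a0, ha0⟩ := hrat (z * θ ^ 3).re fun σ => congrArg QuadraticAlgebra.re (hfix σ)
  obtain ⟨b0, hb0⟩ := hrat (z * θ ^ 3).im fun σ => congrArg QuadraticAlgebra.im (hfix σ)
  refine ⟨⟨a0, b0⟩, ?_⟩
  rw [mapQ_apply]
  ext
  · exact ha0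
  · exact hb0

/-- A rational number which is a cube in `F` is a cube in `ℚ`. -/
theorem descend_rat {F : Type} [Field F] [NumberField F] [IsGalois ℚ F]
    (hω : ∀ u : F, u ^ 3 = 1 → u = 1) (r : ℚ) (x : F) (h : algebraMap ℚ F r = x ^ 3) :
    ∃ q : ℚ, r = q ^ 3 := by
  by_cases hx : x = 0
  · refine ⟨0, ?_⟩
    apply (algebraMap ℚ F).injective
    rw [h, hx]
    simp
  · have hfix : ∀ σ : F ≃ₐ[ℚ] F, σ x = x := by
      intro σ
      apply q4_unique hω hx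
      rw [← map_pow, ← h, AlgEquiv.commutes]
    obtain ⟨q, hq⟩ := (IsGalois.mem_range_algebraMap_iff_fixed x).mpr hfix
    refine ⟨q, ?_⟩
    apply (algebraMap ℚ F).injective
    rw [h, map_pow, hq]

end BS3
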