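import Pool.Agent.MP_ae0bd0_nt.B3.Defs

set_option autoImplicit false

open CM27
open scoped Classical

namespace BS3

/-! ## [BS3-Q5] squares and roots of unity in fields of odd degree (file Q5.lean) -/

theorem not_sq (F : Type) [Field F] [NumberField F] (n : ℕ) (h : Module.finrank ℚ F = 3 ^ n)
    (r : ℚ) (hr : ∀ q : ℚ, q ^ 2 ≠ r) (x : F) : x ^ 2 ≠ algebraMap ℚ F r := by
  intro hx
  have hint : IsIntegral ℚ x := Algebra.IsIntegral.isIntegral x
  have hirr : Irreducible (Polynomial.X ^ 2 - Polynomial.C r : Polynomial ℚ) := by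
    apply X_pow_sub_C_irreducible_of_prime Nat.prime_two
    intro q hq
    exact hr q hq
  have hmin : minpoly ℚ x = Polynomial.X ^ 2 - Polynomial.C r := by
    symm
    apply minpoly.eq_of_irreducible_of_monic hirr
    · simp [hx]
    · exact Polynomial.monic_X_pow_sub_C r two_ne_zero
  have hdeg : (minpoly ℚ x).natDegree = 2 := by
    rw [hmin]
    exact Polynomial.natDegree_X_pow_sub_C
  have hdvd : (minpoly ℚ x).natDegree ∣ Module.finrank ℚ F := minpoly.degree_dvd hint
  rw [hdeg, h] at hdvd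
  have := Nat.Prime.dvd_of_dvd_pow Nat.prime_two hdvd
  omega

theorem q5_nsq_neg (r : ℚ) (hr : r < 0) (q : ℚ) : q ^ 2 ≠ r := by
  intro h
  have := sq_nonneg q
  linarith

theorem q5_nsq_three (q : ℚ) : q ^ 2 ≠ 3 := by
  intro h
  have h1 : IsSquare (3 : ℚ) := ⟨q, by rw [← sq, h]⟩
  have h2 : IsSquare (3 : ℕ) := by
    have := Rat.isSquare_natCast_iff (n := 3)
    exact this.1 (by exact_mod_cast h1)
  obtain ⟨a, ha⟩ := h2
  have : a ≤ 1 := by nlinarith
  interval_cases a <;> omega

theorem nonSq_of (F : Type) [Field F] [NumberField F] (n : ℕ) (h : Module.finrank ℚ F = 3 ^ n)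
    (D : ℤ) (hD : D = -1 ∨ D = 3) : NonSq D F := by
  rw [nonSq_iff]
  intro x hx
  rcases hD with rfl | rfl
  · refine not_sq F n h (-1) (q5_nsq_neg (-1) (by norm_num)) x ?_
    rw [hx]; simp
  · refine not_sq F n h 3 q5_nsq_three x ?_
    rw [hx]; simp

theorem cube_one (F : Type) [Field F] [NumberField F] (n : ℕ) (h : Module.finrank ℚ F = 3 ^ n)
    (x : F) (hx : x ^ 3 = 1) : x = 1 := by
  by_contra hne
  have h1 : (x - 1) * (x ^ 2 + x + 1) = 0 := by linear_combination hx
  have h2 : x ^ 2 + x + 1 = 0 := by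
    rcases mul_eq_zero.1 h1 with h3 | h3
    · exact absurd (sub_eq_zero.1 h3) hne
    · exact h3
  refine not_sq F n h (-3) (q5_nsq_neg (-3) (by norm_num)) (2 * x + 1) ?_
  rw [map_neg, map_ofNat]
  linear_combination 4 * h2

theorem cube_one_quad (F : Type) [Field F] [NumberField F] (n : ℕ)
    (h : Module.finrank ℚ F = 3 ^ n) (D : ℤ) (hD : D = -1 ∨ D = 3) (u : Q2 D F)
    (hu : u ^ 3 = 1) : u = 1 := by
  haveI : Fact (NonSq D F) := ⟨nonSq_of F n h D hD⟩
  by_contra hne
  have h1 : (u - 1) * (u ^ 2 + u + 1) = 0 := by linear_combination hu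
  have h2 : u ^ 2 + u + 1 = 0 := by
    rcases mul_eq_zero.1 h1 with h3 | h3
    · exact absurd (sub_eq_zero.1 h3) hne
    · exact h3
  have hre := congrArg QuadraticAlgebra.re h2
  have him := congrArg QuadraticAlgebra.im h2
  simp only [sq, QuadraticAlgebra.re_add, QuadraticAlgebra.im_add, QuadraticAlgebra.re_mul,
    QuadraticAlgebra.im_mul, QuadraticAlgebra.re_one, QuadraticAlgebra.im_one,
    QuadraticAlgebra.re_zero, QuadraticAlgebra.im_zero] at hre him
  set a := u.re
  set b := u.im
  have hb : b * (2 * a + 1) = 0 := by linear_combination him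
  rcases mul_eq_zero.1 hb with h3 | h3
  · rw [h3] at hre
    refine not_sq F n h (-3) (q5_nsq_neg (-3) (by norm_num)) (2 * a + 1) ?_
    rw [map_neg, map_ofNat]
    linear_combination 4 * hre
  · have h4 : (2 * a + 1) ^ 2 = 0 := by rw [h3]; ring
    rcases hD with rfl | rfl
    · refine not_sq F n h 3 q5_nsq_three (2 * b) ?_
      rw [map_ofNat]
      push_cast at hre
      linear_combination -4 * hre + h4
    · refine not_sq F n h (-1) (q5_nsq_neg (-1) (by norm_num)) (2 * b) ?_
      rw [map_neg, map_one]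
      push_cast at hre
      have h12 : (3 : F) ≠ 0 := by norm_num
      apply mul_left_cancel₀ h12
      linear_combination 4 * hre - h4

end BS3
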