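import Pool.Agent.MP_ae0bd0_nt.B3.QDefs
import Pool.Agent.MP_ae0bd0_nt.CM.R4d

set_option autoImplicit false

open Polynomial NumberField IsDedekindDomain CM27
open scoped Classical

namespace BS3

/-! ## [BS3-Q6] unramified primes (file Q6.lean) -/

/-- The statement for an abstract valuation. -/
theorem q6_cube_val {L : Type*} [Field L] (w : Valuation L (WithZero (Multiplicative ℤ)))
    (Z Z' x : L) (h1 : w (Z' - Z) = 1) (h2 : Z * Z' = x ^ 3) : ∃ g, w Z = g ^ 3 := by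
  have h3 := congrArg w h2
  rw [map_mul, map_pow] at h3
  rcases lt_trichotomy (w Z) (w Z') with h | h | h
  · rw [Valuation.map_sub_eq_of_lt_left w h] at h1
    rw [h1, mul_one] at h3
    exact ⟨_, h3⟩
  · rw [← h] at h3
    rcases eq_or_ne (w Z) 0 with h0 | h0
    · exact ⟨0, by rw [h0]; simp⟩
    · have hx0 : w x ≠ 0 := by
        intro hx
        rw [hx] at h3
        have : w Z * w Z ≠ 0 := mul_ne_zero h0 h0
        apply this
        rw [h3]
        simp
      refine ⟨w Z / w x, ?_⟩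
      rw [div_pow, ← h3]
      field_simp
  · rw [Valuation.map_sub_eq_of_lt_right w h] at h1
    exact ⟨1, by rw [h1, one_pow]⟩

theorem q6_val_intCast {K : Type} [Field K] [NumberField K] (w : HeightOneSpectrum (𝓞 K))
    (n : ℤ) (h : (n : 𝓞 K) ∉ w.asIdeal) : w.valuation K (n : K) = 1 := by
  have h1 : w.valuation K (algebraMap (𝓞 K) K (n : 𝓞 K)) = 1 := by
    rw [HeightOneSpectrum.valuation_of_algebraMap]
    exact (w.intValuation_eq_one_iff).2 h
  rwa [map_intCast] at h1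

/-- a square root of `D` gives a ring homomorphism from `K(√D)` -/
def q6_lift {D : ℤ} {K L : Type} [Field K] [Field L] (ψ : K →+* L) (s : L)
    (hs : s * s = (D : L)) : Q2 D K →+* L where
  toFun z := ψ z.re + ψ z.im * s
  map_one' := by
    change ψ (1 : Q2 D K).re + ψ (1 : Q2 D K).im * s = 1
    rw [QuadraticAlgebra.re_one, QuadraticAlgebra.im_one, map_one, map_zero, zero_mul, add_zero]
  map_zero' := by
    change ψ (0 : Q2 D K).re + ψ (0 : Q2 D K).im * s = 0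
    rw [QuadraticAlgebra.re_zero, QuadraticAlgebra.im_zero, map_zero, zero_mul, add_zero]
  map_add' := by
    intro z z'
    simp only [QuadraticAlgebra.re_add, QuadraticAlgebra.im_add, map_add]
    ring
  map_mul' := by
    intro z z'
    simp only [QuadraticAlgebra.re_mul, QuadraticAlgebra.im_mul, map_add, map_mul, map_intCast,
      zero_mul, add_zero]
    linear_combination (-(ψ z.im * ψ z'.im)) * hs

theorem q6_embedding (m : ℕ) [NeZero m] (M : Type) [Field M] [NumberField M]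
    [IsCyclotomicExtension {m} ℚ M] (F : IntermediateField ℚ M) (D : ℤ) [Fact (NonSq D ℚ)]
    (L : Type) [Field L] [CharZero L] [Algebra (Q2 D ℚ) L]
    [IsCyclotomicExtension {m} (Q2 D ℚ) L] :
    ∃ (ψ : F →+* L) (s : L) (hs : s * s = (D : L)), ∀ z : Q2 D ℚ,
      q6_lift ψ s hs (mapQ (algebraMap ℚ F) z) = algebraMap (Q2 D ℚ) L z := by
  have hζM : IsPrimitiveRoot (IsCyclotomicExtension.zeta m ℚ M) m :=
    IsCyclotomicExtension.zeta_spec m ℚ M
  have hζL : IsPrimitiveRoot (IsCyclotomicExtension.zeta m (Q2 D ℚ) L) m :=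
    IsCyclotomicExtension.zeta_spec m (Q2 D ℚ) L
  have hm : 0 < m := Nat.pos_of_ne_zero (NeZero.ne m)
  let f : M →ₐ[ℚ] L := (hζM.powerBasis ℚ).lift (IsCyclotomicExtension.zeta m (Q2 D ℚ) L) (by
    rw [IsPrimitiveRoot.powerBasis_gen, ← cyclotomic_eq_minpoly_rat hζM hm,
      cyclotomic_eq_minpoly_rat hζL hm, minpoly.aeval])
  let ψ : F →+* L := f.toRingHom.comp (algebraMap F M)
  let o : Q2 D ℚ := ⟨0, 1⟩
  have ho : o * o = ((D : ℤ) : Q2 D ℚ) := by
    ext <;> simp [o, QuadraticAlgebra.re_mul, QuadraticAlgebra.im_mul]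
  have hs : algebraMap (Q2 D ℚ) L o * algebraMap (Q2 D ℚ) L o = (D : L) := by
    rw [← map_mul, ho, map_intCast]
  refine ⟨ψ, algebraMap (Q2 D ℚ) L o, hs, fun z => ?_⟩
  have h1 : ∀ q : ℚ, ψ (algebraMap ℚ F q) = algebraMap (Q2 D ℚ) L (algebraMap ℚ (Q2 D ℚ) q) := by
    intro q
    exact congrArg (fun g : ℚ →+* L => g q) (Subsingleton.elim (ψ.comp (algebraMap ℚ F))
      ((algebraMap (Q2 D ℚ) L).comp (algebraMap ℚ (Q2 D ℚ))))
  have h2 : q6_lift ψ (algebraMap (Q2 D ℚ) L o) hs (mapQ (algebraMap ℚ F) z) =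
      ψ (algebraMap ℚ F z.re) + ψ (algebraMap ℚ F z.im) * algebraMap (Q2 D ℚ) L o := rfl
  rw [h2, h1, h1, ← map_mul, ← map_add]
  congr 1
  ext <;> simp [o, QuadraticAlgebra.re_mul, QuadraticAlgebra.im_mul]

/-- At the primes of `ℚ(√D)` which do not divide `2 D c m`, an element whose image in `F(√D)` is
`(y - c √D) t³`, `y² = x³ + D c²`, has a valuation divisible by `3`. -/
theorem cube_unram (m : ℕ) [NeZero m] (M : Type) [Field M] [NumberField M]
    [IsCyclotomicExtension {m} ℚ M] (F : IntermediateField ℚ M) (D c : ℤ) [Fact (NonSq D ℚ)]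
    [Fact (NonSq D F)] (x y : F) (hxy : y ^ 2 = x ^ 3 + (D : F) * (c : F) ^ 2) (z0 : Q2 D ℚ)
    (t : Q2 D F) (ht : t ≠ 0)
    (h : mapQ (algebraMap ℚ F) z0 = (⟨y, -(c : F)⟩ : Q2 D F) * t ^ 3)
    (v : HeightOneSpectrum (𝓞 (Q2 D ℚ)))
    (hv : ((2 * D * c * m : ℤ) : 𝓞 (Q2 D ℚ)) ∉ v.asIdeal) :
    ∃ g, v.valuation (Q2 D ℚ) z0 = g ^ 3 := by
  have _ := ht
  let L := CyclotomicField m (Q2 D ℚ)
  obtain ⟨ψ, s, hs, hφ⟩ := q6_embedding m M F D L
  have hvm : (m : 𝓞 (Q2 D ℚ)) ∉ v.asIdeal := fun h1 => hv (by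
    push_cast; exact Ideal.mul_mem_left _ _ h1)
  have hv2 : ((2 : ℤ) : 𝓞 (Q2 D ℚ)) ∉ v.asIdeal := fun h1 => hv (by
    rw [show 2 * D * c * (m : ℤ) = D * c * m * 2 by ring, Int.cast_mul]
    exact Ideal.mul_mem_left _ _ h1)
  have hvD : ((D : ℤ) : 𝓞 (Q2 D ℚ)) ∉ v.asIdeal := fun h1 => hv (by
    rw [show 2 * D * c * (m : ℤ) = 2 * c * m * D by ring, Int.cast_mul]
    exact Ideal.mul_mem_left _ _ h1)
  have hvc : ((c : ℤ) : 𝓞 (Q2 D ℚ)) ∉ v.asIdeal := fun h1 => hv (by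
    rw [show 2 * D * c * (m : ℤ) = 2 * D * m * c by ring, Int.cast_mul]
    exact Ideal.mul_mem_left _ _ h1)
  have := v.isMaximal
  obtain ⟨Q, hQm, hQ⟩ := Ideal.exists_maximal_ideal_liesOver_of_isIntegral
    (S := 𝓞 L) v.asIdeal
  have hQ0 : Q ≠ ⊥ := Ideal.ne_bot_of_liesOver_of_ne_bot v.ne_bot Q
  let w : HeightOneSpectrum (𝓞 L) := ⟨Q, hQm.isPrime, hQ0⟩
  have hw : w.asIdeal.LiesOver v.asIdeal := hQ
  have hram := cyc_ram_one m L v hvm w
  have hval := HeightOneSpectrum.valuation_liesOver (K := Q2 D ℚ) L v w z0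
  rw [hram, pow_one] at hval
  rw [hval, ← hφ, h, map_mul, map_pow, map_mul, map_pow]
  have hnot : ∀ n : ℤ, (n : 𝓞 (Q2 D ℚ)) ∉ v.asIdeal → (n : 𝓞 L) ∉ w.asIdeal := by
    intro n hn h1
    apply hn
    rw [hw.over, Ideal.mem_comap, map_intCast]
    exact h1
  have hw2 : w.valuation L ((2 : ℤ) : L) = 1 := q6_val_intCast w 2 (hnot 2 hv2)
  have hwD : w.valuation L (D : L) = 1 := q6_val_intCast w D (hnot D hvD)
  have hwc : w.valuation L (c : L) = 1 := q6_val_intCast w c (hnot c hvc)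
  have hws : w.valuation L s = 1 := by
    have h1 := congrArg (w.valuation L) hs
    rw [map_mul, hwD, ← sq] at h1
    exact (pow_eq_one_iff_of_nonneg zero_le (by norm_num)).1 h1
  have hZ : q6_lift ψ s hs (⟨y, -(c : F)⟩ : Q2 D F) = ψ y - c * s := by
    change ψ y + ψ (-(c : F)) * s = _
    rw [map_neg, map_intCast]
    ring
  rw [hZ]
  obtain ⟨g, hg⟩ := q6_cube_val (w.valuation L) (ψ y - c * s) (ψ y + c * s) (ψ x) (by
      rw [show ψ y + c * s - (ψ y - c * s) = ((2 : ℤ) : L) * c * s by push_cast; ring, map_mul,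
        map_mul, hw2, hwc, hws]
      simp) (by
      have h1 := congrArg ψ hxy
      rw [map_pow, map_add, map_mul, map_pow, map_pow, map_intCast, map_intCast] at h1
      linear_combination h1 - (c : L) ^ 2 * hs)
  exact ⟨g * w.valuation L (q6_lift ψ s hs t), by rw [hg, mul_pow]⟩

end BS3
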