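import Pool.Agent.MP_ae0bd0_nt.B3.QDefs

set_option autoImplicit false

open Polynomial NumberField IsDedekindDomain CM27
open scoped Classical

namespace BS3

/-! ## [BS3-Q7] nonsplit primes (file Q7.lean) -/

/-- The element `√D`. -/
def q7_s (D : ℤ) : Q2 D ℚ := ⟨0, 1⟩

theorem q7_s_sq (D : ℤ) : q7_s D * q7_s D = (D : Q2 D ℚ) := by
  ext <;> simp [q7_s]

theorem q7_mk (D : ℤ) (a b : ℤ) :
    (⟨a, b⟩ : Q2 D ℚ) = (a : Q2 D ℚ) + (b : Q2 D ℚ) * q7_s D := by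
  ext <;> simp [q7_s]

/-- The norm form. -/
def q7_N (D a b : ℤ) : ℤ := a ^ 2 - D * b ^ 2

section
variable {D : ℤ} [Fact (NonSq D ℚ)] (v : HeightOneSpectrum (𝓞 (Q2 D ℚ)))

theorem q7_conj (a b : ℤ) :
    ((a : Q2 D ℚ) + (b : Q2 D ℚ) * q7_s D) * ((a : Q2 D ℚ) + ((-b : ℤ) : Q2 D ℚ) * q7_s D) =
      ((q7_N D a b : ℤ) : Q2 D ℚ) := by
  have h := q7_s_sq D
  simp only [q7_N]
  push_cast
  linear_combination (-(b : Q2 D ℚ) * b) * h

theorem q7_int_le (n : ℤ) : v.valuation (Q2 D ℚ) (n : Q2 D ℚ) ≤ 1 := by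
  have h := v.valuation_le_one (K := Q2 D ℚ) (n : 𝓞 (Q2 D ℚ))
  simpa using h

theorem q7_s_val : v.valuation (Q2 D ℚ) (q7_s D) ^ 2 = v.valuation (Q2 D ℚ) (D : Q2 D ℚ) := by
  rw [← map_pow, pow_two, q7_s_sq]

theorem q7_s_le : v.valuation (Q2 D ℚ) (q7_s D) ≤ 1 := by
  have h := q7_int_le v D
  rw [← q7_s_val] at h
  exact (pow_le_one_iff (by norm_num)).1 h

theorem q7_el_le (a b : ℤ) :
    v.valuation (Q2 D ℚ) ((a : Q2 D ℚ) + (b : Q2 D ℚ) * q7_s D) ≤ 1 := by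
  refine (Valuation.map_add _ _ _).trans (max_le (q7_int_le v a) ?_)
  rw [map_mul]
  exact mul_le_one' (q7_int_le v b) (q7_s_le v)

theorem q7_eq_one {x y : Q2 D ℚ} (hx : v.valuation (Q2 D ℚ) x ≤ 1)
    (hy : v.valuation (Q2 D ℚ) y ≤ 1) (h : v.valuation (Q2 D ℚ) (x * y) = 1) :
    v.valuation (Q2 D ℚ) x = 1 := by
  refine le_antisymm hx ?_
  by_contra hc
  have hc' := lt_of_not_ge hc
  rw [map_mul] at h
  have h3 : v.valuation (Q2 D ℚ) x * v.valuation (Q2 D ℚ) y ≤ v.valuation (Q2 D ℚ) x * 1 :=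
    mul_le_mul_right hy _
  rw [mul_one, h] at h3
  exact absurd h3 (not_le_of_gt hc')

theorem q7_coprime {p : ℕ} (hp : p.Prime)
    (hv : v.valuation (Q2 D ℚ) ((p : ℤ) : Q2 D ℚ) < 1)
    {n : ℤ} (hn : ¬ (p : ℤ) ∣ n) : v.valuation (Q2 D ℚ) (n : Q2 D ℚ) = 1 := by
  have h1 : IsCoprime (p : ℤ) n := by
    rw [Prime.coprime_iff_not_dvd (Nat.prime_iff_prime_int.1 hp)]
    exact hn
  obtain ⟨x, y, hxy⟩ := h1
  have h2 : v.valuation (Q2 D ℚ) ((y * n : ℤ) : Q2 D ℚ) = 1 := by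
    refine le_antisymm (q7_int_le v _) ?_
    by_contra hc
    have hc' := lt_of_not_ge hc
    have h3 : v.valuation (Q2 D ℚ) (((x * p + y * n : ℤ)) : Q2 D ℚ) < 1 := by
      push_cast
      refine (Valuation.map_add _ _ _).trans_lt (max_lt ?_ ?_)
      · rw [map_mul]
        have h4 := q7_int_le v x
        calc v.valuation (Q2 D ℚ) (x : Q2 D ℚ) * v.valuation (Q2 D ℚ) (p : Q2 D ℚ)
            ≤ 1 * v.valuation (Q2 D ℚ) (p : Q2 D ℚ) := mul_le_mul_left h4 _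
          _ < 1 := by rw [one_mul]; simpa using hv
      · simpa using hc'
    rw [hxy] at h3
    simp at h3
  push_cast at h2
  rw [mul_comm] at h2
  exact q7_eq_one v (q7_int_le v n) (q7_int_le v y) h2

theorem q7_key {p : ℕ} (hpp : p.Prime)
    (hv : v.valuation (Q2 D ℚ) ((p : ℤ) : Q2 D ℚ) < 1)
    (hstep : ∀ a b : ℤ, (p : ℤ) ∣ q7_N D a b → ∃ (a' b' c : ℤ) (π : Q2 D ℚ),
      2 ≤ c.natAbs ∧ q7_N D a b = c * q7_N D a' b' ∧
      (a : Q2 D ℚ) + (b : Q2 D ℚ) * q7_s D = π * ((a' : Q2 D ℚ) + (b' : Q2 D ℚ) * q7_s D) ∧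
      v.valuation (Q2 D ℚ) π ^ 2 = v.valuation (Q2 D ℚ) (c : Q2 D ℚ)) :
    ∀ (n : ℕ) (a b : ℤ), (q7_N D a b).natAbs = n → q7_N D a b ≠ 0 →
      v.valuation (Q2 D ℚ) ((a : Q2 D ℚ) + (b : Q2 D ℚ) * q7_s D) ^ 2 =
        v.valuation (Q2 D ℚ) ((q7_N D a b : ℤ) : Q2 D ℚ) := by
  intro n
  induction n using Nat.strong_induction_on with
  | _ n ih =>
  intro a b hn hN
  by_cases hdiv : (p : ℤ) ∣ q7_N D a b
  · obtain ⟨a', b', c, π, hc, hNN, hel, hπ⟩ := hstep a b hdiv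
    have hN' : q7_N D a' b' ≠ 0 := by
      intro h0
      rw [hNN, h0] at hN
      exact hN (by ring)
    have hlt : (q7_N D a' b').natAbs < n := by
      have h1 := Int.natAbs_pos.2 hN'
      rw [← hn, hNN, Int.natAbs_mul]
      nlinarith
    have hI := ih _ hlt a' b' rfl hN'
    rw [hel, map_mul, mul_pow, hI, hπ, hNN, Int.cast_mul, map_mul]
  · have h1 := q7_coprime v hpp hv hdiv
    have h4 : v.valuation (Q2 D ℚ) ((a : Q2 D ℚ) + (b : Q2 D ℚ) * q7_s D) = 1 := by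
      refine q7_eq_one v (q7_el_le v a b) (q7_el_le v a (-b)) ?_
      rw [q7_conj, h1]
    rw [h4, h1, one_pow]

theorem q7_step_inert {p : ℕ} (hpp : p.Prime) (hns : ¬ IsSquare (D : ZMod p)) (a b : ℤ)
    (h : (p : ℤ) ∣ q7_N D a b) : ∃ (a' b' c : ℤ) (π : Q2 D ℚ),
      2 ≤ c.natAbs ∧ q7_N D a b = c * q7_N D a' b' ∧
      (a : Q2 D ℚ) + (b : Q2 D ℚ) * q7_s D = π * ((a' : Q2 D ℚ) + (b' : Q2 D ℚ) * q7_s D) ∧
      v.valuation (Q2 D ℚ) π ^ 2 = v.valuation (Q2 D ℚ) (c : Q2 D ℚ) := by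
  have : Fact p.Prime := ⟨hpp⟩
  have h1 : ((q7_N D a b : ℤ) : ZMod p) = 0 := (ZMod.intCast_zmod_eq_zero_iff_dvd _ _).2 h
  have h2 : (a : ZMod p) ^ 2 = (D : ZMod p) * (b : ZMod p) ^ 2 := by
    simp only [q7_N] at h1
    push_cast at h1
    linear_combination h1
  have hb : (b : ZMod p) = 0 := by
    by_contra hb
    apply hns
    refine ⟨(a : ZMod p) / b, ?_⟩
    field_simp
    rw [h2]
  have ha : (a : ZMod p) = 0 := by
    rw [hb] at h2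
    have : (a : ZMod p) ^ 2 = 0 := by rw [h2]; ring
    exact pow_eq_zero_iff (two_ne_zero) |>.1 this
  obtain ⟨a', rfl⟩ := (ZMod.intCast_zmod_eq_zero_iff_dvd _ _).1 ha
  obtain ⟨b', rfl⟩ := (ZMod.intCast_zmod_eq_zero_iff_dvd _ _).1 hb
  refine ⟨a', b', (p : ℤ) ^ 2, ((p : ℤ) : Q2 D ℚ), ?_, ?_, ?_, ?_⟩
  · rw [Int.natAbs_pow, Int.natAbs_natCast]
    have := hpp.two_le
    nlinarith
  · simp only [q7_N]; ring
  · push_cast; ring
  · rw [Int.cast_pow, map_pow]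

end

theorem q7_step_two_m1 [Fact (NonSq (-1) ℚ)] (v : HeightOneSpectrum (𝓞 (Q2 (-1) ℚ)))
    (a b : ℤ) (h : ((2 : ℕ) : ℤ) ∣ q7_N (-1) a b) : ∃ (a' b' c : ℤ) (π : Q2 (-1) ℚ),
      2 ≤ c.natAbs ∧ q7_N (-1) a b = c * q7_N (-1) a' b' ∧
      (a : Q2 (-1) ℚ) + (b : Q2 (-1) ℚ) * q7_s (-1) =
        π * ((a' : Q2 (-1) ℚ) + (b' : Q2 (-1) ℚ) * q7_s (-1)) ∧
      v.valuation (Q2 (-1) ℚ) π ^ 2 = v.valuation (Q2 (-1) ℚ) (c : Q2 (-1) ℚ) := by
  have hs := q7_s_sq (-1)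
  have h2 : (2 : ℤ) ∣ a - b := by
    simp only [q7_N] at h
    have h3 : (2 : ℤ) ∣ (a - b) ^ 2 := by
      obtain ⟨t, ht⟩ := h
      refine ⟨t - a * b, ?_⟩
      push_cast at ht
      linear_combination ht
    exact Int.prime_two.dvd_of_dvd_pow h3
  obtain ⟨t, ht⟩ := h2
  have ha : a = b + 2 * t := by linarith
  subst ha
  refine ⟨b + t, -t, 2, 1 + q7_s (-1), by norm_num, ?_, ?_, ?_⟩
  · simp only [q7_N]; ring
  · push_cast
    push_cast at hs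
    linear_combination (t : Q2 (-1) ℚ) * hs
  · have h1 : v.valuation (Q2 (-1) ℚ) (q7_s (-1)) = 1 := by
      have h3 := q7_s_val v
      have h4 : v.valuation (Q2 (-1) ℚ) (((-1 : ℤ)) : Q2 (-1) ℚ) = 1 := by
        have h6 : (((-1 : ℤ)) : Q2 (-1) ℚ) = -1 := by push_cast; rfl
        rw [h6, Valuation.map_neg, map_one]
      rw [h4] at h3
      exact (pow_eq_one_iff_of_nonneg zero_le (two_ne_zero)).1 h3
    have h5 : (1 + q7_s (-1)) ^ 2 = ((2 : ℤ) : Q2 (-1) ℚ) * q7_s (-1) := by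
      push_cast
      push_cast at hs
      linear_combination hs
    rw [← map_pow, h5, map_mul, h1, mul_one]

theorem q7_step_two_3 [Fact (NonSq 3 ℚ)] (v : HeightOneSpectrum (𝓞 (Q2 3 ℚ)))
    (a b : ℤ) (h : ((2 : ℕ) : ℤ) ∣ q7_N 3 a b) : ∃ (a' b' c : ℤ) (π : Q2 3 ℚ),
      2 ≤ c.natAbs ∧ q7_N 3 a b = c * q7_N 3 a' b' ∧
      (a : Q2 3 ℚ) + (b : Q2 3 ℚ) * q7_s 3 =
        π * ((a' : Q2 3 ℚ) + (b' : Q2 3 ℚ) * q7_s 3) ∧
      v.valuation (Q2 3 ℚ) π ^ 2 = v.valuation (Q2 3 ℚ) (c : Q2 3 ℚ) := by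
  have hs := q7_s_sq 3
  have h2 : (2 : ℤ) ∣ a - b := by
    simp only [q7_N] at h
    have h3 : (2 : ℤ) ∣ (a - b) ^ 2 := by
      obtain ⟨t, ht⟩ := h
      refine ⟨t - a * b + 2 * b ^ 2, ?_⟩
      push_cast at ht
      linear_combination ht
    exact Int.prime_two.dvd_of_dvd_pow h3
  obtain ⟨t, ht⟩ := h2
  have ha : a = b + 2 * t := by linarith
  subst ha
  refine ⟨b - t, t, -2, 1 + q7_s 3, by norm_num, ?_, ?_, ?_⟩
  · simp only [q7_N]; ring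
  · push_cast
    push_cast at hs
    linear_combination (-(t : Q2 3 ℚ)) * hs
  · have h1 : v.valuation (Q2 3 ℚ) (((2 : ℤ) : Q2 3 ℚ) + ((1 : ℤ) : Q2 3 ℚ) * q7_s 3) = 1 := by
      refine q7_eq_one v (q7_el_le v 2 1) (q7_el_le v 2 (-1)) ?_
      rw [q7_conj]
      simp [q7_N]
    have h5 : (1 + q7_s 3) ^ 2 =
        ((2 : ℤ) : Q2 3 ℚ) * (((2 : ℤ) : Q2 3 ℚ) + ((1 : ℤ) : Q2 3 ℚ) * q7_s 3) := by
      push_cast
      push_cast at hs
      linear_combination hs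
    rw [← map_pow, h5, map_mul, h1, mul_one, Int.cast_neg, Valuation.map_neg]

theorem q7_step_three_3 [Fact (NonSq 3 ℚ)] (v : HeightOneSpectrum (𝓞 (Q2 3 ℚ)))
    (a b : ℤ) (h : ((3 : ℕ) : ℤ) ∣ q7_N 3 a b) : ∃ (a' b' c : ℤ) (π : Q2 3 ℚ),
      2 ≤ c.natAbs ∧ q7_N 3 a b = c * q7_N 3 a' b' ∧
      (a : Q2 3 ℚ) + (b : Q2 3 ℚ) * q7_s 3 =
        π * ((a' : Q2 3 ℚ) + (b' : Q2 3 ℚ) * q7_s 3) ∧
      v.valuation (Q2 3 ℚ) π ^ 2 = v.valuation (Q2 3 ℚ) (c : Q2 3 ℚ) := by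
  have hs := q7_s_sq 3
  have h2 : (3 : ℤ) ∣ a := by
    simp only [q7_N] at h
    have h3 : (3 : ℤ) ∣ a ^ 2 := by
      obtain ⟨t, ht⟩ := h
      refine ⟨t + b ^ 2, ?_⟩
      push_cast at ht
      linear_combination ht
    exact Int.prime_three.dvd_of_dvd_pow h3
  obtain ⟨t, rfl⟩ := h2
  refine ⟨b, t, -3, q7_s 3, by norm_num, ?_, ?_, ?_⟩
  · simp only [q7_N]; ring
  · push_cast
    push_cast at hs
    linear_combination (-(t : Q2 3 ℚ)) * hs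
  · rw [q7_s_val, Int.cast_neg, Valuation.map_neg]

theorem q7_nonsq {p : ℕ} (hpp : p.Prime) (h7 : p % 12 = 7) (D : ℤ) (hD : D = -1 ∨ D = 3) :
    ¬ IsSquare (D : ZMod p) := by
  have : Fact p.Prime := ⟨hpp⟩
  have h4 : p % 4 = 3 := by omega
  rcases hD with rfl | rfl
  · push_cast
    rw [ZMod.exists_sq_eq_neg_one_iff]
    simp [h4]
  · have h3 : p ≠ 3 := by rintro rfl; omega
    have h1 := ZMod.exists_sq_eq_prime_iff_of_mod_four_eq_three (p := p) (q := 3) h4 (by norm_num) h3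
    have h5 : IsSquare ((p : ℕ) : ZMod 3) := by
      have h6 : ((p : ℕ) : ZMod 3) = 1 := by
        have : ((p : ℕ) : ZMod 3) = ((1 : ℕ) : ZMod 3) := by
          rw [ZMod.natCast_eq_natCast_iff']
          omega
        simpa using this
      rw [h6]
      exact ⟨1, by ring⟩
    intro h6
    refine h1.1 ?_ h5
    simpa using h6

/-- Let `z` be an element of `ℚ(i)` or `ℚ(√3)` whose norm is a cube. At the primes above `2`, `3`
and above the primes `p ≡ 7 mod 12` the valuation of `z` is divisible by `3`: there is only one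
prime above `p`. -/
theorem cube_nonsplit (D : ℤ) (hD : D = -1 ∨ D = 3) [Fact (NonSq D ℚ)] (z : Q2 D ℚ) (hz : z ≠ 0)
    (r : ℚ) (hN : z.norm = r ^ 3) (p : ℕ) (hp : p = 2 ∨ p = 3 ∨ (p.Prime ∧ p % 12 = 7))
    (v : HeightOneSpectrum (𝓞 (Q2 D ℚ))) (hv : (p : 𝓞 (Q2 D ℚ)) ∈ v.asIdeal) :
    ∃ g, v.valuation (Q2 D ℚ) z = g ^ 3 := by
  have hv' : v.valuation (Q2 D ℚ) ((p : ℤ) : Q2 D ℚ) < 1 := by
    have h := (v.valuation_lt_one_iff_mem (K := Q2 D ℚ) (p : 𝓞 (Q2 D ℚ))).2 hv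
    simpa using h
  have hpp : p.Prime := by
    rcases hp with rfl | rfl | h
    · exact Nat.prime_two
    · exact Nat.prime_three
    · exact h.1
  have hstep : ∀ a b : ℤ, (p : ℤ) ∣ q7_N D a b → ∃ (a' b' c : ℤ) (π : Q2 D ℚ),
      2 ≤ c.natAbs ∧ q7_N D a b = c * q7_N D a' b' ∧
      (a : Q2 D ℚ) + (b : Q2 D ℚ) * q7_s D = π * ((a' : Q2 D ℚ) + (b' : Q2 D ℚ) * q7_s D) ∧
      v.valuation (Q2 D ℚ) π ^ 2 = v.valuation (Q2 D ℚ) (c : Q2 D ℚ) := by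
    rcases hp with rfl | rfl | h
    · rcases hD with rfl | rfl
      · exact q7_step_two_m1 v
      · exact q7_step_two_3 v
    · rcases hD with rfl | rfl
      · refine q7_step_inert v hpp ?_
        decide
      · exact q7_step_three_3 v
    · exact q7_step_inert v hpp (q7_nonsq h.1 h.2 D hD)
  have key := q7_key v hpp hv' hstep
  obtain ⟨x, y⟩ := z
  obtain ⟨d, hd, a, b, hx, hy⟩ : ∃ (d : ℤ), d ≠ 0 ∧ ∃ a b : ℤ, (d : ℚ) * x = a ∧ (d : ℚ) * y = b := by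
    have ex : (x.den : ℚ) * x = x.num := Rat.den_mul_eq_num x
    have ey : (y.den : ℚ) * y = y.num := Rat.den_mul_eq_num y
    refine ⟨(x.den : ℤ) * y.den, ?_, x.num * y.den, x.den * y.num, ?_, ?_⟩
    · have h1 : (x.den : ℤ) ≠ 0 := by exact_mod_cast x.den_nz
      have h2 : (y.den : ℤ) ≠ 0 := by exact_mod_cast y.den_nz
      exact mul_ne_zero h1 h2
    · push_cast
      linear_combination (y.den : ℚ) * ex
    · push_cast
      linear_combination (x.den : ℚ) * ey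
  have hdK : (d : Q2 D ℚ) ≠ 0 := by exact_mod_cast hd
  have hdz : (d : Q2 D ℚ) * ⟨x, y⟩ = (a : Q2 D ℚ) + (b : Q2 D ℚ) * q7_s D := by
    rw [← q7_mk]
    ext
    · simp [hx]
    · simp [hy]
  have hxy : x ^ 2 - D * y ^ 2 = r ^ 3 := by
    rw [QuadraticAlgebra.norm_def] at hN
    simp only at hN
    linear_combination hN
  have hNab : ((q7_N D a b : ℤ) : ℚ) = (d : ℚ) ^ 2 * r ^ 3 := by
    simp only [q7_N]
    push_cast
    rw [← hx, ← hy, ← hxy]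
    ring
  have hnz : q7_N D a b ≠ 0 := by
    intro h0
    have h1 := q7_conj (D := D) a b
    rw [h0, Int.cast_zero] at h1
    rcases mul_eq_zero.1 h1 with h2 | h2
    · rw [← hdz] at h2
      rcases mul_eq_zero.1 h2 with h3 | h3
      · exact hdK h3
      · exact hz h3
    · rw [← q7_mk] at h2
      have h3 := congrArg QuadraticAlgebra.re h2
      have h4 := congrArg QuadraticAlgebra.im h2
      simp only [QuadraticAlgebra.re_zero, QuadraticAlgebra.im_zero] at h3 h4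
      push_cast at h4
      apply hz
      have h5 : (d : ℚ) ≠ 0 := by exact_mod_cast hd
      rw [← hx] at h3
      have h6 : (b : ℚ) = 0 := by linarith
      rw [← hy] at h6
      have h7 := (mul_eq_zero.1 h3).resolve_left h5
      have h8 := (mul_eq_zero.1 h6).resolve_left h5
      rw [h7, h8]
      rfl
  have hk := key _ a b rfl hnz
  have hR : ((q7_N D a b : ℤ) : Q2 D ℚ) = (d : Q2 D ℚ) ^ 2 * (QuadraticAlgebra.C r : Q2 D ℚ) ^ 3 := by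
    rw [← QuadraticAlgebra.C_pow]
    have h1 : (d : Q2 D ℚ) = QuadraticAlgebra.C (d : ℚ) := rfl
    have h2 : ((q7_N D a b : ℤ) : Q2 D ℚ) = QuadraticAlgebra.C ((q7_N D a b : ℤ) : ℚ) := rfl
    rw [h1, h2, ← QuadraticAlgebra.C_pow, ← QuadraticAlgebra.C_mul, hNab]
  rw [← hdz, hR, map_mul, map_mul, mul_pow, map_pow, map_pow] at hk
  have hvd : v.valuation (Q2 D ℚ) (d : Q2 D ℚ) ^ 2 ≠ 0 :=
    pow_ne_zero 2 ((Valuation.ne_zero_iff _).2 hdK)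
  have hk2 : v.valuation (Q2 D ℚ) ⟨x, y⟩ ^ 2 =
      v.valuation (Q2 D ℚ) (QuadraticAlgebra.C r : Q2 D ℚ) ^ 3 := mul_left_cancel₀ hvd hk
  have hvz : v.valuation (Q2 D ℚ) ⟨x, y⟩ ≠ 0 := (Valuation.ne_zero_iff _).2 hz
  refine ⟨v.valuation (Q2 D ℚ) ⟨x, y⟩ / v.valuation (Q2 D ℚ) (QuadraticAlgebra.C r : Q2 D ℚ), ?_⟩
  rw [div_pow, ← hk2, eq_div_iff (pow_ne_zero 2 hvz)]
  exact (pow_succ' _ 2).symm

end BS3
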