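import Pool.Agent.MP_ae0bd0_nt.B3.QDefs

set_option autoImplicit false

open Polynomial NumberField IsDedekindDomain CM27
open scoped Classical

namespace BS3

/-! ## [BS3-Q8b] units of `ℚ(i)` and `ℚ(√3)` modulo cubes (file Q8b.lean) -/

theorem q8b_alg {D : ℤ} [Fact (NonSq D ℚ)] (q : ℚ) : algebraMap ℚ (Q2 D ℚ) q = ⟨q, 0⟩ := rfl

theorem q8b_one {D : ℤ} [Fact (NonSq D ℚ)] : (1 : Q2 D ℚ) = ⟨1, 0⟩ := rfl

theorem q8b_mul {D : ℤ} [Fact (NonSq D ℚ)] (x y : Q2 D ℚ) :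
    x * y = ⟨x.re * y.re + D * x.im * y.im, x.re * y.im + x.im * y.re⟩ := by
  ext
  · simp
  · simp

theorem q8b_cube {D : ℤ} [Fact (NonSq D ℚ)] (x : Q2 D ℚ) :
    x ^ 3 = ⟨x.re ^ 3 + 3 * D * x.re * x.im ^ 2, 3 * x.re ^ 2 * x.im + D * x.im ^ 3⟩ := by
  have e : x ^ 3 = x * (x * x) := by ring
  rw [e, q8b_mul, q8b_mul]
  ext
  · simp only
    ring
  · simp only
    ring

/-- trace and norm of an integral element are integers -/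
theorem q8b_int {D : ℤ} [Fact (NonSq D ℚ)] {z : Q2 D ℚ} (hz : IsIntegral ℤ z) :
    (∃ X : ℤ, 2 * z.re = X) ∧ ∃ N : ℤ, z.re ^ 2 - D * z.im ^ 2 = N := by
  have hs : IsIntegral ℤ (star z) := map_isIntegral_int (starRingEnd (Q2 D ℚ)) hz
  have key : ∀ q : ℚ, IsIntegral ℤ (algebraMap ℚ (Q2 D ℚ) q) → ∃ X : ℤ, q = X := by
    intro q hq
    rw [isIntegral_algebraMap_iff (algebraMap ℚ (Q2 D ℚ)).injective] at hq
    obtain ⟨n, hn⟩ := IsIntegrallyClosed.isIntegral_iff.1 hq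
    exact ⟨n, by rw [← hn]; simp⟩
  constructor
  · apply key
    have e : algebraMap ℚ (Q2 D ℚ) (2 * z.re) = z + star z := by
      rw [q8b_alg]
      ext
      · simp [QuadraticAlgebra.re_star]; ring
      · simp
    rw [e]
    exact hz.add hs
  · apply key
    have e : algebraMap ℚ (Q2 D ℚ) (z.re ^ 2 - D * z.im ^ 2) = z * star z := by
      rw [q8b_alg]
      ext
      · simp [QuadraticAlgebra.re_star]; ring
      · simp [QuadraticAlgebra.re_star]; ring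
    rw [e]
    exact hz.mul hs

theorem q8b_omega {D : ℤ} [Fact (NonSq D ℚ)] : IsIntegral ℤ (⟨0, 1⟩ : Q2 D ℚ) := by
  refine ⟨X ^ 2 - C D, monic_X_pow_sub_C D two_ne_zero, ?_⟩
  rw [eval₂_sub, eval₂_pow, eval₂_X, eval₂_C, sub_eq_zero]
  ext
  · simp [sq]
  · simp [sq]

/-- coordinates of a unit -/
theorem q8b_unit {D : ℤ} [Fact (NonSq D ℚ)] (u : (𝓞 (Q2 D ℚ))ˣ) :
    (∃ X : ℤ, 2 * ((u : 𝓞 (Q2 D ℚ)) : Q2 D ℚ).re = X) ∧
    (∃ Y : ℤ, 2 * (D * ((u : 𝓞 (Q2 D ℚ)) : Q2 D ℚ).im) = Y) ∧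
    (((u : 𝓞 (Q2 D ℚ)) : Q2 D ℚ).re ^ 2 - D * ((u : 𝓞 (Q2 D ℚ)) : Q2 D ℚ).im ^ 2 = 1 ∨
      ((u : 𝓞 (Q2 D ℚ)) : Q2 D ℚ).re ^ 2 - D * ((u : 𝓞 (Q2 D ℚ)) : Q2 D ℚ).im ^ 2 = -1) := by
  set z : Q2 D ℚ := ((u : 𝓞 (Q2 D ℚ)) : Q2 D ℚ) with hz
  set y : Q2 D ℚ := (((u⁻¹ : (𝓞 (Q2 D ℚ))ˣ) : 𝓞 (Q2 D ℚ)) : Q2 D ℚ) with hy
  have h1 : IsIntegral ℤ z := RingOfIntegers.isIntegral_coe _
  have h2 : IsIntegral ℤ y := RingOfIntegers.isIntegral_coe _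
  have hzy : z * y = 1 := by
    have h3 : ((u : 𝓞 (Q2 D ℚ))) * ((u⁻¹ : (𝓞 (Q2 D ℚ))ˣ) : 𝓞 (Q2 D ℚ)) = 1 := by
      rw [← Units.val_mul, mul_inv_cancel, Units.val_one]
    have h4 := congrArg (algebraMap (𝓞 (Q2 D ℚ)) (Q2 D ℚ)) h3
    rw [map_mul, map_one] at h4
    exact h4
  obtain ⟨hX, N, hN⟩ := q8b_int h1
  obtain ⟨-, N', hN'⟩ := q8b_int h2
  obtain ⟨⟨Y, hY⟩, -⟩ := q8b_int (h1.mul (q8b_omega (D := D)))
  refine ⟨hX, ⟨Y, ?_⟩, ?_⟩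
  · rw [← hY]
    simp
  · have hNN : (N : ℚ) * N' = 1 := by
      rw [← hN, ← hN']
      have hr := congrArg QuadraticAlgebra.re hzy
      have hi := congrArg QuadraticAlgebra.im hzy
      rw [q8b_mul, q8b_one] at hr hi
      simp only at hr hi
      have e1 : (z.re ^ 2 - D * z.im ^ 2) * (y.re ^ 2 - D * y.im ^ 2) =
        (z.re * y.re + D * z.im * y.im) ^ 2 - D * (z.re * y.im + z.im * y.re) ^ 2 := by ring
      rw [e1, hr, hi]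
      ring
    have hNN' : N * N' = 1 := by exact_mod_cast hNN
    rcases Int.isUnit_iff.1 (IsUnit.of_mul_eq_one _ hNN') with h | h
    · left; rw [hN, h]; simp
    · right; rw [hN, h]; simp

theorem units_neg_one (u : (𝓞 (Q2 (-1) ℚ))ˣ) :
    ∃ s : Q2 (-1) ℚ, ((u : 𝓞 (Q2 (-1) ℚ)) : Q2 (-1) ℚ) = s ^ 3 := by
  obtain ⟨⟨X, hX⟩, ⟨Y, hY⟩, hN⟩ := q8b_unit u
  set z : Q2 (-1) ℚ := ((u : 𝓞 (Q2 (-1) ℚ)) : Q2 (-1) ℚ) with hz
  have h1 : z.re ^ 2 + z.im ^ 2 = 1 := by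
    rcases hN with h | h
    · push_cast at h; linarith
    · push_cast at h
      nlinarith [sq_nonneg z.re, sq_nonneg z.im]
  push_cast at hY
  have hre : z.re = X / 2 := by linarith
  have him : z.im = -Y / 2 := by linarith
  rw [hre, him] at h1
  have h2 : (X : ℚ) ^ 2 + Y ^ 2 = 4 := by nlinarith
  have h3 : X ^ 2 + Y ^ 2 = 4 := by exact_mod_cast h2
  have hXb : X ≤ 2 := by nlinarith
  have hXb' : -2 ≤ X := by nlinarith
  have hYb : Y ≤ 2 := by nlinarith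
  have hYb' : -2 ≤ Y := by nlinarith
  have hz2 : z = ⟨X / 2, -Y / 2⟩ := by
    ext
    · exact hre
    · exact him
  rw [hz2]
  interval_cases X <;> interval_cases Y <;> first | omega | skip
  · exact ⟨⟨-1, 0⟩, by rw [q8b_cube]; ext <;> norm_num⟩
  · exact ⟨⟨0, -1⟩, by rw [q8b_cube]; ext <;> norm_num⟩
  · exact ⟨⟨0, 1⟩, by rw [q8b_cube]; ext <;> norm_num⟩
  · exact ⟨⟨1, 0⟩, by rw [q8b_cube]; ext <;> norm_num⟩

/-- solutions of Pell's equation as elements of the field -/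
noncomputable def q8b_phi : Pell.Solution₁ 3 →* Q2 3 ℚ where
  toFun a := ⟨a.x, a.y⟩
  map_one' := by
    rw [q8b_one]
    ext <;> simp
  map_mul' a b := by
    rw [q8b_mul]
    ext
    · simp [Pell.Solution₁.x_mul]
      ring
    · simp [Pell.Solution₁.y_mul]

theorem q8b_fund : Pell.IsFundamental (Pell.Solution₁.mk 2 1 (by norm_num) : Pell.Solution₁ 3) := by
  refine ⟨by simp, by simp, ?_⟩
  intro a ha
  simp
  omega

/-- the fundamental unit is `2 + √3` -/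
theorem units_three (u : (𝓞 (Q2 3 ℚ))ˣ) : ∃ s : Q2 3 ℚ,
    ((u : 𝓞 (Q2 3 ℚ)) : Q2 3 ℚ) = s ^ 3 ∨
    ((u : 𝓞 (Q2 3 ℚ)) : Q2 3 ℚ) = (⟨2, 1⟩ : Q2 3 ℚ) * s ^ 3 ∨
    ((u : 𝓞 (Q2 3 ℚ)) : Q2 3 ℚ) = (⟨2, -1⟩ : Q2 3 ℚ) * s ^ 3 := by
  obtain ⟨⟨X, hX⟩, ⟨Y, hY⟩, hN⟩ := q8b_unit u
  set z : Q2 3 ℚ := ((u : 𝓞 (Q2 3 ℚ)) : Q2 3 ℚ) with hz
  push_cast at hY hN
  have hre : z.re = X / 2 := by linarith
  have him : z.im = Y / 6 := by linarith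
  have h1 : 3 * X ^ 2 - Y ^ 2 = 12 ∨ 3 * X ^ 2 - Y ^ 2 = -12 := by
    rcases hN with h | h
    · left
      rw [hre, him] at h
      have : (3 : ℚ) * X ^ 2 - Y ^ 2 = 12 := by nlinarith
      exact_mod_cast this
    · right
      rw [hre, him] at h
      have : (3 : ℚ) * X ^ 2 - Y ^ 2 = -12 := by nlinarith
      exact_mod_cast this
  have hY3 : (3 : ℤ) ∣ Y := by
    have : (3 : ℤ) ∣ Y ^ 2 := by
      rcases h1 with h | h
      · exact ⟨X ^ 2 - 4, by linarith⟩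
      · exact ⟨X ^ 2 + 4, by linarith⟩
    exact Int.prime_three.dvd_of_dvd_pow this
  obtain ⟨Z, rfl⟩ := hY3
  have h2 : X ^ 2 - 3 * Z ^ 2 = 4 := by
    rcases h1 with h | h
    · nlinarith
    · exfalso
      have h3 : X ^ 2 - 3 * Z ^ 2 = -4 := by nlinarith
      have hXm : X % 3 = 0 ∨ X % 3 = 1 ∨ X % 3 = 2 := by omega
      obtain ⟨k, hk⟩ : ∃ k, X = 3 * k + X % 3 := ⟨X / 3, by omega⟩
      rcases hXm with hm | hm | hm <;> rw [hm] at hk <;> rw [hk] at h3 <;> ring_nf at h3 <;> omega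
  have h3 : (2 : ℤ) ∣ X ∧ (2 : ℤ) ∣ Z := by
    obtain ⟨k, hk⟩ : ∃ k, X = 2 * k + X % 2 := ⟨X / 2, by omega⟩
    obtain ⟨l, hl⟩ : ∃ l, Z = 2 * l + Z % 2 := ⟨Z / 2, by omega⟩
    rcases Int.emod_two_eq_zero_or_one X with hx | hx <;>
      rcases Int.emod_two_eq_zero_or_one Z with hz | hz
    · exact ⟨Int.dvd_of_emod_eq_zero hx, Int.dvd_of_emod_eq_zero hz⟩
    · exfalso; rw [hx] at hk; rw [hz] at hl; rw [hk, hl] at h2; ring_nf at h2; omega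
    · exfalso; rw [hx] at hk; rw [hz] at hl; rw [hk, hl] at h2; ring_nf at h2; omega
    · exfalso
      have e : (X ^ 2 - 3 * Z ^ 2) % 8 = 6 := by
        have hX8 : X % 8 = 1 ∨ X % 8 = 3 ∨ X % 8 = 5 ∨ X % 8 = 7 := by omega
        have hZ8 : Z % 8 = 1 ∨ Z % 8 = 3 ∨ Z % 8 = 5 ∨ Z % 8 = 7 := by omega
        rcases hX8 with h | h | h | h <;> rcases hZ8 with h' | h' | h' | h' <;>
          simp [sq, Int.sub_emod, Int.mul_emod, h, h']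
      rw [h2] at e
      omega
  obtain ⟨⟨p, rfl⟩, ⟨q, rfl⟩⟩ := h3
  have h4 : p ^ 2 - 3 * q ^ 2 = 1 := by nlinarith
  have hphi : z = q8b_phi (Pell.Solution₁.mk p q h4) := by
    ext
    · rw [hre]; simp [q8b_phi]
    · rw [him]; simp [q8b_phi]; ring
  set ε : Q2 3 ℚ := ⟨2, 1⟩ with hε
  have hε1 : ε * ⟨2, -1⟩ = 1 := by
    rw [q8b_mul, q8b_one, hε]
    ext <;> norm_num
  have hε0 : ε ≠ 0 := left_ne_zero_of_mul_eq_one hε1
  have hεi : ε⁻¹ = ⟨2, -1⟩ := inv_eq_of_mul_eq_one_right hε1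
  have hφε : ((q8b_phi.toHomUnits (Pell.Solution₁.mk 2 1 (by norm_num)) : (Q2 3 ℚ)ˣ) : Q2 3 ℚ) = ε := by
    ext
    · simp [q8b_phi, hε]
    · simp [q8b_phi, hε]
  have hcube : ∀ n : ℤ, ∃ s : Q2 3 ℚ, ε ^ n = s ^ 3 ∨ ε ^ n = ε * s ^ 3 ∨ ε ^ n = ε⁻¹ * s ^ 3 := by
    intro n
    obtain ⟨k, hk⟩ : ∃ k : ℤ, n = k * 3 ∨ n = 1 + k * 3 ∨ n = -1 + k * 3 :=
      ⟨(n + 1) / 3, by omega⟩
    refine ⟨ε ^ k, ?_⟩
    have e3 : (ε ^ k) ^ 3 = ε ^ (k * 3) := by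
      rw [zpow_mul]; norm_cast
    rw [e3]
    rcases hk with h | h | h
    · left; rw [h]
    · right; left; rw [h, zpow_add₀ hε0, zpow_one]
    · right; right; rw [h, zpow_add₀ hε0, zpow_neg_one]
  obtain ⟨n, hn | hn⟩ := q8b_fund.eq_zpow_or_neg_zpow (Pell.Solution₁.mk p q h4)
  · have e : z = ε ^ n := by
      rw [hphi, hn]
      have := congrArg Units.val (map_zpow q8b_phi.toHomUnits
        (Pell.Solution₁.mk 2 1 (by norm_num) : Pell.Solution₁ 3) n)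
      rw [Units.val_zpow_eq_zpow_val, hφε] at this
      exact this
    obtain ⟨s, hs⟩ := hcube n
    refine ⟨s, ?_⟩
    rw [e, ← hεi]
    exact hs
  · have e : z = - ε ^ n := by
      rw [hphi, hn]
      have := congrArg Units.val (map_zpow q8b_phi.toHomUnits
        (Pell.Solution₁.mk 2 1 (by norm_num) : Pell.Solution₁ 3) n)
      rw [Units.val_zpow_eq_zpow_val, hφε] at this
      rw [← this]
      change (⟨_, _⟩ : Q2 3 ℚ) = - (⟨_, _⟩ : Q2 3 ℚ)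
      ext
      · simp
      · simp
    obtain ⟨s, hs⟩ := hcube n
    refine ⟨-s, ?_⟩
    have e3 : (-s) ^ 3 = - s ^ 3 := by ring
    rw [e, ← hεi, e3]
    rcases hs with h | h | h
    · left; rw [h]
    · right; left; rw [h]; ring
    · right; right; rw [h]; ring

end BS3
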