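import Pool.Agent.MP_ae0bd0_nt.B3.Q8a
import Pool.Agent.MP_ae0bd0_nt.B3.Q8b

set_option autoImplicit false

open Polynomial NumberField IsDedekindDomain CM27
open scoped Classical

namespace BS3

/-! ## [BS3-Q9] elements all of whose valuations are divisible by `3`
(file Q9.lean; uses Q8a, Q8b) -/

theorem q9_cube_of_mul {x y : WithZero (Multiplicative ℤ)} (hy : y ≠ 0)
    (h : ∃ g, x * y ^ 3 = g ^ 3) : ∃ g, x = g ^ 3 := by
  obtain ⟨r, hr⟩ := h
  refine ⟨r / y, ?_⟩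
  rw [div_pow, ← hr]
  exact (mul_div_cancel_right₀ x (pow_ne_zero 3 hy)).symm

theorem q9_not_cube (n : ℤ) (hn : ¬ (3 : ℤ) ∣ n) :
    ¬ ∃ g : WithZero (Multiplicative ℤ), WithZero.exp n = g ^ 3 := by
  rintro ⟨r, hr⟩
  have hr0 : r ≠ 0 := by
    rintro rfl
    simp at hr
  have h1 := congrArg WithZero.log hr
  rw [WithZero.log_exp, pow_succ, pow_two, WithZero.log_mul (mul_ne_zero hr0 hr0) hr0,
    WithZero.log_mul hr0 hr0] at h1
  omega

theorem q9_pid {A : Type*} [CommRing A] [IsPrincipalIdealRing A]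
    [IsDedekindDomain A] (a : A) (ha : a ≠ 0)
    (h : ∀ v : HeightOneSpectrum A, ∃ g, v.intValuation a = g ^ 3) :
    ∃ (u : Aˣ) (s : A), a = u * s ^ 3 := by
  revert ha h
  induction a using (wellFounded_dvdNotUnit (α := A)).induction with
  | _ a ih =>
    intro ha h
    by_cases hu : IsUnit a
    · exact ⟨hu.unit, 1, by simp⟩
    obtain ⟨p, hp, b, hb⟩ := WfDvdMonoid.exists_irreducible_factor hu ha
    have hp0 : p ≠ 0 := hp.ne_zero
    have hprime : Prime p := hp.prime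
    let v : HeightOneSpectrum A := ⟨Ideal.span {p},
      (Ideal.span_singleton_prime hp0).2 hprime, by
        rw [Ne, Ideal.span_singleton_eq_bot]; exact hp0⟩
    have hv : v.intValuation p = WithZero.exp (-1 : ℤ) := v.intValuation_singleton hp0 rfl
    have hb0 : b ≠ 0 := by rintro rfl; simp at hb; exact ha hb
    have hone : ∀ b : A, ¬ p ∣ b → v.intValuation b = 1 := by
      intro b hnd
      have h4 : ¬ v.intValuation b < 1 := by
        rw [v.intValuation_lt_one_iff_mem]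
        intro hmem
        exact hnd (Ideal.mem_span_singleton.1 hmem)
      exact le_antisymm (v.intValuation_le_one b) (not_lt.1 h4)
    have h1 := h v
    rw [hb, map_mul, hv] at h1
    have h2 : p ∣ b := by
      by_contra hnd
      rw [hone b hnd, mul_one] at h1
      exact q9_not_cube (-1) (by decide) h1
    obtain ⟨c, hc⟩ := h2
    have hc0 : c ≠ 0 := by rintro rfl; simp at hc; exact hb0 hc
    rw [hc, map_mul, hv, ← mul_assoc, ← WithZero.exp_add] at h1
    have h3 : p ∣ c := by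
      by_contra hnd
      rw [hone c hnd, mul_one] at h1
      exact q9_not_cube _ (by decide) h1
    obtain ⟨d, hd⟩ := h3
    have hd0 : d ≠ 0 := by rintro rfl; simp at hd; exact hc0 hd
    have e : a = d * p ^ 3 := by rw [hb, hc, hd]; ring
    have hdn : DvdNotUnit d a := by
      refine ⟨hd0, p ^ 3, ?_, e⟩
      intro hh
      exact hp.not_isUnit (isUnit_of_mul_isUnit_right (by rwa [pow_succ] at hh))
    obtain ⟨u, s, hs⟩ := ih d hdn hd0 (by
      intro w
      have h5 := h w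
      rw [e, map_mul, map_pow] at h5
      exact q9_cube_of_mul (w.intValuation_ne_zero p hp0) h5)
    refine ⟨u, s * p, ?_⟩
    rw [e, hs]; ring

/-- In the quotient field of a principal ideal domain (which is a Dedekind domain) an element all
of whose valuations are divisible by `3` is a unit times a cube. -/
theorem unit_mul_cube {K : Type} [Field K] [NumberField K] [IsPrincipalIdealRing (𝓞 K)] (z : K)
    (hz : z ≠ 0) (h : ∀ v : HeightOneSpectrum (𝓞 K), ∃ g, v.valuation K z = g ^ 3) :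
    ∃ (u : (𝓞 K)ˣ) (s : K), s ≠ 0 ∧ z = ((u : 𝓞 K) : K) * s ^ 3 := by
  obtain ⟨a, b, hb, hab⟩ := IsFractionRing.div_surjective (A := 𝓞 K) z
  have hb0 : b ≠ 0 := nonZeroDivisors.ne_zero hb
  have hb1 : algebraMap (𝓞 K) K b ≠ 0 := by
    intro h0
    exact hb0 ((FaithfulSMul.algebraMap_injective (𝓞 K) K) (by rw [h0, map_zero]))
  have ha0 : a ≠ 0 := by
    rintro rfl
    rw [map_zero, zero_div] at hab
    exact hz hab.symm
  have e1 : algebraMap (𝓞 K) K (a * b ^ 2) = z * (algebraMap (𝓞 K) K b) ^ 3 := by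
    rw [map_mul, map_pow, ← hab]
    field_simp
  obtain ⟨u, s, hs⟩ := q9_pid (a * b ^ 2) (mul_ne_zero ha0 (pow_ne_zero 2 hb0)) (by
    intro v
    have h1 : v.valuation K (algebraMap (𝓞 K) K (a * b ^ 2)) = v.intValuation (a * b ^ 2) :=
      v.valuation_of_algebraMap _
    rw [← h1, e1, map_mul, map_pow]
    obtain ⟨g, hg⟩ := h v
    exact ⟨g * v.valuation K (algebraMap (𝓞 K) K b), by rw [hg, mul_pow]⟩)
  have hs0 : s ≠ 0 := by
    rintro rfl
    simp at hs
    exact hs.elim ha0 hb0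
  have hS0 : algebraMap (𝓞 K) K s ≠ 0 := by
    intro h0
    exact hs0 ((FaithfulSMul.algebraMap_injective (𝓞 K) K) (by rw [h0, map_zero]))
  refine ⟨u, algebraMap (𝓞 K) K s / algebraMap (𝓞 K) K b, div_ne_zero hS0 hb1, ?_⟩
  have h3 : z * algebraMap (𝓞 K) K b ^ 3 = ((u : 𝓞 K) : K) * algebraMap (𝓞 K) K s ^ 3 := by
    rw [← e1, hs, map_mul, map_pow]
  rw [div_pow, ← mul_div_assoc, ← h3]
  field_simp

theorem cube_neg_one (z : Q2 (-1) ℚ) (hz : z ≠ 0)
    (h : ∀ v : HeightOneSpectrum (𝓞 (Q2 (-1) ℚ)), ∃ g, v.valuation (Q2 (-1) ℚ) z = g ^ 3) :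
    ∃ s : Q2 (-1) ℚ, z = s ^ 3 := by
  have := pid_D (-1) (Or.inl rfl)
  obtain ⟨u, s, _, hs⟩ := unit_mul_cube z hz h
  obtain ⟨s', hs'⟩ := units_neg_one u
  exact ⟨s' * s, by rw [hs, hs', mul_pow]⟩

theorem cube_three (z : Q2 3 ℚ) (hz : z ≠ 0)
    (h : ∀ v : HeightOneSpectrum (𝓞 (Q2 3 ℚ)), ∃ g, v.valuation (Q2 3 ℚ) z = g ^ 3) :
    ∃ s : Q2 3 ℚ, z = s ^ 3 ∨ z = (⟨2, 1⟩ : Q2 3 ℚ) * s ^ 3 ∨ z = (⟨2, -1⟩ : Q2 3 ℚ) * s ^ 3 := by
  have := pid_D 3 (Or.inr rfl)
  obtain ⟨u, s, _, hs⟩ := unit_mul_cube z hz h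
  obtain ⟨s', hs' | hs' | hs'⟩ := units_three u
  · exact ⟨s' * s, Or.inl (by rw [hs, hs', mul_pow])⟩
  · exact ⟨s' * s, Or.inr (Or.inl (by rw [hs, hs', mul_pow]; ring))⟩
  · exact ⟨s' * s, Or.inr (Or.inr (by rw [hs, hs', mul_pow]; ring))⟩

end BS3
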