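import Pool.Agent.MP_ae0bd0_nt.B3.Q1
import Pool.Agent.MP_ae0bd0_nt.B3.Q2
import Pool.Agent.MP_ae0bd0_nt.B3.Q3
import Pool.Agent.MP_ae0bd0_nt.B3.Q4
import Pool.Agent.MP_ae0bd0_nt.B3.Q5
import Pool.Agent.MP_ae0bd0_nt.B3.Q6
import Pool.Agent.MP_ae0bd0_nt.B3.Q7
import Pool.Agent.MP_ae0bd0_nt.B3.Q9
import Pool.Agent.MP_ae0bd0_nt.B3.Q10
import Pool.Agent.MP_ae0bd0_nt.B3.Q11
import Pool.Agent.MP_ae0bd0_nt.B3.Q12
import Pool.Agent.MP_ae0bd0_nt.CM.D1

set_option autoImplicit false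

open Polynomial NumberField IsDedekindDomain CM27
open scoped Classical

namespace BS3

/-! ## [BS3-Q13] `E(F) = 0` -/

/-- The action of the Galois group on the points. -/
noncomputable abbrev galAct (k : ℤ) (F : Type) [Field F] [Algebra ℚ F] :
    DistribMulAction (F ≃ₐ[ℚ] F) (W k F).toAffine.Point where
  smul σ P := ptW (σ : F →+* F) P
  one_smul P := ptW_id P
  mul_smul σ τ P := (ptW_comp (τ : F →+* F) (σ : F →+* F) P).symm
  smul_zero σ := rfl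
  smul_add σ P Q := ptW_add (σ : F →+* F) P Q

/-- The points whose class is a cube. -/
noncomputable def cubeSub {D c k : ℤ} (hk : k = D * c ^ 2) (hc : c ≠ 0) (K : Type) [Field K]
    [CharZero K] [Fact (NonSq D K)] : AddSubgroup (W k K).toAffine.Point where
  carrier := {P | ∃ s : Q2 D K, zq D c P = s ^ 3}
  zero_mem' := ⟨1, by rw [one_pow]; rfl⟩
  add_mem' := by
    rintro P Q ⟨s, hs⟩ ⟨t, ht⟩
    obtain ⟨u, _, hu⟩ := zq_add hk hc P Q
    exact ⟨s * t * u, by rw [hu, hs, ht]; ring⟩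
  neg_mem' := by
    rintro P ⟨s, hs⟩
    obtain ⟨u, hu0, hu⟩ := zq_add hk hc P (-P)
    rw [add_neg_cancel, hs] at hu
    have h1 : zq D c (0 : (W k K).toAffine.Point) = 1 := rfl
    rw [h1] at hu
    have hs0 : s ≠ 0 := by
      rintro rfl
      rw [zero_pow three_ne_zero, zero_mul, zero_mul] at hu
      exact one_ne_zero hu
    refine ⟨(s * u)⁻¹, ?_⟩
    have h2 : (s * u) ^ 3 * zq D c (-P) = 1 := by
      rw [hu]; ring
    rw [inv_pow]
    exact eq_inv_of_mul_eq_one_right h2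

theorem mem_cubeSub {D c k : ℤ} (hk : k = D * c ^ 2) (hc : c ≠ 0) (K : Type) [Field K]
    [CharZero K] [Fact (NonSq D K)] (P : (W k K).toAffine.Point) :
    P ∈ cubeSub hk hc K ↔ ∃ s : Q2 D K, zq D c P = s ^ 3 := Iff.rfl

theorem norm_mapQ {D : ℤ} {K L : Type} [Field K] [Field L] (f : K →+* L) (z : Q2 D K) :
    (mapQ f z).norm = f z.norm := by
  rw [QuadraticAlgebra.norm_def, QuadraticAlgebra.norm_def, mapQ_apply]
  simp

theorem exists_prime_of_mem {K : Type} [Field K] [NumberField K] (v : HeightOneSpectrum (𝓞 K))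
    (n : ℤ) (hn : n ≠ 0) (hv : (n : 𝓞 K) ∈ v.asIdeal) :
    ∃ p : ℕ, p.Prime ∧ (p : ℤ) ∣ n ∧ (p : 𝓞 K) ∈ v.asIdeal := by
  have h1 : ((n.natAbs : ℕ) : 𝓞 K) ∈ v.asIdeal := by
    have h0 : ((n.natAbs : ℕ) : 𝓞 K) = ((n.natAbs : ℤ) : 𝓞 K) := by rw [Int.cast_natCast]
    rw [h0]
    rcases le_total 0 n with h | h
    · rw [Int.natAbs_of_nonneg h]; exact hv
    · rw [Int.ofNat_natAbs_of_nonpos h, Int.cast_neg, neg_mem_iff]; exact hv
  have h2 : ∀ k : ℕ, k ≠ 0 → (k : 𝓞 K) ∈ v.asIdeal →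
      ∃ p : ℕ, p.Prime ∧ p ∣ k ∧ (p : 𝓞 K) ∈ v.asIdeal := by
    intro k
    induction k using Nat.recOnMul with
    | zero => intro h; exact absurd rfl h
    | one =>
      intro _ h
      rw [Nat.cast_one] at h
      exact absurd ((Ideal.eq_top_iff_one _).2 h) v.isPrime.ne_top
    | prime p hp => intro _ h; exact ⟨p, hp, dvd_rfl, h⟩
    | mul a b iha ihb =>
      intro h0 h
      rw [Nat.cast_mul] at h
      rcases v.isPrime.mem_or_mem h with h' | h'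
      · obtain ⟨p, hp, hd, hm⟩ := iha (left_ne_zero_of_mul h0) h'
        exact ⟨p, hp, hd.trans (Dvd.intro _ rfl), hm⟩
      · obtain ⟨p, hp, hd, hm⟩ := ihb (right_ne_zero_of_mul h0) h'
        exact ⟨p, hp, hd.trans (Dvd.intro_left _ rfl), hm⟩
  obtain ⟨p, hp, hd, hm⟩ := h2 _ (Int.natAbs_ne_zero.2 hn) h1
  exact ⟨p, hp, Int.natCast_dvd.2 hd, hm⟩

/-- the main step: a point with a nontrivial class gives an element of `ℚ(√D)` -/
theorem main_step (m : ℕ) (hm : Good m) (F : Type) [Field F] [NumberField F] [IsGalois ℚ F]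
    (hun : ∀ (D c : ℤ) [Fact (NonSq D ℚ)] [Fact (NonSq D F)] (x y : F)
      (_ : y ^ 2 = x ^ 3 + (D : F) * (c : F) ^ 2) (z0 : Q2 D ℚ) (t : Q2 D F) (_ : t ≠ 0)
      (_ : mapQ (algebraMap ℚ F) z0 = (⟨y, -(c : F)⟩ : Q2 D F) * t ^ 3)
      (v : HeightOneSpectrum (𝓞 (Q2 D ℚ))) (_ : ((2 * D * c * m : ℤ) : 𝓞 (Q2 D ℚ)) ∉ v.asIdeal),
      ∃ g, v.valuation (Q2 D ℚ) z0 = g ^ 3) (n : ℕ)
    (h : Module.finrank ℚ F = 3 ^ n) (D : ℤ) (hD : D = -1 ∨ D = 3) [Fact (NonSq D ℚ)]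
    [Fact (NonSq D F)] (b c k : ℤ) (hb : b ≠ 0)
    (hbp : ∀ p : ℕ, p.Prime → (p : ℤ) ∣ b → p = 2 ∨ p % 12 = 7)
    (hc : c = 4 * b ∨ c = 12 * b) (hk : k = D * c ^ 2) (hc0 : c ≠ 0)
    (P0 : (W k F).toAffine.Point) (hP0 : P0 ∉ cubeSub hk hc0 F) :
    ∃ (y : F) (z0 : Q2 D ℚ) (t : Q2 D F), z0 ≠ 0 ∧ t ≠ 0 ∧
      (¬ ∃ s : Q2 D F, (⟨y, -(c : F)⟩ : Q2 D F) = s ^ 3) ∧
      mapQ (algebraMap ℚ F) z0 = (⟨y, -(c : F)⟩ : Q2 D F) * t ^ 3 ∧
      ∀ v : HeightOneSpectrum (𝓞 (Q2 D ℚ)), ∃ g, v.valuation (Q2 D ℚ) z0 = g ^ 3 := by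
  letI := galAct k F
  have hG : Nat.card (F ≃ₐ[ℚ] F) = 3 ^ n := by
    rw [← h]
    exact IsGalois.card_aut_eq_finrank ℚ F
  have hD0 : D ≠ 0 := by rcases hD with rfl | rfl <;> norm_num
  have hk0 : k ≠ 0 := by rw [hk]; exact mul_ne_zero hD0 (pow_ne_zero 2 hc0)
  have hN3 : ∀ Q : (W k F).toAffine.Point, 3 • Q ∈ cubeSub hk hc0 F := by
    intro Q
    rw [mem_cubeSub]
    obtain ⟨u, _, hu⟩ := zq_add hk hc0 (Q + Q) Q
    obtain ⟨u', _, hu'⟩ := zq_add hk hc0 Q Q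
    refine ⟨zq D c Q * u' * u, ?_⟩
    have : (3 : ℕ) • Q = Q + Q + Q := by rw [succ_nsmul, two_nsmul]
    rw [this, hu, hu']
    ring
  have hst : ∀ (σ : F ≃ₐ[ℚ] F) (Q : (W k F).toAffine.Point), Q ∈ cubeSub hk hc0 F →
      σ • Q ∈ cubeSub hk hc0 F := by
    rintro σ Q ⟨s, hs⟩
    refine ⟨mapQ (σ : F →+* F) s, ?_⟩
    have : σ • Q = ptW (σ : F →+* F) Q := rfl
    rw [this, zq_ptW, hs, map_pow]
  obtain ⟨P, hP, hfix⟩ := exists_fixed_class (G := F ≃ₐ[ℚ] F) n hG (cubeSub hk hc0 F) hN3 hst P0 hP0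
  rcases P with _ | ⟨x, y, hxy⟩
  · exact absurd (zero_mem (cubeSub hk hc0 F)) hP
  set P : (W k F).toAffine.Point := .some x y hxy with hPdef
  have hzP : zq D c P = (⟨y, -(c : F)⟩ : Q2 D F) := rfl
  have hz : zq D c P ≠ 0 := zq_ne_zero hc0 P
  have hinv : ∀ σ : F ≃ₐ[ℚ] F, ∃ u : Q2 D F, mapQ (σ : F →+* F) (zq D c P) =
      zq D c P * u ^ 3 := by
    intro σ
    obtain ⟨s, hs⟩ := hfix σ
    obtain ⟨u, _, hu⟩ := zq_add hk hc0 P (σ • P - P)
    refine ⟨s * u, ?_⟩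
    have h1 : P + (σ • P - P) = ptW (σ : F →+* F) P := add_sub_cancel _ _
    rw [h1, zq_ptW, hs] at hu
    rw [hu]
    ring
  have hω := cube_one_quad F n h D hD
  obtain ⟨t, ht, z0, hz0⟩ := descend_cube hω (zq D c P) hz hinv
  have hz0ne : z0 ≠ 0 := by
    rintro rfl
    rw [map_zero] at hz0
    exact mul_ne_zero hz (pow_ne_zero 3 ht) hz0.symm
  have heq : y ^ 2 = x ^ 3 + (k : F) := (W_nonsingular hk0 x y).1 hxy
  have heq' : y ^ 2 = x ^ 3 + (D : F) * (c : F) ^ 2 := by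
    rw [heq, hk]; push_cast; ring
  -- the norm is a cube
  have hnorm : algebraMap ℚ F z0.norm = (x * t.norm) ^ 3 := by
    have h1 := norm_mapQ (algebraMap ℚ F) z0
    rw [hz0, map_mul, map_pow, hzP] at h1
    rw [← h1, QuadraticAlgebra.norm_def (⟨y, -(c : F)⟩ : Q2 D F)]
    have h2 : y * y + 0 * y * -(c : F) - (D : F) * -(c : F) * -(c : F) = x ^ 3 := by
      linear_combination heq'
    rw [h2]
    ring
  obtain ⟨r, hr⟩ := descend_rat (cube_one F n h) _ _ hnorm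
  refine ⟨y, z0, t, hz0ne, ht, ?_, ?_, ?_⟩
  · rintro ⟨s, hs⟩
    exact hP ⟨s, hzP.trans hs⟩
  · rw [hz0, hzP]
  · intro v
    by_cases hv : ((2 * D * c * m : ℤ) : 𝓞 (Q2 D ℚ)) ∈ v.asIdeal
    · have hne : (2 * D * c * m : ℤ) ≠ 0 := by
        refine mul_ne_zero (mul_ne_zero (mul_ne_zero two_ne_zero hD0) hc0) ?_
        exact_mod_cast hm.1.ne_zero
      obtain ⟨p, hp, hpd, hpv⟩ := exists_prime_of_mem v _ hne hv
      refine cube_nonsplit D hD z0 hz0ne r hr p ?_ v hpv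
      have hpi : Prime (p : ℤ) := Nat.prime_iff_prime_int.1 hp
      have h2 : (p : ℤ) ∣ 2 → p = 2 := fun h =>
        (Nat.prime_dvd_prime_iff_eq hp Nat.prime_two).1 (by exact_mod_cast h)
      have h3 : (p : ℤ) ∣ 3 → p = 3 := fun h =>
        (Nat.prime_dvd_prime_iff_eq hp Nat.prime_three).1 (by exact_mod_cast h)
      rcases hpi.dvd_or_dvd hpd with h4 | h4
      · rcases hpi.dvd_or_dvd h4 with h5 | h5
        · rcases hpi.dvd_or_dvd h5 with h6 | h6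
          · exact Or.inl (h2 h6)
          · rcases hD with rfl | rfl
            · have : IsUnit (p : ℤ) := isUnit_of_dvd_unit h6 (by decide)
              exact absurd this hpi.not_unit
            · exact Or.inr (Or.inl (h3 h6))
        · have h7 : (p : ℤ) ∣ 2 * 2 * 3 * b := by
            rcases hc with rfl | rfl
            · exact h5.trans ⟨3, by ring⟩
            · exact h5.trans ⟨1, by ring⟩
          rcases hpi.dvd_or_dvd h7 with h8 | h8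
          · rcases hpi.dvd_or_dvd h8 with h9 | h9
            · rcases hpi.dvd_or_dvd h9 with h10 | h10
              · exact Or.inl (h2 h10)
              · exact Or.inl (h2 h10)
            · exact Or.inr (Or.inl (h3 h9))
          · rcases hbp p hp h8 with h9 | h9
            · exact Or.inl h9
            · exact Or.inr (Or.inr ⟨hp, h9⟩)
      · exact Or.inr (Or.inr ⟨hp, hm.2 p hp (Int.natCast_dvd_natCast.1 h4)⟩)
    · exact hun D c x y heq' z0 t ht (by rw [hz0, hzP]) v hv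

theorem no_affine_aux (m : ℕ) (hm : Good m) (F : Type) [Field F] [NumberField F] [IsGalois ℚ F]
    (hun : ∀ (D c : ℤ) [Fact (NonSq D ℚ)] [Fact (NonSq D F)] (x y : F)
      (_ : y ^ 2 = x ^ 3 + (D : F) * (c : F) ^ 2) (z0 : Q2 D ℚ) (t : Q2 D F) (_ : t ≠ 0)
      (_ : mapQ (algebraMap ℚ F) z0 = (⟨y, -(c : F)⟩ : Q2 D F) * t ^ 3)
      (v : HeightOneSpectrum (𝓞 (Q2 D ℚ))) (_ : ((2 * D * c * m : ℤ) : 𝓞 (Q2 D ℚ)) ∉ v.asIdeal),
      ∃ g, v.valuation (Q2 D ℚ) z0 = g ^ 3) (n : ℕ)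
    (h : Module.finrank ℚ F = 3 ^ n) (v : HeightOneSpectrum (𝓞 F)) (hv3 : (3 : 𝓞 F) ∈ v.asIdeal)
    (hv9 : (3 : 𝓞 F) ∉ v.asIdeal ^ 2) (b : ℤ) (hb9 : b % 9 = 1 ∨ b % 9 = 8)
    (hbp : ∀ p : ℕ, p.Prime → (p : ℤ) ∣ b → p = 2 ∨ p % 12 = 7) (x y : F) :
    y ^ 2 ≠ x ^ 3 - 16 * (b : F) ^ 2 := by
  have hb : b ≠ 0 := by rintro rfl; norm_num at hb9
  have hb3 : ¬ 3 ∣ b := by omega
  have f1 : Fact (NonSq (-1) F) := ⟨nonSq_of F n h (-1) (Or.inl rfl)⟩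
  have f3 : Fact (NonSq 3 F) := ⟨nonSq_of F n h 3 (Or.inr rfl)⟩
  refine no_points v hv3 hv9 b hb9 ?_ x y
  intro x y hxy
  refine exists_back (cube_one F n h) b hb ?_ ?_ ?_ ?_ x y hxy
  · have := (nonSq_iff (-1) F).1 f1.out
    intro r hr
    exact this r (by rw [hr]; push_cast; rfl)
  · have := (nonSq_iff 3 F).1 f3.out
    intro r hr
    exact this r (by rw [hr]; push_cast; rfl)
  · intro x y hxy
    have hc0 : 4 * b ≠ 0 := mul_ne_zero (by norm_num) hb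
    have hk : -16 * b ^ 2 = (-1) * (4 * b) ^ 2 := by ring
    have hk0 : -16 * b ^ 2 ≠ 0 := mul_ne_zero (by norm_num) (pow_ne_zero 2 hb)
    by_contra hcon
    have hns : (W (-16 * b ^ 2) F).toAffine.Nonsingular x y :=
      (W_nonsingular hk0 x y).2 (by rw [hxy]; push_cast; ring)
    obtain ⟨y', z0, t, hz0, ht, hno, hmap, hval⟩ := main_step m hm F hun n h (-1) (Or.inl rfl) b
      (4 * b) _ hb hbp (Or.inl rfl) hk hc0 (.some x y hns) (fun hmem => hcon hmem)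
    obtain ⟨s, hs⟩ := cube_neg_one z0 hz0 hval
    apply hno
    refine ⟨mapQ (algebraMap ℚ F) s * t⁻¹, ?_⟩
    rw [mul_pow, ← map_pow, ← hs, hmap, mul_assoc, ← mul_pow, mul_inv_cancel₀ ht, one_pow, mul_one]
  · intro x y hxy
    have hc0 : 12 * b ≠ 0 := mul_ne_zero (by norm_num) hb
    have hk : 432 * b ^ 2 = 3 * (12 * b) ^ 2 := by ring
    have hk0 : 432 * b ^ 2 ≠ 0 := mul_ne_zero (by norm_num) (pow_ne_zero 2 hb)
    by_contra hcon
    have hns : (W (432 * b ^ 2) F).toAffine.Nonsingular x y :=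
      (W_nonsingular hk0 x y).2 (by rw [hxy]; push_cast; ring)
    obtain ⟨y', z0, t, hz0, ht, hno, hmap, hval⟩ := main_step m hm F hun n h 3 (Or.inr rfl) b
      (12 * b) _ hb hbp (Or.inr rfl) hk hc0 (.some x y hns) (fun hmem => hcon hmem)
    obtain ⟨s, hs⟩ := cube_three z0 hz0 hval
    have key : ∀ e : Q2 3 ℚ, z0 = e * s ^ 3 →
        (⟨y', -((12 * b : ℤ) : F)⟩ : Q2 3 F) = mapQ (algebraMap ℚ F) e *
          (mapQ (algebraMap ℚ F) s * t⁻¹) ^ 3 := by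
      intro e he
      rw [mul_pow, ← map_pow, ← mul_assoc, ← map_mul, ← he, hmap, mul_assoc, ← mul_pow,
        mul_inv_cancel₀ ht, one_pow, mul_one]
    have he1 : mapQ (algebraMap ℚ F) (⟨2, 1⟩ : Q2 3 ℚ) = ⟨2, 1⟩ := by
      rw [mapQ_apply]; simp
    have he2 : mapQ (algebraMap ℚ F) (⟨2, -1⟩ : Q2 3 ℚ) = ⟨2, -1⟩ := by
      rw [mapQ_apply]; simp
    rcases hs with hs | hs | hs
    · exact hno ⟨mapQ (algebraMap ℚ F) s * t⁻¹, by
        have := key 1 (by rw [one_mul]; exact hs)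
        rw [map_one, one_mul] at this
        exact this⟩
    · have h1 := key _ hs
      rw [he1] at h1
      exact (not_eps v hv3 hv9 b hb3 (by omega) (by omega) y' _).1 h1
    · have h1 := key _ hs
      rw [he2] at h1
      exact (not_eps v hv3 hv9 b hb3 (by omega) (by omega) y' _).2 h1

theorem no_affine (m : ℕ) [NeZero m] (hm : Good m) (M : Type) [Field M] [NumberField M]
    [IsCyclotomicExtension {m} ℚ M] (F : IntermediateField ℚ M) (n : ℕ)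
    (h : Module.finrank ℚ F = 3 ^ n) (v : HeightOneSpectrum (𝓞 F)) (hv3 : (3 : 𝓞 F) ∈ v.asIdeal)
    (hv9 : (3 : 𝓞 F) ∉ v.asIdeal ^ 2) (b : ℤ) (hb9 : b % 9 = 1 ∨ b % 9 = 8)
    (hbp : ∀ p : ℕ, p.Prime → (p : ℤ) ∣ b → p = 2 ∨ p % 12 = 7) (x y : F) :
    y ^ 2 ≠ x ^ 3 - 16 * (b : F) ^ 2 := by
  have hM : IsGalois ℚ M := IsCyclotomicExtension.isGalois {m} ℚ M
  have hab : IsMulCommutative Gal(M/ℚ) := IsCyclotomicExtension.isMulCommutative {m} ℚ M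
  have hF : IsGalois ℚ F := by
    have := IsGalois.of_fixedField_normal_subgroup (F.fixingSubgroup)
    rwa [IsGalois.fixedField_fixingSubgroup] at this
  exact no_affine_aux m hm F (fun D c _ _ x y hxy z0 t ht hz v hv =>
    cube_unram m M F D c x y hxy z0 t ht hz v hv) n h v hv3 hv9 b hb9 hbp x y

end BS3
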