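import Pool.Agent.MP_ae0bd0_nt.B3.P1
import Pool.Agent.MP_ae0bd0_nt.B3.P6

set_option autoImplicit false

open ArithmeticFunction Filter IsDedekindDomain NumberField CM27

namespace BS3

/-! ## [BS3-P10] the local data of `y² = x³ - 16` -/

/-- `χ₄(n)` as a complex number -/
noncomputable def x4 (n : ℕ) : ℂ := ((ZMod.χ₄ (n : ZMod 4) : ℤ) : ℂ)

theorem x4_mul (a b : ℕ) : x4 (a * b) = x4 a * x4 b := by
  unfold x4
  push_cast
  rw [map_mul]
  push_cast
  rfl

theorem x4_one : x4 1 = 1 := by
  unfold x4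
  simp

theorem x4_pow (a k : ℕ) : x4 (a ^ k) = x4 a ^ k := by
  induction k with
  | zero => simp [x4_one]
  | succ k ih => rw [pow_succ, x4_mul, ih, pow_succ]

theorem x4_sq {a : ℕ} (h : Odd a) : x4 a * x4 a = 1 := by
  unfold x4
  have : (ZMod.χ₄ (a : ZMod 4)) = 1 ∨ (ZMod.χ₄ (a : ZMod 4)) = -1 := by
    have h1 : a % 4 = 1 ∨ a % 4 = 3 := by
      rw [Nat.odd_iff] at h; omega
    rcases h1 with h1 | h1
    · exact Or.inl (ZMod.χ₄_nat_one_mod_four h1)
    · exact Or.inr (ZMod.χ₄_nat_three_mod_four h1)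
  rcases this with h1 | h1 <;> rw [h1] <;> norm_num

theorem x4_two : x4 2 = 0 := by
  unfold x4
  have : (ZMod.χ₄ ((2 : ℕ) : ZMod 4)) = 0 := by decide
  rw [this]; norm_num

/-- The coefficients of the `L`-function of `y² = x³ - 16` over `ℚ`. -/
noncomputable def c16 : ArithmeticFunction ℂ :=
  ⟨fun n => x4 n * psi n, by rw [psi_zero, mul_zero]⟩

theorem c16_apply (n : ℕ) : c16 n = x4 n * psi n := rfl

theorem locData16 : LocData (-16) c16 where
  mul := by
    constructor
    · rw [c16_apply, x4_one, psi_one, one_mul]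
    · intro a b hab
      rw [c16_apply, c16_apply, c16_apply, x4_mul, psi_mul hab]
      ring
  bad := by
    intro p hp h j hj
    have h1 : p = 2 ∨ p = 3 := by
      have h2 : (p : ℤ) ∣ ((96 : ℕ) : ℤ) := by
        have : (((96 : ℕ) : ℤ)) = -(6 * -16) := by norm_num
        rw [this]
        exact (dvd_neg).2 h
      have h3 : p ∣ 96 := Int.natCast_dvd_natCast.1 h2
      have h4 : p ∣ 2 ^ 5 * 3 := by norm_num; exact h3
      rcases hp.dvd_mul.1 h4 with h5 | h5
      · exact Or.inl ((Nat.prime_dvd_prime_iff_eq hp Nat.prime_two).1 (hp.dvd_of_dvd_pow h5))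
      · exact Or.inr ((Nat.prime_dvd_prime_iff_eq hp Nat.prime_three).1 h5)
    rw [c16_apply]
    rcases h1 with rfl | rfl
    · rw [x4_pow, x4_two, zero_pow hj, zero_mul]
    · rw [psi_three_pow j hj, mul_zero]
  good := by
    intro p hp h
    have hp3 : p ≠ 3 := by
      rintro rfl
      exact h ⟨-32, by norm_num⟩
    have hp2 : p ≠ 2 := by
      rintro rfl
      exact h ⟨-48, by norm_num⟩
    have hodd : Odd p := hp.odd_of_ne_two hp2
    obtain ⟨α, β, hαβ, hpsi, hpts⟩ := local_data p hp hp3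
    refine ⟨x4 p * α, x4 p * β, ?_, ?_, ?_⟩
    · linear_combination (α * β) * x4_sq hodd + hαβ
    · intro j
      rw [c16_apply, x4_pow, hpsi, Finset.mul_sum]
      refine Finset.sum_congr rfl fun i hi => ?_
      rw [Finset.mem_range] at hi
      rw [mul_pow, mul_pow]
      have : j = i + (j - i) := by omega
      conv_lhs => rw [this, pow_add, Nat.add_sub_cancel_left]
      ring
    · intro f F _ _ hf hF
      have h6 : (6 : F) ≠ 0 := by
        intro h0
        obtain ⟨q, hq⟩ := CharP.exists F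
        have hqp : q.Prime := by
          rcases CharP.char_is_prime_or_zero F q with h1 | h1
          · exact h1
          · subst h1
            have : CharZero F := CharP.charP_to_charZero F
            exact absurd h0 (by norm_num)
        have h1 : q ∣ 6 := by
          rw [← CharP.cast_eq_zero_iff F q]
          exact_mod_cast h0
        have h2 : q ∣ p ^ f := by
          rw [← hF, ← CharP.cast_eq_zero_iff F q]
          have := Fintype.ofFinite F
          rw [Nat.card_eq_fintype_card, FiniteField.cast_card_eq_zero]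
        have h3 : q = p := (Nat.prime_dvd_prime_iff_eq hqp hp).1 (hqp.dvd_of_dvd_pow h2)
        rw [h3] at h1
        have h4 : p ∣ 2 * 3 := by norm_num; exact h1
        rcases hp.dvd_mul.1 h4 with h5 | h5
        · exact hp2 ((Nat.prime_dvd_prime_iff_eq hp Nat.prime_two).1 h5)
        · exact hp3 ((Nat.prime_dvd_prime_iff_eq hp Nat.prime_three).1 h5)
      have h1 := card_W16 F h6
      have h2 := hpts f F hf hF
      have h3 : (Nat.card (W (-16) F).toAffine.Point : ℂ) = Nat.card F + 1 -
          x4 (Nat.card F) * (Nat.card F + 1 - Nat.card (E F).toAffine.Point) := by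
        have := congrArg (Int.cast : ℤ → ℂ) h1
        push_cast at this
        exact this
      rw [h3, h2, hF, x4_pow, mul_pow, mul_pow]
      push_cast
      ring

theorem bad16 (K : Type) [Field K] [NumberField K] (h2 : Unram 2 K) (h3 : Unram 3 K) (p : ℕ)
    (hp : p.Prime) (h : (p : ℤ) ∣ 6 * (-16)) (v : HeightOneSpectrum (𝓞 K))
    (hv : (p : 𝓞 K) ∈ v.asIdeal) : fw (-16) K v = 1 := by
  have h1 : p = 2 ∨ p = 3 := by
    have h2 : (p : ℤ) ∣ ((96 : ℕ) : ℤ) := by
      have : (((96 : ℕ) : ℤ)) = -(6 * -16) := by norm_num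
      rw [this]
      exact (dvd_neg).2 h
    have h3 : p ∣ 96 := Int.natCast_dvd_natCast.1 h2
    have h4 : p ∣ 2 ^ 5 * 3 := by norm_num; exact h3
    rcases hp.dvd_mul.1 h4 with h5 | h5
    · exact Or.inl ((Nat.prime_dvd_prime_iff_eq hp Nat.prime_two).1 (hp.dvd_of_dvd_pow h5))
    · exact Or.inr ((Nat.prime_dvd_prime_iff_eq hp Nat.prime_three).1 h5)
  have hv2 : (p : 𝓞 K) ∉ v.asIdeal ^ 2 := by
    rcases h1 with rfl | rfl
    · exact h2 v hv
    · exact h3 v hv
  have := eulerFactor_bad K v p h1 hv hv2 1 (by decide) (by decide)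
  rw [fw]
  have hk : (-16 * 1 ^ 2 : ℤ) = -16 := by norm_num
  rw [hk] at this
  exact this

end BS3
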