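import Pool.Agent.MP_ae0bd0_nt.B3.K2
import Pool.Agent.MP_ae0bd0_nt.B3.S0
import Pool.Agent.MP_ae0bd0_nt.CM.A1
import Pool.Agent.MP_ae0bd0_nt.CM.I3

set_option autoImplicit false

open scoped ComplexConjugate
open Filter Topology CM27

namespace BS3

/-! ## [BS3-T1] the sum over the residue classes prime to `g` (file T1.lean; uses K2, S0) -/

theorem ch4_mul (a b : Eis) : ch4 (a * b) = ch4 a * ch4 b := by
  unfold ch4
  rw [I3.norm_mul', Int.cast_mul, map_mul, Int.cast_mul]

theorem ch4_per (a b : Eis) : ch4 (a + 4 * b) = ch4 a := by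
  unfold ch4
  have h4 : (4 : Eis).re = 4 := rfl
  have h4' : (4 : Eis).im = 0 := rfl
  have h : (((a + 4 * b).norm : ℤ) : ZMod 4) = ((a.norm : ℤ) : ZMod 4) := by
    rw [ZMod.intCast_eq_intCast_iff]
    rw [norm_eq, norm_eq, Int.modEq_iff_dvd]
    simp only [QuadraticAlgebra.re_mul, QuadraticAlgebra.re_add, QuadraticAlgebra.im_mul,
      QuadraticAlgebra.im_add, h4, h4']
    refine ⟨-(2 * a.re * b.re + 4 * b.re ^ 2 - a.re * b.im - b.re * a.im - 4 * b.re * b.im +
      2 * a.im * b.im + 4 * b.im ^ 2), ?_⟩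
    push_cast
    ring
  rw [h]

section

open scoped Classical

/-- the summand of `TS` -/
noncomputable def t1_FF (g x : Eis) : ℂ :=
  if IsCoprime x g then ch4 x * Fst (emb x / emb g) else 0

theorem t1_ch4_add (g x k : Eis) (h4 : (4 : Eis) ∣ g) : ch4 (x + g * k) = ch4 x := by
  obtain ⟨c, hc⟩ := h4
  rw [hc, mul_assoc, ch4_per]

theorem t1_FF_add (g x k : Eis) (h4 : (4 : Eis) ∣ g) (hg0 : g ≠ 0) :
    t1_FF g (x + g * k) = t1_FF g x := by
  have hg : emb g ≠ 0 := by
    intro h
    exact hg0 (emb_injective (by rw [h, map_zero]))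
  unfold t1_FF
  have hc : IsCoprime (x + g * k) g ↔ IsCoprime x g :=
    IsCoprime.add_mul_left_left_iff
  simp only [hc]
  split_ifs with h
  · have e2 : emb (x + g * k) / emb g = emb x / emb g + emb k := by
      rw [map_add, map_mul]
      field_simp
    rw [e2, Fst_add _ (tors_div x g hg0), t1_ch4_add g x k h4]
  · rfl

theorem t1_FF_out (g x : Eis) (h4 : (4 : Eis) ∣ g) (hg0 : g ≠ 0) :
    t1_FF g (Ideal.Quotient.mk (Ideal.span {g}) x).out = t1_FF g x := by
  obtain ⟨k, hk⟩ := I3.out_spec g x
  rw [hk, t1_FF_add g x k h4 hg0]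

theorem t1_TS_eq (g : Eis) : TS g = ∑ᶠ d : Eis ⧸ Ideal.span {g}, t1_FF g d.out := rfl

variable (g b : Eis)

/-- the summand before removing the multiples of `b` -/
noncomputable def t1_GG (x : Eis) : ℂ :=
  if IsCoprime x g then ch4 x * Fst (emb x / emb (g * b)) else 0

theorem t1_FF_eq (p : ℕ) (hp : p.Prime) (hbn : b.norm = p) (x : Eis) :
    t1_FF (g * b) x = t1_GG g b x - if b ∣ x then t1_GG g b x else 0 := by
  have := eis_isDomain
  have := eis_pid
  have hirr : Irreducible b := by
    refine ⟨?_, ?_⟩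
    · rw [eis_isUnit_iff, hbn]
      intro h
      exact hp.one_lt.ne' (by exact_mod_cast h)
    · intro a c hac
      have h1 : (p : ℤ) = a.norm * c.norm := by rw [← hbn, hac, I3.norm_mul']
      have ha := norm_nonneg' a
      have hc := norm_nonneg' c
      rw [eis_isUnit_iff, eis_isUnit_iff]
      have h2 : p = a.norm.toNat * c.norm.toNat := by
        zify
        rw [Int.toNat_of_nonneg ha, Int.toNat_of_nonneg hc]
        exact h1
      rcases Nat.prime_mul_iff.1 (h2 ▸ hp) with h | h
      · right; omega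
      · left; omega
  unfold t1_FF t1_GG
  by_cases h1 : IsCoprime x g
  · by_cases h2 : b ∣ x
    · have h3 : ¬ IsCoprime x (g * b) := by
        intro h
        have h4 : IsCoprime x b := h.of_mul_right_right
        exact hirr.not_isUnit (h4.isUnit_of_dvd' h2 dvd_rfl)
      rw [if_neg h3, if_pos h2]; ring
    · have h3 : IsCoprime x (g * b) := by
        apply IsCoprime.mul_right h1
        rw [isCoprime_comm, hirr.coprime_iff_not_dvd]
        exact h2
      rw [if_pos h3, if_pos h1, if_neg h2]; ring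
  · have h3 : ¬ IsCoprime x (g * b) := fun h => h1 h.of_mul_right_left
    rw [if_neg h3, if_neg h1]; simp

theorem t1_GG_add (x k : Eis) (h4 : (4 : Eis) ∣ g) (hg0 : g * b ≠ 0) :
    t1_GG g b (x + g * b * k) = t1_GG g b x := by
  have hg : emb (g * b) ≠ 0 := by
    intro h
    exact hg0 (emb_injective (by rw [h, map_zero]))
  have e : x + g * b * k = x + g * (b * k) := by ring
  unfold t1_GG
  have hc : IsCoprime (x + g * b * k) g ↔ IsCoprime x g := by
    rw [e]
    exact IsCoprime.add_mul_left_left_iff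
  have hch : ch4 (x + g * b * k) = ch4 x := by
    rw [e, t1_ch4_add g x (b * k) h4]
  simp only [hc]
  split_ifs with h
  · have e2 : emb (x + g * b * k) / emb (g * b) = emb x / emb (g * b) + emb k := by
      rw [map_add, map_mul _ (g * b)]
      field_simp
    rw [e2, Fst_add _ (tors_div x (g * b) hg0), hch]
  · rfl

theorem t1_GG_out (x : Eis) (h4 : (4 : Eis) ∣ g) (hg0 : g * b ≠ 0) :
    t1_GG g b (Ideal.Quotient.mk (Ideal.span {g * b}) x).out = t1_GG g b x := by
  obtain ⟨k, hk⟩ := I3.out_spec (g * b) x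
  rw [hk, t1_GG_add g b x k h4 hg0]

theorem t1_dvd_out (x : Eis) :
    b ∣ (Ideal.Quotient.mk (Ideal.span {g * b}) x).out ↔ b ∣ x := by
  obtain ⟨k, hk⟩ := I3.out_spec (g * b) x
  rw [hk]
  have e : x + g * b * k = x + b * (g * k) := by ring
  rw [e]
  exact dvd_add_left (Dvd.intro _ rfl)

end

/-- `T(g b) = (b - χ₄(N b)) T(g)` -/
theorem TS_mul (g b : Eis) (h4 : (4 : Eis) ∣ g) (hg : g ≠ 0) (hb : Primary b) (p : ℕ)
    (hp : p.Prime) (hbn : b.norm = p) (hgb : IsCoprime g b) :
    TS (g * b) = (emb b - ch4 b) * TS g := by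
  classical
  have := eis_isDomain
  have hg0 : g ≠ 0 := hg
  have hb0 : b ≠ 0 := by
    apply I3.ne_zero_of_norm
    rw [hbn]
    exact_mod_cast hp.ne_zero
  have hgb0 : g * b ≠ 0 := mul_ne_zero hg0 hb0
  have hge : emb g ≠ 0 := by
    intro h
    exact hg0 (emb_injective (by rw [h, map_zero]))
  have hbe : emb b ≠ 0 := by
    intro h
    exact hb0 (emb_injective (by rw [h, map_zero]))
  have := I3.quot_finite g hg0
  have := I3.quot_finite (g * b) hgb0
  have : Fintype (Eis ⧸ Ideal.span {g}) := Fintype.ofFinite _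
  have : Fintype (Eis ⧸ Ideal.span {g * b}) := Fintype.ofFinite _
  rw [t1_TS_eq, t1_TS_eq, finsum_eq_sum_of_fintype, finsum_eq_sum_of_fintype]
  simp_rw [t1_FF_eq g b p hp hbn]
  rw [Finset.sum_sub_distrib]
  -- the full sum
  have S1 : ∑ d : Eis ⧸ Ideal.span {g * b}, t1_GG g b d.out =
      ∑ e : Eis ⧸ Ideal.span {g}, ∑ t ∈ Finset.range p, t1_GG g b (e.out + g * (t : Eis)) := by
    rw [← Finset.sum_product']
    symm
    refine Finset.sum_bij (fun x _ => Ideal.Quotient.mk (Ideal.span {g * b}) (x.1.out + g * (x.2 : Eis)))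
      (fun _ _ => Finset.mem_univ _) ?_ ?_ ?_
    · rintro ⟨e, t⟩ he ⟨e', t'⟩ he' h
      simp only [Finset.mem_product, Finset.mem_univ, true_and, Finset.mem_range] at he he'
      simp only at h
      rw [Ideal.Quotient.mk_eq_mk_iff_sub_mem, Ideal.mem_span_singleton] at h
      have h1 : e = e' := by
        have h2 : g ∣ e.out - e'.out := by
          have h3 : e.out - e'.out = (e.out + g * (t : Eis) - (e'.out + g * (t' : Eis))) +
            g * ((t' : Eis) - (t : Eis)) := by ring
          rw [h3]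
          exact dvd_add ((Dvd.intro _ rfl).trans h) (Dvd.intro _ rfl)
        rw [← Ideal.mem_span_singleton, ← Ideal.Quotient.mk_eq_mk_iff_sub_mem] at h2
        rwa [Ideal.Quotient.mk_out, Ideal.Quotient.mk_out] at h2
      subst h1
      have h4 : g * b ∣ g * ((t : Eis) - (t' : Eis)) := by
        have h5 : g * ((t : Eis) - (t' : Eis)) = e.out + g * (t : Eis) - (e.out + g * (t' : Eis)) := by
          ring
        rw [h5]; exact h
      have h6 : b ∣ (((t : ℤ) - (t' : ℤ) : ℤ) : Eis) := by
        have := (mul_dvd_mul_iff_left hg0).1 h4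
        simpa using this
      have h7 := I3.dvd_of_dvd b p hp hbn _ h6
      have h8 : (t : ℤ) = t' := by
        have h9 : (t : ℤ) - t' = 0 := by
          apply Int.eq_zero_of_abs_lt_dvd h7
          rw [abs_lt]
          constructor <;> omega
        omega
      have h10 : t = t' := by exact_mod_cast h8
      rw [h10]
    · intro d _
      obtain ⟨y, rfl⟩ := Ideal.Quotient.mk_surjective d
      obtain ⟨k, hk⟩ := I3.out_spec g y
      obtain ⟨t, ht, c, hc⟩ := I3.exists_rep b p hp hbn (-k)
      refine ⟨(Ideal.Quotient.mk (Ideal.span {g}) y, t), ?_, ?_⟩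
      · simp only [Finset.mem_product, Finset.mem_univ, true_and]
        exact ht
      · simp only
        rw [Ideal.Quotient.mk_eq_mk_iff_sub_mem, Ideal.mem_span_singleton, hk]
        refine ⟨-c, ?_⟩
        linear_combination (-g) * hc
    · rintro ⟨e, t⟩ _
      simp only
      rw [t1_GG_out g b _ h4 hgb0]
  have S2 : ∀ e : Eis ⧸ Ideal.span {g},
      ∑ t ∈ Finset.range p, t1_GG g b (e.out + g * (t : Eis)) = emb b * t1_FF g e.out := by
    intro e
    have hc : ∀ t : ℕ, IsCoprime (e.out + g * (t : Eis)) g ↔ IsCoprime e.out g := by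
      intro t
      exact IsCoprime.add_mul_left_left_iff
    have hch : ∀ t : ℕ, ch4 (e.out + g * (t : Eis)) = ch4 e.out := by
      intro t
      exact t1_ch4_add g e.out t h4
    unfold t1_GG t1_FF
    simp only [hc, hch]
    by_cases h : IsCoprime e.out g
    · simp only [h, if_true]
      have h1 := Fst_dist p hp b hbn hb (emb e.out / emb (g * b)) (tors_div _ _ hgb0)
      have e2 : emb b * (emb e.out / emb (g * b)) = emb e.out / emb g := by
        rw [map_mul emb g b]
        field_simp
      rw [e2] at h1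
      rw [← Finset.mul_sum]
      have h3 : ∑ t ∈ Finset.range p, Fst (emb (e.out + g * (t : Eis)) / emb (g * b)) =
          ∑ t ∈ Finset.range p, Fst (emb e.out / emb (g * b) + t / emb b) := by
        apply Finset.sum_congr rfl
        intro t _
        congr 1
        rw [map_add, map_mul, map_mul emb g b, map_natCast]
        field_simp
      rw [h3, h1]
      ring
    · simp only [h, if_false]
      simp
  -- the classes divisible by `b`
  have S3 : ∑ d : Eis ⧸ Ideal.span {g * b},
      (if b ∣ d.out then t1_GG g b d.out else 0) =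
      ∑ e : Eis ⧸ Ideal.span {g}, ch4 b * t1_FF g e.out := by
    rw [← Finset.sum_filter]
    symm
    refine Finset.sum_bij (fun e _ => Ideal.Quotient.mk (Ideal.span {g * b}) (b * e.out))
      ?_ ?_ ?_ ?_
    · intro e _
      rw [Finset.mem_filter]
      refine ⟨Finset.mem_univ _, ?_⟩
      rw [t1_dvd_out]
      exact Dvd.intro _ rfl
    · intro e _ e' _ h
      rw [Ideal.Quotient.mk_eq_mk_iff_sub_mem, Ideal.mem_span_singleton] at h
      have h1 : b * g ∣ b * (e.out - e'.out) := by
        have h2 : b * (e.out - e'.out) = b * e.out - b * e'.out := by ring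
        rw [h2, mul_comm b g]; exact h
      have h3 := (mul_dvd_mul_iff_left hb0).1 h1
      rw [← Ideal.mem_span_singleton, ← Ideal.Quotient.mk_eq_mk_iff_sub_mem] at h3
      rwa [Ideal.Quotient.mk_out, Ideal.Quotient.mk_out] at h3
    · intro d hd
      obtain ⟨y, rfl⟩ := Ideal.Quotient.mk_surjective d
      rw [Finset.mem_filter, t1_dvd_out] at hd
      obtain ⟨z, hz⟩ := hd.2
      obtain ⟨k, hk⟩ := I3.out_spec g z
      refine ⟨Ideal.Quotient.mk (Ideal.span {g}) z, Finset.mem_univ _, ?_⟩
      rw [Ideal.Quotient.mk_eq_mk_iff_sub_mem, Ideal.mem_span_singleton, hk]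
      refine ⟨k, ?_⟩
      linear_combination (-1 : Eis) * hz
    · intro e _
      rw [t1_GG_out g b _ h4 hgb0]
      unfold t1_FF t1_GG
      have hc : IsCoprime (b * e.out) g ↔ IsCoprime e.out g :=
        ⟨fun h => h.of_mul_left_right, fun h => IsCoprime.mul_left hgb.symm h⟩
      simp only [hc]
      split_ifs with h
      · rw [ch4_mul, mul_assoc]
        congr 3
        rw [map_mul emb b, map_mul emb g b]
        field_simp
      · simp
  rw [S1, S3, Finset.sum_congr rfl (fun e _ => S2 e), ← Finset.mul_sum, ← Finset.mul_sum]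
  ring

end BS3
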