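import Pool.Agent.MP_ae0bd0_nt.B3.Defs
import Pool.Agent.MP_ae0bd0_nt.CM.B2
import Pool.Agent.MP_ae0bd0_nt.CM.B1

set_option autoImplicit false

open scoped ComplexConjugate
open CM27

namespace BS3

/-! ## [BS3-Z5] number of points of `y² = x³ - r²` (file Z5.lean) -/

theorem z5_nonsingular_iff (F : Type) [Field F] (h2 : (2 : F) ≠ 0) (h3 : (3 : F) ≠ 0) (k : ℤ)
    (hk : (k : F) ≠ 0) (x y : F) :
    (W k F).toAffine.Nonsingular x y ↔ y ^ 2 = x ^ 3 + k := by
  have hΔ : (W k F).toAffine.Δ ≠ 0 := by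
    have h1 : (W k F).Δ = -(2 ^ 4 * 3 ^ 3 * (k : F) ^ 2) := by
      simp only [W, WeierstrassCurve.Δ, WeierstrassCurve.b₂, WeierstrassCurve.b₄,
        WeierstrassCurve.b₆, WeierstrassCurve.b₈]
      ring
    rw [h1]
    exact neg_ne_zero.2 (mul_ne_zero (mul_ne_zero (pow_ne_zero _ h2) (pow_ne_zero _ h3))
      (pow_ne_zero _ hk))
  rw [← WeierstrassCurve.Affine.equation_iff_nonsingular_of_Δ_ne_zero hΔ, W_equation]

/-- the number of affine points -/
theorem z5_card (F : Type) [Field F] [Fintype F] [DecidableEq F] (h2 : (2 : F) ≠ 0)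
    (h3 : (3 : F) ≠ 0) (k : ℤ) (hk : (k : F) ≠ 0) :
    Nat.card (W k F).toAffine.Point =
      (∑ x : F, (Finset.univ.filter (fun y : F => y ^ 2 = x ^ 3 + k)).card) + 1 := by
  have e : {xy : F × F // (W k F).toAffine.Nonsingular xy.1 xy.2} ≃
      (Σ x : F, {y : F // y ^ 2 = x ^ 3 + k}) :=
    { toFun := fun p => ⟨p.1.1, p.1.2, (z5_nonsingular_iff F h2 h3 k hk _ _).1 p.2⟩
      invFun := fun p => ⟨(p.1, p.2.1), (z5_nonsingular_iff F h2 h3 k hk _ _).2 p.2.2⟩
      left_inv := fun p => rfl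
      right_inv := fun p => rfl }
  have h1 : Nat.card (W k F).toAffine.Point =
      Nat.card (Option (Σ x : F, {y : F // y ^ 2 = x ^ 3 + k})) :=
    Nat.card_congr ((WeierstrassCurve.Affine.nonsingularPointEquiv (W k F).toAffine).trans
      (Equiv.optionCongr e))
  rw [h1, Finite.card_option, Nat.card_eq_fintype_card, Fintype.card_sigma]
  congr 1
  refine Finset.sum_congr rfl fun x _ => ?_
  rw [Fintype.card_subtype]

/-- the affine points counted by `y` -/
theorem z5_swap (F : Type) [Field F] [Fintype F] [DecidableEq F] (k : F) :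
    ∑ x : F, (Finset.univ.filter (fun y : F => y ^ 2 = x ^ 3 + k)).card =
      ∑ y : F, (Finset.univ.filter (fun x : F => x ^ 3 = y ^ 2 - k)).card := by
  simp only [Finset.card_filter]
  rw [Finset.sum_comm]
  refine Finset.sum_congr rfl fun y _ => Finset.sum_congr rfl fun x _ => ?_
  refine if_congr ?_ rfl rfl
  constructor
  · intro h; rw [h]; ring
  · intro h; rw [h]; ring

theorem z5_sq (F : Type) [Field F] [Fintype F] [DecidableEq F] (h2 : ringChar F ≠ 2) (k : F) :
    ((∑ x : F, (Finset.univ.filter (fun y : F => y ^ 2 = x ^ 3 + k)).card : ℕ) : ℤ) =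
      Fintype.card F + ∑ x : F, quadraticChar F (x ^ 3 + k) := by
  push_cast
  have : ∀ x : F, ((Finset.univ.filter (fun y : F => y ^ 2 = x ^ 3 + k)).card : ℤ) =
      quadraticChar F (x ^ 3 + k) + 1 := by
    intro x
    rw [← quadraticChar_card_sqrts h2]
    congr 2
    ext y
    simp
  rw [Finset.sum_congr rfl fun x _ => this x, Finset.sum_add_distrib]
  simp
  ring

theorem z5_sum {F : Type} [Field F] [Fintype F] {χ : MulChar F ℂ}
    (h2 : (2 : F) ≠ 0) (hχ : orderOf χ = 3) (r : F) (hr : r ≠ 0) :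
    ∑ y : F, χ (y ^ 2 - r ^ 2) = conj (χ (2 * r)) * jacobiSum χ χ := by
  classical
  have hm1 : χ (-1) = 1 := by
    have h2 := b2_pow_three hχ (t := (-1 : F)) (by simp)
    rw [← map_pow] at h2
    have h3 : (-1 : F) ^ 3 = -1 := by ring
    rwa [h3] at h2
  have ht : (2 * r : F) ≠ 0 := mul_ne_zero h2 hr
  have h3 := b2_pow_three hχ ht
  have hnorm : ‖χ (2 * r)‖ = 1 := by
    have h4 : ‖χ (2 * r)‖ ^ 3 = 1 := by rw [← norm_pow, h3, norm_one]
    exact (pow_eq_one_iff_of_nonneg (norm_nonneg _) (by norm_num)).1 h4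
  have hconj : conj (χ (2 * r)) = χ (2 * r) ^ 2 := by
    have h5 : χ (2 * r) * conj (χ (2 * r)) = 1 := by
      rw [Complex.mul_conj, Complex.normSq_eq_norm_sq, hnorm]; simp
    have h6 : χ (2 * r) ≠ 0 := by
      intro h0; rw [h0] at h5; simp at h5
    have h7 : χ (2 * r) * conj (χ (2 * r)) = χ (2 * r) * χ (2 * r) ^ 2 := by rw [h5, ← h3]; ring
    exact mul_left_cancel₀ h6 h7
  let e : F ≃ F :=
    { toFun := fun t => r - 2 * r * t
      invFun := fun y => (r - y) / (2 * r)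
      left_inv := fun t => by field_simp; ring
      right_inv := fun y => by field_simp; ring }
  rw [← Equiv.sum_comp e, jacobiSum, Finset.mul_sum]
  refine Finset.sum_congr rfl fun t _ => ?_
  have h8 : (e t) ^ 2 - r ^ 2 = (-1) * ((2 * r) ^ 2 * (t * (1 - t))) := by
    change (r - 2 * r * t) ^ 2 - r ^ 2 = _
    ring
  rw [h8, map_mul, map_mul, map_mul, hm1, one_mul, map_pow, hconj]

theorem card_sq_one (F : Type) [Field F] [Fintype F] (h : Nat.card F % 3 = 1)
    (h2 : (2 : F) ≠ 0) (r : ℤ) (hr : (r : F) ≠ 0) (χ : MulChar F ℂ)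
    (hχ : orderOf χ = 3) :
    (Nat.card (W (-r ^ 2) F).toAffine.Point : ℂ) =
      Nat.card F + 1 + ((ZMod.χ₄ (Nat.card F : ZMod 4) : ℤ) : ℂ) *
        (conj (χ ((2 * r : ℤ) : F)) * jacobiSum χ χ + χ ((2 * r : ℤ) : F) * conj (jacobiSum χ χ)) := by
  classical
  have h3 : (3 : F) ≠ 0 := b1_three_ne_zero F (by rw [h]; norm_num)
  have hk : (((-r ^ 2 : ℤ)) : F) ≠ 0 := by
    push_cast
    exact neg_ne_zero.2 (pow_ne_zero _ hr)
  have hrc : ringChar F ≠ 2 := by
    intro h4
    apply h2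
    have := ringChar.Nat.cast_ringChar (R := F)
    rw [h4] at this
    exact_mod_cast this
  -- count for `-r²` by quadratic character
  have hA := z5_card F h2 h3 (-r ^ 2) hk
  have hB := z5_sq F hrc (((-r ^ 2 : ℤ)) : F)
  have hC := z5_sq F hrc ((r : F) ^ 2)
  have hD := z5_swap F ((r : F) ^ 2)
  have hneg : ∑ x : F, quadraticChar F (x ^ 3 + ((-r ^ 2 : ℤ) : F)) =
      quadraticChar F (-1) * ∑ x : F, quadraticChar F (x ^ 3 + (r : F) ^ 2) := by
    rw [← Equiv.sum_comp (Equiv.neg F), Finset.mul_sum]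
    refine Finset.sum_congr rfl fun x _ => ?_
    rw [← map_mul, Equiv.neg_apply]
    congr 1
    push_cast
    ring
  have hS : ((∑ y : F, (Finset.univ.filter (fun x : F => x ^ 3 = y ^ 2 - (r : F) ^ 2)).card : ℕ) : ℂ)
      = Fintype.card F + (conj (χ ((2 * r : ℤ) : F)) * jacobiSum χ χ +
        χ ((2 * r : ℤ) : F) * conj (jacobiSum χ χ)) := by
    push_cast
    have h5 : ∑ y : F, conj (χ (y ^ 2 - (r : F) ^ 2)) = conj (∑ y : F, χ (y ^ 2 - (r : F) ^ 2)) :=
      (map_sum (starRingEnd ℂ) _ _).symm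
    rw [Finset.sum_congr rfl fun y _ => b2_count h hχ (y ^ 2 - (r : F) ^ 2),
      Finset.sum_add_distrib, Finset.sum_add_distrib, h5, z5_sum h2 hχ _ hr,
      map_mul (starRingEnd ℂ) (conj (χ (2 * (r : F)))) (jacobiSum χ χ), Complex.conj_conj]
    simp
  have hT : ((∑ x : F, quadraticChar F (x ^ 3 + (r : F) ^ 2) : ℤ) : ℂ) =
      conj (χ ((2 * r : ℤ) : F)) * jacobiSum χ χ + χ ((2 * r : ℤ) : F) * conj (jacobiSum χ χ) := by
    rw [hD] at hC
    have hC' := congrArg (fun z : ℤ => (z : ℂ)) hC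
    simp only [Int.cast_natCast, Int.cast_add] at hC'
    rw [hS] at hC'
    exact (add_left_cancel hC').symm
  rw [hA]
  push_cast
  have hB' := congrArg (fun z : ℤ => (z : ℂ)) hB
  simp only [Int.cast_natCast, Int.cast_add] at hB'
  rw [hneg, Int.cast_mul, hT, quadraticChar_neg_one hrc] at hB'
  rw [Nat.card_eq_fintype_card]
  have hB'' : ((∑ x : F, (Finset.univ.filter (fun y : F => y ^ 2 = x ^ 3 +
      ((-r ^ 2 : ℤ) : F))).card : ℕ) : ℂ) = ∑ x : F, ((Finset.univ.filter (fun y : F => y ^ 2 = x ^ 3 +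
      (-(r : F) ^ 2))).card : ℂ) := by
    push_cast
    rfl
  rw [← hB'', hB']
  push_cast
  ring

theorem card_sq_two (F : Type) [Field F] [Finite F] (h : Nat.card F % 3 = 2)
    (h2 : (2 : F) ≠ 0) (k : ℤ) (hk : (k : F) ≠ 0) :
    Nat.card (W k F).toAffine.Point = Nat.card F + 1 := by
  have h3 : (3 : F) ≠ 0 := b1_three_ne_zero F (by rw [h]; norm_num)
  have hbij : Function.Bijective (fun x : F => x ^ 3) :=
    Finite.injective_iff_bijective.1 (b1_cube_injective F h)
  have e : {xy : F × F // (W k F).toAffine.Nonsingular xy.1 xy.2} ≃ F := by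
    refine Equiv.ofBijective (fun p => p.1.2) ⟨?_, ?_⟩
    · rintro ⟨⟨x, y⟩, hp⟩ ⟨⟨x', y'⟩, hp'⟩ heq
      simp only at heq hp hp'
      rw [z5_nonsingular_iff F h2 h3 k hk] at hp hp'
      subst heq
      have : x = x' := hbij.1 (by
        simp only
        have h5 : x ^ 3 + (k : F) = x' ^ 3 + k := by rw [← hp, ← hp']
        exact add_right_cancel h5)
      subst this
      rfl
    · intro y
      obtain ⟨x, hx⟩ := hbij.2 (y ^ 2 - k)
      refine ⟨⟨(x, y), (z5_nonsingular_iff F h2 h3 k hk x y).2 ?_⟩, rfl⟩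
      simp only at hx
      rw [hx]
      ring
  have h1 : Nat.card (W k F).toAffine.Point = Nat.card (Option F) :=
    Nat.card_congr ((WeierstrassCurve.Affine.nonsingularPointEquiv (W k F).toAffine).trans
      (Equiv.optionCongr e))
  rw [h1, Finite.card_option]

end BS3
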