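import Pool.Agent.MP_ae0bd0_nt.B3.Z2

set_option autoImplicit false

open scoped ComplexConjugate
open CM27

namespace BS3

/-! ## [BS3-Z6] the character `phr r` (file Z6.lean; uses Z2) -/

theorem z6_prod (n : ℕ) (a : Eis) :
    kapn n a = ∏ p ∈ n.primeFactors, kap p a ^ n.factorization p := rfl

theorem z6_prime {n p : ℕ} (h3 : ¬ 3 ∣ n) (hp : p ∈ n.primeFactors) : p.Prime ∧ p ≠ 3 := by
  rw [Nat.mem_primeFactors] at hp
  refine ⟨hp.1, ?_⟩
  rintro rfl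
  exact h3 hp.2.1

theorem kapn_mul (n : ℕ) (h3 : ¬ 3 ∣ n) (a b : Eis) : kapn n (a * b) = kapn n a * kapn n b := by
  rw [z6_prod, z6_prod, z6_prod, ← Finset.prod_mul_distrib]
  refine Finset.prod_congr rfl fun p hp => ?_
  rw [kap_mul (z6_prime h3 hp).1 (z6_prime h3 hp).2, mul_pow]

theorem kapn_per (n : ℕ) (h3 : ¬ 3 ∣ n) (M : ℕ) (hM : ∀ p, p.Prime → p ∣ n → p ∣ M) (a b : Eis) :
    kapn n (a + (M : Eis) * b) = kapn n a := by
  rw [z6_prod, z6_prod]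
  refine Finset.prod_congr rfl fun p hp => ?_
  obtain ⟨c, hc⟩ := hM p (z6_prime h3 hp).1 (Nat.mem_primeFactors.1 hp).2.1
  have e : a + (M : Eis) * b = a + (p : Eis) * ((c : Eis) * b) := by
    rw [hc, Nat.cast_mul, mul_assoc]
  rw [e, kap_per (z6_prime h3 hp).1 (z6_prime h3 hp).2]

theorem kapn_zero (n : ℕ) (hn : n ≠ 0) (a : Eis) (ha : ¬ IsCoprime a (n : Eis)) :
    kapn n a = 0 := by
  have h1 : ∃ p ∈ n.primeFactors, ¬ IsCoprime a (p : Eis) := by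
    by_contra hcon
    push Not at hcon
    refine ha ?_
    have h2 : (n : Eis) = ∏ p ∈ n.primeFactors, (p : Eis) ^ n.factorization p := by
      conv_lhs => rw [← Nat.prod_factorization_pow_eq_self hn]
      unfold Finsupp.prod
      push_cast
      rfl
    rw [h2]
    exact IsCoprime.prod_right fun p hp => (hcon p hp).pow_right
  obtain ⟨p, hp, hpa⟩ := h1
  rw [z6_prod]
  refine Finset.prod_eq_zero hp ?_
  rw [kap_zero hpa]
  refine zero_pow ?_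
  have h2 := Nat.mem_primeFactors.1 hp
  exact (h2.1.factorization_pos_of_dvd hn h2.2.1).ne'

theorem kapn_int (n : ℕ) (h3 : ¬ 3 ∣ n) (k : ℤ) (hk : IsCoprime k (n : ℤ)) :
    kapn n (k : Eis) = 1 := by
  rw [z6_prod]
  refine Finset.prod_eq_one fun p hp => ?_
  have h1 : ¬ (p : ℤ) ∣ k := by
    intro h
    have h2 : (p : ℤ) ∣ (n : ℤ) := Int.natCast_dvd_natCast.2 (Nat.mem_primeFactors.1 hp).2.1
    have h4 := (hk.isUnit_of_dvd' h h2)
    rw [Int.isUnit_iff_natAbs_eq, Int.natAbs_natCast] at h4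
    exact (z6_prime h3 hp).1.one_lt.ne' h4
  rw [kap_int (z6_prime h3 hp).1 (z6_prime h3 hp).2 k h1, one_pow]

theorem kapn_star (n : ℕ) (h3 : ¬ 3 ∣ n) (a : Eis) : kapn n (star a) = conj (kapn n a) := by
  rw [z6_prod, z6_prod, map_prod]
  refine Finset.prod_congr rfl fun p hp => ?_
  rw [kap_star (z6_prime h3 hp).1 (z6_prime h3 hp).2, map_pow]

theorem kapn_cube (n : ℕ) (h3 : ¬ 3 ∣ n) (a : Eis) (ha : IsCoprime a (n : Eis)) :
    kapn n a ^ 3 = 1 := by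
  rw [z6_prod, ← Finset.prod_pow]
  refine Finset.prod_eq_one fun p hp => ?_
  have h1 : (p : Eis) ∣ (n : Eis) := by
    obtain ⟨c, hc⟩ := (Nat.mem_primeFactors.1 hp).2.1
    exact ⟨(c : Eis), by rw [hc, Nat.cast_mul]⟩
  have h2 : IsCoprime a (p : Eis) := ha.of_isCoprime_of_dvd_right h1
  rw [← pow_mul, mul_comm, pow_mul, kap_cube (z6_prime h3 hp).1 (z6_prime h3 hp).2 h2, one_pow]

theorem z6_w_cube : w ^ 3 = 1 := by
  have h := w_sq
  have e : w ^ 3 = w * (w * w) := by ring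
  rw [e, h]
  linear_combination -h

theorem z6_w_pow {a b : ℕ} (h : a % 3 = b % 3) : w ^ a = w ^ b := by
  rw [← Nat.mod_add_div a 3, ← Nat.mod_add_div b 3, pow_add, pow_add, pow_mul, pow_mul, z6_w_cube,
    one_pow, one_pow, h]

theorem z6_kapn_mul_left (m n : ℕ) (hm : m ≠ 0) (hn : n ≠ 0) (a : Eis) :
    kapn (m * n) a = kapn m a * kapn n a := by
  unfold kapn
  rw [Nat.factorization_mul hm hn]
  exact Finsupp.prod_add_index' (fun p => pow_zero _) (fun p k l => pow_add _ _ _)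

theorem z6_mod (n : ℕ) (h3 : ¬ 3 ∣ n) : n ^ 2 % 3 = 1 := by
  have h1 : n % 3 = 1 ∨ n % 3 = 2 := by omega
  rw [Nat.pow_mod]
  rcases h1 with h | h <;> rw [h]

theorem z6_exp (m n : ℕ) (hm : ¬ 3 ∣ m) (hn : ¬ 3 ∣ n) :
    ((m * n) ^ 2 - 1) / 3 % 3 = ((m ^ 2 - 1) / 3 + (n ^ 2 - 1) / 3) % 3 := by
  have h1 := z6_mod m hm
  have h2 := z6_mod n hn
  obtain ⟨a, ha⟩ : ∃ a, m ^ 2 = 3 * a + 1 := ⟨m ^ 2 / 3, by omega⟩
  obtain ⟨b, hb⟩ : ∃ b, n ^ 2 = 3 * b + 1 := ⟨n ^ 2 / 3, by omega⟩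
  have e1 : (m * n) ^ 2 - 1 = 3 * (3 * (a * b) + a + b) := by
    rw [mul_pow, ha, hb]
    have : (3 * a + 1) * (3 * b + 1) = 3 * (3 * (a * b) + a + b) + 1 := by ring
    omega
  have e2 : m ^ 2 - 1 = 3 * a := by omega
  have e3 : n ^ 2 - 1 = 3 * b := by omega
  rw [e1, e2, e3, Nat.mul_div_cancel_left _ (by norm_num), Nat.mul_div_cancel_left _ (by norm_num),
    Nat.mul_div_cancel_left _ (by norm_num)]
  omega

theorem z6_kapn_omega (n : ℕ) (h3 : ¬ 3 ∣ n) :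
    kapn n (⟨0, 1⟩ : Eis) = w ^ ((n ^ 2 - 1) / 3) := by
  induction n using induction_on_primes with
  | zero => exact absurd (dvd_zero 3) h3
  | one =>
    unfold kapn
    simp
  | prime_mul p n hp ih =>
    have hn0 : n ≠ 0 := by
      rintro rfl
      exact h3 (by simp)
    have hn3 : ¬ 3 ∣ n := fun h => h3 (h.mul_left p)
    have hp3 : ¬ 3 ∣ p := fun h => h3 (h.mul_right n)
    have hp3' : p ≠ 3 := by
      rintro rfl
      exact hp3 dvd_rfl
    rw [z6_kapn_mul_left p n hp.ne_zero hn0, ih hn3]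
    have h1 : kapn p (⟨0, 1⟩ : Eis) = w ^ ((p ^ 2 - 1) / 3) := by
      rw [z6_prod, hp.primeFactors, Finset.prod_singleton, hp.factorization_self, pow_one,
        kap_omega hp hp3']
    rw [h1, ← pow_add]
    exact (z6_w_pow (z6_exp p n hp3 hn3)).symm

/-- the symbol is trivial on the units iff `n ≡ ± 1 mod 9` -/
theorem kapn_unit (n : ℕ) (h9 : n % 9 = 1 ∨ n % 9 = 8) (u : Eis) (hu : IsUnit u) :
    kapn n u = 1 := by
  have h3 : ¬ 3 ∣ n := by omega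
  have hneg : kapn n (-1 : Eis) = 1 := by
    have h1 := kapn_int n h3 (-1) ⟨-1, 0, by ring⟩
    have h2 : ((-1 : ℤ) : Eis) = -1 := by push_cast; rfl
    rwa [h2] at h1
  have hone : kapn n (1 : Eis) = 1 := by
    have h1 := kapn_int n h3 1 isCoprime_one_left
    rwa [Int.cast_one] at h1
  have hom : kapn n (⟨0, 1⟩ : Eis) = 1 := by
    rw [z6_kapn_omega n h3]
    have h1 : n ^ 2 % 9 = 1 := by
      rw [Nat.pow_mod]
      rcases h9 with h | h <;> rw [h]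
    have h2 : (n ^ 2 - 1) / 3 % 3 = 0 % 3 := by
      obtain ⟨b, hb⟩ : ∃ b, n ^ 2 = 9 * b + 1 := ⟨n ^ 2 / 9, by omega⟩
      omega
    rw [z6_w_pow h2, pow_zero]
  rw [eis_isUnit_iff, norm_eq] at hu
  have h4 : u = 1 ∨ u = -1 ∨ u = ⟨0, 1⟩ ∨ u = -1 * ⟨0, 1⟩ ∨ u = ⟨0, 1⟩ * ⟨0, 1⟩ ∨
      u = -1 * (⟨0, 1⟩ * ⟨0, 1⟩) := by
    obtain ⟨x, y⟩ := u
    simp only at hu
    have hy : y ^ 2 ≤ 1 := by nlinarith [sq_nonneg (2 * x - y), sq_nonneg (x - y), sq_nonneg x]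
    have hx : x ^ 2 ≤ 1 := by nlinarith [sq_nonneg (2 * y - x), sq_nonneg (x - y), sq_nonneg y]
    have hy1 : -1 ≤ y ∧ y ≤ 1 := by constructor <;> nlinarith
    have hx1 : -1 ≤ x ∧ x ≤ 1 := by constructor <;> nlinarith
    obtain ⟨hx1, hx2⟩ := hx1
    obtain ⟨hy1, hy2⟩ := hy1
    interval_cases x <;> interval_cases y <;> simp at hu <;>
      simp [QuadraticAlgebra.ext_iff, QuadraticAlgebra.re_one, QuadraticAlgebra.im_one]
  rcases h4 with h | h | h | h | h | h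
  · rw [h, hone]
  · rw [h, hneg]
  · rw [h, hom]
  · rw [h, kapn_mul n h3, hneg, hom, one_mul]
  · rw [h, kapn_mul n h3, hom, one_mul]
  · rw [h, kapn_mul n h3, kapn_mul n h3, hneg, hom, one_mul, one_mul]

end BS3
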