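import Pool.Agent.MP_ae0bd0_nt.B3.Z1
import Pool.Agent.MP_ae0bd0_nt.B3.Z3
import Pool.Agent.MP_ae0bd0_nt.B3.Z4
import Pool.Agent.MP_ae0bd0_nt.B3.Z5
import Pool.Agent.MP_ae0bd0_nt.B3.Z6
import Pool.Agent.MP_ae0bd0_nt.B3.Z7
import Pool.Agent.MP_ae0bd0_nt.B3.T1
import Pool.Agent.MP_ae0bd0_nt.B3.P10
import Pool.Agent.MP_ae0bd0_nt.CM.B5

set_option autoImplicit false

open ArithmeticFunction Filter IsDedekindDomain NumberField CM27
open scoped ComplexConjugate

namespace BS3

/-! ## [BS3-Z8] the local data of `y² = x³ - r²` -/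

theorem Adm.not_three {r : ℕ} (hr : Adm r) : ¬ 3 ∣ 2 * r := by
  have := hr.1
  omega

theorem Adm.nine {r : ℕ} (hr : Adm r) : (2 * r) % 9 = 1 ∨ (2 * r) % 9 = 8 := by
  have := hr.1
  omega

theorem Adm.ne_zero {r : ℕ} (hr : Adm r) : r ≠ 0 := by
  have := hr.1
  rintro rfl
  omega

theorem z8_ch4_int (n : ℤ) (hn : Odd n) : ch4 (n : Eis) = 1 := by
  have h1 : ((n : Eis)).norm = n ^ 2 := by rw [norm_eq]; simp
  have h2 : (n ^ 2) % 4 = 1 := by
    obtain ⟨k, rfl⟩ := hn
    ring_nf
    omega
  simp only [ch4, h1, ZMod.χ₄_int_one_mod_four h2]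
  norm_num

theorem z8_ch4_conj (a : Eis) : conj (ch4 a) = ch4 a := by
  rw [ch4]
  exact map_intCast (starRingEnd ℂ) _

theorem z8_ch4_star (a : Eis) : ch4 (star a) = ch4 a := by
  rw [ch4, ch4, QuadraticAlgebra.norm_star]

theorem phr_mul {r : ℕ} (hr : Adm r) (a b : Eis) : phr r (a * b) = phr r a * phr r b := by
  rw [phr, phr, phr, ch4_mul, kapn_mul _ hr.not_three]
  ring

theorem phr_one {r : ℕ} (hr : Adm r) : phr r 1 = 1 := by
  have h1 := kapn_int (2 * r) hr.not_three 1 isCoprime_one_left
  rw [Int.cast_one] at h1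
  have h2 := z8_ch4_int 1 odd_one
  rw [Int.cast_one] at h2
  rw [phr, h1, h2, one_mul]

theorem phr_pow {r : ℕ} (hr : Adm r) (a : Eis) (k : ℕ) : phr r (a ^ k) = phr r a ^ k := by
  induction k with
  | zero => rw [pow_zero, pow_zero, phr_one hr]
  | succ k ih => rw [pow_succ, phr_mul hr, ih, pow_succ]

theorem phr_star {r : ℕ} (hr : Adm r) (a : Eis) : phr r (star a) = conj (phr r a) := by
  rw [phr, phr, map_mul, z8_ch4_conj, z8_ch4_star, kapn_star _ hr.not_three]

theorem phr_zero {r : ℕ} (hr : Adm r) (a : Eis) (ha : ¬ IsCoprime a ((2 * r : ℕ) : Eis)) :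
    phr r a = 0 := by
  rw [phr, kapn_zero _ (mul_ne_zero two_ne_zero hr.ne_zero) a ha, mul_zero]

theorem cf_zero (φ : Eis → ℂ) : cf φ 0 = 0 := by
  rw [cf]
  apply Finset.sum_eq_zero
  intro a ha
  rw [mem_primSet] at ha
  have h1 : ‖emb a‖ ^ 2 = (a.norm : ℝ) := norm_emb_sq a
  rw [ha.1] at h1
  have h2 : emb a = 0 := by
    norm_num at h1
    exact h1
  rw [h2, _root_.map_zero, mul_zero]

/-- The coefficients of the `L`-function of `y² = x³ - r²` over `ℚ`. -/
noncomputable def cr (r : ℕ) : ArithmeticFunction ℂ := ⟨cf (phr r), cf_zero _⟩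

theorem cr_apply (r n : ℕ) : cr r n = cf (phr r) n := rfl

theorem z8_cast {F : Type} [Field F] (n : ℕ) (hn : n ≠ 0) (χ : MulChar F ℂ) :
    χ (n : F) = n.factorization.prod fun p k => χ (p : F) ^ k := by
  have h1 : (n : F) = n.factorization.prod fun p k => (p : F) ^ k := by
    conv_lhs => rw [← Nat.factorization_prod_pow_eq_self hn]
    rw [Finsupp.prod, Finsupp.prod]
    push_cast
    rfl
  conv_lhs => rw [h1]
  rw [Finsupp.prod, Finsupp.prod, map_prod]
  exact Finset.prod_congr rfl fun p _ => map_pow _ _ _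

/-- cubic reciprocity -/
theorem recip {r : ℕ} (hr : Adm r) (F : Type) [Field F] [Fintype F] (h : Nat.card F % 3 = 1)
    (χ : MulChar F ℂ) (hχ : orderOf χ = 3) (b : Eis) (hb : Primary b)
    (hbn : b.norm = Nat.card F) (hJ : jacobiSum χ χ = - emb b)
    (h0 : ((2 * r : ℕ) : F) ≠ 0) : χ ((2 * r : ℕ) : F) = kapn (2 * r) b := by
  rw [z8_cast _ (mul_ne_zero two_ne_zero hr.ne_zero), kapn, Finsupp.prod, Finsupp.prod]
  refine Finset.prod_congr rfl fun p hp => ?_
  rw [Nat.support_factorization, Nat.mem_primeFactors] at hp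
  have hp0 : (p : F) ≠ 0 := by
    intro h1
    obtain ⟨k, hk⟩ := hp.2.1
    apply h0
    rw [hk]
    push_cast
    rw [h1, zero_mul]
  have hp3 : p ≠ 3 := by
    rintro rfl
    exact hr.not_three hp.2.1
  have hmod : p % 3 = 1 ∨ p % 3 = 2 := by
    have h0 : p % 3 ≠ 0 := by
      intro h0
      exact hp3 ((Nat.prime_dvd_prime_iff_eq Nat.prime_three hp.1).1
        (Nat.dvd_of_mod_eq_zero h0)).symm
    omega
  congr 1
  rcases hmod with h1 | h1
  · exact recip_split F h χ hχ b hb hbn hJ p hp.1 h1 hp0
  · exact recip_inert F h χ hχ b hb hbn hJ p hp.1 h1 hp0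

theorem z8_char_ne {p f : ℕ} (hp : p.Prime) (F : Type) [Field F] [Finite F]
    (hF : Nat.card F = p ^ f) (n : ℤ) (hn : ¬ (p : ℤ) ∣ n) : (n : F) ≠ 0 := by
  intro h0
  obtain ⟨q, hq⟩ := CharP.exists F
  have hqp : q.Prime := by
    rcases CharP.char_is_prime_or_zero F q with h1 | h1
    · exact h1
    · subst h1
      have : CharZero F := CharP.charP_to_charZero F
      exact absurd (Finite.of_injective (Nat.cast : ℕ → F) Nat.cast_injective) (by
        exact not_finite_iff_infinite.2 inferInstance)
  have h2 : q ∣ p ^ f := by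
    rw [← hF, ← CharP.cast_eq_zero_iff F q]
    have := Fintype.ofFinite F
    rw [Nat.card_eq_fintype_card, FiniteField.cast_card_eq_zero]
  have h3 : q = p := (Nat.prime_dvd_prime_iff_eq hqp hp).1 (hqp.dvd_of_dvd_pow h2)
  apply hn
  rw [← h3, ← CharP.intCast_eq_zero_iff F q]
  exact h0

theorem z8_ch4_norm (b : Eis) (q : ℕ) (h : b.norm = q) :
    ch4 b = ((ZMod.χ₄ (q : ZMod 4) : ℤ) : ℂ) := by
  rw [ch4, h]
  push_cast
  rfl

/-- the number of points in terms of `phr` -/
theorem z8_count {r : ℕ} (hr : Adm r) (F : Type) [Field F] [Fintype F] (h : Nat.card F % 3 = 1)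
    (h0 : ((2 * r : ℕ) : F) ≠ 0) (χ : MulChar F ℂ) (hχ : orderOf χ = 3) (b : Eis)
    (hb : Primary b) (hbn : b.norm = Nat.card F) (hJ : jacobiSum χ χ = - emb b) :
    (Nat.card (W (-(r : ℤ) ^ 2) F).toAffine.Point : ℂ) = Nat.card F + 1 -
      (phr r b * conj (emb b) + conj (phr r b * conj (emb b))) := by
  have h2 : (2 : F) ≠ 0 := by
    intro h2
    apply h0
    push_cast
    rw [h2, zero_mul]
  have hr0 : ((r : ℤ) : F) ≠ 0 := by
    intro h3
    apply h0
    push_cast
    push_cast at h3
    rw [h3, mul_zero]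
  have h1 := card_sq_one F h h2 (r : ℤ) hr0 χ hχ
  have h3 : ((2 * (r : ℤ) : ℤ) : F) = ((2 * r : ℕ) : F) := by push_cast; rfl
  rw [h3, recip hr F h χ hχ b hb hbn hJ h0, hJ, ← z8_ch4_norm b _ hbn] at h1
  rw [h1, phr]
  simp only [map_mul, map_neg, Complex.conj_conj, z8_ch4_conj]
  ring

theorem locDataR {r : ℕ} (hr : Adm r) : LocData (-(r : ℤ) ^ 2) (cr r) where
  mul := by
    constructor
    · rw [cr_apply, cf, primSet_one, Finset.sum_singleton, phr_one hr, map_one, map_one, one_mul]
    · intro m n hmn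
      rw [cr_apply, cr_apply, cr_apply, cf, cf, cf, sum_primSet_mul hmn, Finset.sum_mul_sum]
      refine Finset.sum_congr rfl fun a _ => Finset.sum_congr rfl fun b _ => ?_
      rw [phr_mul hr, map_mul, map_mul]
      ring
  bad := by
    intro p hp hpd j hj
    have hpi : Prime (p : ℤ) := Nat.prime_iff_prime_int.1 hp
    rw [cr_apply, cf]
    apply Finset.sum_eq_zero
    intro a ha
    by_cases h3 : p = 3
    · subst h3
      rw [primSet_three j hj] at ha
      simp at ha
    · rw [mem_primSet] at ha
      have h1 : (p : ℤ) ∣ 2 * r := by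
        have h2 : (p : ℤ) ∣ 3 * (2 * (r * r)) := by
          have : (6 * (-(r : ℤ) ^ 2)) = -(3 * (2 * (r * r))) := by ring
          rw [this] at hpd
          exact (dvd_neg).1 hpd
        rcases hpi.dvd_or_dvd h2 with h4 | h4
        · exact absurd ((Nat.prime_dvd_prime_iff_eq hp Nat.prime_three).1 (by exact_mod_cast h4)) h3
        · rcases hpi.dvd_or_dvd h4 with h5 | h5
          · exact h5.mul_right _
          · rcases hpi.dvd_or_dvd h5 with h6 | h6 <;> exact h6.mul_left _
      rw [phr_zero hr a, zero_mul]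
      rw [coprime_iff, ha.1]
      intro h2
      have h4 := h2.isUnit_of_dvd' (x := (p : ℤ)) (by
        push_cast
        exact dvd_pow_self _ hj) (by push_cast; exact h1)
      exact hpi.not_unit h4
  good := by
    intro p hp hpd
    have hpi : Prime (p : ℤ) := Nat.prime_iff_prime_int.1 hp
    have hp3 : p ≠ 3 := by
      rintro rfl
      exact hpd ⟨-2 * r ^ 2, by push_cast; ring⟩
    have hp2 : p ≠ 2 := by
      rintro rfl
      exact hpd ⟨-3 * r ^ 2, by push_cast; ring⟩
    have hodd : Odd p := hp.odd_of_ne_two hp2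
    have hp2r : ¬ (p : ℤ) ∣ 2 * r := by
      intro h1
      rcases hpi.dvd_or_dvd h1 with h2 | h2
      · exact hp2 ((Nat.prime_dvd_prime_iff_eq hp Nat.prime_two).1 (by exact_mod_cast h2))
      · exact hpd ((h2.mul_right (-6 * r)).trans ⟨1, by ring⟩)
    have hcast : ∀ (f : ℕ) (F : Type) [Field F] [Finite F], Nat.card F = p ^ f →
        ((2 * r : ℕ) : F) ≠ 0 := by
      intro f F _ _ hF
      have := z8_char_ne hp F hF (2 * r) hp2r
      push_cast at this ⊢
      exact this
    have hphp : ∀ n : ℤ, ¬ (p : ℤ) ∣ 2 * r → (n = p ∨ n = -p) → phr r (n : Eis) = 1 := by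
      intro n hn hnp
      have h1 : Odd n := by
        rcases hnp with rfl | rfl
        · exact_mod_cast hodd
        · exact (by exact_mod_cast hodd : Odd (p : ℤ)).neg
      have h2 : IsCoprime n ((2 * r : ℕ) : ℤ) := by
        have h3 : IsCoprime (p : ℤ) ((2 * r : ℕ) : ℤ) := by
          push_cast
          exact hpi.coprime_iff_not_dvd.2 hn
        rcases hnp with rfl | rfl
        · exact h3
        · exact h3.neg_left
      rw [phr, z8_ch4_int n h1, kapn_int _ hr.not_three n h2, one_mul]
    have hmod : p % 3 = 1 ∨ p % 3 = 2 := by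
      have h0 : p % 3 ≠ 0 := by
        intro h0
        exact hp3 ((Nat.prime_dvd_prime_iff_eq Nat.prime_three hp).1
          (Nat.dvd_of_mod_eq_zero h0)).symm
      omega
    rcases hmod with hmod | hmod
    · obtain ⟨a, ha, hn⟩ := exists_primary_prime p hp hmod
      set α : ℂ := phr r a * conj (emb a) with hα
      have hβ : phr r (star a) * emb a = conj α := by
        rw [hα, map_mul, Complex.conj_conj, phr_star hr]
      refine ⟨α, conj α, ?_, ?_, ?_⟩
      · rw [← hβ, hα]
        have h1 : phr r a * phr r (star a) = 1 := by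
          rw [← phr_mul hr]
          have h2 : a * star a = ((p : ℤ) : Eis) := by
            have h3 := QuadraticAlgebra.algebraMap_norm_eq_mul_star a
            rw [← h3, hn]
            simp
          rw [h2]
          exact hphp _ hp2r (Or.inl rfl)
        have h2 : emb a * conj (emb a) = p := by
          rw [Complex.mul_conj, normSq_emb, hn]
          push_cast; rfl
        linear_combination (emb a * conj (emb a)) * h1 + h2
      · intro j
        rw [cr_apply, cf, sum_primSet_split p hp hmod a ha hn]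
        refine Finset.sum_congr rfl fun i _ => ?_
        rw [← hβ, hα, phr_mul hr, phr_pow hr, phr_pow hr, map_mul, map_pow, map_pow, map_mul,
          map_pow, map_pow, emb_star, Complex.conj_conj, mul_pow, mul_pow]
        ring
      · intro f F _ _ hf hF
        have := Fintype.ofFinite F
        have hq : Nat.card F % 3 = 1 := by
          rw [hF, Nat.pow_mod, hmod, one_pow, Nat.one_mod]
        obtain ⟨χ, hχ⟩ := exists_chi F hq
        obtain ⟨b, hb, hbn, hJ⟩ := jacobi_primary F hq χ hχ
        have hsp := jacobi_split p f hp hmod hf F hF χ hχ a b hn hJ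
        rw [z8_count hr F hq (hcast f F hF) χ hχ b hb hbn hJ, hF]
        rw [hF] at hbn
        push_cast at hbn
        obtain ⟨i, hi, hbi⟩ := eq_pow_mul_pow p hp a ha hn f b hb hbn
        have hcase : i = 0 ∨ i = f := by
          by_contra hcon
          push Not at hcon
          apply hsp
          rw [hbi]
          exact ⟨(dvd_pow_self a hcon.1).mul_right _,
            (dvd_pow_self (star a) (by omega)).mul_left _⟩
        push_cast
        rcases hcase with rfl | rfl
        · rw [pow_zero, one_mul, Nat.sub_zero] at hbi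
          have h1 : phr r b * conj (emb b) = (conj α) ^ f := by
            rw [hbi, ← hβ, phr_pow hr, map_pow, map_pow, emb_star, Complex.conj_conj, mul_pow]
          rw [h1, map_pow, Complex.conj_conj]
          ring
        · rw [Nat.sub_self, pow_zero, mul_one] at hbi
          have h1 : phr r b * conj (emb b) = α ^ i := by
            rw [hbi, hα, phr_pow hr, map_pow, map_pow, mul_pow]
          rw [h1, map_pow]
    · obtain ⟨α, β, hαβ, hpsi, hpts⟩ := local_data p hp hp3
      refine ⟨α, β, hαβ, ?_, ?_⟩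
      · intro j
        rw [← hpsi j, psi_inert p hp hmod, cr_apply, cf, sum_primSet_inert p hp hmod]
        split_ifs with hj
        · have h1 : (-(p : Eis)) = ((-(p : ℤ) : ℤ) : Eis) := by push_cast; rfl
          rw [h1, phr_pow hr, hphp _ hp2r (Or.inr rfl), one_pow, one_mul, map_pow, map_pow,
            map_intCast, map_intCast]
          push_cast
          rfl
        · rfl
      · intro f F _ _ hf hF
        have := Fintype.ofFinite F
        have h6 : ∀ n : ℤ, ¬ (p : ℤ) ∣ n → (n : F) ≠ 0 := fun n hn => z8_char_ne hp F hF n hn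
        have h2F : (2 : F) ≠ 0 := by
          have := h6 2 (fun h => hp2 ((Nat.prime_dvd_prime_iff_eq hp Nat.prime_two).1
            (by exact_mod_cast h)))
          exact_mod_cast this
        rcases Nat.even_or_odd f with hev | hod
        · have hq : Nat.card F % 3 = 1 := by
            obtain ⟨g, rfl⟩ := hev
            rw [hF, ← two_mul, pow_mul, Nat.pow_mod, Nat.pow_mod p 2, hmod]
            norm_num
          obtain ⟨χ, hχ⟩ := exists_chi F hq
          obtain ⟨b, hb, hbn, hJ⟩ := jacobi_primary F hq χ hχ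
          have h1 := hpts f F hf hF
          rw [card_jacobi F hq χ hχ] at h1
          rw [z8_count hr F hq (hcast f F hF) χ hχ b hb hbn hJ]
          rw [hF] at hbn
          push_cast at hbn
          obtain ⟨_, hbe⟩ := eq_neg_pow p hp hmod f b hb hbn
          have h3 : phr r b = 1 := by
            have h4 : (-(p : Eis)) = ((-(p : ℤ) : ℤ) : Eis) := by push_cast; rfl
            rw [hbe, h4, phr_pow hr, hphp _ hp2r (Or.inr rfl), one_pow]
          rw [h3, one_mul, Complex.conj_conj]
          rw [hJ, map_neg] at h1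
          linear_combination h1
        · have hq : Nat.card F % 3 = 2 := by
            obtain ⟨g, rfl⟩ := hod
            rw [hF, pow_succ, pow_mul, Nat.mul_mod, Nat.pow_mod, Nat.pow_mod p 2, hmod]
            norm_num
          have h1 := hpts f F hf hF
          rw [card_of_two F hq] at h1
          have hk : ((-(r : ℤ) ^ 2 : ℤ) : F) ≠ 0 := by
            apply h6
            rw [dvd_neg]
            intro h
            exact hp2r ((hpi.dvd_of_dvd_pow h).mul_left 2)
          rw [card_sq_two F hq h2F _ hk]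
          exact h1

end BS3
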