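import Pool.Agent.MP_ae0bd0_nt.B3.P10
import Pool.Agent.MP_ae0bd0_nt.B3.S2
import Pool.Agent.MP_ae0bd0_nt.B3.N1
import Pool.Agent.MP_ae0bd0_nt.CM.D6
import Pool.Agent.MP_ae0bd0_nt.CM.F5

set_option autoImplicit false

open ArithmeticFunction Filter IsDedekindDomain NumberField CM27
open scoped ComplexConjugate

namespace BS3

/-! ## [BS3-P11] the analytic part -/

theorem psi_conj (n : ℕ) : psi n = ∑ a ∈ primSet n, conj (emb a) := by
  have hstar : ∀ a ∈ primSet n, star a ∈ primSet n := by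
    intro a ha
    rw [mem_primSet, primary_iff] at ha ⊢
    obtain ⟨h1, h2, h3⟩ := ha
    rw [norm_eq] at h1
    simp only [norm_eq, QuadraticAlgebra.re_star, QuadraticAlgebra.im_star]
    refine ⟨?_, ?_, ?_⟩
    · rw [← h1]; ring
    · omega
    · omega
  unfold psi
  refine Finset.sum_bij' (fun a _ => star a) (fun a _ => star a) hstar hstar ?_ ?_ ?_
  · intro a _; exact star_star a
  · intro a _; exact star_star a
  · intro a _
    rw [emb_star, Complex.conj_conj]

theorem Good.of_dvd {m d : ℕ} (hm : Good m) (h : d ∣ m) : Good d :=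
  ⟨hm.1.squarefree_of_dvd h, fun p hp hpd => hm.2 p hp (hpd.trans h)⟩

theorem Good.ne_zero {m : ℕ} (hm : Good m) : m ≠ 0 := hm.1.ne_zero

theorem Good.not_three_dvd {m : ℕ} (hm : Good m) : ¬ 3 ∣ 4 * m := by
  intro h
  rcases (Nat.Prime.dvd_mul Nat.prime_three).1 h with h1 | h1
  · norm_num at h1
  · have := hm.2 3 Nat.prime_three h1
    norm_num at this

/-- The character of level `4 d` attached to a Dirichlet character modulo `d`. -/
noncomputable def phi {d : ℕ} (χ : DirichletCharacter ℂ d) (a : Eis) : ℂ :=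
  ch4 a * χ ((a.norm : ℤ) : ZMod d)

theorem norm_mul_eis (a b : Eis) : (a * b).norm = a.norm * b.norm := map_mul _ _ _

theorem norm_add_mul (M : ℕ) (a b : Eis) : ∃ t : ℤ, (a + (M : Eis) * b).norm = a.norm + M * t := by
  refine ⟨2 * a.re * b.re - a.re * b.im - a.im * b.re + 2 * a.im * b.im +
    M * (b.re ^ 2 - b.re * b.im + b.im ^ 2), ?_⟩
  rw [norm_eq, norm_eq]
  have h5 : ((M : ℕ) : Eis).re = M := by simp
  have h6 : ((M : ℕ) : Eis).im = 0 := by simp
  simp only [QuadraticAlgebra.re_add, QuadraticAlgebra.im_add, QuadraticAlgebra.re_mul,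
    QuadraticAlgebra.im_mul, h5, h6]
  ring

theorem isCh_phi {d : ℕ} (hd : d ≠ 0) (χ : DirichletCharacter ℂ d) : IsCh (4 * d) (phi χ) where
  one := by
    have h1 : ((1 : Eis).norm : ℤ) = 1 := map_one _
    simp only [phi, ch4, h1]
    simp
  mul a b := by
    simp only [phi, ch4, norm_mul_eis]
    push_cast
    rw [map_mul, map_mul]
    push_cast
    ring
  per a b := by
    obtain ⟨t, ht⟩ := norm_add_mul (4 * d) a b
    simp only [phi, ch4, ht]
    have h1 : ((a.norm + ((4 * d : ℕ) : ℤ) * t : ℤ) : ZMod 4) = ((a.norm : ℤ) : ZMod 4) := by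
      rw [ZMod.intCast_eq_intCast_iff_dvd_sub]
      exact ⟨-(d * t), by push_cast; ring⟩
    have h2 : ((a.norm + ((4 * d : ℕ) : ℤ) * t : ℤ) : ZMod d) = ((a.norm : ℤ) : ZMod d) := by
      rw [ZMod.intCast_eq_intCast_iff_dvd_sub]
      exact ⟨-(4 * t), by push_cast; ring⟩
    rw [h1, h2]
  unit u hu := by
    have h1 : (u.norm : ℤ) = 1 := (eis_isUnit_iff u).1 hu
    simp only [phi, ch4, h1]
    simp
  zero a ha := by
    rw [coprime_iff] at ha
    by_contra hne
    apply ha
    have h1 : ch4 a ≠ 0 := left_ne_zero_of_mul hne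
    have h2 : χ ((a.norm : ℤ) : ZMod d) ≠ 0 := right_ne_zero_of_mul hne
    have h3 : IsCoprime a.norm (4 : ℤ) := by
      have h4 : ZMod.χ₄ ((a.norm : ℤ) : ZMod 4) ≠ 0 := by
        intro h0
        apply h1
        simp only [ch4, h0, Int.cast_zero]
      have h5 : IsUnit ((a.norm : ℤ) : ZMod 4) := by
        by_contra hu
        exact h4 (MulChar.map_nonunit _ hu)
      have h6 := (ZMod.coe_int_isUnit_iff_isCoprime a.norm 4).1 h5
      exact_mod_cast h6.symm
    have h4 : IsCoprime a.norm (d : ℤ) := by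
      have h5 : IsUnit ((a.norm : ℤ) : ZMod d) := by
        by_contra hu
        exact h2 (MulChar.map_nonunit _ hu)
      exact ((ZMod.coe_int_isUnit_iff_isCoprime a.norm d).1 h5).symm
    push_cast
    exact h3.mul_right h4

theorem cf_phi {d : ℕ} (χ : DirichletCharacter ℂ d) (n : ℕ) :
    cf (phi χ) n = x4 n * (χ n * psi n) := by
  rw [cf, psi_conj, Finset.mul_sum, Finset.mul_sum]
  refine Finset.sum_congr rfl fun a ha => ?_
  rw [mem_primSet] at ha
  rw [phi, ch4, ha.1, x4]
  push_cast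
  ring

theorem analytic_part (K : Type) [Field K] [NumberField K] (m : ℕ) (hm : Good m)
    (S : Finset (DirichletCharacter ℂ m)) (hS : SplitData K S) (n : ℕ)
    (hord : ∀ χ ∈ S, χ ^ 3 ^ n = 1) (h2 : Unram 2 K) (h3 : Unram 3 K) :
    ∃ Lm : ℂ → ℂ, Differentiable ℂ Lm ∧
      (∀ s : ℂ, 3 / 2 < s.re → LSeriesSummable (fun k => ((W (-16) K).LFunction k : ℂ)) s ∧
        Lm s = (W (-16) K).LSeries s) ∧ Lm 1 ≠ 0 := by
  have key : ∀ χ ∈ S, ∃ Φ : ℂ → ℂ, Differentiable ℂ Φ ∧
      (∀ s : ℂ, 3 / 2 < s.re → LSeriesSummable (fun k => twc c16 χ k) s ∧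
        Φ s = LSeries (fun k => twc c16 χ k) s) ∧ Φ 1 ≠ 0 := by
    intro χ hχ
    have h1 : χ.primitiveCharacter ^ 3 ^ n = 1 := primitive_pow χ _ (hord χ hχ)
    have hd : Good χ.conductor := hm.of_dvd χ.conductor_dvd_level
    have hch := isCh_phi hd.ne_zero χ.primitiveCharacter
    have h4 : (fun k => twc c16 χ k) = cf (phi χ.primitiveCharacter) := by
      funext k
      rw [twc_apply, pval, c16_apply, cf_phi]
      ring
    have hM : 4 * χ.conductor ≠ 0 := mul_ne_zero (by norm_num) hd.ne_zero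
    obtain ⟨Φ, hΦ, hs, c, hc, h5⟩ := L_entire hM hd.not_three_dvd hch
    refine ⟨Φ, hΦ, ?_, ?_⟩
    · rw [h4]; exact hs
    · rw [h5]
      refine mul_ne_zero hc ?_
      apply sum_ne_zero _ hd _ hch n
      intro a ha
      rw [coprime_iff] at ha
      push_cast at ha
      have ha4 : IsCoprime a.norm (4 : ℤ) := ha.of_mul_right_left
      have had : IsCoprime a.norm (χ.conductor : ℤ) := ha.of_mul_right_right
      have hu : IsUnit ((a.norm : ℤ) : ZMod χ.conductor) :=
        (ZMod.coe_int_isUnit_iff_isCoprime a.norm χ.conductor).2 had.symm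
      have hodd : Odd a.norm := by
        rw [← Int.not_even_iff_odd, even_iff_two_dvd]
        intro h
        have := ha4.isUnit_of_dvd' h (by norm_num)
        norm_num [Int.isUnit_iff] at this
      have hsq : ch4 a * ch4 a = 1 := by
        unfold ch4
        have : (ZMod.χ₄ ((a.norm : ℤ) : ZMod 4)) = 1 ∨ (ZMod.χ₄ ((a.norm : ℤ) : ZMod 4)) = -1 := by
          have h1 : a.norm % 4 = 1 ∨ a.norm % 4 = 3 := by
            rw [Int.odd_iff] at hodd; omega
          rcases h1 with h1 | h1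
          · exact Or.inl (ZMod.χ₄_int_one_mod_four h1)
          · exact Or.inr (ZMod.χ₄_int_three_mod_four h1)
        rcases this with h1 | h1 <;> rw [h1] <;> norm_num
      have h6 : phi χ.primitiveCharacter a * ch4 a =
          χ.primitiveCharacter ((a.norm : ℤ) : ZMod χ.conductor) := by
        rw [phi]
        linear_combination (χ.primitiveCharacter ((a.norm : ℤ) : ZMod χ.conductor)) * hsq
      rw [h6]
      obtain ⟨u, hu'⟩ := hu
      rw [← hu', ← map_pow, ← Units.val_pow_eq_pow_val]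
      have h7 := congrArg (fun ψ : DirichletCharacter ℂ χ.conductor => ψ (u : ZMod χ.conductor)) h1
      simp only [MulChar.pow_apply_coe, MulChar.one_apply_coe] at h7
      rw [Units.val_pow_eq_pow_val, map_pow]
      exact h7
  choose! Φ hΦ1 hΦ2 hΦ3 using key
  have hLC : (fun k => ((W (-16) K).LFunction k : ℂ)) = fun k => (∏ χ ∈ S, twc c16 χ) k := by
    funext k
    rw [← LW_apply, LW_eq locData16 K S hS (bad16 K h2 h3)]
  refine ⟨fun s => ∏ χ ∈ S, Φ χ s, ?_, ?_, ?_⟩
  · exact Differentiable.fun_finsetProd hΦ1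
  · intro s hs
    obtain ⟨h1, h2⟩ := LSeries_prod S (fun χ => twc c16 χ) s
      (fun χ hχ => (hΦ2 χ hχ s hs).1)
    rw [hLC]
    refine ⟨h1, ?_⟩
    have h3 : (W (-16) K).LSeries s = LSeries (fun k => ((W (-16) K).LFunction k : ℂ)) s := rfl
    rw [h3, hLC, h2]
    exact Finset.prod_congr rfl fun χ hχ => (hΦ2 χ hχ s hs).2
  · exact Finset.prod_ne_zero_iff.2 hΦ3

end BS3
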