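import Pool.Agent.MP_ae0bd0_nt.B3.Defs

set_option autoImplicit false

open Polynomial NumberField IsDedekindDomain CM27
open scoped Classical

namespace BS3

/-! ## [BS3-P8] reduction to a squarefree level (file P8.lean) -/

/-- The product of the primes `≡ 7 mod 12` dividing `m`. -/
noncomputable def p8_lev (m : ℕ) : ℕ := ∏ p ∈ m.primeFactors with p % 12 = 7, p

theorem p8_primeFactors (m : ℕ) :
    (p8_lev m).primeFactors = m.primeFactors.filter (fun p => p % 12 = 7) := by
  unfold p8_lev
  apply Nat.primeFactors_prod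
  intro p hp
  exact Nat.prime_of_mem_primeFactors (Finset.mem_filter.1 hp).1

theorem p8_ne_zero (m : ℕ) : p8_lev m ≠ 0 := by
  unfold p8_lev
  rw [Finset.prod_ne_zero_iff]
  intro p hp
  exact (Nat.prime_of_mem_primeFactors (Finset.mem_filter.1 hp).1).ne_zero

theorem p8_dvd (m : ℕ) : p8_lev m ∣ m := by
  refine dvd_trans ?_ (Nat.prod_primeFactors_dvd m)
  unfold p8_lev
  exact Finset.prod_dvd_prod_of_subset _ _ _ (Finset.filter_subset _ _)

theorem p8_good (m : ℕ) : Good (p8_lev m) := by
  constructor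
  · unfold p8_lev
    refine Finset.squarefree_prod_of_pairwise_isCoprime (fun p hp q hq hpq ↦ ?_) ?_
    · have hp' := Nat.prime_of_mem_primeFactors (Finset.mem_filter.1 hp).1
      have hq' := Nat.prime_of_mem_primeFactors (Finset.mem_filter.1 hq).1
      exact Nat.coprime_iff_isRelPrime.1 ((Nat.coprime_primes hp' hq').2 hpq)
    · intro p hp
      have hp' := Nat.prime_of_mem_primeFactors (Finset.mem_filter.1 hp).1
      exact hp'.prime.squarefree
  · intro p hp hd
    have h1 : p ∈ (p8_lev m).primeFactors := Nat.mem_primeFactors.2 ⟨hp, hd, p8_ne_zero m⟩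
    rw [p8_primeFactors] at h1
    exact (Finset.mem_filter.1 h1).2

theorem p8_totient (m : ℕ) (hm : m ≠ 0) (h9 : ¬ 9 ∣ m)
    (h12 : ∀ p, p.Prime → p ∣ m → p % 12 ≠ 1) :
    ∃ t : ℕ, m.totient = (p8_lev m).totient * t ∧ ¬ 3 ∣ t := by
  refine ⟨(m / ∏ p ∈ m.primeFactors, p) * ∏ p ∈ m.primeFactors with ¬ p % 12 = 7, (p - 1), ?_, ?_⟩
  · rw [Nat.totient_eq_div_primeFactors_mul m, Nat.totient_eq_div_primeFactors_mul (p8_lev m),
      p8_primeFactors]
    have h1 : (∏ p ∈ m.primeFactors with p % 12 = 7, p) = p8_lev m := rfl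
    rw [h1, Nat.div_self (Nat.pos_of_ne_zero (p8_ne_zero m)), one_mul,
      ← Finset.prod_filter_mul_prod_filter_not m.primeFactors (fun p => p % 12 = 7)
        (fun p => p - 1)]
    ring
  · intro h3
    rcases (Nat.Prime.dvd_mul Nat.prime_three).1 h3 with h | h
    · have hrad := Nat.prod_primeFactors_dvd m
      have h4 : 3 * (∏ p ∈ m.primeFactors, p) ∣ m := by
        obtain ⟨c, hc⟩ := h
        refine ⟨c, ?_⟩
        have h5 := Nat.div_mul_cancel hrad
        rw [hc] at h5
        nth_rewrite 1 [← h5]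
        ring
      have h5 : 3 ∣ m := dvd_trans (dvd_mul_right _ _) h4
      have h6 : 3 ∣ ∏ p ∈ m.primeFactors, p :=
        Finset.dvd_prod_of_mem (fun p => p) (Nat.mem_primeFactors.2 ⟨Nat.prime_three, h5, hm⟩)
      apply h9
      refine dvd_trans ?_ h4
      exact mul_dvd_mul_left 3 h6
    · rw [Nat.prime_three.prime.dvd_finsetProd_iff] at h
      obtain ⟨p, hp, hd⟩ := h
      rw [Finset.mem_filter] at hp
      obtain ⟨hp1, hp2⟩ := hp
      have hpp := Nat.prime_of_mem_primeFactors hp1
      have hpd := Nat.dvd_of_mem_primeFactors hp1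
      have hp3 := h12 p hpp hpd
      have h2 : p ≠ 2 := by
        rintro rfl
        omega
      have hodd : p % 2 = 1 := (hpp.eq_two_or_odd).resolve_left h2
      have hpos := hpp.two_le
      omega

/-- A subfield of `ℚ(ζ_m)` of degree `3 ^ n`, where `9 ∤ m` and no prime `≡ 1 mod 12` divides `m`,
is contained in `ℚ(ζ_{m'})` with `m'` the product of the primes `≡ 7 mod 12` dividing `m`. -/
theorem reduce_level (m : ℕ) [NeZero m] (h9 : ¬ 9 ∣ m)
    (h12 : ∀ p, p.Prime → p ∣ m → p % 12 ≠ 1) (M : Type) [Field M] [NumberField M]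
    [IsCyclotomicExtension {m} ℚ M] (F : IntermediateField ℚ M) (n : ℕ)
    (h : Module.finrank ℚ F = 3 ^ n) :
    ∃ (m' : ℕ) (_ : NeZero m') (_ : Good m') (_ : m' ∣ m) (M' : Type) (_ : Field M')
      (_ : NumberField M') (_ : IsCyclotomicExtension {m'} ℚ M') (F' : IntermediateField ℚ M'),
      Nonempty (F ≃ₐ[ℚ] F') := by
  have hm : m ≠ 0 := NeZero.ne m
  have hgal : IsGalois ℚ M := IsCyclotomicExtension.isGalois {m} ℚ M
  have hab : IsAbelianGalois ℚ M := IsCyclotomicExtension.isAbelianGalois {m} ℚ M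
  have hnz : NeZero (p8_lev m) := ⟨p8_ne_zero m⟩
  have hζ := IsCyclotomicExtension.zeta_spec m ℚ M
  obtain ⟨r, hr⟩ := p8_dvd m
  have hζ' : IsPrimitiveRoot (IsCyclotomicExtension.zeta m ℚ M ^ r) (p8_lev m) :=
    hζ.pow (Nat.pos_of_ne_zero hm) (by rw [mul_comm]; exact hr)
  set M' : IntermediateField ℚ M :=
    IntermediateField.adjoin ℚ {IsCyclotomicExtension.zeta m ℚ M ^ r} with hM'
  have hcyc : IsCyclotomicExtension {p8_lev m} ℚ M' :=
    hζ'.intermediateField_adjoin_isCyclotomicExtension ℚ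
  have hcard : ¬ 3 ∣ Nat.card M'.fixingSubgroup := by
    have h2 : Nat.card M'.fixingSubgroup = Module.finrank M' M :=
      IsGalois.card_fixingSubgroup_eq_finrank M'
    have h4 : Module.finrank ℚ M' * Module.finrank M' M = Module.finrank ℚ M :=
      Module.finrank_mul_finrank ℚ M' M
    rw [IsCyclotomicExtension.Rat.finrank m M, IsCyclotomicExtension.Rat.finrank (p8_lev m) M'] at h4
    obtain ⟨t, ht, ht3⟩ := p8_totient m hm h9 h12
    rw [ht] at h4
    have h5 := Nat.eq_of_mul_eq_mul_left (Nat.totient_pos.2 (Nat.pos_of_ne_zero (p8_ne_zero m))) h4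
    rw [h2, h5]
    exact ht3
  have hidx : F.fixingSubgroup.index = 3 ^ n := by
    rw [← IntermediateField.finrank_eq_fixingSubgroup_index, h]
  have hle : F ≤ M' := by
    have h1 : M'.fixingSubgroup ≤ F.fixingSubgroup := by
      intro σ hσ
      have h2 : σ ^ (3 ^ n) ∈ F.fixingSubgroup := by
        have := F.fixingSubgroup.pow_index_mem σ
        rwa [hidx] at this
      have h3 : (orderOf σ).Coprime (3 ^ n) := by
        apply Nat.Coprime.pow_right
        rw [Nat.coprime_comm, Nat.Prime.coprime_iff_not_dvd Nat.prime_three]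
        intro h4
        apply hcard
        have h5 : orderOf (⟨σ, hσ⟩ : M'.fixingSubgroup) ∣ Nat.card M'.fixingSubgroup :=
          orderOf_dvd_natCard _
        rw [Subgroup.orderOf_mk] at h5
        exact dvd_trans h4 h5
      obtain ⟨k, hk⟩ := exists_pow_eq_self_of_coprime h3.symm
      rw [← hk]
      exact F.fixingSubgroup.pow_mem h2 k
    have h2 := IntermediateField.fixedField_antitone h1
    rwa [IsGalois.fixedField_fixingSubgroup, IsGalois.fixedField_fixingSubgroup] at h2
  exact ⟨p8_lev m, hnz, p8_good m, p8_dvd m, M', inferInstance, inferInstance, hcyc,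
    IntermediateField.restrict hle, ⟨IntermediateField.restrictAlgEquiv hle⟩⟩

end BS3
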