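import Pool.Agent.MP_ae0bd0_nt.B3.P7
import Pool.Agent.MP_ae0bd0_nt.B3.P8
import Pool.Agent.MP_ae0bd0_nt.B3.P9
import Pool.Agent.MP_ae0bd0_nt.B3.P11
import Pool.Agent.MP_ae0bd0_nt.B3.Q13

set_option autoImplicit false

open IsDedekindDomain NumberField CM27
open scoped Classical

namespace BS3

/-! ## [BS3-Final] assembly -/

theorem exists_place (K : Type) [Field K] [NumberField K] (p : ℕ) (hp : p.Prime) :
    ∃ v : HeightOneSpectrum (𝓞 K), (p : 𝓞 K) ∈ v.asIdeal := by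
  have h1 : ¬ IsUnit (p : 𝓞 K) := by
    intro h
    have h3 := (NumberField.isUnit_iff_norm (K := K) (x := (p : 𝓞 K))).1 h
    have h4 : ((RingOfIntegers.norm ℚ (p : 𝓞 K) : 𝓞 ℚ) : ℚ) = (p : ℚ) ^ Module.finrank ℚ K := by
      rw [RingOfIntegers.coe_norm]
      have h5 : ((p : 𝓞 K) : K) = algebraMap ℚ K p := by
        rw [map_natCast (algebraMap ℚ K) p]; exact map_natCast (algebraMap (𝓞 K) K) p
      rw [h5, Algebra.norm_algebraMap]
    have hp1 : (1 : ℚ) < p := by exact_mod_cast hp.one_lt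
    rw [h4, abs_of_pos (by positivity)] at h3
    have h6 : 1 < (p : ℚ) ^ Module.finrank ℚ K :=
      one_lt_pow₀ hp1 (Module.finrank_pos).ne'
    exact h6.ne' h3
  obtain ⟨I, hI, hpI⟩ := exists_max_ideal_of_mem_nonunits (a := (p : 𝓞 K)) h1
  refine ⟨⟨I, hI.isPrime, ?_⟩, hpI⟩
  rintro rfl
  rw [Ideal.mem_bot] at hpI
  exact hp.ne_zero (by exact_mod_cast hpI)

theorem unram_of (m : ℕ) [NeZero m] (M : Type) [Field M] [NumberField M]
    [IsCyclotomicExtension {m} ℚ M] (F : IntermediateField ℚ M) (p : ℕ)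
    (hp : p.Prime) (h : ¬ p ∣ m) : Unram p F := fun v hv => CM27.unram m M F p hp h v hv

theorem Good.not_dvd {m p : ℕ} (hm : Good m) (hp : p.Prime) (h : p % 12 ≠ 7) : ¬ p ∣ m :=
  fun hd => h (hm.2 p hp hd)

/-- Main theorem. -/
theorem main (m : ℕ) [NeZero m] (h9 : ¬ 9 ∣ m) (h12 : ∀ p, p.Prime → p ∣ m → p % 12 ≠ 1)
    (M : Type) [Field M] [NumberField M] [IsCyclotomicExtension {m} ℚ M]
    (F : IntermediateField ℚ M) (n : ℕ) (h : Module.finrank ℚ F = 3 ^ n) :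
    (∃ Lm : ℂ → ℂ, Differentiable ℂ Lm ∧
      (∀ s : ℂ, 3 / 2 < s.re → LSeriesSummable (fun k => ((W (-16) F).LFunction k : ℂ)) s ∧
        Lm s = (W (-16) F).LSeries s) ∧ Lm 1 ≠ 0) ∧
    ∀ x y : F, y ^ 2 ≠ x ^ 3 - 16 := by
  obtain ⟨m', _, hm', _, M', _, _, _, F', ⟨e⟩⟩ := reduce_level m h9 h12 M F n h
  have hfin : Module.finrank ℚ F' = 3 ^ n := by rw [← h]; exact e.symm.toLinearEquiv.finrank_eq
  have e' : F' ≃+* F := e.symm.toRingEquiv
  have hS' : SplitData F' (chars m' F') := fun p hp => split_all m' hm'.1 M' F' p hp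
  have hS : SplitData F (chars m' F') := hS'.of_equiv e'
  have h2 : Unram 2 F :=
    (unram_of m' M' F' 2 Nat.prime_two (hm'.not_dvd Nat.prime_two (by norm_num))).of_equiv e'
  have h3' : Unram 3 F' :=
    unram_of m' M' F' 3 Nat.prime_three (hm'.not_dvd Nat.prime_three (by norm_num))
  have h3 : Unram 3 F := h3'.of_equiv e'
  refine ⟨analytic_part F m' hm' (chars m' F') hS n
    (fun χ hχ => chars_pow_gen m' M' F' _ hfin χ hχ) h2 h3, ?_⟩
  intro x y hxy
  obtain ⟨v, hv⟩ := exists_place F' 3 Nat.prime_three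
  have hv9 := h3' v hv
  refine no_affine m' hm' M' F' n hfin v (by exact_mod_cast hv) (by exact_mod_cast hv9) 1
    (Or.inl rfl) ?_ (e x) (e y) ?_
  · intro p hp hd
    exact absurd (isUnit_of_dvd_one hd) (Nat.prime_iff_prime_int.1 hp).not_unit
  · have := congrArg e hxy
    simp only [map_pow, map_sub, map_ofNat] at this
    rw [this]
    push_cast
    ring

end BS3
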