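import Pool.Agent.MP_ae0bd0_nt.B3.Defs

set_option autoImplicit false

open Polynomial NumberField IsDedekindDomain CM27
open scoped Classical

namespace BS3

/-! ## [BS3-P7] transport of the splitting data along isomorphisms (file P7.lean) -/

/-- pull back a prime of `R'` along a ring isomorphism `R ≃+* R'` -/
def p7_comap {R R' : Type} [CommRing R] [IsDedekindDomain R] [CommRing R'] [IsDedekindDomain R']
    (f : R ≃+* R') (v : HeightOneSpectrum R') : HeightOneSpectrum R where
  asIdeal := v.asIdeal.comap f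
  isPrime := v.isPrime.comap f
  ne_bot := by
    intro h
    apply v.ne_bot
    rw [eq_bot_iff]
    intro x hx
    have hx' : f.symm x ∈ v.asIdeal.comap f := by
      rw [Ideal.mem_comap]
      simpa using hx
    rw [h, Ideal.mem_bot] at hx'
    have : x = 0 := by
      have := congrArg f hx'
      simpa using this
    simpa using this

theorem p7_mem {R R' : Type} [CommRing R] [IsDedekindDomain R] [CommRing R'] [IsDedekindDomain R']
    (f : R ≃+* R') (v : HeightOneSpectrum R') (x : R) :
    x ∈ (p7_comap f v).asIdeal ↔ f x ∈ v.asIdeal := Iff.rfl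

theorem p7_nat {R R' : Type} [CommRing R] [IsDedekindDomain R] [CommRing R'] [IsDedekindDomain R']
    (f : R ≃+* R') (v : HeightOneSpectrum R') (p : ℕ) :
    (p : R) ∈ (p7_comap f v).asIdeal ↔ (p : R') ∈ v.asIdeal := by
  rw [p7_mem, map_natCast]

theorem p7_comap_comap {R R' : Type} [CommRing R] [IsDedekindDomain R] [CommRing R']
    [IsDedekindDomain R'] (f : R ≃+* R') (v : HeightOneSpectrum R) :
    p7_comap f (p7_comap f.symm v) = v := by
  apply HeightOneSpectrum.ext
  ext x
  rw [p7_mem, p7_mem, RingEquiv.symm_apply_apply]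

theorem p7_pow {R R' : Type} [CommRing R] [IsDedekindDomain R] [CommRing R'] [IsDedekindDomain R']
    (f : R ≃+* R') (v : HeightOneSpectrum R') (x : R) (n : ℕ) (hx : f x ∈ v.asIdeal ^ n) :
    x ∈ (p7_comap f v).asIdeal ^ n := by
  have h1 : (p7_comap f v).asIdeal = v.asIdeal.map f.symm := by
    rw [Ideal.map_symm]
    rfl
  rw [h1, ← Ideal.map_pow, Ideal.map_symm]
  exact hx

theorem p7_card {R R' : Type} [CommRing R] [IsDedekindDomain R] [CommRing R'] [IsDedekindDomain R']
    (f : R ≃+* R') (v : HeightOneSpectrum R') :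
    Nat.card (R ⧸ (p7_comap f v).asIdeal) = Nat.card (R' ⧸ v.asIdeal) := by
  refine Nat.card_congr (Ideal.quotientEquiv (p7_comap f v).asIdeal v.asIdeal f ?_).toEquiv
  have h1 : (p7_comap f v).asIdeal = v.asIdeal.comap (f : R →+* R') := rfl
  rw [h1]
  exact (Ideal.map_comap_of_surjective (f : R →+* R') f.surjective v.asIdeal).symm

theorem p7_set {R R' : Type} [CommRing R] [IsDedekindDomain R] [CommRing R'] [IsDedekindDomain R']
    (f : R ≃+* R') (p : ℕ) :
    {v : HeightOneSpectrum R | (p : R) ∈ v.asIdeal}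
      = p7_comap f '' {v : HeightOneSpectrum R' | (p : R') ∈ v.asIdeal} := by
  ext v
  constructor
  · intro hv
    refine ⟨p7_comap f.symm v, ?_, p7_comap_comap f v⟩
    exact (p7_nat f.symm v p).2 hv
  · rintro ⟨w, hw, rfl⟩
    exact (p7_nat f w p).2 hw

theorem p7_inj {R R' : Type} [CommRing R] [IsDedekindDomain R] [CommRing R'] [IsDedekindDomain R']
    (f : R ≃+* R') : Function.Injective (p7_comap f) := by
  intro v w h
  have := congrArg (p7_comap f.symm) h
  have e : ∀ u : HeightOneSpectrum R', p7_comap f.symm (p7_comap f u) = u := fun u => by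
    apply HeightOneSpectrum.ext
    ext x
    rw [p7_mem, p7_mem, RingEquiv.apply_symm_apply]
  rwa [e, e] at this

theorem SplitData.of_equiv {K K' : Type} [Field K] [NumberField K] [Field K'] [NumberField K']
    (e : K ≃+* K') {m : ℕ} {S : Finset (DirichletCharacter ℂ m)} (h : SplitData K S) :
    SplitData K' S := by
  intro p hp
  obtain ⟨f, g, hf, hfin, hcard, hres, hprod⟩ := h p hp
  set φ : 𝓞 K ≃+* 𝓞 K' := RingOfIntegers.mapRingEquiv e
  refine ⟨f, g, hf, ?_, ?_, ?_, hprod⟩
  · rw [p7_set φ.symm]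
    exact hfin.image _
  · rw [p7_set φ.symm, Set.ncard_image_of_injective _ (p7_inj φ.symm), hcard]
  · intro v hv
    rw [← p7_card φ v]
    exact hres _ ((p7_nat φ v p).2 hv)

theorem Unram.of_equiv {K K' : Type} [Field K] [NumberField K] [Field K'] [NumberField K']
    (e : K ≃+* K') {p : ℕ} (h : Unram p K) : Unram p K' := by
  intro v hv hv2
  set φ : 𝓞 K ≃+* 𝓞 K' := RingOfIntegers.mapRingEquiv e
  refine h (p7_comap φ v) ((p7_nat φ v p).2 hv) (p7_pow φ v _ 2 ?_)
  rwa [map_natCast]

end BS3
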