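import Pool.Agent.MP_ae0bd0_nt.B3.QDefs

set_option autoImplicit false

open Polynomial NumberField IsDedekindDomain CM27
open scoped Classical

namespace BS3

/-! ## [BS3-Q8a] principal ideal domains (file Q8a.lean) -/

/-- The discriminant of a quadratic field containing a trace zero square root of `D`. -/
theorem q8a_abs_discr {K : Type} [Field K] [NumberField K] (w : K) (D : ℤ) (hD0 : D ≠ 0)
    (hw : w ^ 2 = (D : K)) (h2 : Module.finrank ℚ K = 2) (htr : Algebra.trace ℚ K w = 0) :
    |discr K| ≤ |4 * D| := by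
  set b := integralBasis K with hb
  have hcard : Fintype.card (Module.Free.ChooseBasisIndex ℤ (𝓞 K)) = Fintype.card (Fin 2) := by
    rw [← Module.finrank_eq_card_basis b, h2, Fintype.card_fin]
  set e := Fintype.equivOfCardEq hcard with he
  set b' := b.reindex e with hb'
  set b0 : Fin 2 → K := ![1, w] with hb0
  have h1 : Algebra.discr ℚ b0 = (b'.toMatrix b0).det ^ 2 * Algebra.discr ℚ b' := by
    rw [← Algebra.discr_of_matrix_vecMul, Module.Basis.toMatrix_map_vecMul]
  have hd : Algebra.discr ℚ b0 = 4 * D := by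
    have ht1 : Algebra.trace ℚ K 1 = 2 := by
      have := Algebra.trace_algebraMap (R := ℚ) (S := K) 1
      rw [map_one, h2] at this
      rw [this]; norm_num
    have htw : Algebra.trace ℚ K (w * w) = 2 * D := by
      have := Algebra.trace_algebraMap (R := ℚ) (S := K) D
      rw [h2] at this
      rw [← sq, hw]
      have h3 : (algebraMap ℚ K) D = (D : K) := by simp
      rw [← h3, this]; simp
    rw [Algebra.discr_def, Matrix.det_fin_two]
    simp only [Algebra.traceMatrix_apply, Algebra.traceForm_apply, hb0, Matrix.cons_val_zero,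
      Matrix.cons_val_one, one_mul, mul_one, ht1, htw, htr]
    ring
  have h2' : Algebra.discr ℚ b' = (discr K : ℚ) := by
    rw [coe_discr, hb', Module.Basis.coe_reindex, Algebra.discr_reindex]
  have hwi : IsIntegral ℤ w := by
    refine ⟨X ^ 2 - C D, by monicity!, ?_⟩
    rw [eval₂_sub, eval₂_pow, eval₂_X, eval₂_C, hw]
    simp
  have h3 : ∃ Q : Matrix (Fin 2) (Fin 2) ℤ,
      b'.toMatrix b0 = Q.map (Int.castRingHom ℚ) := by
    have hint : ∀ j, IsIntegral ℤ (b0 j) := by
      intro j
      fin_cases j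
      · simpa [hb0] using isIntegral_one
      · simpa [hb0] using hwi
    have hint' : ∀ j, ∃ x : 𝓞 K, algebraMap (𝓞 K) K x = b0 j := fun j =>
      ⟨⟨b0 j, hint j⟩, rfl⟩
    choose x hx using hint'
    refine ⟨Matrix.of fun i j => (RingOfIntegers.basis K).repr (x j) (e.symm i), ?_⟩
    ext i j
    rw [Module.Basis.toMatrix_apply, Matrix.map_apply, Matrix.of_apply, hb',
      Module.Basis.repr_reindex_apply, ← hx j]
    exact integralBasis_repr_apply K (x j) (e.symm i)
  obtain ⟨Q, hQ⟩ := h3
  rw [hd, h2', hQ, show (Q.map (Int.castRingHom ℚ)).det = ((Q.det : ℤ) : ℚ) from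
    (RingHom.map_det (Int.castRingHom ℚ) Q).symm] at h1
  have h4 : (4 * D : ℤ) = Q.det ^ 2 * discr K := by exact_mod_cast h1
  have h5 : Q.det ≠ 0 := by
    intro h0
    rw [h0] at h4
    norm_num at h4
    exact hD0 h4
  have h6 : 1 ≤ Q.det ^ 2 := by
    have := sq_pos_of_pos (abs_pos.2 h5)
    rw [sq_abs] at this
    omega
  have h7 : |4 * D| = Q.det ^ 2 * |discr K| := by
    have := congrArg abs h4
    rwa [abs_mul (Q.det ^ 2), abs_of_nonneg (sq_nonneg Q.det)] at this
  rw [h7]
  nlinarith [abs_nonneg (discr K)]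

theorem q8a_pid {K : Type} [Field K] [NumberField K] (w : K) (D : ℤ) (hD : D = -1 ∨ D = 3)
    (hw : w ^ 2 = (D : K)) (h2 : Module.finrank ℚ K = 2) (htr : Algebra.trace ℚ K w = 0)
    (hgen : ∀ x : K, ∃ a b : ℚ, x = (a : K) + (b : K) * w) :
    IsPrincipalIdealRing (𝓞 K) := by
  have hD0 : D ≠ 0 := by rcases hD with rfl | rfl <;> norm_num
  have hdisc := q8a_abs_discr w D hD0 hw h2 htr
  apply RingOfIntegers.isPrincipalIdealRing_of_abs_discr_lt
  have hpi := Real.pi_gt_three
  have hpi4 := Real.pi_lt_four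
  rcases hD with rfl | rfl
  · have h1 : InfinitePlace.nrComplexPlaces K ≤ 1 := by
      have := InfinitePlace.card_add_two_mul_card_eq_rank K
      rw [h2] at this
      omega
    have h3 : (Real.pi / 4) ^ 1 ≤ (Real.pi / 4) ^ InfinitePlace.nrComplexPlaces K := by
      apply pow_le_pow_of_le_one (by positivity) (by linarith) h1
    have h4 : |discr K| ≤ 4 := by simpa using hdisc
    have h5 : ((|discr K| : ℤ) : ℝ) ≤ 4 := by exact_mod_cast h4
    rw [h2]
    norm_num [Nat.factorial]
    have h6 : |(discr K : ℝ)| ≤ 4 := by rwa [Int.cast_abs] at h5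
    rw [pow_one] at h3
    nlinarith
  · have h1 : InfinitePlace.nrComplexPlaces K = 0 := by
      rw [nrComplexPlaces_eq_zero_iff]
      refine ⟨fun v => ?_⟩
      rw [InfinitePlace.isReal_iff, ComplexEmbedding.isReal_iff]
      set φ := v.embedding with hφ
      have hreal : (starRingEnd ℂ) (φ w) = φ w := by
        have h3 : (φ w) ^ 2 = 3 := by
          rw [← map_pow, hw]
          exact map_intCast φ 3
        have him : (φ w).im = 0 := by
          by_contra hne
          have hi := congrArg Complex.im h3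
          have hr := congrArg Complex.re h3
          simp [sq] at hi hr
          have hre : (φ w).re = 0 := by
            rcases mul_eq_zero.1 (show (φ w).re * (φ w).im = 0 by linarith) with h | h
            · exact h
            · exact absurd h hne
          rw [hre] at hr
          nlinarith [sq_nonneg (φ w).im]
        exact Complex.conj_eq_iff_im.2 him
      ext x
      obtain ⟨a, b, rfl⟩ := hgen x
      simp [ComplexEmbedding.conjugate, hreal]
    have h4 : |discr K| ≤ 12 := by simpa using hdisc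
    have h5 : ((|discr K| : ℤ) : ℝ) ≤ 12 := by exact_mod_cast h4
    rw [h2, h1]
    norm_num [Nat.factorial]
    have h6 : |(discr K : ℝ)| ≤ 12 := by rwa [Int.cast_abs] at h5
    linarith

theorem pid_D (D : ℤ) (hD : D = -1 ∨ D = 3) [Fact (NonSq D ℚ)] :
    IsPrincipalIdealRing (𝓞 (Q2 D ℚ)) := by
  have halg : (DivisionRing.toRatAlgebra : Algebra ℚ (Q2 D ℚ)) =
      (inferInstance : Algebra ℚ (QuadraticAlgebra ℚ (D : ℚ) 0)) := Subsingleton.elim _ _
  refine q8a_pid (⟨0, 1⟩ : Q2 D ℚ) D hD ?_ ?_ ?_ ?_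
  · ext
    · simp [sq]
    · simp [sq]
  · have h := QuadraticAlgebra.finrank_eq_two (R := ℚ) (D : ℚ) 0
    convert h
  · set e : Q2 D ℚ ≃ₐ[ℚ] Q2 D ℚ := AlgEquiv.ofRingEquiv (f := starRingAut) (fun q => by
      simp) with he
    have h1 := Algebra.trace_eq_of_algEquiv e (⟨0, 1⟩ : Q2 D ℚ)
    have h3 : e (⟨0, 1⟩ : Q2 D ℚ) = -(⟨0, 1⟩ : Q2 D ℚ) := by
      change star (⟨0, 1⟩ : Q2 D ℚ) = _
      ext <;> simp
    rw [h3, map_neg] at h1
    linarith
  · intro x
    refine ⟨x.re, x.im, ?_⟩
    ext <;> simp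

end BS3
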