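import Pool.Agent.MP_ae0bd0_nt.B3.Z8
import Pool.Agent.MP_ae0bd0_nt.B3.Final

set_option autoImplicit false

open ArithmeticFunction Filter IsDedekindDomain NumberField CM27
open scoped ComplexConjugate

namespace BS3

/-! ## [BS3-Z9] the family `y² = x³ - r²` -/

/-- The product of the odd prime factors of `r`. -/
def oddrad (r : ℕ) : ℕ := ∏ p ∈ r.primeFactors.erase 2, p

theorem dvd_oddrad {r p : ℕ} (hr : r ≠ 0) (hp : p.Prime) :
    p ∣ oddrad r ↔ p ∣ r ∧ p ≠ 2 := by
  rw [oddrad]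
  constructor
  · intro h
    obtain ⟨q, hq, hpq⟩ := (Prime.dvd_finsetProd_iff (Nat.prime_iff.1 hp) _).1 h
    rw [Finset.mem_erase, Nat.mem_primeFactors] at hq
    have : p = q := (Nat.prime_dvd_prime_iff_eq hp hq.2.1).1 hpq
    rw [this]
    exact ⟨hq.2.2.1, hq.1⟩
  · rintro ⟨h1, h2⟩
    exact Finset.dvd_prod_of_mem _ (Finset.mem_erase.2 ⟨h2, Nat.mem_primeFactors.2 ⟨hp, h1, hr⟩⟩)

theorem good_oddrad {r : ℕ} (hr : Adm r) : Good (oddrad r) := by
  constructor
  · rw [oddrad]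
    refine Finset.squarefree_prod_of_pairwise_isCoprime ?_ ?_
    · intro p hp q hq hpq
      have h1 := (Nat.mem_primeFactors.1 (Finset.mem_erase.1 (Finset.mem_coe.1 hp)).2).1
      have h2 := (Nat.mem_primeFactors.1 (Finset.mem_erase.1 (Finset.mem_coe.1 hq)).2).1
      exact Nat.coprime_iff_isRelPrime.1 ((Nat.coprime_primes h1 h2).2 hpq)
    · intro p hp
      exact (Nat.mem_primeFactors.1 (Finset.mem_erase.1 hp).2).1.prime.squarefree
  · intro p hp h
    obtain ⟨h1, h2⟩ := (dvd_oddrad hr.ne_zero hp).1 h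
    rcases hr.2.2 p hp h1 with h3 | h3
    · exact absurd h3 h2
    · exact h3

theorem coprime_of_no_prime {a b : ℕ} (h : ∀ p, p.Prime → p ∣ a → ¬ p ∣ b) : a.Coprime b := by
  rw [Nat.coprime_iff_gcd_eq_one]
  by_contra hne
  obtain ⟨p, hp, hd⟩ := Nat.exists_prime_and_dvd hne
  exact h p hp (hd.trans (Nat.gcd_dvd_left a b)) (hd.trans (Nat.gcd_dvd_right a b))

theorem int_coprime_of {x : ℤ} {a b : ℕ} (h : ∀ p, p.Prime → p ∣ a → p ∣ b)
    (hb : IsCoprime x (b : ℤ)) : IsCoprime x (a : ℤ) := by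
  rw [Int.isCoprime_iff_gcd_eq_one]
  by_contra hne
  obtain ⟨p, hp, hd⟩ := Nat.exists_prime_and_dvd hne
  have h1 : (p : ℤ) ∣ x := (Int.natCast_dvd_natCast.2 hd).trans (Int.gcd_dvd_left ..)
  have h2 : (p : ℤ) ∣ (a : ℤ) := (Int.natCast_dvd_natCast.2 hd).trans (Int.gcd_dvd_right ..)
  have h3 : (p : ℤ) ∣ (b : ℤ) := Int.natCast_dvd_natCast.2 (h p hp (Int.natCast_dvd_natCast.1 h2))
  exact (Nat.prime_iff_prime_int.1 hp).not_isUnit (hb.isUnit_of_dvd' h1 h3)

theorem good_mul {a b : ℕ} (ha : Good a) (hb : Good b) (h : ∀ p, p.Prime → p ∣ a → ¬ p ∣ b) :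
    Good (a * b) := by
  constructor
  · exact (Nat.squarefree_mul (coprime_of_no_prime h)).2 ⟨ha.1, hb.1⟩
  · intro p hp hd
    rcases (Nat.Prime.dvd_mul hp).1 hd with h1 | h1
    · exact ha.2 p hp h1
    · exact hb.2 p hp h1

/-- The character of level `4 (oddrad r) d` attached to a Dirichlet character modulo `d`. -/
noncomputable def phc (r : ℕ) {d : ℕ} (χ : DirichletCharacter ℂ d) (a : Eis) : ℂ :=
  phr r a * χ ((a.norm : ℤ) : ZMod d)

theorem phr_ne_zero {r : ℕ} (hr : Adm r) {a : Eis} (h : phr r a ≠ 0) :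
    IsCoprime a ((2 * r : ℕ) : Eis) := by
  by_contra h1
  exact h (phr_zero hr a h1)

theorem prime_dvd_level {r : ℕ} (hr : Adm r) (d : ℕ) (p : ℕ) (hp : p.Prime) (h : p ∣ 2 * r) :
    p ∣ 4 * (oddrad r * d) := by
  by_cases h2 : p = 2
  · subst h2
    exact Dvd.dvd.mul_right (by norm_num) _
  · have h3 : p ∣ r := by
      rcases (Nat.Prime.dvd_mul hp).1 h with h4 | h4
      · exact absurd ((Nat.prime_dvd_prime_iff_eq hp Nat.prime_two).1 h4) h2
      · exact h4
    exact (((dvd_oddrad hr.ne_zero hp).2 ⟨h3, h2⟩).mul_right d).mul_left 4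

theorem isCh_phc {r : ℕ} (hr : Adm r) {d : ℕ} (χ : DirichletCharacter ℂ d) :
    IsCh (4 * (oddrad r * d)) (phc r χ) where
  one := by
    have h1 : ((1 : Eis).norm : ℤ) = 1 := map_one _
    rw [phc, phr_one hr, h1]
    simp
  mul a b := by
    rw [phc, phc, phc, phr_mul hr, norm_mul_eis]
    push_cast
    rw [map_mul]
    ring
  per a b := by
    obtain ⟨t, ht⟩ := norm_add_mul (4 * (oddrad r * d)) a b
    have h2 : (((a + ((4 * (oddrad r * d) : ℕ) : Eis) * b).norm : ℤ) : ZMod d) =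
        ((a.norm : ℤ) : ZMod d) := by
      rw [ht, ZMod.intCast_eq_intCast_iff_dvd_sub]
      exact ⟨-(4 * oddrad r * t), by push_cast; ring⟩
    have h4 : ch4 (a + ((4 * (oddrad r * d) : ℕ) : Eis) * b) = ch4 a := by
      have h1 : (((a + ((4 * (oddrad r * d) : ℕ) : Eis) * b).norm : ℤ) : ZMod 4) =
          ((a.norm : ℤ) : ZMod 4) := by
        rw [ht, ZMod.intCast_eq_intCast_iff_dvd_sub]
        exact ⟨-(oddrad r * d * t), by push_cast; ring⟩
      rw [ch4, ch4, h1]
    rw [phc, phc, phr, phr, h2, h4, kapn_per (2 * r) hr.not_three _ (prime_dvd_level hr d)]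
  unit u hu := by
    have h1 : (u.norm : ℤ) = 1 := (eis_isUnit_iff u).1 hu
    have h2 : ch4 u = 1 := by
      rw [ch4, h1]
      simp
    rw [phc, phr, kapn_unit (2 * r) hr.nine u hu, h1, h2]
    simp
  zero a ha := by
    by_contra hne
    apply ha
    have h1 : phr r a ≠ 0 := left_ne_zero_of_mul hne
    have h2 : χ ((a.norm : ℤ) : ZMod d) ≠ 0 := right_ne_zero_of_mul hne
    have h3 : IsCoprime a.norm (4 : ℤ) := by
      have h4 : ZMod.χ₄ ((a.norm : ℤ) : ZMod 4) ≠ 0 := by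
        intro h0
        apply h1
        simp only [phr, ch4, h0, Int.cast_zero, zero_mul]
      have h5 : IsUnit ((a.norm : ℤ) : ZMod 4) := by
        by_contra hu
        exact h4 (MulChar.map_nonunit _ hu)
      have h6 := (ZMod.coe_int_isUnit_iff_isCoprime a.norm 4).1 h5
      exact_mod_cast h6.symm
    have h4 : IsCoprime a.norm (d : ℤ) := by
      have h5 : IsUnit ((a.norm : ℤ) : ZMod d) := by
        by_contra hu
        exact h2 (MulChar.map_nonunit _ hu)
      exact ((ZMod.coe_int_isUnit_iff_isCoprime a.norm d).1 h5).symm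
    have h5 := phr_ne_zero hr h1
    rw [coprime_iff] at h5
    have h6 : IsCoprime a.norm (oddrad r : ℤ) := by
      have h7 : IsCoprime a.norm (r : ℤ) := by
        push_cast at h5
        exact h5.of_mul_right_right
      have h8 : (oddrad r : ℤ) ∣ (r : ℤ) := by
        rw [Int.natCast_dvd_natCast, oddrad]
        exact (Finset.prod_dvd_prod_of_subset _ _ _ (Finset.erase_subset _ _)).trans
          (Nat.prod_primeFactors_dvd r)
      exact h7.of_isCoprime_of_dvd_right h8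
    rw [coprime_iff]
    push_cast
    exact h3.mul_right (h6.mul_right h4)

theorem cf_phc (r : ℕ) {d : ℕ} (χ : DirichletCharacter ℂ d) (n : ℕ) :
    cf (phc r χ) n = χ n * cf (phr r) n := by
  rw [cf, cf, Finset.mul_sum]
  refine Finset.sum_congr rfl fun a ha => ?_
  rw [mem_primSet] at ha
  rw [phc, ha.1]
  push_cast
  ring

theorem analytic_part_r {r : ℕ} (hr : Adm r) (K : Type) [Field K] [NumberField K] (m : ℕ)
    (hm : Good m) (hrm : ∀ p, p.Prime → p ∣ r → ¬ p ∣ m)
    (S : Finset (DirichletCharacter ℂ m)) (hS : SplitData K S) (n : ℕ)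
    (hord : ∀ χ ∈ S, χ ^ 3 ^ n = 1) (hun : ∀ p, p.Prime → p ∣ 6 * r → Unram p K) :
    ∃ Lm : ℂ → ℂ, Differentiable ℂ Lm ∧
      (∀ s : ℂ, 3 / 2 < s.re →
        LSeriesSummable (fun k => ((W (-(r : ℤ) ^ 2) K).LFunction k : ℂ)) s ∧
        Lm s = (W (-(r : ℤ) ^ 2) K).LSeries s) ∧ Lm 1 ≠ 0 := by
  have key : ∀ χ ∈ S, ∃ Φ : ℂ → ℂ, Differentiable ℂ Φ ∧
      (∀ s : ℂ, 3 / 2 < s.re → LSeriesSummable (fun k => twc (cr r) χ k) s ∧
        Φ s = LSeries (fun k => twc (cr r) χ k) s) ∧ Φ 1 ≠ 0 := by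
    intro χ hχ
    have h1 : χ.primitiveCharacter ^ 3 ^ (n + 1) = 1 := by
      have := primitive_pow χ _ (hord χ hχ)
      rw [pow_succ, pow_mul, this, one_pow]
    have hd : Good χ.conductor := hm.of_dvd χ.conductor_dvd_level
    have hrd : Good (oddrad r * χ.conductor) := by
      refine good_mul (good_oddrad hr) hd ?_
      intro p hp h h'
      exact hrm p hp ((dvd_oddrad hr.ne_zero hp).1 h).1 (h'.trans χ.conductor_dvd_level)
    have hch := isCh_phc hr χ.primitiveCharacter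
    have h4 : (fun k => twc (cr r) χ k) = cf (phc r χ.primitiveCharacter) := by
      funext k
      rw [twc_apply, pval, cr_apply, cf_phc]
    have hM : 4 * (oddrad r * χ.conductor) ≠ 0 := mul_ne_zero (by norm_num) hrd.ne_zero
    obtain ⟨Φ, hΦ, hs, c, hc, h5⟩ := L_entire hM hrd.not_three_dvd hch
    refine ⟨Φ, hΦ, ?_, ?_⟩
    · rw [h4]; exact hs
    · rw [h5]
      refine mul_ne_zero hc ?_
      apply sum_ne_zero _ hrd _ hch (n + 1)
      intro a ha
      rw [coprime_iff] at ha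
      push_cast at ha
      have ha4 : IsCoprime a.norm (4 : ℤ) := ha.of_mul_right_left
      have haR : IsCoprime a.norm (oddrad r : ℤ) := ha.of_mul_right_right.of_mul_right_left
      have had : IsCoprime a.norm (χ.conductor : ℤ) := ha.of_mul_right_right.of_mul_right_right
      have hu : IsUnit ((a.norm : ℤ) : ZMod χ.conductor) :=
        (ZMod.coe_int_isUnit_iff_isCoprime a.norm χ.conductor).2 had.symm
      have hodd : Odd a.norm := by
        rw [← Int.not_even_iff_odd, even_iff_two_dvd]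
        intro h
        have := ha4.isUnit_of_dvd' h (by norm_num)
        norm_num [Int.isUnit_iff] at this
      have ha2r : IsCoprime a ((2 * r : ℕ) : Eis) := by
        rw [coprime_iff]
        exact int_coprime_of (fun p hp h => prime_dvd_level hr χ.conductor p hp h)
          (by push_cast; exact ha)
      have hsq : ch4 a * ch4 a = 1 := by
        unfold ch4
        have : (ZMod.χ₄ ((a.norm : ℤ) : ZMod 4)) = 1 ∨ (ZMod.χ₄ ((a.norm : ℤ) : ZMod 4)) = -1 := by
          have h1 : a.norm % 4 = 1 ∨ a.norm % 4 = 3 := by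
            rw [Int.odd_iff] at hodd; omega
          rcases h1 with h1 | h1
          · exact Or.inl (ZMod.χ₄_int_one_mod_four h1)
          · exact Or.inr (ZMod.χ₄_int_three_mod_four h1)
        rcases this with h1 | h1 <;> rw [h1] <;> norm_num
      have h6 : phc r χ.primitiveCharacter a * ch4 a =
          kapn (2 * r) a * χ.primitiveCharacter ((a.norm : ℤ) : ZMod χ.conductor) := by
        rw [phc, phr]
        linear_combination (kapn (2 * r) a *
          χ.primitiveCharacter ((a.norm : ℤ) : ZMod χ.conductor)) * hsq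
      rw [h6, mul_pow]
      have h8 : kapn (2 * r) a ^ 3 ^ (n + 1) = 1 := by
        rw [pow_succ', pow_mul, kapn_cube (2 * r) hr.not_three a ha2r, one_pow]
      rw [h8, one_mul]
      obtain ⟨u, hu'⟩ := hu
      rw [← hu', ← map_pow, ← Units.val_pow_eq_pow_val]
      have h7 := congrArg (fun ψ : DirichletCharacter ℂ χ.conductor => ψ (u : ZMod χ.conductor)) h1
      simp only [MulChar.pow_apply_coe, MulChar.one_apply_coe] at h7
      rw [Units.val_pow_eq_pow_val, map_pow]
      exact h7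
  choose! Φ hΦ1 hΦ2 hΦ3 using key
  have hbad : ∀ p : ℕ, p.Prime → (p : ℤ) ∣ 6 * (-(r : ℤ) ^ 2) →
      ∀ v : HeightOneSpectrum (𝓞 K), (p : 𝓞 K) ∈ v.asIdeal → fw (-(r : ℤ) ^ 2) K v = 1 := by
    intro p hp hd v hv
    refine bad_r r hr K p hp hd (hun p hp ?_) v hv
    have hpi : Prime (p : ℤ) := Nat.prime_iff_prime_int.1 hp
    have h1 : (p : ℤ) ∣ 6 * (r * r) := by
      have : (6 * (-(r : ℤ) ^ 2)) = -(6 * (r * r)) := by ring
      rw [this] at hd
      exact (dvd_neg).1 hd
    have h2 : (p : ℤ) ∣ 6 * r := by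
      rcases hpi.dvd_or_dvd h1 with h3 | h3
      · exact h3.mul_right _
      · rcases hpi.dvd_or_dvd h3 with h4 | h4 <;> exact h4.mul_left _
    exact_mod_cast h2
  have hLC : (fun k => ((W (-(r : ℤ) ^ 2) K).LFunction k : ℂ)) =
      fun k => (∏ χ ∈ S, twc (cr r) χ) k := by
    funext k
    rw [← LW_apply, LW_eq (locDataR hr) K S hS hbad]
  refine ⟨fun s => ∏ χ ∈ S, Φ χ s, ?_, ?_, ?_⟩
  · exact Differentiable.fun_finsetProd hΦ1
  · intro s hs
    obtain ⟨h1, h2⟩ := LSeries_prod S (fun χ => twc (cr r) χ) s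
      (fun χ hχ => (hΦ2 χ hχ s hs).1)
    rw [hLC]
    refine ⟨h1, ?_⟩
    have h3 : (W (-(r : ℤ) ^ 2) K).LSeries s =
      LSeries (fun k => ((W (-(r : ℤ) ^ 2) K).LFunction k : ℂ)) s := rfl
    rw [h3, hLC, h2]
    exact Finset.prod_congr rfl fun χ hχ => (hΦ2 χ hχ s hs).2
  · exact Finset.prod_ne_zero_iff.2 hΦ3

/-- Main theorem for the family `y² = x³ - r²`. -/
theorem main_r {r : ℕ} (hr : Adm r) (m : ℕ) [NeZero m] (h9 : ¬ 9 ∣ m)
    (h12 : ∀ p, p.Prime → p ∣ m → p % 12 ≠ 1)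
    (hrm : ∀ p, p.Prime → p ∣ m → p ∣ r → p = 2)
    (M : Type) [Field M] [NumberField M] [IsCyclotomicExtension {m} ℚ M]
    (F : IntermediateField ℚ M) (n : ℕ) (h : Module.finrank ℚ F = 3 ^ n) :
    (∃ Lm : ℂ → ℂ, Differentiable ℂ Lm ∧
      (∀ s : ℂ, 3 / 2 < s.re →
        LSeriesSummable (fun k => ((W (-(r : ℤ) ^ 2) F).LFunction k : ℂ)) s ∧
        Lm s = (W (-(r : ℤ) ^ 2) F).LSeries s) ∧ Lm 1 ≠ 0) ∧
    ∀ x y : F, y ^ 2 ≠ x ^ 3 - (r : F) ^ 2 := by
  obtain ⟨m', _, hm', hdm, M', _, _, _, F', ⟨e⟩⟩ := reduce_level m h9 h12 M F n h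
  have hfin : Module.finrank ℚ F' = 3 ^ n := by
    rw [← h]; exact (LinearEquiv.finrank_eq e.toLinearEquiv).symm
  have hr3 : ¬ 3 ∣ r := fun h => hr.not_three (h.mul_left 2)
  have e' : F' ≃+* F := e.symm.toRingEquiv
  have hS' : SplitData F' (chars m' F') := fun p hp => split_all m' hm'.1 M' F' p hp
  have hS : SplitData F (chars m' F') := hS'.of_equiv e'
  have hrm' : ∀ p, p.Prime → p ∣ r → ¬ p ∣ m' := by
    intro p hp h1 h2
    have h3 := hrm p hp (h2.trans hdm) h1
    have h4 := hm'.2 p hp h2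
    rw [h3] at h4
    norm_num at h4
  have h3' : Unram 3 F' :=
    unram_of m' M' F' 3 Nat.prime_three (hm'.not_dvd Nat.prime_three (by norm_num))
  have hun : ∀ p, p.Prime → p ∣ 6 * r → Unram p F := by
    intro p hp hpd
    refine (unram_of m' M' F' p hp ?_).of_equiv e'
    rcases (Nat.Prime.dvd_mul hp).1 hpd with h1 | h1
    · intro h2
      have h4 := hm'.2 p hp h2
      have h5 : p ∣ 2 * 3 := h1
      rcases (Nat.Prime.dvd_mul hp).1 h5 with h6 | h6
      · rw [(Nat.prime_dvd_prime_iff_eq hp Nat.prime_two).1 h6] at h4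
        norm_num at h4
      · rw [(Nat.prime_dvd_prime_iff_eq hp Nat.prime_three).1 h6] at h4
        norm_num at h4
    · exact hrm' p hp h1
  refine ⟨analytic_part_r hr F m' hm' hrm' (chars m' F') hS n
    (fun χ hχ => chars_pow_gen m' M' F' _ hfin χ hχ) hun, ?_⟩
  intro x y hxy
  obtain ⟨v, hv⟩ := exists_place F' 3 Nat.prime_three
  have hv9 := h3' v hv
  refine no_affine m' hm' M' F' n hfin v (by exact_mod_cast hv) (by exact_mod_cast hv9) (2 * r)
    ?_ ?_ (4 * e x) (8 * e y) ?_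
  · have := hr.nine
    omega
  · intro p hp hd
    have hpi : Prime (p : ℤ) := Nat.prime_iff_prime_int.1 hp
    rcases hpi.dvd_or_dvd hd with h1 | h1
    · left
      exact (Nat.prime_dvd_prime_iff_eq hp Nat.prime_two).1 (by exact_mod_cast h1)
    · exact hr.2.2 p hp (by exact_mod_cast h1)
  · have := congrArg e hxy
    simp only [map_pow, map_sub, map_natCast] at this
    push_cast
    linear_combination 64 * this

end BS3
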