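import Mathlib
import Pool.Agent.MP_ae0bd0_nt.B3.Z9

/-!
The Birch and Swinnerton-Dyer rank conjecture (rank = order of vanishing = 0) for the infinite
family of elliptic curves `E_r : y² = x³ - r²`, `r` cube-free, `r ≡ ± 4 mod 9`, with all odd prime
factors `≡ 7 mod 12`, over every subfield of `3`-power degree of the cyclotomic fields `ℚ(ζ_m)`,
`m` any positive integer not divisible by `9`, without prime factors `≡ 1 mod 12` and without odd
common factor with `r`.
-/

set_option autoImplicit false

open NumberField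
open scoped Classical

namespace BS3.CubicTwist

/-- Let `r` be a cube-free positive integer with `r ≡ ± 4 mod 9` whose odd prime factors are all
`≡ 7 mod 12` (there are infinitely many, even prime to a given `m`). Let `m` be a positive integer
with `9 ∤ m`, without prime factor `≡ 1 mod 12`, and such that no odd prime divides both `m` and
`r`. Let `F` be a subfield of `ℚ(ζ_m)` whose degree is a power of `3`. Let `E` be the elliptic curve
`y² = x³ - r²` over `F`. Then Mathlib's `L`-series of `E` over `F` converges absolutely for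
`Re s > 3/2` and extends to an entire function `L`, and the order of vanishing of `L` at `s = 1` and
the rank of `E(F)` are both equal to `0`; more precisely `L(1) ≠ 0` and `E(F) = 0`. -/
theorem result :
    (∀ (r : ℕ), (r % 9 = 4 ∨ r % 9 = 5) → (∀ p, p.Prime → ¬ p ^ 3 ∣ r) →
      (∀ p, p.Prime → p ∣ r → p = 2 ∨ p % 12 = 7) →
      ∀ (m : ℕ) [NeZero m], ¬ 9 ∣ m → (∀ p, p.Prime → p ∣ m → p % 12 ≠ 1) →
      (∀ p, p.Prime → p ∣ m → p ∣ r → p = 2) →
      ∀ (M : Type) [Field M] [NumberField M] [IsCyclotomicExtension {m} ℚ M]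
        (F : IntermediateField ℚ M) (n : ℕ), Module.finrank ℚ F = 3 ^ n →
      ∀ E : WeierstrassCurve F, E = ⟨0, 0, 0, 0, -(r : F) ^ 2⟩ → E.IsElliptic ∧
        ∃ L : ℂ → ℂ, Differentiable ℂ L ∧
          (∀ s : ℂ, 3 / 2 < s.re →
            LSeriesSummable (fun k => (E.LFunction k : ℂ)) s ∧ L s = E.LSeries s) ∧
          analyticOrderAt L 1 = Module.finrank ℤ E.toAffine.Point ∧
          L 1 ≠ 0 ∧ Subsingleton E.toAffine.Point) ∧
    ∀ m : ℕ, m ≠ 0 → {r : ℕ | (r % 9 = 4 ∨ r % 9 = 5) ∧ (∀ p, p.Prime → ¬ p ^ 3 ∣ r) ∧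
      (∀ p, p.Prime → p ∣ r → p = 2 ∨ p % 12 = 7) ∧ r.Coprime m}.Infinite := by
  refine ⟨?_, ?_⟩
  · intro r hr9 hcf hr7 m _ h9 h12 hrm M _ _ _ F n h E hE
    have hr : BS3.Adm r := ⟨hr9, hcf, hr7⟩
    obtain ⟨⟨L, hL1, hL2, hL3⟩, hno⟩ := BS3.main_r hr m h9 h12 hrm M F n h
    have hEW : E = BS3.W (-(r : ℤ) ^ 2) F := by
      rw [hE, BS3.W]
      push_cast
      rfl
    have hsub : Subsingleton E.toAffine.Point := by
      refine ⟨?_⟩
      have key : ∀ P : E.toAffine.Point, P = 0 := by
        intro P
        rcases P with _ | ⟨x, y, hxy⟩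
        · rfl
        · exfalso
          have h1 := (WeierstrassCurve.Affine.equation_iff _ _).1 hxy.1
          apply hno x y
          rw [hE] at h1
          simp only [WeierstrassCurve.toAffine] at h1
          linear_combination h1
      intro P Q
      rw [key P, key Q]
    refine ⟨?_, L, hL1, ?_, ?_, hL3, hsub⟩
    · rw [WeierstrassCurve.isElliptic_iff, hE]
      have hr0 : (r : F) ≠ 0 := by
        have := hr.ne_zero
        exact_mod_cast this
      simp only [WeierstrassCurve.Δ, WeierstrassCurve.b₂, WeierstrassCurve.b₄,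
        WeierstrassCurve.b₆, WeierstrassCurve.b₈]
      rw [isUnit_iff_ne_zero]
      have h1 : (-432 : F) * (r : F) ^ 4 ≠ 0 :=
        mul_ne_zero (by norm_num) (pow_ne_zero 4 hr0)
      intro h0
      apply h1
      linear_combination h0
    · intro s hs
      rw [hEW]
      exact hL2 s hs
    · have h1 : analyticOrderAt L 1 = 0 := (hL1.analyticAt 1).analyticOrderAt_eq_zero.2 hL3
      have h2 : Module.finrank ℤ E.toAffine.Point = 0 := Module.finrank_zero_of_subsingleton
      rw [h1, h2]
      rfl
  · intro m hm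
    have h1 : {p : ℕ | p.Prime ∧ p ≡ 31 [MOD 36]}.Infinite :=
      Nat.infinite_setOfPred_prime_and_modEq (by norm_num) (by norm_num)
    refine (h1.diff (Set.finite_le_nat m)).mono ?_
    rintro r ⟨⟨hp, hmod⟩, hgt⟩
    have hmod' : r % 36 = 31 := hmod
    have hgt' : m < r := by
      by_contra hcon
      exact hgt (by simpa using hcon)
    refine ⟨by omega, ?_, ?_, ?_⟩
    · intro p hpp hd
      have h2 : p = r := (Nat.prime_dvd_prime_iff_eq hpp hp).1
        ((dvd_pow_self p (by norm_num)).trans hd)
      rw [h2] at hd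
      have h3 := Nat.le_of_dvd hp.pos hd
      have h4 : 2 ≤ r := hp.two_le
      nlinarith [sq_nonneg (r : ℤ), Nat.pow_le_pow_left h4 2, pow_succ r 2]
    · intro p hpp hd
      have h2 : p = r := (Nat.prime_dvd_prime_iff_eq hpp hp).1 hd
      omega
    · exact (Nat.Prime.coprime_iff_not_dvd hp).2 fun hd =>
        absurd (Nat.le_of_dvd (Nat.pos_of_ne_zero hm) hd) (by omega)

end BS3.CubicTwist
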