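import Pool.Agent.MP_ae0bd0_nt.B3.Defs
import Pool.Agent.MP_ae0bd0_nt.CM.G1
import Pool.Agent.MP_9ab903_nt.Lent

set_option autoImplicit false

open scoped ComplexConjugate
open Filter Topology CM27 Polynomial

namespace BS3

/-! ## [BS3-E1] the series `Hs s z` at torsion points are entire (file E1.lean) -/

/-- `∏_{0<i<k} (X - q^i)` -/
noncomputable def e1Q (q k : ℕ) : ℂ[X] := ∏ i ∈ Finset.Ico 1 k, (X - C ((q : ℂ) ^ i))

theorem e1Q_eval (q k : ℕ) (x : ℂ) :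
    (e1Q q k).eval x = ∏ i ∈ Finset.Ico 1 k, (x - (q : ℂ) ^ i) := by
  rw [e1Q, eval_prod]
  exact Finset.prod_congr rfl fun i _ => by rw [eval_sub, eval_X, eval_C]

theorem e1Q_eval_pow {q k l : ℕ} (h1 : 1 ≤ l) (h2 : l < k) :
    (e1Q q k).eval ((q : ℂ) ^ l) = 0 := by
  rw [e1Q_eval]
  exact Finset.prod_eq_zero (Finset.mem_Ico.2 ⟨h1, h2⟩) (sub_self _)

theorem e1Q_eval_ne {q : ℕ} (hq : 2 ≤ q) (k : ℕ) : (e1Q q k).eval 1 ≠ 0 := by
  rw [e1Q_eval]
  refine Finset.prod_ne_zero_iff.2 fun i hi h => ?_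
  have h1 := (Finset.mem_Ico.1 hi).1
  have h2 : (1 : ℂ) = (q : ℂ) ^ i := sub_eq_zero.1 h
  have h3 : q ^ i = 1 := by exact_mod_cast h2.symm
  have h4 : 2 ^ 1 ≤ q ^ i := (Nat.pow_le_pow_left hq 1).trans (Nat.pow_le_pow_right (by omega) h1)
  omega

/-- The number of terms of the operator. -/
noncomputable def e1N (q k : ℕ) : ℕ := (e1Q q k).natDegree

/-- The operator `∏_{0<i<k} (T - q^i)`, `T f(z) = f(q z)`. -/
noncomputable def e1T (q k : ℕ) (f : ℂ → ℂ) (z : ℂ) : ℂ :=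
  ∑ j ∈ Finset.range (e1N q k + 1), (e1Q q k).coeff j * f ((q : ℂ) ^ j * z)

theorem e1Q_eval_sum (q k : ℕ) (x : ℂ) :
    (e1Q q k).eval x = ∑ j ∈ Finset.range (e1N q k + 1), (e1Q q k).coeff j * x ^ j :=
  eval_eq_sum_range x

/-- The sum of the absolute values of the coefficients. -/
noncomputable def e1A (q k : ℕ) : ℝ := ∑ j ∈ Finset.range (e1N q k + 1), ‖(e1Q q k).coeff j‖

theorem e1A_nonneg (q k : ℕ) : 0 ≤ e1A q k := Finset.sum_nonneg fun _ _ => norm_nonneg _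

theorem e1_one_le {q : ℕ} (hq : 2 ≤ q) : (1 : ℝ) ≤ q := by
  have : (2 : ℝ) ≤ q := by exact_mod_cast hq
  linarith

theorem e1Q_norm_le {q : ℕ} (hq : 2 ≤ q) (k l : ℕ) :
    ‖(e1Q q k).eval ((q : ℂ) ^ l)‖ ≤ e1A q k * ((q : ℝ) ^ e1N q k) ^ l := by
  rw [e1Q_eval_sum, e1A, Finset.sum_mul]
  refine (norm_sum_le _ _).trans (Finset.sum_le_sum fun j hj => ?_)
  rw [norm_mul, norm_pow, norm_pow, Complex.norm_natCast]
  refine mul_le_mul_of_nonneg_left ?_ (norm_nonneg _)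
  rw [← pow_mul, ← pow_mul]
  have hj' : j ≤ e1N q k := Nat.lt_succ_iff.1 (Finset.mem_range.1 hj)
  exact pow_le_pow_right₀ (e1_one_le hq) (by rw [mul_comm]; exact Nat.mul_le_mul_right _ hj')

/-- The operator kills the Taylor terms of degree `1, …, k - 1`. -/
theorem e1_cauchy {q : ℕ} (hq : 2 ≤ q) (k : ℕ) (f : ℂ → ℂ) (M : ℝ) (hM : 0 ≤ M)
    (hf : DifferentiableOn ℂ f (Metric.ball 0 (1 / 2)))
    (hb : ∀ t ∈ Metric.ball (0 : ℂ) (1 / 2), ‖f t‖ ≤ M) (t : ℂ)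
    (ht : 4 * (q : ℝ) ^ e1N q k * ‖t‖ ≤ 1 / 2) :
    ‖e1T q k f t - (e1Q q k).eval 1 * f 0‖ ≤
      2 * (e1A q k * M) * (4 * (q : ℝ) ^ e1N q k * ‖t‖) ^ k := by
  set c : ℕ → ℂ := fun l => (l.factorial : ℂ)⁻¹ * iteratedDeriv l f 0 with hc
  have hc0 : c 0 = f 0 := by simp [hc]
  have hball : Metric.closedBall (0 : ℂ) (1 / 4) ⊆ Metric.ball 0 (1 / 2) :=
    Metric.closedBall_subset_ball (by norm_num)
  have hcl : ∀ l, ‖c l‖ ≤ M * 4 ^ l := by
    intro l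
    have h1 : ‖iteratedDeriv l f 0‖ ≤ l.factorial * M / (1 / 4) ^ l := by
      apply Complex.norm_iteratedDeriv_le_of_forall_mem_sphere_norm_le l (by norm_num)
      · exact hf.diffContOnCl_ball hball
      · intro z hz
        exact hb z (hball (Metric.sphere_subset_closedBall hz))
    have h2 : (0 : ℝ) < l.factorial := by positivity
    rw [hc]
    simp only [norm_mul, norm_inv, Complex.norm_natCast]
    calc (l.factorial : ℝ)⁻¹ * ‖iteratedDeriv l f 0‖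
        ≤ (l.factorial : ℝ)⁻¹ * (l.factorial * M / (1 / 4) ^ l) :=
          mul_le_mul_of_nonneg_left h1 (by positivity)
      _ = M * 4 ^ l := by
          rw [one_div, inv_pow, div_inv_eq_mul, ← mul_assoc, ← mul_assoc,
            inv_mul_cancel₀ h2.ne', one_mul]
  have hser : ∀ u ∈ Metric.ball (0 : ℂ) (1 / 2), HasSum (fun l => c l * u ^ l) (f u) := by
    intro u hu
    have h1 := Complex.hasSum_taylorSeries_on_ball hf hu
    have h2 : (fun l : ℕ => (l.factorial : ℂ)⁻¹ • (u - 0) ^ l • iteratedDeriv l f 0) =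
        fun l => c l * u ^ l := by
      funext l
      simp only [hc, smul_eq_mul, sub_zero]
      ring
    rwa [h2] at h1
  have hρ0 : 0 ≤ 4 * (q : ℝ) ^ e1N q k * ‖t‖ := by positivity
  have hmem : ∀ j ∈ Finset.range (e1N q k + 1), (q : ℂ) ^ j * t ∈ Metric.ball (0 : ℂ) (1 / 2) := by
    intro j hj
    have hj' : j ≤ e1N q k := Nat.lt_succ_iff.1 (Finset.mem_range.1 hj)
    rw [mem_ball_zero_iff, norm_mul, norm_pow, Complex.norm_natCast]
    have h1 : (q : ℝ) ^ j ≤ (q : ℝ) ^ e1N q k := pow_le_pow_right₀ (e1_one_le hq) hj'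
    have h2 : (q : ℝ) ^ j * ‖t‖ ≤ (q : ℝ) ^ e1N q k * ‖t‖ :=
      mul_le_mul_of_nonneg_right h1 (norm_nonneg _)
    linarith
  have hsum1 : HasSum (fun l => ∑ j ∈ Finset.range (e1N q k + 1),
      (e1Q q k).coeff j * (c l * ((q : ℂ) ^ j * t) ^ l)) (e1T q k f t) :=
    hasSum_sum fun j hj => (hser _ (hmem j hj)).mul_left _
  have hsum2 : HasSum (fun l : ℕ => if l = 0 then (e1Q q k).eval 1 * f 0 else 0)
      ((e1Q q k).eval 1 * f 0) := hasSum_ite_eq 0 _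
  have hterm : ∀ l, ∑ j ∈ Finset.range (e1N q k + 1),
      (e1Q q k).coeff j * (c l * ((q : ℂ) ^ j * t) ^ l) =
        c l * t ^ l * (e1Q q k).eval ((q : ℂ) ^ l) := by
    intro l
    rw [e1Q_eval_sum, Finset.mul_sum]
    refine Finset.sum_congr rfl fun j _ => ?_
    rw [mul_pow, ← pow_mul, ← pow_mul, mul_comm j l]
    ring
  have hsum3 := hsum1.sub hsum2
  have hzero : ∀ l, l < k ∨ l = 0 → (∑ j ∈ Finset.range (e1N q k + 1),
      (e1Q q k).coeff j * (c l * ((q : ℂ) ^ j * t) ^ l)) -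
        (if l = 0 then (e1Q q k).eval 1 * f 0 else 0) = 0 := by
    intro l hl
    rw [hterm]
    by_cases h : l = 0
    · subst h
      simp [hc0, mul_comm]
    · rw [if_neg h, e1Q_eval_pow (Nat.one_le_iff_ne_zero.2 h) (hl.resolve_right h)]
      ring
  refine lent_geom (mul_nonneg (e1A_nonneg q k) hM) hρ0 ht hsum3
    (fun l hl => hzero l (Or.inl hl)) fun l => ?_
  by_cases h : l = 0
  · rw [hzero l (Or.inr h), norm_zero]
    exact mul_nonneg (mul_nonneg (e1A_nonneg q k) hM) (pow_nonneg hρ0 _)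
  · rw [if_neg h, sub_zero, hterm, norm_mul, norm_mul, norm_pow]
    have h1 := hcl l
    have h2 := e1Q_norm_le hq k l
    calc ‖c l‖ * ‖t‖ ^ l * ‖(e1Q q k).eval ((q : ℂ) ^ l)‖
        ≤ (M * 4 ^ l) * ‖t‖ ^ l * (e1A q k * ((q : ℝ) ^ e1N q k) ^ l) := by
          gcongr
      _ = e1A q k * M * (4 * (q : ℝ) ^ e1N q k * ‖t‖) ^ l := by
          rw [mul_pow, mul_pow]; ring

/-- `k`-th order differences of `gs s` are of order `|u| ^ (1 - 2 Re s - k)`. -/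
theorem e1_diff {q : ℕ} (hq : 2 ≤ q) (k : ℕ) (z : ℂ) (r : ℝ) : ∃ C R : ℝ, 0 ≤ C ∧ 1 ≤ R ∧
    ∀ (s u : ℂ), ‖s‖ ≤ r → R ≤ ‖u‖ →
      ‖e1T q k (fun v => gs s (v + u)) z - (e1Q q k).eval 1 * gs s u‖ ≤
        C * ‖u‖ ^ (1 - 2 * s.re - k) := by
  set D : ℝ := 4 * (q : ℝ) ^ e1N q k * ‖z‖ with hD
  have hD0 : 0 ≤ D := by positivity
  refine ⟨2 * (e1A q k * (2 * Real.exp (2 * r))) * D ^ k, max 1 (2 * D), ?_, le_max_left _ _, ?_⟩
  · have := e1A_nonneg q k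
    positivity
  intro s u hs hu
  have hu1 : 1 ≤ ‖u‖ := (le_max_left _ _).trans hu
  have hu2 : 2 * D ≤ ‖u‖ := (le_max_right _ _).trans hu
  have hupos : 0 < ‖u‖ := by linarith
  have hu0 : u ≠ 0 := norm_pos_iff.1 hupos
  obtain ⟨e, he, hze⟩ := lent_polar (z / u)
  set τ : ℝ := ‖z / u‖ with hτ
  have hτ0 : 0 ≤ τ := norm_nonneg _
  have hτD : 4 * (q : ℝ) ^ e1N q k * τ = D / ‖u‖ := by
    rw [hτ, norm_div, hD]; ring
  have hτ2 : 4 * (q : ℝ) ^ e1N q k * τ ≤ 1 / 2 := by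
    rw [hτD, div_le_iff₀ hupos]; linarith
  have hpow : ∀ j ∈ Finset.range (e1N q k + 1), (q : ℝ) ^ j * τ < 1 := by
    intro j hj
    have hj' : j ≤ e1N q k := Nat.lt_succ_iff.1 (Finset.mem_range.1 hj)
    have h1 : (q : ℝ) ^ j ≤ (q : ℝ) ^ e1N q k := pow_le_pow_right₀ (e1_one_le hq) hj'
    have h2 : (q : ℝ) ^ j * τ ≤ (q : ℝ) ^ e1N q k * τ := mul_le_mul_of_nonneg_right h1 hτ0
    linarith
  have hT : e1T q k (fun v => gs s (v + u)) z = gs s u * e1T q k (lentH s e) τ := by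
    rw [e1T, e1T, Finset.mul_sum]
    refine Finset.sum_congr rfl fun j hj => ?_
    have h1 : lentH s e ((q : ℂ) ^ j * τ) = gs s (1 + (q : ℂ) ^ j * (z / u)) := by
      have h2 := lentH_real s e he ((q : ℝ) ^ j * τ) (by positivity) (hpow j hj)
      push_cast at h2
      rw [h2, hze, mul_assoc]
    have h3 : (q : ℂ) ^ j * z + u = u * (1 + (q : ℂ) ^ j * (z / u)) := by
      field_simp
      ring
    rw [h1, h3, gs_mul]
    ring
  have hH0 : lentH s e 0 = 1 := by simp [lentH]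
  have hkey := e1_cauchy hq k (lentH s e) (2 * Real.exp (2 * r)) (by positivity)
    (lentH_diff s e he) (fun t ht => (lentH_bound s e he t ht).trans (by gcongr)) (τ : ℂ) (by
      rw [Complex.norm_real, Real.norm_of_nonneg hτ0]
      exact hτ2)
  rw [Complex.norm_real, Real.norm_of_nonneg hτ0, hτD, hH0, mul_one] at hkey
  have hfac : e1T q k (fun v => gs s (v + u)) z - (e1Q q k).eval 1 * gs s u =
      gs s u * (e1T q k (lentH s e) τ - (e1Q q k).eval 1) := by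
    rw [hT]; ring
  rw [hfac, norm_mul, lent_norm_gs s u hu0]
  calc ‖u‖ ^ (1 - 2 * s.re) * ‖e1T q k (lentH s e) τ - (e1Q q k).eval 1‖
      ≤ ‖u‖ ^ (1 - 2 * s.re) * (2 * (e1A q k * (2 * Real.exp (2 * r))) * (D / ‖u‖) ^ k) :=
        mul_le_mul_of_nonneg_left hkey (Real.rpow_nonneg hupos.le _)
    _ = 2 * (e1A q k * (2 * Real.exp (2 * r))) * D ^ k * ‖u‖ ^ (1 - 2 * s.re - k) := by
        rw [Real.rpow_sub hupos (1 - 2 * s.re) k, Real.rpow_natCast, div_pow]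
        ring

/-- The terms of the regularised series. -/
noncomputable def e1S (q k : ℕ) (z s : ℂ) (a : Eis) : ℂ :=
  e1T q k (fun v => gs s (v + emb a)) z - (e1Q q k).eval 1 * gs s (emb a)

theorem e1S_diff (q k : ℕ) (z : ℂ) (a : Eis) : Differentiable ℂ fun s => e1S q k z s a := by
  unfold e1S e1T
  refine Differentiable.sub ?_ ((g2b_gs_differentiable _).const_mul _)
  refine Differentiable.fun_sum fun j _ => ?_
  exact (g2b_gs_differentiable _).const_mul _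

/-- Crude bound. -/
noncomputable def e1B (q k : ℕ) (z : ℂ) (r : ℝ) (a : Eis) : ℝ :=
  (∑ j ∈ Finset.range (e1N q k + 1), ‖(e1Q q k).coeff j‖ * g2b_m r ((q : ℂ) ^ j * z + emb a)) +
    ‖(e1Q q k).eval 1‖ * g2b_m r (emb a)

theorem e1S_le (q k : ℕ) (z : ℂ) (r : ℝ) (s : ℂ) (hs : ‖s‖ ≤ r) (a : Eis) :
    ‖e1S q k z s a‖ ≤ e1B q k z r a := by
  unfold e1S e1T e1B
  refine (norm_sub_le _ _).trans (add_le_add ?_ ?_)
  · refine (norm_sum_le _ _).trans (Finset.sum_le_sum fun j _ => ?_)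
    rw [norm_mul]
    exact mul_le_mul_of_nonneg_left (g2b_gs_le r s _ hs) (norm_nonneg _)
  · rw [norm_mul]
    exact mul_le_mul_of_nonneg_left (g2b_gs_le r s _ hs) (norm_nonneg _)

theorem e1_majorant {q : ℕ} (hq : 2 ≤ q) (k : ℕ) (z : ℂ) (σ r : ℝ) (hσ : (3 - k : ℝ) / 2 < σ) :
    ∃ b : Eis → ℝ, Summable b ∧ ∀ (a : Eis) (s : ℂ), σ < s.re → ‖s‖ < r →
      ‖e1S q k z s a‖ ≤ b a := by
  obtain ⟨C, R, hC0, hR1, hC⟩ := e1_diff hq k z r
  classical
  refine ⟨fun a => if R ≤ ‖emb a‖ then C * ‖emb a‖ ^ (-(2 * σ + k - 1)) else e1B q k z r a, ?_, ?_⟩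
  · have h1 : Summable fun a : Eis => C * ‖emb a‖ ^ (-(2 * σ + k - 1)) :=
      (summable_norm (2 * σ + k - 1) (by linarith)).mul_left _
    refine h1.congr_cofinite ?_
    filter_upwards [g2b_eventually_large R] with a ha
    rw [if_pos ha]
  · intro a s hs1 hs2
    by_cases h : R ≤ ‖emb a‖
    · simp only [if_pos h]
      have ha1 : 1 ≤ ‖emb a‖ := hR1.trans h
      refine (hC s (emb a) hs2.le h).trans ?_
      refine mul_le_mul_of_nonneg_left ?_ hC0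
      exact Real.rpow_le_rpow_of_exponent_le ha1 (by linarith)
    · simp only [if_neg h]
      exact e1S_le q k z r s hs2.le a

theorem e1_tsum_diff {q : ℕ} (hq : 2 ≤ q) (k : ℕ) (z : ℂ) :
    DifferentiableOn ℂ (fun s => ∑' a : Eis, e1S q k z s a) {s : ℂ | (3 - k : ℝ) / 2 < s.re} := by
  intro s0 hs0
  have hs0' : (3 - k : ℝ) / 2 < s0.re := hs0
  obtain ⟨b, hb, hle⟩ := e1_majorant hq k z (((3 - k : ℝ) / 2 + s0.re) / 2) (‖s0‖ + 1)
    (by linarith)
  have hopen : IsOpen ({s : ℂ | ((3 - k : ℝ) / 2 + s0.re) / 2 < s.re} ∩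
      {s : ℂ | ‖s‖ < ‖s0‖ + 1}) :=
    (isOpen_lt continuous_const Complex.continuous_re).inter
      (isOpen_lt continuous_norm continuous_const)
  have h1 : DifferentiableOn ℂ (fun s => ∑' a : Eis, e1S q k z s a)
      ({s : ℂ | ((3 - k : ℝ) / 2 + s0.re) / 2 < s.re} ∩ {s : ℂ | ‖s‖ < ‖s0‖ + 1}) :=
    Complex.differentiableOn_tsum_of_summable_norm hb
      (fun a => (e1S_diff q k z a).differentiableOn) hopen
      (fun a s hs => hle a s hs.1 hs.2)
  have hmem : s0 ∈ {s : ℂ | ((3 - k : ℝ) / 2 + s0.re) / 2 < s.re} ∩ {s : ℂ | ‖s‖ < ‖s0‖ + 1} := by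
    constructor
    · show ((3 - k : ℝ) / 2 + s0.re) / 2 < s0.re
      linarith
    · show ‖s0‖ < ‖s0‖ + 1
      linarith
  exact ((h1 s0 hmem).differentiableAt (hopen.mem_nhds hmem)).differentiableWithinAt

theorem e1_tsum_eq (q k : ℕ) (z s : ℂ) (hs : 3 / 2 < s.re) :
    ∑' a : Eis, e1S q k z s a = e1T q k (Hs s) z := by
  have e3 : Summable fun a : Eis => gs s (emb a) := by
    have := summable_gs s 0 hs
    simpa using this
  have e4 : ∑' a : Eis, gs s (emb a) = 0 := by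
    have := Hs_zero s
    simpa [Hs] using this
  have e1 : ∀ j ∈ Finset.range (e1N q k + 1),
      Summable fun a : Eis => (e1Q q k).coeff j * gs s ((q : ℂ) ^ j * z + emb a) :=
    fun j _ => (summable_gs s _ hs).mul_left _
  unfold e1S e1T
  rw [(summable_sum e1).tsum_sub (e3.mul_left _), tsum_mul_left, e4, mul_zero, sub_zero,
    Summable.tsum_finsetSum e1]
  refine Finset.sum_congr rfl fun j _ => ?_
  rw [tsum_mul_left]
  rfl

/-- `q^j z ≡ z` for `q = N + 1`. -/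
theorem e1_pow {N : ℕ} {z : ℂ} {a : Eis} (h : emb a = (N : ℂ) * z) (j : ℕ) :
    ∃ b : Eis, ((N + 1 : ℕ) : ℂ) ^ j * z = z + emb b := by
  induction j with
  | zero => exact ⟨0, by simp⟩
  | succ j ih =>
    obtain ⟨b, hb⟩ := ih
    refine ⟨a + ((N + 1 : ℕ) : Eis) * b, ?_⟩
    rw [pow_succ, mul_comm _ ((N + 1 : ℕ) : ℂ), mul_assoc, hb, map_add, map_mul, map_natCast, h]
    push_cast
    ring

/-- For a torsion point `z` the function `s ↦ Hs s z` extends to an entire function. -/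
theorem Hs_entire (z : ℂ) (hz : Tors z) : ∃ Φ : ℂ → ℂ, Differentiable ℂ Φ ∧
    ∀ s : ℂ, 3 / 2 < s.re → Φ s = Hs s z := by
  obtain ⟨N, hN, a, ha⟩ := hz
  have hq : 2 ≤ N + 1 := by omega
  refine lent_glue (fun s => Hs s z) fun k => ?_
  refine ⟨fun s => ((e1Q (N + 1) k).eval 1)⁻¹ * ∑' a : Eis, e1S (N + 1) k z s a,
    (e1_tsum_diff hq k z).const_mul _, ?_⟩
  intro s hs
  beta_reduce
  rw [e1_tsum_eq (N + 1) k z s hs]
  have h1 : e1T (N + 1) k (Hs s) z = (e1Q (N + 1) k).eval 1 * Hs s z := by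
    rw [e1T, e1Q_eval_sum, Finset.sum_mul]
    refine Finset.sum_congr rfl fun j _ => ?_
    obtain ⟨b, hb⟩ := e1_pow ha j
    rw [hb, Hs_add, one_pow, mul_one]
  rw [h1, ← mul_assoc, inv_mul_cancel₀ (e1Q_eval_ne hq k), one_mul]

end BS3
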