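import Pool.Agent.MP_ae0bd0_nt.B3.E2a
import Pool.Agent.MP_ae0bd0_nt.CM.G2b

set_option autoImplicit false

open scoped ComplexConjugate
open Filter Topology CM27

namespace BS3

/-! ## [BS3-E2b] continuation of combinations with vanishing moments (file E2b.lean; uses E2a) -/

/-- The terms of the series. -/
noncomputable def e2b_T {ι : Type} (S : Finset ι) (c r : ι → ℂ) (s : ℂ) (a : Eis) : ℂ :=
  ∑ k ∈ S, c k * gs s (r k + emb a)

theorem e2b_T_differentiable {ι : Type} (S : Finset ι) (c r : ι → ℂ) (a : Eis) :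
    Differentiable ℂ fun s => e2b_T S c r s a := by
  unfold e2b_T
  refine Differentiable.fun_sum fun k _ => ?_
  exact (g2b_gs_differentiable _).const_mul _

theorem e2b_T_le {ι : Type} (S : Finset ι) (c r : ι → ℂ) (R : ℝ) (s : ℂ) (hs : ‖s‖ ≤ R) (a : Eis) :
    ‖e2b_T S c r s a‖ ≤ ∑ k ∈ S, ‖c k‖ * g2b_m R (r k + emb a) := by
  unfold e2b_T
  refine (norm_sum_le _ _).trans (Finset.sum_le_sum fun k _ => ?_)
  rw [norm_mul]
  exact mul_le_mul_of_nonneg_left (g2b_gs_le R s _ hs) (norm_nonneg _)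

/-- Summable majorant of the terms on `{σ < re s, ‖s‖ < R}`. -/
theorem e2b_majorant {ι : Type} (S : Finset ι) (c r : ι → ℂ) (h0 : ∑ k ∈ S, c k = 0)
    (h1 : ∑ k ∈ S, c k * r k = 0) (h2 : ∑ k ∈ S, c k * conj (r k) = 0)
    (σ R : ℝ) (hσ : 1 / 2 < σ) :
    ∃ b : Eis → ℝ, Summable b ∧ ∀ (a : Eis) (s : ℂ), σ < s.re → ‖s‖ < R →
      ‖e2b_T S c r s a‖ ≤ b a := by
  choose C hC using fun k => taylor2 (r k) R
  classical
  set R0 : ℝ := max (∑ k ∈ S, 2 * ‖r k‖) 1 with hR0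
  refine ⟨fun a => if R0 ≤ ‖emb a‖ then (∑ k ∈ S, ‖c k‖ * |C k|) * ‖emb a‖ ^ (-(2 * σ + 1))
    else ∑ k ∈ S, ‖c k‖ * g2b_m R (r k + emb a), ?_, ?_⟩
  · have h1 : Summable fun a : Eis =>
        (∑ k ∈ S, ‖c k‖ * |C k|) * ‖emb a‖ ^ (-(2 * σ + 1)) :=
      (summable_norm (2 * σ + 1) (by linarith)).mul_left _
    refine h1.congr_cofinite ?_
    filter_upwards [g2b_eventually_large R0] with a ha
    rw [if_pos ha]
  · intro a s hs1 hs2
    by_cases h : R0 ≤ ‖emb a‖
    · simp only [if_pos h]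
      have ha1 : 1 ≤ ‖emb a‖ := (le_max_right _ _).trans h
      have ha2 : ∀ k ∈ S, 2 * ‖r k‖ ≤ ‖emb a‖ := by
        intro k hk
        have h3 : 2 * ‖r k‖ ≤ ∑ k ∈ S, 2 * ‖r k‖ :=
          Finset.single_le_sum (f := fun k => 2 * ‖r k‖) (fun i _ => by positivity) hk
        exact h3.trans ((le_max_left _ _).trans h)
      have h4 : e2b_T S c r s a = ∑ k ∈ S, c k * (gs s (r k + emb a) - gs s (emb a) -
          (r k * g1 s (emb a) + conj (r k) * g2 s (emb a))) := by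
        have h5 : ∑ k ∈ S, c k * (gs s (r k + emb a) - gs s (emb a) -
          (r k * g1 s (emb a) + conj (r k) * g2 s (emb a))) =
            ∑ k ∈ S, (c k * gs s (r k + emb a) - c k * gs s (emb a) -
              (c k * r k * g1 s (emb a) + c k * conj (r k) * g2 s (emb a))) :=
          Finset.sum_congr rfl fun k _ => by ring
        rw [h5, Finset.sum_sub_distrib, Finset.sum_sub_distrib, Finset.sum_add_distrib,
          ← Finset.sum_mul, ← Finset.sum_mul, ← Finset.sum_mul, h0, h1, h2]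
        simp only [zero_mul, add_zero, sub_zero]
        rfl
      rw [h4, Finset.sum_mul]
      refine (norm_sum_le _ _).trans (Finset.sum_le_sum fun k hk => ?_)
      rw [norm_mul, mul_assoc]
      refine mul_le_mul_of_nonneg_left ?_ (norm_nonneg _)
      have h5 := hC k s (emb a) hs2.le (ha2 k hk) ha1 (by linarith)
      calc _ ≤ C k * ‖emb a‖ ^ (-2 * s.re - 1) := h5
        _ ≤ |C k| * ‖emb a‖ ^ (-2 * s.re - 1) :=
            mul_le_mul_of_nonneg_right (le_abs_self _) (Real.rpow_nonneg (by linarith) _)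
        _ ≤ |C k| * ‖emb a‖ ^ (-(2 * σ + 1)) := by
            apply mul_le_mul_of_nonneg_left _ (abs_nonneg _)
            exact Real.rpow_le_rpow_of_exponent_le ha1 (by linarith)
    · simp only [if_neg h]
      exact e2b_T_le S c r R s hs2.le a

theorem block {ι : Type} (S : Finset ι) (c r : ι → ℂ) (h0 : ∑ k ∈ S, c k = 0)
    (h1 : ∑ k ∈ S, c k * r k = 0) (h2 : ∑ k ∈ S, c k * conj (r k) = 0)
    (hr : ∀ k ∈ S, r k ∉ Set.range emb) :
    (Summable fun a : Eis => ∑ k ∈ S, c k * (r k + emb a)⁻¹) ∧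
    ∃ Φ : ℂ → ℂ, DifferentiableOn ℂ Φ HP ∧
      (∀ s : ℂ, 3 / 2 < s.re → Φ s = ∑ k ∈ S, c k * Hs s (r k)) ∧
      Φ 1 = ∑' a : Eis, ∑ k ∈ S, c k * (r k + emb a)⁻¹ := by
  have _ := hr
  have hone : ∀ a : Eis, e2b_T S c r 1 a = ∑ k ∈ S, c k * (r k + emb a)⁻¹ := by
    intro a
    unfold e2b_T
    exact Finset.sum_congr rfl fun k _ => by rw [gs_one]
  refine ⟨?_, fun s => ∑' a : Eis, e2b_T S c r s a, ?_, ?_, ?_⟩
  · obtain ⟨b, hb, hle⟩ := e2b_majorant S c r h0 h1 h2 (3 / 4) 2 (by norm_num)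
    refine Summable.of_norm_bounded hb (fun a => ?_)
    rw [← hone]
    exact hle a 1 (by norm_num) (by norm_num)
  · intro s0 hs0
    have hs0' : 1 / 2 < s0.re := hs0
    obtain ⟨b, hb, hle⟩ := e2b_majorant S c r h0 h1 h2 ((1 / 2 + s0.re) / 2) (‖s0‖ + 1)
      (by linarith)
    have hopen : IsOpen ({s : ℂ | (1 / 2 + s0.re) / 2 < s.re} ∩ {s : ℂ | ‖s‖ < ‖s0‖ + 1}) :=
      (isOpen_lt continuous_const Complex.continuous_re).inter
        (isOpen_lt continuous_norm continuous_const)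
    have h1 : DifferentiableOn ℂ (fun s => ∑' a : Eis, e2b_T S c r s a)
        ({s : ℂ | (1 / 2 + s0.re) / 2 < s.re} ∩ {s : ℂ | ‖s‖ < ‖s0‖ + 1}) :=
      Complex.differentiableOn_tsum_of_summable_norm hb
        (fun a => (e2b_T_differentiable S c r a).differentiableOn) hopen
        (fun a s hs => hle a s hs.1 hs.2)
    have hmem : s0 ∈ {s : ℂ | (1 / 2 + s0.re) / 2 < s.re} ∩ {s : ℂ | ‖s‖ < ‖s0‖ + 1} := by
      constructor
      · show (1 / 2 + s0.re) / 2 < s0.re
        linarith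
      · show ‖s0‖ < ‖s0‖ + 1
        linarith
    exact ((h1 s0 hmem).differentiableAt (hopen.mem_nhds hmem)).differentiableWithinAt
  · intro s hs
    show ∑' a : Eis, e2b_T S c r s a = _
    unfold e2b_T
    rw [Summable.tsum_finsetSum (fun k _ => (summable_gs s (r k) hs).mul_left (c k))]
    refine Finset.sum_congr rfl fun k _ => ?_
    rw [tsum_mul_left]
    rfl
  · show ∑' a : Eis, e2b_T S c r 1 a = _
    exact tsum_congr hone

end BS3
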