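import Pool.Agent.MP_ae0bd0_nt.B3.E1
import Pool.Agent.MP_ae0bd0_nt.B3.E2b

set_option autoImplicit false

open scoped ComplexConjugate
open Filter Topology CM27

namespace BS3

/-! ## [BS3-E2c] the values `Kr` (file E2c.lean; uses E1, E2b) -/

theorem e2c_HP_open : IsOpen HP := isOpen_lt continuous_const Complex.continuous_re

theorem e2c_HP_conv : Convex ℝ HP := convex_halfSpace_re_gt (1 / 2)

/-- uniqueness of analytic continuation -/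
theorem ident (Φ Ψ : ℂ → ℂ) (hΦ : DifferentiableOn ℂ Φ HP) (hΨ : DifferentiableOn ℂ Ψ HP)
    (h : ∀ s : ℂ, 3 / 2 < s.re → Φ s = Ψ s) : Φ 1 = Ψ 1 := by
  have a1 : AnalyticOnNhd ℂ Φ HP := hΦ.analyticOnNhd e2c_HP_open
  have a2 : AnalyticOnNhd ℂ Ψ HP := hΨ.analyticOnNhd e2c_HP_open
  have h3 : (2 : ℂ) ∈ HP := by
    change (1:ℝ) / 2 < (2:ℂ).re
    norm_num
  have h4 : Φ =ᶠ[𝓝 2] Ψ := by
    have h5 : {s : ℂ | 3 / 2 < s.re} ∈ 𝓝 (2 : ℂ) :=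
      (isOpen_lt continuous_const Complex.continuous_re).mem_nhds (by
        change (3:ℝ) / 2 < (2:ℂ).re
        norm_num)
    exact Filter.eventually_of_mem h5 fun s hs => h s hs
  have h6 := a1.eqOn_of_preconnected_of_eventuallyEq a2 e2c_HP_conv.isPreconnected h3 h4
  exact h6 (show (1 : ℂ) ∈ HP by
    change (1:ℝ) / 2 < (1:ℂ).re
    norm_num)

theorem Kr_spec (z : ℂ) (hz : Tors z) : ∃ Φ : ℂ → ℂ, Differentiable ℂ Φ ∧
    (∀ s : ℂ, 3 / 2 < s.re → Φ s = Hs s z) ∧ Φ 1 = Kr z := by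
  have h := Hs_entire z hz
  refine ⟨h.choose, h.choose_spec.1, h.choose_spec.2, ?_⟩
  unfold Kr
  rw [dif_pos h]

theorem Kr_block {ι : Type} (S : Finset ι) (c r : ι → ℂ) (h0 : ∑ k ∈ S, c k = 0)
    (h1 : ∑ k ∈ S, c k * r k = 0) (h2 : ∑ k ∈ S, c k * conj (r k) = 0)
    (hr : ∀ k ∈ S, Tors (r k) ∧ r k ∉ Set.range emb) :
    ∑ k ∈ S, c k * Kr (r k) = ∑' a : Eis, ∑ k ∈ S, c k * (r k + emb a)⁻¹ := by
  classical
  obtain ⟨-, Φ, hΦ1, hΦ2, hΦ3⟩ := block S c r h0 h1 h2 fun k hk => (hr k hk).2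
  rw [← hΦ3]
  have hex : ∀ k : ι, ∃ Ψ : ℂ → ℂ, k ∈ S → (Differentiable ℂ Ψ ∧
      (∀ s : ℂ, 3 / 2 < s.re → Ψ s = Hs s (r k)) ∧ Ψ 1 = Kr (r k)) := by
    intro k
    by_cases hk : k ∈ S
    · obtain ⟨Ψ, h⟩ := Kr_spec (r k) (hr k hk).1
      exact ⟨Ψ, fun _ => h⟩
    · exact ⟨fun _ => 0, fun h => absurd h hk⟩
  choose Ψ hΨ using hex
  have key := ident (fun s => ∑ k ∈ S, c k * Ψ k s) Φ
    (DifferentiableOn.fun_sum fun k hk =>
      ((hΨ k hk).1.differentiableOn.const_mul (c k))) hΦ1 (by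
      intro s hs
      rw [hΦ2 s hs]
      exact Finset.sum_congr rfl fun k hk => by rw [(hΨ k hk).2.1 s hs])
  rw [← key]
  exact Finset.sum_congr rfl fun k hk => by rw [(hΨ k hk).2.2]

end BS3
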