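import Pool.Agent.MP_ae0bd0_nt.B3.F0
import Pool.Agent.MP_ae0bd0_nt.CM.H2

set_option autoImplicit false

open scoped ComplexConjugate
open Filter Topology CM27

namespace BS3

/-! ## [BS3-F1] the elliptic function `Fz` (file F1.lean; uses F0) -/

theorem Fz_add (z : ℂ) (a : Eis) : Fz (z + emb a) = Fz z := by
  unfold Fz
  congr 1
  rw [← (Equiv.addLeft a).tsum_eq (fun b => (729 * (z + emb b) ^ 6 - 1)⁻¹)]
  apply tsum_congr
  intro b
  rw [Equiv.coe_addLeft, map_add, ← add_assoc]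

theorem Fz_unit (z : ℂ) (u : Eis) (hu : IsUnit u) : Fz (emb u * z) = Fz z := by
  unfold Fz
  congr 1
  obtain ⟨v, hv⟩ := hu
  rw [← (Units.mulLeft v).tsum_eq (fun b => (729 * (emb u * z + emb b) ^ 6 - 1)⁻¹)]
  apply tsum_congr
  intro b
  have h6 : emb u ^ 6 = 1 := f0_pow u ((mem_U6 u).2 ⟨v, hv⟩)
  rw [Units.mulLeft_apply, hv, map_mul, ← mul_add, mul_pow, h6, one_mul]

theorem NP_add (z : ℂ) (a : Eis) : NP (z + emb a) ↔ NP z := by
  constructor
  · intro h b
    have := h (b - a)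
    rw [map_sub] at this
    have h2 : z + emb a + (emb b - emb a) = z + emb b := by ring
    rwa [h2] at this
  · intro h b
    have := h (a + b)
    rwa [map_add, ← add_assoc] at this

theorem isOpen_NP : IsOpen {z : ℂ | NP z} := by
  have hcl : IsClosed (Set.range emb) := by
    have h1 : Set.range emb = (L0.lattice : Set ℂ) := by
      ext z
      exact (mem_L0 z).symm
    rw [h1]
    exact L0.isClosed_lattice
  have h2 : {z : ℂ | NP z} = ⋂ e ∈ U6, (fun z : ℂ => z + emb e / 3) ⁻¹' (Set.range emb)ᶜ := by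
    ext z
    simp only [Set.mem_ofPred_eq, Set.mem_iInter, Set.mem_preimage]
    exact NP_iff z
  rw [h2]
  refine isOpen_biInter_finset fun e _ => ?_
  exact hcl.isOpen_compl.preimage (continuous_id.add continuous_const)

theorem f1_finite (R : ℝ) : {a : Eis | ‖emb a‖ < R}.Finite := by
  have h1 : Tendsto (fun a : Eis => ‖emb a‖ ^ (-(3 : ℝ))) cofinite (𝓝 0) :=
    (summable_norm 3 (by norm_num)).tendsto_cofinite_zero
  have hR : 0 < max R 1 := lt_of_lt_of_le one_pos (le_max_right _ _)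
  have h2 : ∀ᶠ a : Eis in cofinite, ‖emb a‖ ^ (-(3 : ℝ)) < (max R 1) ^ (-(3 : ℝ)) :=
    h1.eventually (gt_mem_nhds (Real.rpow_pos_of_pos hR _))
  have h3 : ∀ᶠ a : Eis in cofinite, a ≠ 0 := by
    rw [eventually_cofinite]
    simp
  have h4 : ∀ᶠ a : Eis in cofinite, ¬ ‖emb a‖ < R := by
    filter_upwards [h2, h3] with a ha ha0
    intro hlt
    have hpos : 0 < ‖emb a‖ := by
      rw [norm_pos_iff]
      intro h
      exact ha0 (emb_injective (by rw [h, map_zero]))
    have h4 : (max R 1) ^ (-(3 : ℝ)) ≤ ‖emb a‖ ^ (-(3 : ℝ)) :=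
      Real.rpow_le_rpow_of_nonpos hpos (hlt.le.trans (le_max_left _ _)) (by norm_num)
    linarith
  rw [eventually_cofinite] at h4
  simpa using h4

theorem f1_low (R : ℝ) (hR : 1 ≤ R) (a : Eis) (ha : 2 * R ≤ ‖emb a‖) (z : ℂ) (hz : ‖z‖ < R) :
    ‖emb a‖ ^ 6 ≤ ‖729 * (z + emb a) ^ 6 - 1‖ := by
  have h1 : ‖emb a‖ / 2 ≤ ‖z + emb a‖ := by
    have := norm_sub_le (z + emb a) z
    rw [add_sub_cancel_left] at this
    linarith
  have h2 : (‖emb a‖ / 2) ^ 6 ≤ ‖z + emb a‖ ^ 6 :=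
    pow_le_pow_left₀ (by positivity) h1 6
  have h3 : ‖(729 : ℂ) * (z + emb a) ^ 6‖ ≤ ‖(729 : ℂ) * (z + emb a) ^ 6 - 1‖ + 1 := by
    have := norm_add_le ((729 : ℂ) * (z + emb a) ^ 6 - 1) 1
    simpa using this
  rw [norm_mul, norm_pow] at h3
  have h6 : ‖(729 : ℂ)‖ = 729 := by simp
  rw [h6] at h3
  have h4 : (1 : ℝ) ≤ ‖emb a‖ ^ 6 := one_le_pow₀ (by linarith)
  have h5 : (‖emb a‖ / 2) ^ 6 = ‖emb a‖ ^ 6 / 64 := by ring
  rw [h5] at h2
  linarith

/-- tails of the series -/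
theorem f1_tail (R : ℝ) (hR : 1 ≤ R) : ∃ F : Finset Eis, ∃ S : ℂ → ℂ,
    (∀ a, a ∉ F → 2 * R ≤ ‖emb a‖) ∧ DifferentiableOn ℂ S (Metric.ball 0 R) ∧
    ∀ z ∈ Metric.ball (0 : ℂ) R,
      Fz z = ∑ a ∈ F, -18 * (729 * (z + emb a) ^ 6 - 1)⁻¹ + S z := by
  classical
  set F : Finset Eis := (f1_finite (2 * R)).toFinset with hF
  have hF1 : ∀ a, a ∉ F → 2 * R ≤ ‖emb a‖ := by
    intro a ha
    rw [hF, Set.Finite.mem_toFinset] at ha
    simpa using ha
  set g : Eis → ℂ → ℂ := fun a z => if a ∈ F then 0 else (729 * (z + emb a) ^ 6 - 1)⁻¹ with hg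
  have hpos : ∀ a, a ∉ F → 0 < ‖emb a‖ := fun a ha => by linarith [hF1 a ha]
  have hbound : ∀ a, ∀ z ∈ Metric.ball (0 : ℂ) R, ‖g a z‖ ≤ ‖emb a‖ ^ (-(6 : ℝ)) := by
    intro a z hz
    by_cases ha : a ∈ F
    · simp only [hg, ha, if_true, norm_zero]
      positivity
    · rw [mem_ball_zero_iff] at hz
      have h1 := f1_low R hR a (hF1 a ha) z hz
      have h4 := hpos a ha
      have h5 : ‖emb a‖ ^ (-(6 : ℝ)) = (‖emb a‖ ^ 6)⁻¹ := by
        rw [Real.rpow_neg h4.le]
        congr 1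
        exact_mod_cast Real.rpow_natCast ‖emb a‖ 6
      simp only [hg, ha, if_false]
      rw [h5, norm_inv]
      exact inv_anti₀ (by positivity) h1
  have hsum : Summable fun a : Eis => ‖emb a‖ ^ (-(6 : ℝ)) := summable_norm 6 (by norm_num)
  have hdo : ∀ a, DifferentiableOn ℂ (g a) (Metric.ball 0 R) := by
    intro a
    by_cases ha : a ∈ F
    · simp only [hg, ha, if_true]
      exact differentiableOn_const _
    · simp only [hg, ha, if_false]
      intro z hz
      rw [mem_ball_zero_iff] at hz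
      have h1 := f1_low R hR a (hF1 a ha) z hz
      have h4 := hpos a ha
      have h5 : 729 * (z + emb a) ^ 6 - 1 ≠ 0 := by
        rw [← norm_pos_iff]
        have : 0 < ‖emb a‖ ^ 6 := by positivity
        linarith
      refine DifferentiableAt.differentiableWithinAt ?_
      fun_prop (disch := assumption)
  refine ⟨F, fun z => -18 * ∑' a, g a z, hF1, ?_, ?_⟩
  · exact (Complex.differentiableOn_tsum_of_summable_norm hsum hdo Metric.isOpen_ball
      hbound).const_mul _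
  · intro z hz
    have hs : Summable fun a => g a z := Summable.of_norm_bounded hsum (fun a => hbound a z hz)
    have hT : (fun a : Eis => (729 * (z + emb a) ^ 6 - 1)⁻¹) =
        fun a => (if a ∈ F then (729 * (z + emb a) ^ 6 - 1)⁻¹ else 0) + g a z := by
      funext a
      by_cases ha : a ∈ F <;> simp [hg, ha]
    have hs2 : Summable fun a : Eis => (if a ∈ F then (729 * (z + emb a) ^ 6 - 1)⁻¹ else 0) :=
      summable_of_ne_finset_zero (s := F) (fun a ha => by simp [ha])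
    have hs3 : ∑' a : Eis, (if a ∈ F then (729 * (z + emb a) ^ 6 - 1)⁻¹ else 0) =
        ∑ a ∈ F, (729 * (z + emb a) ^ 6 - 1)⁻¹ := by
      rw [tsum_eq_sum (s := F) (fun a ha => by simp [ha])]
      exact Finset.sum_congr rfl (fun a ha => by simp [ha])
    rw [Fz, hT, hs2.tsum_add hs, hs3, mul_add, Finset.mul_sum]

theorem f1_term_analytic (a : Eis) (z0 : ℂ) (h : 729 * (z0 + emb a) ^ 6 ≠ 1) :
    AnalyticAt ℂ (fun z : ℂ => -18 * (729 * (z + emb a) ^ 6 - 1)⁻¹) z0 := by
  refine analyticAt_const.mul (AnalyticAt.inv ?_ (sub_ne_zero.2 h))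
  exact (analyticAt_const.mul ((analyticAt_id.add analyticAt_const).pow 6)).sub analyticAt_const

theorem Fz_analytic (z : ℂ) (hz : NP z) : AnalyticAt ℂ Fz z := by
  obtain ⟨F, S, -, hS, hsum⟩ := f1_tail (‖z‖ + 1) (by linarith [norm_nonneg z])
  have hzb : z ∈ Metric.ball (0 : ℂ) (‖z‖ + 1) := by
    rw [mem_ball_zero_iff]; linarith
  have hev : Fz =ᶠ[𝓝 z] fun y => ∑ a ∈ F, -18 * (729 * (y + emb a) ^ 6 - 1)⁻¹ + S y := by
    filter_upwards [Metric.isOpen_ball.mem_nhds hzb] with y hy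
    exact hsum y hy
  refine AnalyticAt.congr ?_ hev.symm
  refine AnalyticAt.add (Finset.analyticAt_fun_sum _ fun a _ => f1_term_analytic a z (hz a)) ?_
  exact hS.analyticAt (Metric.isOpen_ball.mem_nhds hzb)

theorem f1_unique (z : ℂ) (a b e e' : Eis) (he : e ∈ U6) (he' : e' ∈ U6)
    (h : 3 * (z + emb a) + emb e = 0) (h' : 3 * (z + emb b) + emb e' = 0) : a = b ∧ e = e' := by
  have h1 : emb (3 * (a - b)) = emb (e' - e) := by
    rw [map_mul, map_sub, map_sub, map_ofNat]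
    linear_combination h - h'
  have h2 := emb_injective h1
  have h5 : (3 : Eis).re = 3 := rfl
  have h6 : (3 : Eis).im = 0 := rfl
  have hre := congrArg QuadraticAlgebra.re h2
  have him := congrArg QuadraticAlgebra.im h2
  simp only [QuadraticAlgebra.re_mul, QuadraticAlgebra.im_mul, h5, h6, QuadraticAlgebra.re_sub,
    QuadraticAlgebra.im_sub] at hre him
  simp only [zero_mul, mul_zero, add_zero] at hre him
  have key : e = e' := by
    simp only [U6, Finset.mem_insert, Finset.mem_singleton] at he he'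
    rcases he with rfl | rfl | rfl | rfl | rfl | rfl <;>
      rcases he' with rfl | rfl | rfl | rfl | rfl | rfl <;>
      first | rfl | (exfalso; simp only at hre him; omega)
  refine ⟨?_, key⟩
  rw [key, sub_self] at h1
  have h3 : (3 : ℂ) * (emb a - emb b) = 0 := by
    rw [map_mul, map_sub, map_ofNat, map_zero] at h1
    exact h1
  rcases mul_eq_zero.1 h3 with h4 | h4
  · norm_num at h4
  · exact emb_injective (sub_eq_zero.1 h4)

/-- simple poles with nonzero residue -/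
theorem Fz_pole (z0 : ℂ) (h : ¬ NP z0) : ∃ c : ℂ, c ≠ 0 ∧ ∃ h : ℂ → ℂ, AnalyticAt ℂ h z0 ∧
    ∀ᶠ z in 𝓝[≠] z0, Fz z = c / (z - z0) + h z := by
  classical
  unfold NP at h
  push Not at h
  obtain ⟨a0, ha0⟩ := h
  obtain ⟨e0, he0, hz0⟩ := f0_root _ ha0
  obtain ⟨F, S, hF, hS, hsum⟩ := f1_tail (‖z0‖ + 1) (by linarith [norm_nonneg z0])
  have hzb : z0 ∈ Metric.ball (0 : ℂ) (‖z0‖ + 1) := by
    rw [mem_ball_zero_iff]; linarith
  have haF : a0 ∈ F := by
    by_contra hcon
    have h1 := f1_low (‖z0‖ + 1) (by linarith [norm_nonneg z0]) a0 (hF a0 hcon) z0 (by linarith)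
    rw [ha0, sub_self, norm_zero] at h1
    have h2 := hF a0 hcon
    have h3 : 0 < ‖emb a0‖ := by linarith [norm_nonneg z0]
    have : 0 < ‖emb a0‖ ^ 6 := by positivity
    linarith
  have hother : ∀ a, a ≠ a0 → 729 * (z0 + emb a) ^ 6 ≠ 1 := by
    intro a ha h1
    obtain ⟨e, he, h2⟩ := f0_root _ h1
    exact ha (f1_unique z0 a a0 e e0 he he0 h2 hz0).1
  have he00 : emb e0 ≠ 0 := by
    intro h0
    have := f0_pow e0 he0
    rw [h0] at this
    norm_num at this
  have hoe : ∀ e ∈ U6.erase e0, z0 + emb a0 + emb e / 3 ≠ 0 := by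
    intro e he h1
    rw [Finset.mem_erase] at he
    exact he.1 (f1_unique z0 a0 a0 e e0 he.2 he0 (by linear_combination 3 * h1) hz0).2
  refine ⟨emb e0, he00, fun z => ∑ e ∈ U6.erase e0, emb e * (z + emb a0 + emb e / 3)⁻¹ +
    (∑ a ∈ F.erase a0, -18 * (729 * (z + emb a) ^ 6 - 1)⁻¹ + S z), ?_, ?_⟩
  · refine AnalyticAt.add (Finset.analyticAt_fun_sum _ fun e he => ?_)
      (AnalyticAt.add (Finset.analyticAt_fun_sum _ fun a ha =>
        f1_term_analytic a z0 (hother a (Finset.ne_of_mem_erase ha)))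
        (hS.analyticAt (Metric.isOpen_ball.mem_nhds hzb)))
    refine analyticAt_const.mul (AnalyticAt.inv ?_ (hoe e he))
    exact (analyticAt_id.add analyticAt_const).add analyticAt_const
  · have c1 : ∀ᶠ z in 𝓝[≠] z0, z ∈ Metric.ball (0 : ℂ) (‖z0‖ + 1) :=
      nhdsWithin_le_nhds (Metric.isOpen_ball.mem_nhds hzb)
    have c2 : ∀ᶠ z in 𝓝[≠] z0, z ≠ z0 := eventually_mem_nhdsWithin
    have c3 : ∀ᶠ z in 𝓝[≠] z0, ∀ e ∈ U6.erase e0, z + emb a0 + emb e / 3 ≠ 0 := by
      refine nhdsWithin_le_nhds ?_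
      rw [← Filter.Eventually, Filter.eventually_all_finset]
      intro e he
      exact ((continuous_id.add continuous_const).add
        continuous_const).continuousAt.eventually_ne (hoe e he)
    filter_upwards [c1, c2, c3] with z hz hzz hze
    have h0 : z + emb a0 + emb e0 / 3 = z - z0 := by linear_combination (1 / 3) * hz0
    have hne : 729 * (z + emb a0) ^ 6 ≠ 1 := by
      intro h1
      obtain ⟨e, he, h2⟩ := f0_root _ h1
      by_cases hee : e = e0
      · subst hee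
        apply hzz
        linear_combination (1 / 3) * h2 - (1 / 3) * hz0
      · exact hze e (Finset.mem_erase.2 ⟨hee, he⟩) (by linear_combination (1 / 3) * h2)
    rw [hsum z hz, ← Finset.add_sum_erase F _ haF, ← six_sum (z + emb a0) hne,
      ← Finset.add_sum_erase U6 _ he0, h0]
    ring

theorem f1_six (f : ℂ → ℂ) (hf : AnalyticAt ℂ f 0) (ρ : ℂ)
    (hρ : ∀ k : ℕ, 0 < k → k < 6 → ρ ^ k ≠ 1) (hsym : ∀ z, f (ρ * z) = f z) :
    ∃ h : ℂ → ℂ, AnalyticAt ℂ h 0 ∧ ∀ᶠ z in 𝓝 (0 : ℂ), f z = f 0 + z ^ 6 * h z := by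
  have hg : AnalyticAt ℂ (fun z => f z - f 0) 0 := hf.sub analyticAt_const
  have hord : ((6 : ℕ) : ℕ∞) ≤ analyticOrderAt (fun z => f z - f 0) 0 := by
    by_contra hcon
    push Not at hcon
    obtain ⟨k, hk⟩ := ENat.ne_top_iff_exists.1 (ne_top_of_lt hcon)
    rw [← hk] at hcon
    have hk6 : k < 6 := by exact_mod_cast hcon
    obtain ⟨g, hga, hg0, hge⟩ := (hg.analyticOrderAt_eq_natCast).1 hk.symm
    have hk0 : 0 < k := by
      rcases Nat.eq_zero_or_pos k with h0 | h0
      · subst h0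
        have := hge.self_of_nhds
        simp only [sub_self, pow_zero, one_smul] at this
        exact absurd this.symm hg0
      · exact h0
    have hρ0 : Tendsto (fun z : ℂ => ρ * z) (𝓝 0) (𝓝 0) := by
      have : Tendsto (fun z : ℂ => ρ * z) (𝓝 0) (𝓝 (ρ * 0)) :=
        (continuous_const.mul continuous_id).tendsto 0
      rwa [mul_zero] at this
    have h1 : ∀ᶠ z in 𝓝[≠] (0 : ℂ), ρ ^ k * g (ρ * z) = g z := by
      have c1 : ∀ᶠ z in 𝓝[≠] (0 : ℂ), f z - f 0 = (z - 0) ^ k • g z :=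
        nhdsWithin_le_nhds hge
      have c2 : ∀ᶠ z in 𝓝[≠] (0 : ℂ), f (ρ * z) - f 0 = (ρ * z - 0) ^ k • g (ρ * z) :=
        nhdsWithin_le_nhds (hρ0.eventually hge)
      have c3 : ∀ᶠ z in 𝓝[≠] (0 : ℂ), z ≠ 0 := eventually_mem_nhdsWithin
      filter_upwards [c1, c2, c3] with z h1 h2 h3
      rw [hsym, h1] at h2
      simp only [sub_zero, smul_eq_mul, mul_pow] at h2
      have h4 : z ^ k ≠ 0 := pow_ne_zero k h3
      apply mul_left_cancel₀ h4
      linear_combination -h2
    have h2 : Tendsto (fun z => ρ ^ k * g (ρ * z)) (𝓝[≠] (0 : ℂ)) (𝓝 (ρ ^ k * g 0)) := by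
      have h3 : Tendsto (fun z => g (ρ * z)) (𝓝 (0 : ℂ)) (𝓝 (g 0)) :=
        hga.continuousAt.tendsto.comp hρ0
      exact (h3.mono_left nhdsWithin_le_nhds).const_mul _
    have h3 : Tendsto g (𝓝[≠] (0 : ℂ)) (𝓝 (g 0)) :=
      hga.continuousAt.tendsto.mono_left nhdsWithin_le_nhds
    have h4 : ρ ^ k * g 0 = g 0 :=
      tendsto_nhds_unique (h2.congr' h1) h3
    apply hρ k hk0 hk6
    have h5 : (ρ ^ k - 1) * g 0 = 0 := by linear_combination h4
    rcases mul_eq_zero.1 h5 with h6 | h6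
    · exact sub_eq_zero.1 h6
    · exact absurd h6 hg0
  obtain ⟨h, hh, hev⟩ := (natCast_le_analyticOrderAt hg).1 hord
  refine ⟨h, hh, ?_⟩
  filter_upwards [hev] with z hz
  simp only [sub_zero, smul_eq_mul] at hz
  linear_combination hz

/-- the Taylor expansion at `0` is a series in `z ^ 6` -/
theorem Fz_near_zero : ∃ h : ℂ → ℂ, AnalyticAt ℂ h 0 ∧ ∀ᶠ z in 𝓝 (0 : ℂ),
    Fz z = Fz 0 + z ^ 6 * h z := by
  have h0 : NP 0 := NP_of 1 (by norm_num) 0 ⟨0, by simp⟩
  refine f1_six Fz (Fz_analytic 0 h0) (emb ⟨1, 1⟩) ?_ ?_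
  · intro k hk1 hk2
    rw [f0_e5]
    have hw : w ≠ 1 := by
      intro h
      have := congrArg Complex.im h
      rw [w_im] at this
      have h3 : (0 : ℝ) < √3 := by positivity
      simp only [Complex.one_im] at this
      linarith
    have e2 : (1 + w) ^ 2 = w := by linear_combination w_sq
    have e3 : (1 + w) ^ 3 = -1 := by
      have : (1 + w) ^ 3 = (1 + w) ^ 2 * (1 + w) := by ring
      rw [this, e2]; linear_combination w_sq
    have hw0 : w ≠ 0 := by
      intro h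
      have := w_sq
      rw [h] at this
      norm_num at this
    interval_cases k
    · rw [pow_one]
      intro h
      exact hw0 (by linear_combination h)
    · rw [e2]; exact hw
    · rw [e3]; norm_num
    · have : (1 + w) ^ 4 = (1 + w) ^ 3 * (1 + w) := by ring
      rw [this, e3]
      intro h
      have h1 : w = -2 := by linear_combination -h
      have h2 := w_sq
      rw [h1] at h2
      norm_num at h2
    · have : (1 + w) ^ 5 = (1 + w) ^ 3 * (1 + w) ^ 2 := by ring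
      rw [this, e3, e2]
      intro h
      have h1 : w = -1 := by linear_combination -h
      have h2 := w_sq
      rw [h1] at h2
      norm_num at h2
  · intro z
    exact Fz_unit z _ ((mem_U6 _).1 (by simp [U6]))

end BS3
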