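import Pool.Agent.MP_ae0bd0_nt.B3.Defs
import Pool.Agent.MP_ae0bd0_nt.CM.Defs
import Pool.Agent.MP_ae0bd0_nt.CM.B1

set_option autoImplicit false

open CM27

namespace BS3

/-! ## [BS3-P1] number of points of `y² = x³ - 16` (file P1.lean) -/

theorem p1_nonsingular_iff (F : Type) [Field F] (h6 : (6 : F) ≠ 0) (x y : F) :
    (W (-16) F).toAffine.Nonsingular x y ↔ y ^ 2 = x ^ 3 - 16 := by
  have h2 : (2 : F) ≠ 0 := fun h => h6 (by linear_combination 3 * h)
  have h3 : (3 : F) ≠ 0 := fun h => h6 (by linear_combination 2 * h)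
  have hΔ : (W (-16) F).toAffine.Δ ≠ 0 := by
    have h1 : (W (-16) F).Δ = -(2 ^ 12 * 3 ^ 3) := by
      simp only [W, WeierstrassCurve.Δ, WeierstrassCurve.b₂, WeierstrassCurve.b₄,
        WeierstrassCurve.b₆, WeierstrassCurve.b₈]
      push_cast
      ring
    rw [h1]
    exact neg_ne_zero.2 (mul_ne_zero (pow_ne_zero _ h2) (pow_ne_zero _ h3))
  rw [← WeierstrassCurve.Affine.equation_iff_nonsingular_of_Δ_ne_zero hΔ,
    W_equation]
  push_cast
  rw [sub_eq_add_neg]

theorem p1_fiber {F : Type} [Field F] [Fintype F] [DecidableEq F] (h2 : (2 : F) ≠ 0) (a : F) :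
    ((Fintype.card {y : F // y ^ 2 = a} : ℕ) : ℤ) = quadraticChar F a + 1 := by
  have hc : ringChar F ≠ 2 := by
    intro h
    apply h2
    have := CharP.cast_eq_zero_iff F (ringChar F) 2
    exact_mod_cast this.2 (by rw [h])
  have := quadraticChar_card_sqrts hc a
  rw [← this, Fintype.card_subtype]
  congr 2
  ext y
  simp

theorem p1_cardW (F : Type) [Field F] [Fintype F] [DecidableEq F] (h6 : (6 : F) ≠ 0) :
    (Nat.card (W (-16) F).toAffine.Point : ℤ) =
      Nat.card F + 1 + ∑ x : F, quadraticChar F (x ^ 3 - 16) := by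
  have h2 : (2 : F) ≠ 0 := fun h => h6 (by linear_combination 3 * h)
  have e : {xy : F × F // (W (-16) F).toAffine.Nonsingular xy.1 xy.2} ≃
      (Σ x : F, {y : F // y ^ 2 = x ^ 3 - 16}) :=
    { toFun := fun p => ⟨p.1.1, p.1.2, (p1_nonsingular_iff F h6 _ _).1 p.2⟩
      invFun := fun p => ⟨(p.1, p.2.1), (p1_nonsingular_iff F h6 _ _).2 p.2.2⟩
      left_inv := fun p => rfl
      right_inv := fun p => rfl }
  have h1 : Nat.card (W (-16) F).toAffine.Point =
      Nat.card (Option (Σ x : F, {y : F // y ^ 2 = x ^ 3 - 16})) :=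
    Nat.card_congr ((WeierstrassCurve.Affine.nonsingularPointEquiv (W (-16) F).toAffine).trans
      (Equiv.optionCongr e))
  rw [h1, Finite.card_option, Nat.card_eq_fintype_card, Fintype.card_sigma]
  push_cast
  rw [Finset.sum_congr rfl (fun x _ => p1_fiber h2 (x ^ 3 - 16)), Finset.sum_add_distrib,
    Nat.card_eq_fintype_card]
  simp
  ring

theorem p1_cardE (F : Type) [Field F] [Fintype F] [DecidableEq F] (h6 : (6 : F) ≠ 0) :
    (Nat.card (E F).toAffine.Point : ℤ) =
      Nat.card F + 1 + ∑ x : F, quadraticChar F (4 * x ^ 3 + 1) := by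
  have h2 : (2 : F) ≠ 0 := fun h => h6 (by linear_combination 3 * h)
  have h3 : (3 : F) ≠ 0 := fun h => h6 (by linear_combination 2 * h)
  have e : {xy : F × F // (E F).toAffine.Nonsingular xy.1 xy.2} ≃
      (Σ x : F, {y : F // y ^ 2 = 4 * x ^ 3 + 1}) :=
    { toFun := fun p => ⟨p.1.1, 2 * p.1.2 + 1, by
        linear_combination 4 * (b1_nonsingular_iff F h3 _ _).1 p.2⟩
      invFun := fun p => ⟨(p.1, (p.2.1 - 1) / 2), (b1_nonsingular_iff F h3 _ _).2 (by
        have h := p.2.2
        field_simp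
        linear_combination h)⟩
      left_inv := fun p => by
        apply Subtype.ext
        apply Prod.ext
        · rfl
        · simp only
          field_simp
          ring
      right_inv := fun p => by
        obtain ⟨x, y, h⟩ := p
        simp only [Sigma.mk.injEq, heq_eq_eq, true_and, Subtype.mk.injEq]
        field_simp
        ring }
  have h1 : Nat.card (E F).toAffine.Point =
      Nat.card (Option (Σ x : F, {y : F // y ^ 2 = 4 * x ^ 3 + 1})) :=
    Nat.card_congr ((WeierstrassCurve.Affine.nonsingularPointEquiv (E F).toAffine).trans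
      (Equiv.optionCongr e))
  rw [h1, Finite.card_option, Nat.card_eq_fintype_card, Fintype.card_sigma]
  push_cast
  rw [Finset.sum_congr rfl (fun x _ => p1_fiber h2 (4 * x ^ 3 + 1)), Finset.sum_add_distrib,
    Nat.card_eq_fintype_card]
  simp
  ring

/-- `y² = x³ - 16` is the quadratic twist by `-1` of `y² = x³ + 16`, i.e. of `y² + y = x³`. -/
theorem card_W16 (k : Type) [Field k] [Finite k] (h6 : (6 : k) ≠ 0) :
    (Nat.card (W (-16) k).toAffine.Point : ℤ) = Nat.card k + 1 -
      ZMod.χ₄ (Nat.card k : ZMod 4) * (Nat.card k + 1 - Nat.card (E k).toAffine.Point) := by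
  classical
  have : Fintype k := Fintype.ofFinite k
  have h2 : (2 : k) ≠ 0 := fun h => h6 (by linear_combination 3 * h)
  have hc : ringChar k ≠ 2 := by
    intro h
    apply h2
    have := CharP.cast_eq_zero_iff k (ringChar k) 2
    exact_mod_cast this.2 (by rw [h])
  rw [p1_cardW k h6, p1_cardE k h6]
  have h4 : (-4 : k) ≠ 0 := by
    intro h
    have h5 : (2 : k) * 2 = 0 := by linear_combination -h
    rcases mul_eq_zero.1 h5 with h | h <;> exact h2 h
  have h5 : ∑ x : k, quadraticChar k (x ^ 3 - 16) =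
      ∑ x : k, quadraticChar k ((-4 * x) ^ 3 - 16) :=
    (Equiv.sum_comp (Equiv.mulLeft₀ (-4 : k) h4) (fun x => quadraticChar k (x ^ 3 - 16))).symm
  have h6' : ∀ x : k, quadraticChar k ((-4 * x) ^ 3 - 16) =
      quadraticChar k (-1) * quadraticChar k (4 * x ^ 3 + 1) := by
    intro x
    have h7 : (-4 * x) ^ 3 - 16 = (-1) * ((4 * x ^ 3 + 1) * 4 ^ 2) := by ring
    have h8 : quadraticChar k (4 ^ 2) = 1 := by
      apply quadraticChar_sq_one'
      intro h
      exact h4 (by linear_combination -h)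
    rw [h7, map_mul, map_mul, h8, mul_one]
  rw [h5, Finset.sum_congr rfl (fun x _ => h6' x), ← Finset.mul_sum, quadraticChar_neg_one hc,
    Nat.card_eq_fintype_card]
  ring

end BS3
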