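import Pool.Agent.MP_ae0bd0_nt.B3.Defs
import Pool.Agent.MP_ae0bd0_nt.CM.C1

set_option autoImplicit false

open Polynomial NumberField IsDedekindDomain CM27
open scoped Classical

namespace BS3

/-! ## [BS3-P2] good reduction of `y² = x³ + k` at places prime to `6 k` (file P2.lean) -/

theorem p2_Δ (k : ℤ) (R : Type) [CommRing R] : (W k R).Δ = -432 * (k : R) ^ 2 := by
  simp only [W, WeierstrassCurve.Δ, WeierstrassCurve.b₂, WeierstrassCurve.b₄,
    WeierstrassCurve.b₆, WeierstrassCurve.b₈]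
  ring

/-- `2`, `3` and `k` are units. -/
theorem p2_units (A : Type) [CommRing A] (k : ℤ) (h6 : IsUnit ((6 * k : ℤ) : A)) :
    IsUnit (2 : A) ∧ IsUnit (3 : A) ∧ IsUnit (k : A) := by
  have h : ((6 * k : ℤ) : A) = 2 * (3 * (k : A)) := by push_cast; ring
  rw [h] at h6
  obtain ⟨h2, h3⟩ := IsUnit.mul_iff.1 h6
  obtain ⟨h3, h4⟩ := IsUnit.mul_iff.1 h3
  exact ⟨h2, h3, h4⟩

theorem p2_unit_Δ (A : Type) [CommRing A] (k : ℤ) (h6 : IsUnit ((6 * k : ℤ) : A)) :
    IsUnit (-432 * (k : A) ^ 2) := by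
  obtain ⟨h2, h3, hk⟩ := p2_units A k h6
  have : (-432 * (k : A) ^ 2) = -(2 ^ 4 * 3 ^ 3 * (k : A) ^ 2) := by norm_num
  rw [this]
  exact (((h2.pow 4).mul (h3.pow 3)).mul (hk.pow 2)).neg

/-- Integrality of the coefficients of a change of variables. -/
theorem p2_lift (A : Type) [CommRing A] [IsDomain A] [IsDiscreteValuationRing A]
    (K : Type) [Field K] [Algebra A K] [IsFractionRing A K] (k : ℤ) (h2 : IsUnit (2 : A))
    (h3 : IsUnit (3 : A))
    (T : WeierstrassCurve.VariableChange K) (I : WeierstrassCurve A)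
    (hI : T • W k K = I.map (algebraMap A K))
    (hu : (IsDiscreteValuationRing.maximalIdeal A).valuation K (T.u : K) = 1) :
    ∃ D : WeierstrassCurve.VariableChange A, D • W k A = I := by
  have hinj : Function.Injective (algebraMap A K) := IsFractionRing.injective A K
  have hmem : (T.u : K) ∈ MonoidHom.mker ((IsDiscreteValuationRing.maximalIdeal A).valuation K) :=
    hu
  rw [IsDiscreteValuationRing.mker_valuation_eq_isUnitSubmonoid] at hmem
  obtain ⟨u₀, hu₀, hu₁⟩ := hmem
  have hu₀' : IsUnit u₀ := hu₀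
  obtain ⟨u, rfl⟩ := hu₀'
  obtain ⟨c, hc⟩ := h3
  obtain ⟨d, hd⟩ := h2
  have hc3 : algebraMap A K (c : A) = 3 := by rw [hc, map_ofNat]
  have hcinv : algebraMap A K ((c⁻¹ : Aˣ) : A) * 3 = 1 := by
    rw [← hc3, ← map_mul]; simp
  have hd2 : algebraMap A K (d : A) = 2 := by rw [hd, map_ofNat]
  have hdinv : algebraMap A K ((d⁻¹ : Aˣ) : A) * 2 = 1 := by
    rw [← hd2, ← map_mul]; simp
  have hu1 : (T.u : K) = algebraMap A K u := hu₁.symm
  have huu : algebraMap A K (u : A) * algebraMap A K ((u⁻¹ : Aˣ) : A) = 1 := by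
    rw [← map_mul]; simp
  have huinv : ((T.u⁻¹ : Kˣ) : K) = algebraMap A K ((u⁻¹ : Aˣ) : A) := by
    rw [Units.val_inv_eq_inv_val, hu1]
    exact inv_eq_of_mul_eq_one_right huu
  -- the equations
  have ha1 : algebraMap A K ((u⁻¹ : Aˣ) : A) * (2 * T.s) = algebraMap A K I.a₁ := by
    have h : (T • W k K).a₁ = algebraMap A K I.a₁ := by rw [hI]; simp
    rw [← h, WeierstrassCurve.variableChange_a₁, huinv]
    simp only [W]
    ring
  have ha2 : algebraMap A K ((u⁻¹ : Aˣ) : A) ^ 2 * (3 * T.r - T.s ^ 2) =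
      algebraMap A K I.a₂ := by
    have h : (T • W k K).a₂ = algebraMap A K I.a₂ := by rw [hI]; simp
    rw [← h, WeierstrassCurve.variableChange_a₂, huinv]
    simp only [W]
    ring
  have ha3 : algebraMap A K ((u⁻¹ : Aˣ) : A) ^ 3 * (2 * T.t) = algebraMap A K I.a₃ := by
    have h : (T • W k K).a₃ = algebraMap A K I.a₃ := by rw [hI]; simp
    rw [← h, WeierstrassCurve.variableChange_a₃, huinv]
    simp only [W]
    ring
  have hu2 : algebraMap A K (u : A) ^ 2 * algebraMap A K ((u⁻¹ : Aˣ) : A) ^ 2 = 1 := by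
    rw [← mul_pow, huu, one_pow]
  have hu3 : algebraMap A K (u : A) ^ 3 * algebraMap A K ((u⁻¹ : Aˣ) : A) ^ 3 = 1 := by
    rw [← mul_pow, huu, one_pow]
  obtain ⟨s, hs⟩ : ∃ s : A, algebraMap A K s = T.s := by
    refine ⟨(u : A) * I.a₁ * ((d⁻¹ : Aˣ) : A), ?_⟩
    rw [map_mul, map_mul, ← ha1]
    linear_combination (2 * T.s * algebraMap A K ((d⁻¹ : Aˣ) : A)) * huu + T.s * hdinv
  obtain ⟨r, hr⟩ : ∃ r : A, algebraMap A K r = T.r := by
    refine ⟨((u : A) ^ 2 * I.a₂ + s ^ 2) * ((c⁻¹ : Aˣ) : A), ?_⟩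
    rw [map_mul, map_add, map_mul, map_pow, map_pow, ← ha2, hs]
    linear_combination ((3 * T.r - T.s ^ 2) * algebraMap A K ((c⁻¹ : Aˣ) : A)) * hu2 + T.r * hcinv
  obtain ⟨t, ht⟩ : ∃ t : A, algebraMap A K t = T.t := by
    refine ⟨(u : A) ^ 3 * I.a₃ * ((d⁻¹ : Aˣ) : A), ?_⟩
    rw [map_mul, map_mul, map_pow, ← ha3]
    linear_combination (2 * T.t * algebraMap A K ((d⁻¹ : Aˣ) : A)) * hu3 + T.t * hdinv
  refine ⟨⟨u, r, s, t⟩, ?_⟩
  apply WeierstrassCurve.map_injective hinj
  show (_ • W k A).map (algebraMap A K) = I.map (algebraMap A K)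
  rw [← hI, ← WeierstrassCurve.map_variableChange, W_map]
  congr 1
  ext
  · exact hu1.symm
  · exact hr
  · exact hs
  · exact ht

/-- The minimal model of `W k` has good reduction, via a change of variables whose `u` is a unit. -/
theorem p2_good (A : Type) [CommRing A] [IsDomain A] [IsDiscreteValuationRing A]
    (K : Type) [Field K] [Algebra A K] [IsFractionRing A K] (k : ℤ)
    (h6 : IsUnit ((6 * k : ℤ) : A))
    (T : WeierstrassCurve.VariableChange K) (hT : WeierstrassCurve.IsMinimal A (T • W k K)) :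
    (IsDiscreteValuationRing.maximalIdeal A).valuation K (T • W k K).Δ = 1 ∧
    (IsDiscreteValuationRing.maximalIdeal A).valuation K (T.u : K) = 1 := by
  have hE : WeierstrassCurve.IsIntegral A (W k K) :=
    ⟨⟨W k A, (W_map k (algebraMap A K)).symm⟩⟩
  have h27 : (IsDiscreteValuationRing.maximalIdeal A).valuation K (W k K).Δ = 1 := by
    have h1 : (W k K).Δ = algebraMap A K (-432 * (k : A) ^ 2) := by
      rw [p2_Δ, map_mul, map_neg, map_ofNat, map_pow, map_intCast]
    rw [h1, HeightOneSpectrum.valuation_eq_one_iff_notMem]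
    intro h2
    have h4 : IsUnit (-432 * (k : A) ^ 2) := p2_unit_Δ A k h6
    have h5 : (-432 * (k : A) ^ 2) ∈ IsLocalRing.maximalIdeal A := h2
    exact (IsLocalRing.mem_maximalIdeal _).1 h5 h4
  have h1 := hT.val_Δ_maximal
  have hinv : T⁻¹ • (T • W k K) = W k K := inv_smul_smul T (W k K)
  have h2 := h1.2 (j := T⁻¹)
    (by show WeierstrassCurve.IsIntegral A (T⁻¹ • (T • W k K)); rw [hinv]; exact hE)
  have hle : ((WeierstrassCurve.valuation_Δ_aux A ((1 : WeierstrassCurve.VariableChange K) •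
      (T • W k K)) : { v : WithZero (Multiplicative ℤ) // v ≤ 1 }) : WithZero (Multiplicative ℤ)) =
      (IsDiscreteValuationRing.maximalIdeal A).valuation K (T • W k K).Δ := by
    rw [one_smul]
    exact WeierstrassCurve.valuation_Δ_aux_eq_of_isIntegral A _
  have hinvv : ((WeierstrassCurve.valuation_Δ_aux A (T⁻¹ • (T • W k K)) :
      { v : WithZero (Multiplicative ℤ) // v ≤ 1 }) : WithZero (Multiplicative ℤ)) = 1 := by
    rw [hinv, WeierstrassCurve.valuation_Δ_aux_eq_of_isIntegral A _, h27]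
  have hle1 : (WeierstrassCurve.valuation_Δ_aux A ((1 : WeierstrassCurve.VariableChange K) •
      (T • W k K))) ≤ (WeierstrassCurve.valuation_Δ_aux A (T⁻¹ • (T • W k K))) := by
    rw [← Subtype.coe_le_coe, hinvv]
    exact (WeierstrassCurve.valuation_Δ_aux A ((1 : WeierstrassCurve.VariableChange K) •
      (T • W k K))).2
  have h3' := h2 hle1
  rw [← Subtype.coe_le_coe, hle] at h3'
  have hval : (IsDiscreteValuationRing.maximalIdeal A).valuation K (T • W k K).Δ = 1 := by
    refine le_antisymm ?_ ?_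
    · rw [← hle]
      exact (WeierstrassCurve.valuation_Δ_aux A ((1 : WeierstrassCurve.VariableChange K) •
        (T • W k K))).2
    · rw [← hinvv]
      exact h3'
  refine ⟨hval, ?_⟩
  rw [WeierstrassCurve.variableChange_Δ, map_mul, h27, mul_one, map_pow,
    Units.val_inv_eq_inv_val, map_inv₀] at hval
  have h6 : ((IsDiscreteValuationRing.maximalIdeal A).valuation K (T.u : K))⁻¹ = 1 :=
    (pow_eq_one_iff_of_nonneg zero_le (n := 12) (by norm_num)).1 hval
  exact inv_eq_one.1 h6

theorem localPoly_good (A : Type) [CommRing A] [IsDomain A] [IsDiscreteValuationRing A]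
    (K : Type) [Field K] [Algebra A K] [IsFractionRing A K]
    [Finite (IsLocalRing.ResidueField A)] (k : ℤ) (h6 : IsUnit ((6 * k : ℤ) : A))
    (κ : Type) [Field κ] [Finite κ] (hκ : Nat.card κ = Nat.card (IsLocalRing.ResidueField A)) :
    (W k K).localPolynomial A = 1 - C ((Nat.card κ : ℤ) + 1 - Nat.card (W k κ).toAffine.Point) * X
      + C (Nat.card κ : ℤ) * X ^ 2 := by
  obtain ⟨h2, h3, hk⟩ := p2_units A k h6
  obtain ⟨T, hT, hTm⟩ : ∃ T : WeierstrassCurve.VariableChange K,
      (W k K).minimal A = T • W k K ∧ WeierstrassCurve.IsMinimal A (T • W k K) :=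
    ⟨_, rfl, ((W k K).exists_isMinimal A).choose_spec⟩
  obtain ⟨hΔ, hu⟩ := p2_good A K k h6 T hTm
  have hgood : WeierstrassCurve.HasGoodReduction A ((W k K).minimal A) :=
    ⟨by rw [hT]; exact hΔ⟩
  have hI : T • W k K = (WeierstrassCurve.integralModel A ((W k K).minimal A)).map
      (algebraMap A K) := by
    rw [← hT]
    exact (WeierstrassCurve.baseChange_integralModel_eq A ((W k K).minimal A)).symm
  obtain ⟨D, hD⟩ := p2_lift A K k h2 h3 T _ hI hu
  have hred : ((W k K).minimal A).reduction A =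
      (D.map (IsLocalRing.residue A)) • W k (IsLocalRing.ResidueField A) := by
    rw [WeierstrassCurve.reduction, ← hD, ← WeierstrassCurve.map_variableChange, W_map]
  have hΔκ : (W k (IsLocalRing.ResidueField A)).Δ ≠ 0 := by
    rw [p2_Δ]
    have h := (p2_unit_Δ A k h6).map (IsLocalRing.residue A)
    rw [map_mul, map_neg, map_ofNat, map_pow, map_intCast] at h
    exact h.ne_zero
  have hcard1 : Nat.card (((W k K).minimal A).reduction A).toAffine.Point =
      Nat.card (W k (IsLocalRing.ResidueField A)).toAffine.Point := by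
    rw [hred]
    exact c1_card_variableChange _ _ hΔκ
  have hcard2 : Nat.card (W k (IsLocalRing.ResidueField A)).toAffine.Point =
      Nat.card (W k κ).toAffine.Point := by
    have : Fintype κ := Fintype.ofFinite κ
    have : Fintype (IsLocalRing.ResidueField A) := Fintype.ofFinite _
    have h : Fintype.card (IsLocalRing.ResidueField A) = Fintype.card κ := by
      rw [← Nat.card_eq_fintype_card, ← Nat.card_eq_fintype_card, hκ]
    have φ := FiniteField.ringEquivOfCardEq h
    rw [c1_card_map φ, W_map]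
  unfold WeierstrassCurve.localPolynomial
  rw [if_pos hgood, hcard1, hcard2, hκ]

end BS3
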