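import Pool.Agent.MP_ae0bd0_nt.B3.Defs

set_option autoImplicit false

open Polynomial NumberField IsDedekindDomain CM27
open scoped Classical

namespace BS3

/-! ## [BS3-P3] additive reduction of `y² = x³ + k`: discriminant of valuation `< 12`
(file P3.lean) -/

/-- `Δ = -432 k²`; if its valuation is in `1, …, 11` the local polynomial is `1`. -/
theorem localPoly_add (A : Type) [CommRing A] [IsDomain A] [IsDiscreteValuationRing A]
    (K : Type) [Field K] [Algebra A K] [IsFractionRing A K] [CharZero K] (k : ℤ) (ϖ : A)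
    (hϖ : Irreducible ϖ) (j : ℕ) (hj : 0 < j) (hj' : j < 12) (u : A) (hu : IsUnit u)
    (h : ((432 * k ^ 2 : ℤ) : A) = u * ϖ ^ j) : (W k K).localPolynomial A = 1 := by
  obtain ⟨C, hC⟩ : ∃ C : WeierstrassCurve.VariableChange K,
      (W k K).minimal A = C • (W k K) := ⟨_, rfl⟩
  have hΔ0 : (W k K).Δ = -(algebraMap A K u * algebraMap A K ϖ ^ j) := by
    have h1 : (W k K).Δ = -(432 * (k : K) ^ 2) := by
      simp only [W, WeierstrassCurve.Δ, WeierstrassCurve.b₂, WeierstrassCurve.b₄,
        WeierstrassCurve.b₆, WeierstrassCurve.b₈]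
      ring
    have h2 := congrArg (algebraMap A K) h
    rw [map_mul, map_pow, map_intCast] at h2
    rw [h1, ← h2]
    push_cast
    ring
  have hc0 : (W k K).c₄ = 0 := by
    simp [W, WeierstrassCurve.c₄, WeierstrassCurve.b₂, WeierstrassCurve.b₄]
  have hΔ : ((W k K).minimal A).Δ =
      (C.u⁻¹ : Kˣ) ^ 12 * (-(algebraMap A K u * algebraMap A K ϖ ^ j)) := by
    rw [hC, WeierstrassCurve.variableChange_Δ, hΔ0]
  have hc4 : ((W k K).minimal A).c₄ = 0 := by
    rw [hC, WeierstrassCurve.variableChange_c₄, hc0, mul_zero]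
  have hmult : ¬ ((W k K).minimal A).HasMultiplicativeReduction A := by
    intro h
    have h1 := h.multiplicativeReduction
    rw [hc4, map_zero] at h1
    exact zero_ne_one h1
  have hgood : ¬ ((W k K).minimal A).HasGoodReduction A := by
    intro h
    have h1 := h.goodReduction
    rw [hΔ] at h1
    have hm : (IsDiscreteValuationRing.maximalIdeal A).asIdeal = Ideal.span {ϖ} :=
      (IsDiscreteValuationRing.irreducible_iff_uniformizer ϖ).1 hϖ
    have h2 : (IsDiscreteValuationRing.maximalIdeal A).valuation K (algebraMap A K ϖ)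
        = WithZero.exp (-1 : ℤ) := by
      have h4 := HeightOneSpectrum.valuation_of_algebraMap
        (K := K) (IsDiscreteValuationRing.maximalIdeal A) ϖ
      rw [HeightOneSpectrum.intValuation_singleton _ hϖ.ne_zero hm] at h4
      exact h4
    have h3 : (IsDiscreteValuationRing.maximalIdeal A).valuation K (algebraMap A K u) = 1 := by
      rw [HeightOneSpectrum.valuation_of_algebraMap]
      rw [HeightOneSpectrum.intValuation_eq_one_iff]
      intro hmem
      exact (IsLocalRing.mem_maximalIdeal u).1 hmem hu
    rw [map_mul, map_pow, Valuation.map_neg, map_mul, map_pow, h2, h3, one_mul] at h1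
    have hu : (IsDiscreteValuationRing.maximalIdeal A).valuation K ((C.u⁻¹ : Kˣ) : K) ≠ 0 := by
      rw [Valuation.ne_zero_iff]
      exact Units.ne_zero _
    have h6 := congrArg WithZero.log h1
    rw [WithZero.log_mul (pow_ne_zero _ hu) (pow_ne_zero _ (by simp)), WithZero.log_pow,
      WithZero.log_pow, WithZero.log_exp, WithZero.log_one] at h6
    simp only [nsmul_eq_mul, Nat.cast_ofNat] at h6
    omega
  unfold WeierstrassCurve.localPolynomial
  rw [if_neg hgood, if_neg (fun h => hmult h.toHasMultiplicativeReduction), if_neg hmult]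

end BS3
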