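import Pool.Agent.MP_ae0bd0_nt.B3.P2
import Pool.Agent.MP_ae0bd0_nt.B3.P3
import Pool.Agent.MP_ae0bd0_nt.B3.P4
import Pool.Agent.MP_ae0bd0_nt.CM.C3

set_option autoImplicit false

open Polynomial NumberField IsDedekindDomain CM27
open scoped Classical

namespace BS3

/-! ## [BS3-P5] the Euler factors (file P5.lean; uses P2, P3, P4) -/

theorem p5_baseChange (k : ℤ) (K L : Type*) [CommRing K] [CommRing L] [Algebra K L] :
    (W k K).baseChange L = W k L :=
  W_map k (algebraMap K L)

/-- integers outside of `v` are units of the completion -/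
theorem p5_isUnit_int (K : Type) [Field K] [NumberField K] (v : HeightOneSpectrum (𝓞 K))
    (n : ℤ) (h : (n : 𝓞 K) ∉ v.asIdeal) : IsUnit (n : v.adicCompletionIntegers K) := by
  have h1 : ((n.natAbs : ℕ) : 𝓞 K) ∉ v.asIdeal := by
    intro h2
    apply h
    rcases Int.natAbs_eq n with h3 | h3
    · rw [h3, Int.cast_natCast]; exact h2
    · rw [h3, Int.cast_neg, Int.cast_natCast]; exact v.asIdeal.neg_mem h2
  have h4 := isUnit_completion K v n.natAbs h1
  rcases Int.natAbs_eq n with h3 | h3
  · rw [h3, Int.cast_natCast]; exact h4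
  · rw [h3, Int.cast_neg, Int.cast_natCast]; exact h4.neg

/-- integers prime to `p` are units of the completion at `v ∣ p` -/
theorem p5_isUnit_coprime (K : Type) [Field K] [NumberField K] (v : HeightOneSpectrum (𝓞 K))
    (p : ℕ) (hv : (p : 𝓞 K) ∈ v.asIdeal) (n : ℤ) (h : IsCoprime n (p : ℤ)) :
    IsUnit (n : v.adicCompletionIntegers K) := by
  apply p5_isUnit_int
  intro h1
  obtain ⟨a, b, hab⟩ := h
  apply (Ideal.ne_top_iff_one _).1 v.isPrime.ne_top
  have h2 : (1 : 𝓞 K) = (a : 𝓞 K) * (n : 𝓞 K) + (b : 𝓞 K) * (p : 𝓞 K) := by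
    exact_mod_cast congrArg (Int.cast : ℤ → 𝓞 K) hab.symm
  rw [h2]
  exact Ideal.add_mem _ (Ideal.mul_mem_left _ _ h1) (Ideal.mul_mem_left _ _ hv)

theorem p5_charZero (K : Type) [Field K] [NumberField K] (v : HeightOneSpectrum (𝓞 K)) :
    CharZero (v.adicCompletion K) :=
  charZero_of_injective_algebraMap (algebraMap K (v.adicCompletion K)).injective

theorem p5_one (n : ℕ) : ArithmeticFunction.ofPowerSeries (R := ℤ) n
    (PowerSeries.invOfUnit ((1 : ℤ[X]) : PowerSeries ℤ) 1) = 1 := by
  have h1 : PowerSeries.invOfUnit ((1 : ℤ[X]) : PowerSeries ℤ) 1 = 1 := by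
    have h2 := PowerSeries.mul_invOfUnit ((1 : ℤ[X]) : PowerSeries ℤ) 1 (by simp)
    rw [Polynomial.coe_one, one_mul] at h2
    rw [Polynomial.coe_one]
    exact h2
  rw [h1, map_one]

theorem eulerFactor_good (K : Type) [Field K] [NumberField K] (v : HeightOneSpectrum (𝓞 K))
    (k : ℤ) (h6 : ((6 * k : ℤ) : 𝓞 K) ∉ v.asIdeal) (κ : Type) [Field κ] [Finite κ]
    (hκ : Nat.card κ = Nat.card (𝓞 K ⧸ v.asIdeal)) :
    ((W k K).baseChange (v.adicCompletion K)).localEulerFactor (v.adicCompletionIntegers K) =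
      ArithmeticFunction.ofPowerSeries (Nat.card κ) (PowerSeries.invOfUnit
        ((1 - C ((Nat.card κ : ℤ) + 1 - Nat.card (W k κ).toAffine.Point) * X
      + C (Nat.card κ : ℤ) * X ^ 2 : ℤ[X]) : PowerSeries ℤ) 1) := by
  obtain ⟨hc, hfin⟩ := card_residue K v
  have h6' : IsUnit ((6 * k : ℤ) : v.adicCompletionIntegers K) := p5_isUnit_int K v _ h6
  rw [p5_baseChange]
  unfold WeierstrassCurve.localEulerFactor WeierstrassCurve.localPowerSeries
  rw [localPoly_good (v.adicCompletionIntegers K) (v.adicCompletion K) k h6' κ (by rw [hκ, hc]),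
    hc, ← hκ]

/-- the bad places `2` and `3` (unramified) -/
theorem eulerFactor_bad (K : Type) [Field K] [NumberField K] (v : HeightOneSpectrum (𝓞 K))
    (p : ℕ) (hp : p = 2 ∨ p = 3) (hv : (p : 𝓞 K) ∈ v.asIdeal) (hv2 : (p : 𝓞 K) ∉ v.asIdeal ^ 2)
    (b : ℤ) (hb : Odd b) (hb3 : ¬ 3 ∣ b) :
    ((W (-16 * b ^ 2) K).baseChange (v.adicCompletion K)).localEulerFactor
      (v.adicCompletionIntegers K) = 1 := by
  have hirr : Irreducible (p : v.adicCompletionIntegers K) := irreducible_completion K v p hv hv2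
  have := p5_charZero K v
  rw [p5_baseChange]
  unfold WeierstrassCurve.localEulerFactor WeierstrassCurve.localPowerSeries
  have hpoly : (W (-16 * b ^ 2) (v.adicCompletion K)).localPolynomial
      (v.adicCompletionIntegers K) = 1 := by
    rcases hp with rfl | rfl
    · refine localPoly_two (v.adicCompletionIntegers K) (v.adicCompletion K) b hb ?_
      exact_mod_cast hirr
    · have h2 : IsUnit ((2 : ℤ) : v.adicCompletionIntegers K) :=
        p5_isUnit_coprime K v 3 hv 2 ⟨-1, 1, by norm_num⟩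
      have hb' : IsUnit ((b : ℤ) : v.adicCompletionIntegers K) := by
        apply p5_isUnit_coprime K v 3 hv b
        exact ((Nat.Prime.coprime_iff_not_dvd Nat.prime_three).2 (by
          intro h; exact hb3 (by exact Int.natCast_dvd.2 h)) : Nat.Coprime 3 b.natAbs).symm
            |> Int.isCoprime_iff_gcd_eq_one.2
      refine localPoly_add (v.adicCompletionIntegers K) (v.adicCompletion K) (-16 * b ^ 2)
        ((3 : ℕ) : v.adicCompletionIntegers K) hirr 3 (by norm_num) (by norm_num)
        (((2 : ℤ) : v.adicCompletionIntegers K) ^ 12 * (b : v.adicCompletionIntegers K) ^ 4)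
        ((h2.pow 12).mul (hb'.pow 4)) ?_
      push_cast
      ring
  rw [hpoly]
  exact p5_one _

/-- the primes dividing `b` exactly once (unramified) -/
theorem eulerFactor_dvd (K : Type) [Field K] [NumberField K] (v : HeightOneSpectrum (𝓞 K))
    (p : ℕ) (hp : p.Prime) (hp3 : 3 < p) (hv : (p : 𝓞 K) ∈ v.asIdeal)
    (hv2 : (p : 𝓞 K) ∉ v.asIdeal ^ 2)
    (b : ℤ) (hb : (p : ℤ) ∣ b) (hb2 : ¬ (p : ℤ) ^ 2 ∣ b) :
    ((W (-16 * b ^ 2) K).baseChange (v.adicCompletion K)).localEulerFactor
      (v.adicCompletionIntegers K) = 1 := by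
  have hirr : Irreducible (p : v.adicCompletionIntegers K) := irreducible_completion K v p hv hv2
  have := p5_charZero K v
  rw [p5_baseChange]
  unfold WeierstrassCurve.localEulerFactor WeierstrassCurve.localPowerSeries
  have hpoly : (W (-16 * b ^ 2) (v.adicCompletion K)).localPolynomial
      (v.adicCompletionIntegers K) = 1 := by
    obtain ⟨b', rfl⟩ := hb
    have hcop : ∀ n : ℤ, ¬ (p : ℤ) ∣ n → IsUnit (n : v.adicCompletionIntegers K) := by
      intro n hn
      apply p5_isUnit_coprime K v p hv n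
      exact ((Nat.Prime.coprime_iff_not_dvd hp).2 (by
          intro h; exact hn (by exact Int.natCast_dvd.2 h)) : Nat.Coprime p n.natAbs).symm
            |> Int.isCoprime_iff_gcd_eq_one.2
    have h2 : IsUnit ((2 : ℤ) : v.adicCompletionIntegers K) := by
      apply hcop
      intro h
      have := Int.le_of_dvd (by norm_num) h
      omega
    have h3 : IsUnit ((3 : ℤ) : v.adicCompletionIntegers K) := by
      apply hcop
      intro h
      have := Int.le_of_dvd (by norm_num) h
      omega
    have hb' : IsUnit ((b' : ℤ) : v.adicCompletionIntegers K) := by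
      apply hcop
      intro h
      apply hb2
      rw [pow_two]
      exact mul_dvd_mul_left _ h
    refine localPoly_add (v.adicCompletionIntegers K) (v.adicCompletion K) (-16 * (p * b') ^ 2)
      ((p : ℕ) : v.adicCompletionIntegers K) hirr 4 (by norm_num) (by norm_num)
      (((2 : ℤ) : v.adicCompletionIntegers K) ^ 12 * ((3 : ℤ) : v.adicCompletionIntegers K) ^ 3 *
        (b' : v.adicCompletionIntegers K) ^ 4)
      (((h2.pow 12).mul (h3.pow 3)).mul (hb'.pow 4)) ?_
    push_cast
    ring
  rw [hpoly]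
  exact p5_one _

end BS3
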