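import Pool.Agent.MP_ae0bd0_nt.B3.Defs

set_option autoImplicit false

open CM27
open scoped Classical

namespace BS3

/-! ## [BS3-Q1] the descent map is a homomorphism modulo cubes (file Q1.lean) -/

theorem zq_ne_zero {D c k : ℤ} (hc : c ≠ 0) {K : Type} [Field K] [CharZero K]
    [Fact (NonSq D K)] (P : (W k K).toAffine.Point) : zq D c P ≠ 0 := by
  rcases P with _ | ⟨x, y, h⟩
  · exact one_ne_zero
  · intro h0
    have h1 := congrArg QuadraticAlgebra.im h0
    simp only [zq, QuadraticAlgebra.im_zero, neg_eq_zero, Int.cast_eq_zero] at h1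
    exact hc h1

theorem Q1_prod {D c : ℤ} {K : Type} [Field K] (x₁ x₂ x₃ l n : K)
    (h1 : x₁ + x₂ + x₃ = l ^ 2) (h2 : x₁ * x₂ + x₁ * x₃ + x₂ * x₃ = -(2 * l * n))
    (h3 : x₁ * x₂ * x₃ = n ^ 2 - D * c ^ 2) :
    (⟨l * x₁ + n, -(c : K)⟩ : Q2 D K) * ⟨l * x₂ + n, -(c : K)⟩ * ⟨l * x₃ + n, -(c : K)⟩ =
      (⟨n, -(c : K)⟩ : Q2 D K) ^ 3 := by
  ext
  · simp only [pow_succ, pow_zero, one_mul, QuadraticAlgebra.re_mul, QuadraticAlgebra.im_mul]
    linear_combination (l * n ^ 2 + D * c ^ 2 * l) * h1 + l ^ 2 * n * h2 + l ^ 3 * h3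
  · simp only [pow_succ, pow_zero, one_mul, QuadraticAlgebra.re_mul, QuadraticAlgebra.im_mul]
    linear_combination (- 2 * c * l * n) * h1 - c * l ^ 2 * h2

/-- On `y² = x³ + D c²` the map `P ↦ y - c √D` is a homomorphism modulo cubes. -/
theorem zq_add {D c k : ℤ} (hk : k = D * c ^ 2) (hc : c ≠ 0) {K : Type} [Field K] [CharZero K]
    [Fact (NonSq D K)] (P Q : (W k K).toAffine.Point) :
    ∃ u : Q2 D K, u ≠ 0 ∧ zq D c (P + Q) = zq D c P * zq D c Q * u ^ 3 := by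
  have hkK : (k : K) = D * c ^ 2 := by rw [hk]; push_cast; ring
  have hcK : (c : K) ≠ 0 := by exact_mod_cast hc
  have hns : ∀ y : K, y ^ 2 ≠ D * c ^ 2 := by
    intro y hy
    have hf : NonSq D K := Fact.out
    refine hf (y / c) ?_
    rw [div_pow, hy]
    field_simp
    ring
  have hcub : ∀ x y : K, (W k K).toAffine.Equation x y → x ≠ 0 ∧
      (⟨-y, -(c : K)⟩ : Q2 D K) * ⟨y, -(c : K)⟩ = (⟨-x, 0⟩ : Q2 D K) ^ 3 := by
    intro x y h
    rw [W_equation, hkK] at h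
    refine ⟨?_, ?_⟩
    · rintro rfl
      exact hns y (by rw [h]; ring)
    · ext
      · simp only [pow_succ, pow_zero, one_mul, QuadraticAlgebra.re_mul, QuadraticAlgebra.im_mul]
        linear_combination -h
      · simp only [pow_succ, pow_zero, one_mul, QuadraticAlgebra.re_mul, QuadraticAlgebra.im_mul]
        ring
  rcases P with _ | ⟨x₁, y₁, h₁⟩
  · refine ⟨1, one_ne_zero, ?_⟩
    have e : (WeierstrassCurve.Affine.Point.zero : (W k K).toAffine.Point) + Q = Q := zero_add Q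
    rw [e]; simp [zq]
  rcases Q with _ | ⟨x₂, y₂, h₂⟩
  · refine ⟨1, one_ne_zero, ?_⟩
    have e : WeierstrassCurve.Affine.Point.some x₁ y₁ h₁ +
      (WeierstrassCurve.Affine.Point.zero : (W k K).toAffine.Point) =
        WeierstrassCurve.Affine.Point.some x₁ y₁ h₁ := add_zero _
    rw [e]; simp [zq]
  have z1 := zq_ne_zero (D := D) hc (WeierstrassCurve.Affine.Point.some x₁ y₁ h₁)
  have z2 := zq_ne_zero (D := D) hc (WeierstrassCurve.Affine.Point.some x₂ y₂ h₂)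
  have a1 : (W k K).toAffine.a₁ = 0 := rfl
  have a2 : (W k K).toAffine.a₂ = 0 := rfl
  have a3 : (W k K).toAffine.a₃ = 0 := rfl
  have a4 : (W k K).toAffine.a₄ = 0 := rfl
  have a6 : (W k K).toAffine.a₆ = (k : K) := rfl
  have hneg : ∀ x y : K, (W k K).toAffine.negY x y = -y := by
    intro x y
    rw [WeierstrassCurve.Affine.negY, a1, a3]; ring
  by_cases hxy : x₁ = x₂ ∧ y₁ = (W k K).toAffine.negY x₂ y₂
  · rw [WeierstrassCurve.Affine.Point.add_of_Y_eq hxy.1 hxy.2]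
    have e0 : zq D c (0 : (W k K).toAffine.Point) = 1 := rfl
    rw [e0]
    have hy := hxy.2
    rw [hneg] at hy
    obtain ⟨hx0, hc3⟩ := hcub x₂ y₂ h₂.1
    simp only [zq] at z1 z2 ⊢
    rw [hy, hc3]
    have hx0' : (⟨-x₂, 0⟩ : Q2 D K) ≠ 0 := by
      intro h0
      have := congrArg QuadraticAlgebra.re h0
      simp only [QuadraticAlgebra.re_zero, neg_eq_zero] at this
      exact hx0 this
    refine ⟨(⟨-x₂, 0⟩ : Q2 D K)⁻¹, inv_ne_zero hx0', ?_⟩
    rw [← mul_pow, mul_inv_cancel₀ hx0', one_pow]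
  · have H := WeierstrassCurve.Affine.addPolynomial_slope h₁.1 h₂.1 hxy
    rw [WeierstrassCurve.Affine.addPolynomial_eq, neg_inj, Cubic.prod_X_sub_C_eq,
      Cubic.toPoly_injective, Cubic.ext_iff] at H
    rw [WeierstrassCurve.Affine.Point.add_some hxy]
    have hns3 := WeierstrassCurve.Affine.nonsingular_add h₁ h₂ hxy
    have h3e := hns3.1
    have z3 := zq_ne_zero (D := D) hc (WeierstrassCurve.Affine.Point.some _ _ hns3)
    have hY : (W k K).toAffine.addY x₁ x₂ y₁ ((W k K).toAffine.slope x₁ x₂ y₁ y₂) =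
        -((W k K).toAffine.slope x₁ x₂ y₁ y₂ *
          ((W k K).toAffine.addX x₁ x₂ ((W k K).toAffine.slope x₁ x₂ y₁ y₂) - x₁) + y₁) := by
      rw [WeierstrassCurve.Affine.addY, hneg, WeierstrassCurve.Affine.negAddY]
    have hY2 : y₂ = (W k K).toAffine.slope x₁ x₂ y₁ y₂ * (x₂ - x₁) + y₁ := by
      by_cases hx : x₁ = x₂
      · rcases WeierstrassCurve.Affine.Y_eq_of_X_eq h₁.1 h₂.1 hx with h | h
        · rw [hx, h]; ring
        · exact absurd ⟨hx, h⟩ hxy
      · rw [WeierstrassCurve.Affine.slope_of_X_ne hx]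
        have : x₁ - x₂ ≠ 0 := sub_ne_zero.2 hx
        field_simp
        ring
    simp only [zq] at z1 z2 z3 ⊢
    rw [hY] at h3e z3 ⊢
    generalize (W k K).toAffine.slope x₁ x₂ y₁ y₂ = l at H h3e z3 hY2 ⊢
    obtain ⟨-, hb, hc', hd⟩ := H
    generalize (W k K).toAffine.addX x₁ x₂ l = x₃ at hb hc' hd h3e z3 ⊢
    simp only [a1, a2, a3, a4, a6] at hb hc' hd
    obtain ⟨hx0, hc3⟩ := hcub _ _ h3e
    rw [neg_neg] at hc3
    have P1 : x₁ + x₂ + x₃ = l ^ 2 := by linear_combination hb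
    have P2 : x₁ * x₂ + x₁ * x₃ + x₂ * x₃ = -(2 * l * (y₁ - l * x₁)) := by
      linear_combination -hc'
    have P3 : x₁ * x₂ * x₃ = (y₁ - l * x₁) ^ 2 - D * c ^ 2 := by
      linear_combination hd - hkK
    have hp := Q1_prod (D := D) (c := c) x₁ x₂ x₃ l (y₁ - l * x₁) P1 P2 P3
    have e1 : l * x₁ + (y₁ - l * x₁) = y₁ := by ring
    have e2 : l * x₂ + (y₁ - l * x₁) = y₂ := by rw [hY2]; ring
    have e3 : l * x₃ + (y₁ - l * x₁) = l * (x₃ - x₁) + y₁ := by ring
    rw [e1, e2, e3] at hp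
    have hx0' : (⟨-x₃, 0⟩ : Q2 D K) ≠ 0 := by
      intro h0
      have := congrArg QuadraticAlgebra.re h0
      simp only [QuadraticAlgebra.re_zero, neg_eq_zero] at this
      exact hx0 this
    have hm0 : (⟨y₁ - l * x₁, -(c : K)⟩ : Q2 D K) ≠ 0 := by
      intro h0
      have := congrArg QuadraticAlgebra.im h0
      simp only [QuadraticAlgebra.im_zero, neg_eq_zero] at this
      exact hcK this
    have hw0 : (⟨l * (x₃ - x₁) + y₁, -(c : K)⟩ : Q2 D K) ≠ 0 := by
      intro h0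
      have := congrArg QuadraticAlgebra.im h0
      simp only [QuadraticAlgebra.im_zero, neg_eq_zero] at this
      exact hcK this
    refine ⟨⟨-x₃, 0⟩ / ⟨y₁ - l * x₁, -(c : K)⟩, div_ne_zero hx0' hm0, ?_⟩
    rw [div_pow, ← hp, ← hc3]
    field_simp

end BS3
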