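import Pool.Agent.MP_ae0bd0_nt.B3.Defs

set_option autoImplicit false

open CM27 NumberField

namespace BS3

/-! ### the fields `ℚ(i)` and `ℚ(√3)` as number fields -/

instance factM1 : Fact (NonSq (-1) ℚ) := ⟨by
  rw [nonSq_iff]
  intro r h
  have := sq_nonneg r
  rw [h] at this
  norm_num at this⟩

instance fact3 : Fact (NonSq 3 ℚ) := ⟨by
  rw [nonSq_iff]
  intro r h
  have h1 : IsSquare (3 : ℚ) := ⟨r, by rw [← sq, h]; norm_num⟩
  have h2 : IsSquare (3 : ℕ) := by
    have := Rat.isSquare_natCast_iff (n := 3)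
    exact this.1 (by exact_mod_cast h1)
  obtain ⟨a, ha⟩ := h2
  have : a ≤ 1 := by nlinarith
  interval_cases a <;> omega⟩

instance charZeroQ2 {D : ℤ} {K : Type} [Field K] [CharZero K] [Fact (NonSq D K)] :
    CharZero (Q2 D K) := charZero_of_injective_algebraMap (algebraMap K (Q2 D K)).injective

instance numberFieldQ2 {D : ℤ} [Fact (NonSq D ℚ)] : NumberField (Q2 D ℚ) where
  to_charZero := charZeroQ2
  to_finiteDimensional := by
    have h : Module.Finite ℚ (QuadraticAlgebra ℚ (D : ℚ) 0) := inferInstance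
    convert h

end BS3
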