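import Pool.Agent.MP_ae0bd0_nt.B3.X0

set_option autoImplicit false

open scoped ComplexConjugate
open Filter Topology CM27

namespace BS3

/-! ## [BS3-X1] multiplication by `√-3` (file X1.lean; uses X0) -/

/-- the simple zeros of `℘` -/
theorem wp_zero_simple (t : ℂ) (ht : t ∉ Set.range emb) (h : emb th * t ∈ Set.range emb) :
    ∃ g : ℂ → ℂ, AnalyticAt ℂ g t ∧ ∀ᶠ z in 𝓝 t, L0.weierstrassP z = (z - t) * g z := by
  have ht3 : t ∉ L0.lattice := fun h => ht ((mem_L0 t).1 h)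
  have ha := L0.analyticOnNhd_weierstrassP t ht3
  have hv := wp_zero t ht h
  obtain ⟨k, hk, hk2⟩ := h4_pow_factor ha 1 (by
    intro i hi
    have : i = 0 := by omega
    subst this
    simpa using hv)
  exact ⟨k, hk, by simpa using hk2⟩

theorem x1_th_eq : emb th = 1 + 2 * w := by
  rw [emb_apply]
  simp [th]

theorem x1_th_sq : emb th * emb th = -3 := by
  rw [x1_th_eq]
  linear_combination 4 * w_sq

theorem x1_th_ne : emb th ≠ 0 := by
  intro h
  have := x1_th_sq
  rw [h] at this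
  norm_num at this

/-- not a pole -/
def x1_off (z : ℂ) : Prop := emb th * z ∉ Set.range emb

noncomputable def x1_F (z : ℂ) : ℂ :=
  3 * L0.weierstrassP (emb th * z) * L0.weierstrassP z ^ 2 + L0.weierstrassP z ^ 3

noncomputable def x1_Ft (t : ℂ) : ℂ := limUnder (𝓝[≠] t) x1_F

theorem x1_off_near (t : ℂ) : ∀ᶠ z in 𝓝[≠] t, x1_off z := by
  have h1 := L0.compl_lattice_sdiff_singleton_mem_nhds (emb th * t)
  have h2 : Tendsto (fun z : ℂ => emb th * z) (𝓝 t) (𝓝 (emb th * t)) :=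
    (Continuous.tendsto (by fun_prop) t)
  have h3 := h2.eventually h1
  filter_upwards [nhdsWithin_le_nhds h3, self_mem_nhdsWithin] with z hz hz1
  intro h
  apply hz
  refine ⟨(mem_L0 _).2 h, ?_⟩
  intro h4
  apply hz1
  have h5 : emb th * z = emb th * t := h4
  exact mul_left_cancel₀ x1_th_ne h5

theorem x1_off_not (z : ℂ) (h : x1_off z) : z ∉ L0.lattice := by
  intro hz
  rw [mem_L0] at hz
  obtain ⟨a, ha⟩ := hz
  apply h
  refine ⟨th * a, ?_⟩
  rw [map_mul, ha]

theorem x1_off_add (z : ℂ) (a : Eis) (h : x1_off z) : x1_off (z + emb a) := by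
  rintro ⟨b, hb⟩
  apply h
  refine ⟨b - th * a, ?_⟩
  rw [map_sub, map_mul, hb]
  ring

theorem x1_local_off (t : ℂ) (ht : x1_off t) : AnalyticAt ℂ x1_F t := by
  have h2 := L0.analyticOnNhd_weierstrassP t (x1_off_not t ht)
  have h3 : AnalyticAt ℂ (fun z => L0.weierstrassP (emb th * z)) t := by
    have h4 : emb th * t ∉ L0.lattice := fun h => ht ((mem_L0 _).1 h)
    have h5 := L0.analyticOnNhd_weierstrassP (emb th * t) h4
    exact h5.comp (f := fun z => emb th * z) (by fun_prop)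
  unfold x1_F
  fun_prop

theorem x1_F_add (z : ℂ) (a : Eis) : x1_F (z + emb a) = x1_F z := by
  have h1 := L0.weierstrassP_add_coe z ⟨emb a, (mem_L0 _).2 ⟨a, rfl⟩⟩
  have h2 := L0.weierstrassP_add_coe (emb th * z) ⟨emb (th * a), (mem_L0 _).2 ⟨_, rfl⟩⟩
  simp only at h1 h2
  rw [x1_F, x1_F, h1, mul_add, ← map_mul, h2]

theorem x1_F_sub (z : ℂ) (a : Eis) : x1_F (z - emb a) = x1_F z := by
  have h1 := x1_F_add z (-a)
  rwa [map_neg, ← sub_eq_add_neg] at h1

/-- `℘ = 1/w² + E` -/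
theorem x1_wp_eq (z : ℂ) : L0.weierstrassP z = L0.weierstrassPExcept 0 z + 1 / z ^ 2 := by
  have h5 := L0.weierstrassPExcept_def 0 z
  simp only [ZeroMemClass.coe_zero, sub_zero] at h5
  rw [h5]
  simp

theorem x1_local_zero :
    ∃ h : ℂ → ℂ, AnalyticAt ℂ h 0 ∧ ∀ᶠ z in 𝓝[≠] (0 : ℂ), x1_F z = h z := by
  have ha := L0.analyticAt_weierstrassPExcept 0
  obtain ⟨k, hk, hk2⟩ := h4_pow_factor ha 4 (by
    intro i hi
    rw [L0.iteratedDeriv_weierstrassPExcept_self]
    split_ifs with h0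
    · simp
    · have : i = 1 ∨ i = 2 ∨ i = 3 := by omega
      rcases this with rfl | rfl | rfl
      · rw [L0.sumInvPow_zero, L0.G_eq_zero_of_odd _ (by decide), mul_zero]
      · rw [L0.sumInvPow_zero, h4_G4, mul_zero]
      · rw [L0.sumInvPow_zero, L0.G_eq_zero_of_odd _ (by decide), mul_zero])
  simp only [sub_zero] at hk hk2
  set K : ℂ → ℂ := fun z => k (emb th * z) with hK
  have hk3 : AnalyticAt ℂ K 0 := by
    have : AnalyticAt ℂ k (emb th * 0) := by simpa using hk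
    exact this.comp (f := fun z => emb th * z) (by fun_prop)
  have hk4 : ∀ᶠ z in 𝓝 (0 : ℂ),
      L0.weierstrassPExcept 0 (emb th * z) = (emb th * z) ^ 4 * k (emb th * z) := by
    have h2 : Tendsto (fun z : ℂ => emb th * z) (𝓝 0) (𝓝 (emb th * 0)) :=
      (Continuous.tendsto (by fun_prop) 0)
    rw [mul_zero] at h2
    exact h2.eventually hk2
  refine ⟨fun z => k z + 27 * K z + 2 * z ^ 6 * k z ^ 2
      + 54 * z ^ 6 * K z * k z + 27 * z ^ 12 * K z * k z ^ 2
      + z ^ 12 * k z ^ 3, by fun_prop, ?_⟩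
  filter_upwards [nhdsWithin_le_nhds hk2, nhdsWithin_le_nhds hk4, self_mem_nhdsWithin] with
    z h2 h3 h4
  have hz : z ≠ 0 := h4
  have h7 : L0.weierstrassP z = z ^ 4 * k z + 1 / z ^ 2 := by
    rw [← h2, x1_wp_eq]
  have h9 : (emb th * z) ^ 2 = -3 * z ^ 2 := by
    rw [mul_pow, sq (emb th), x1_th_sq]
  have h8 : L0.weierstrassP (emb th * z) = 9 * z ^ 4 * k (emb th * z) + 1 / (-3 * z ^ 2) := by
    rw [x1_wp_eq, h3, show (emb th * z) ^ 4 = ((emb th * z) ^ 2) ^ 2 by ring, h9]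
    ring
  rw [x1_F, h7, h8]
  simp only [hK]
  generalize k (emb th * z) = K
  field_simp
  ring

/-- local analytic extension at every point -/
theorem x1_local (t : ℂ) : ∃ h : ℂ → ℂ, AnalyticAt ℂ h t ∧ ∀ᶠ z in 𝓝[≠] t, x1_F z = h z := by
  by_cases ht : x1_off t
  · exact ⟨x1_F, x1_local_off t ht, Eventually.of_forall fun _ => rfl⟩
  by_cases ht2 : t ∈ Set.range emb
  · obtain ⟨a, rfl⟩ := ht2
    obtain ⟨h, hh, hl⟩ := x1_local_zero
    refine ⟨fun z => h (z - emb a), ?_, ?_⟩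
    · have : AnalyticAt ℂ h (emb a - emb a) := by simpa using hh
      exact this.comp (f := fun z => z - emb a) (by fun_prop)
    · have h1 : Tendsto (fun z : ℂ => z - emb a) (𝓝[≠] (emb a)) (𝓝[≠] 0) := by
        apply tendsto_nhdsWithin_of_tendsto_nhds_of_eventually_within
        · have : Tendsto (fun z : ℂ => z - emb a) (𝓝 (emb a)) (𝓝 (emb a - emb a)) :=
            (Continuous.tendsto (by fun_prop) _)
          rw [sub_self] at this
          exact this.mono_left nhdsWithin_le_nhds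
        · filter_upwards [self_mem_nhdsWithin] with z hz
          exact sub_ne_zero.2 hz
      filter_upwards [h1.eventually hl] with z h2
      rw [← h2, x1_F_sub z a]
  · have h2 : emb th * t ∈ Set.range emb := not_not.1 ht
    obtain ⟨g, hg, hl⟩ := wp_zero_simple t ht2 h2
    have ha : AnalyticAt ℂ (fun z => L0.weierstrassPExcept 0 (emb th * (z - t))) t := by
      have h3 := L0.analyticAt_weierstrassPExcept 0
      have h4 : AnalyticAt ℂ (L0.weierstrassPExcept 0) (emb th * (t - t)) := by simpa using h3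
      exact h4.comp (f := fun z => emb th * (z - t)) (by fun_prop)
    refine ⟨fun z => - g z ^ 2
        + 3 * L0.weierstrassPExcept 0 (emb th * (z - t)) * (z - t) ^ 2 * g z ^ 2
        + (z - t) ^ 3 * g z ^ 3, by fun_prop, ?_⟩
    filter_upwards [nhdsWithin_le_nhds hl, self_mem_nhdsWithin] with z h1 h3
    have h4 : z - t ≠ 0 := sub_ne_zero.2 h3
    have h5 : L0.weierstrassP (emb th * z) =
        L0.weierstrassPExcept 0 (emb th * (z - t)) + 1 / (-3 * (z - t) ^ 2) := by
      have e1 := L0.weierstrassP_add_coe (emb th * (z - t)) ⟨emb th * t, (mem_L0 _).2 h2⟩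
      simp only at e1
      rw [show emb th * (z - t) + emb th * t = emb th * z by ring] at e1
      rw [e1, x1_wp_eq, mul_pow, sq (emb th), x1_th_sq]
    rw [x1_F, h5, h1]
    field_simp
    ring

theorem x1_Ft_of {h : ℂ → ℂ} {t : ℂ} (hh : ContinuousAt h t) (hl : ∀ᶠ z in 𝓝[≠] t, x1_F z = h z) :
    x1_Ft t = h t := by
  apply Tendsto.limUnder_eq
  have h1 : Tendsto h (𝓝[≠] t) (𝓝 (h t)) := hh.tendsto.mono_left nhdsWithin_le_nhds
  exact h1.congr' (hl.mono fun z hz => hz.symm)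

theorem x1_Ft_analytic (t : ℂ) : AnalyticAt ℂ x1_Ft t := by
  obtain ⟨h, hh, hl⟩ := x1_local t
  refine hh.congr ?_
  rw [eventually_nhdsWithin_iff] at hl
  filter_upwards [hh.eventually_analyticAt, hl.eventually_nhds] with z h1 h2
  symm
  by_cases hz : z = t
  · subst hz
    exact x1_Ft_of h1.continuousAt (eventually_nhdsWithin_iff.2 hl)
  · apply x1_Ft_of h1.continuousAt
    apply Filter.Eventually.filter_mono nhdsWithin_le_nhds
    filter_upwards [h2, (isOpen_compl_singleton.mem_nhds hz : ({t}ᶜ : Set ℂ) ∈ 𝓝 z)] with y h3 h4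
    exact h3 h4

theorem x1_Ft_eq (z : ℂ) (h : x1_off z) : x1_Ft z = x1_F z :=
  x1_Ft_of (x1_local_off z h).continuousAt (Eventually.of_forall fun _ => rfl)

theorem x1_Ft_add (z : ℂ) (a : Eis) : x1_Ft (z + emb a) = x1_Ft z := by
  have h1 : Continuous x1_Ft := continuous_iff_continuousAt.2 fun t => (x1_Ft_analytic t).continuousAt
  have h2 : Tendsto (fun y => x1_Ft (y + emb a)) (𝓝[≠] z) (𝓝 (x1_Ft (z + emb a))) :=
    (Continuous.tendsto (by fun_prop) z).mono_left nhdsWithin_le_nhds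
  have h3 : Tendsto x1_Ft (𝓝[≠] z) (𝓝 (x1_Ft z)) :=
    (h1.tendsto z).mono_left nhdsWithin_le_nhds
  refine tendsto_nhds_unique h2 (h3.congr' ?_)
  filter_upwards [x1_off_near z] with y hy
  rw [x1_Ft_eq y hy, x1_Ft_eq _ (x1_off_add y a hy), x1_F_add y]

theorem x1_Ft_const (z y : ℂ) : x1_Ft z = x1_Ft y := by
  have hd : Differentiable ℂ x1_Ft := fun x => (x1_Ft_analytic x).differentiableAt
  refine hd.apply_eq_apply_of_bounded (IsZLattice.isCompact_range_of_periodic L0.lattice _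
    hd.continuous fun z w hw => ?_).isBounded z y
  obtain ⟨a, rfl⟩ := (mem_L0 w).1 hw
  exact x1_Ft_add z a

theorem x1_half : (1 / 2 : ℂ) ∉ Set.range emb := by
  rintro ⟨a, ha⟩
  have h1 := congrArg Complex.im ha
  have h2 := congrArg Complex.re ha
  rw [emb_im] at h1
  rw [emb_re] at h2
  have h3 : (0 : ℝ) < √3 := by positivity
  have h4 : (a.im : ℝ) = 0 := by
    have : (a.im : ℝ) * (√3 / 2) = 0 := by
      rw [h1]
      simp
    rcases mul_eq_zero.1 this with h | h
    · exact h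
    · linarith
  rw [h4] at h2
  have h5 : (2 : ℝ) * a.re = 1 := by
    have : (1 / 2 : ℂ).re = 1 / 2 := by norm_num
    rw [this] at h2
    linarith
  have h6 : (2 : ℤ) * a.re = 1 := by exact_mod_cast h5
  omega

theorem wp_sqrt (z : ℂ) (hz : emb th * z ∉ Set.range emb) :
    3 * L0.weierstrassP (emb th * z) * L0.weierstrassP z ^ 2 =
      L0.g₃ - L0.weierstrassP z ^ 3 := by
  have hth : emb th * (1 / 2 : ℂ) = 1 / 2 + emb ⟨0, 1⟩ := by
    rw [x1_th_eq, emb_apply]
    simp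
    ring
  have h0 : x1_off (1 / 2) := by
    rintro ⟨a, ha⟩
    apply x1_half
    refine ⟨a - ⟨0, 1⟩, ?_⟩
    rw [map_sub, ha, hth]
    ring
  have h1 := x1_Ft_const z (1 / 2)
  rw [x1_Ft_eq z hz, x1_Ft_eq _ h0, x1_F, x1_F, hth] at h1
  have h2 := L0.weierstrassP_add_coe (1 / 2) ⟨emb ⟨0, 1⟩, (mem_L0 _).2 ⟨_, rfl⟩⟩
  simp only at h2
  rw [h2] at h1
  have h3 := XX_half (1 / 2) x1_half ⟨1, by rw [map_one]; norm_num⟩
  rw [XX] at h3
  have hg : L0.g₃ ≠ 0 := by
    intro h
    rw [h] at h3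
    simp at h3
  have h4 : L0.g₃ = 4 * L0.weierstrassP (1 / 2) ^ 3 := by
    field_simp at h3
    linear_combination h3
  rw [h4]
  linear_combination h1

end BS3
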