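import Pool.Agent.MP_ae0bd0_nt.B3.X1

set_option autoImplicit false

open scoped ComplexConjugate
open Filter Topology CM27

namespace BS3

/-! ## [BS3-X2] the formulas for `XX`, `SS` (file X2.lean; uses X1) -/

theorem x2_th : emb th ^ 2 = -3 := by
  have h : th * th = (⟨-3, 0⟩ : Eis) := by
    ext <;> simp [th]
  rw [pow_two, ← map_mul, h, emb_apply]
  simp

theorem x2_th_ne : emb th ≠ 0 := by
  intro h
  have h2 := x2_th
  rw [h] at h2
  norm_num at h2

theorem XX_ne_zero (z : ℂ) (hz : emb th * z ∉ Set.range emb) : XX z ≠ 0 := by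
  have h := wp_sqrt z hz
  intro h0
  have h1 : L0.weierstrassP z ^ 3 = 0 := by
    rw [XX, div_eq_zero_iff] at h0
    rcases h0 with h0 | h0
    · exact neg_eq_zero.1 h0
    · exact absurd h0 g3_ne
  have h2 : L0.weierstrassP z = 0 := by
    exact (pow_eq_zero_iff (by norm_num)).1 h1
  rw [h2] at h
  apply g3_ne
  linear_combination -h

theorem x2_one_add (z : ℂ) : XX z + 1 = (L0.g₃ - L0.weierstrassP z ^ 3) / L0.g₃ := by
  have := g3_ne
  rw [XX]
  field_simp
  ring

theorem XX_sqrt (z : ℂ) (hz : emb th * z ∉ Set.range emb) :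
    XX (emb th * z) * (27 * XX z ^ 2) = -(XX z + 1) ^ 3 := by
  have h := wp_sqrt z hz
  have hg := g3_ne
  rw [x2_one_add, ← h, XX, XX]
  field_simp
  ring

theorem SS_sqrt (z : ℂ) (hz : emb th * z ∉ Set.range emb) :
    3 * emb th * SS z - 1 ≠ 0 ∧
    SS (emb th * z) * (3 * emb th * SS z - 1) ^ 2 = SS z * (SS z + emb th) ^ 2 := by
  have h1 := XX_ne_zero z hz
  have h2 := XX_sqrt z hz
  have ht := x2_th
  have ht0 := x2_th_ne
  have h3 : 3 * emb th * SS z - 1 = 4 * XX z := by
    rw [SS]
    field_simp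
    ring
  have h4 : SS z + emb th = 4 * (XX z - 2) / (3 * emb th) := by
    rw [SS]
    field_simp
    linear_combination 3 * ht
  refine ⟨by rw [h3]; exact mul_ne_zero (by norm_num) h1, ?_⟩
  rw [h3, h4, SS, SS]
  generalize XX (emb th * z) = Y at *
  generalize XX z = X at *
  generalize emb th = t at *
  have ht3 : (3 * t) ^ 2 = -27 := by linear_combination 9 * ht
  rw [div_pow, ht3]
  field_simp
  linear_combination (4 : ℂ) * h2
end BS3
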