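import Pool.Agent.MP_ae0bd0_nt.B3.X2
import Pool.Agent.MP_ae0bd0_nt.B3.V1
import Pool.Agent.MP_ae0bd0_nt.B3.F2

set_option autoImplicit false

open scoped ComplexConjugate
open Filter Topology CM27

namespace BS3

/-! ## [BS3-X3] integrality at the torsion points of order prime to `3`
(file X3.lean; uses X2, V1, F2) -/

theorem x3_range_add {a b : ℂ} (ha : a ∈ Set.range emb) (hb : b ∈ Set.range emb) :
    a + b ∈ Set.range emb := by
  obtain ⟨x, rfl⟩ := ha
  obtain ⟨y, rfl⟩ := hb
  exact ⟨x + y, map_add _ _ _⟩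

theorem x3_range_mul (u : Eis) {a : ℂ} (ha : a ∈ Set.range emb) :
    emb u * a ∈ Set.range emb := by
  obtain ⟨x, rfl⟩ := ha
  exact ⟨u * x, by rw [map_mul]⟩

theorem x3_range_intmul (n : ℤ) {a : ℂ} (ha : a ∈ Set.range emb) :
    (n : ℂ) * a ∈ Set.range emb := by
  obtain ⟨x, rfl⟩ := ha
  exact ⟨(n : Eis) * x, by rw [map_mul, map_intCast]⟩

theorem x3_th_sq : emb th ^ 2 = -3 := by
  have h : th ^ 2 = (-3 : Eis) := by
    ext <;> decide
  rw [← map_pow, h, map_neg, map_ofNat]

theorem x3_th_ne : emb th ≠ 0 := by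
  intro h
  have := x3_th_sq
  rw [h] at this
  norm_num at this

theorem x3_off (N : ℕ) (hN : ¬ 3 ∣ N) (z : ℂ) (hz : (N : ℂ) * z ∈ Set.range emb)
    (hz0 : z ∉ Set.range emb) : emb th * z ∉ Set.range emb := by
  intro h
  apply hz0
  have h1 : emb th * (emb th * z) ∈ Set.range emb := x3_range_mul _ h
  have h2 : emb th * (emb th * z) = -3 * z := by
    rw [← mul_assoc, ← pow_two, x3_th_sq]
  rw [h2] at h1
  have hco : IsCoprime (N : ℤ) 3 := by
    have : Nat.Coprime 3 N := (Nat.Prime.coprime_iff_not_dvd Nat.prime_three).2 hN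
    exact_mod_cast (Nat.isCoprime_iff_coprime.2 this.symm)
  obtain ⟨a, b, hab⟩ := hco
  have e : z = (a : ℂ) * ((N : ℂ) * z) + ((-b : ℤ) : ℂ) * (-3 * z) := by
    have h3 : (a : ℂ) * N + b * 3 = 1 := by exact_mod_cast hab
    push_cast
    linear_combination -z * h3
  rw [e]
  exact x3_range_add (x3_range_intmul _ hz) (x3_range_intmul _ h1)

theorem x3_th_lt (A : ValuationSubring ℂ) (h3 : A.valuation 3 < 1) : A.valuation (emb th) < 1 := by
  by_contra h
  push Not at h
  have := one_le_pow₀ h (n := 2)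
  rw [val_th] at this
  exact absurd (lt_of_lt_of_le h3 this) (lt_irrefl _)

/-- the valuation of `S (√-3 z)` is strictly greater than that of `S z` if the latter is `> 1` -/
theorem x3_step (A : ValuationSubring ℂ) (h3 : A.valuation 3 < 1) (S T : ℂ)
    (h : T * (3 * emb th * S - 1) ^ 2 = S * (S + emb th) ^ 2) (hS : 1 < A.valuation S) :
    A.valuation S < A.valuation T := by
  have hth := x3_th_lt A h3
  set v := A.valuation with hv
  have hS0 : (0 : A.ValueGroup) < v S := lt_trans zero_lt_one hS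
  have h4 : v (S + emb th) = v S := by
    apply Valuation.map_add_eq_of_lt_left
    exact lt_trans hth hS
  have h5 : v (3 * emb th * S - 1) < v S := by
    refine Valuation.map_sub_lt _ ?_ (by rw [map_one]; exact hS)
    rw [map_mul, map_mul]
    have h6 : v 3 * v (emb th) < 1 := by
      calc v 3 * v (emb th) ≤ v 3 * 1 := mul_le_mul_right hth.le _
        _ < 1 := by rw [mul_one]; exact h3
    calc v 3 * v (emb th) * v S < 1 * v S := mul_lt_mul_of_pos_right h6 hS0
      _ = v S := one_mul _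
  have h6 := congrArg v h
  rw [map_mul, map_mul, map_pow, map_pow, h4] at h6
  by_contra hn
  push Not at hn
  have h7 : v (3 * emb th * S - 1) ^ 2 < v S ^ 2 := pow_lt_pow_left₀ h5 zero_le two_ne_zero
  have h8 : v T * v (3 * emb th * S - 1) ^ 2 < v S * v S ^ 2 := by
    calc v T * v (3 * emb th * S - 1) ^ 2 ≤ v S * v (3 * emb th * S - 1) ^ 2 :=
          mul_le_mul_left hn _
      _ < v S * v S ^ 2 := mul_lt_mul_of_pos_left h7 hS0
  rw [h6] at h8
  exact lt_irrefl _ h8

theorem SS_add (z : ℂ) (a : Eis) : SS (z + emb a) = SS z := by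
  unfold SS
  rw [XX_add]

theorem SS_val (A : ValuationSubring ℂ) (h3 : A.valuation 3 < 1) (N : ℕ) (hN : ¬ 3 ∣ N) (z : ℂ)
    (hz : (N : ℂ) * z ∈ Set.range emb) (hz0 : z ∉ Set.range emb) : A.valuation (SS z) ≤ 1 := by
  by_contra hx
  push Not at hx
  -- the points `(√-3) ^ k z`
  have key : ∀ k : ℕ, (N : ℂ) * (emb th ^ k * z) ∈ Set.range emb ∧
      emb th ^ k * z ∉ Set.range emb ∧
      A.valuation (SS z) ≤ A.valuation (SS (emb th ^ k * z)) ∧
      (0 < k → A.valuation (SS z) < A.valuation (SS (emb th ^ k * z))) := by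
    intro k
    induction k with
    | zero => simp [hz, hz0]
    | succ k ih =>
      obtain ⟨i1, i2, i3, i4⟩ := ih
      have hoff := x3_off N hN _ i1 i2
      have e : emb th ^ (k + 1) * z = emb th * (emb th ^ k * z) := by ring
      have hlt := x3_step A h3 _ _ (SS_sqrt _ hoff).2 (lt_of_lt_of_le hx i3)
      rw [e]
      refine ⟨?_, ?_, ?_, ?_⟩
      · have e2 : (N : ℂ) * (emb th * (emb th ^ k * z)) =
            emb th * ((N : ℂ) * (emb th ^ k * z)) := by ring
        rw [e2]
        exact x3_range_mul _ i1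
      · exact hoff
      · exact i3.trans hlt.le
      · intro _
        exact lt_of_le_of_lt i3 hlt
  have hN0 : 0 < N := by
    rcases Nat.eq_zero_or_pos N with h | h
    · rw [h] at hN; simp at hN
    · exact h
  have hco : Nat.Coprime 3 N := (Nat.Prime.coprime_iff_not_dvd Nat.prime_three).2 hN
  have hphi := Nat.ModEq.pow_totient hco
  have hpos : 0 < N.totient := Nat.totient_pos.2 hN0
  have h31 : 1 ≤ 3 ^ N.totient := Nat.one_le_pow _ _ (by norm_num)
  obtain ⟨c, hc⟩ := (Nat.modEq_iff_dvd' h31).1 hphi.symm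
  have h5 : (3 : ℂ) ^ N.totient = N * c + 1 := by
    have h6 : 3 ^ N.totient = N * c + 1 := by omega
    exact_mod_cast congrArg (Nat.cast : ℕ → ℂ) h6
  have h6 : emb th ^ (4 * N.totient) = (N * c + 1) ^ 2 := by
    have e4 : emb th ^ 4 = 3 ^ 2 := by
      have : emb th ^ 4 = (emb th ^ 2) ^ 2 := by ring
      rw [this, x3_th_sq]; norm_num
    rw [pow_mul, e4, ← pow_mul, mul_comm 2, pow_mul, h5]
  have h7 : SS (emb th ^ (4 * N.totient) * z) = SS z := by
    obtain ⟨a, ha⟩ := x3_range_intmul ((2 * c + N * c ^ 2 : ℕ) : ℤ) hz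
    have e : emb th ^ (4 * N.totient) * z = z + emb a := by
      rw [ha, h6]; push_cast; ring
    rw [e, SS_add]
  have h8 := (key (4 * N.totient)).2.2.2 (by omega)
  rw [h7] at h8
  exact lt_irrefl _ h8

theorem x3_one_add (A : ValuationSubring ℂ) (h3 : A.valuation 3 < 1) (S : ℂ)
    (hS : A.valuation S ≤ 1) : A.valuation (1 + emb th * S) = 1 := by
  have hth := x3_th_lt A h3
  have h1 : A.valuation (emb th * S) < 1 := by
    rw [map_mul]
    calc A.valuation (emb th) * A.valuation S ≤ A.valuation (emb th) * 1 :=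
          mul_le_mul_right hS _
      _ < 1 := by rw [mul_one]; exact hth
  have := Valuation.map_add_eq_of_lt_right A.valuation (x := emb th * S) (y := 1)
    (by rw [map_one]; exact h1)
  rw [add_comm, this, map_one]

theorem hh_val (A : ValuationSubring ℂ) (h3 : A.valuation 3 < 1) (N : ℕ) (hN : ¬ 3 ∣ N) (z : ℂ)
    (hz : (N : ℂ) * z ∈ Set.range emb) (hz0 : z ∉ Set.range emb) : A.valuation (hh z) ≤ 1 := by
  have h1 := SS_val A h3 N hN z hz hz0
  unfold hh
  rw [map_div₀, x3_one_add A h3 _ h1, div_one]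
  exact h1

theorem inv_one_add (N : ℕ) (hN : ¬ 3 ∣ N) (z : ℂ)
    (hz : (N : ℂ) * z ∈ Set.range emb) (hz0 : z ∉ Set.range emb) : 1 + XX z ≠ 0 ∧
    (1 + XX z)⁻¹ = 4 / 3 - 4 * emb th / 3 * hh z := by
  obtain ⟨K, hK, hF⟩ := XX_F
  have h1 : 1 + XX z ≠ 0 := by
    intro h0
    have := hF z hz0 (NP_of N hN z hz)
    rw [h0, mul_zero] at this
    exact hK this.symm
  refine ⟨h1, ?_⟩
  have hth := x3_th_ne
  have e1 : 1 + emb th * SS z = 4 * (1 + XX z) / 3 := by
    unfold SS
    field_simp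
    ring
  unfold hh
  rw [e1]
  unfold SS
  field_simp
  ring

end BS3
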