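import Pool.Agent.MP_ae0bd0_nt.B3.ZDefs
import Pool.Agent.MP_ae0bd0_nt.CM.A2
import Pool.Agent.MP_ae0bd0_nt.CM.A3

set_option autoImplicit false

open scoped ComplexConjugate
open CM27

namespace BS3

/-! ## [BS3-Z1] sums over primary elements of given norm (file Z1.lean) -/

theorem sum_primSet_mul {m n : ℕ} (h : m.Coprime n) (f : Eis → ℂ) :
    ∑ c ∈ primSet (m * n), f c = ∑ a ∈ primSet m, ∑ b ∈ primSet n, f (a * b) := by
  have := eis_isDomain
  rw [← Finset.sum_product']
  symm
  refine Finset.sum_nbij (fun p => p.1 * p.2) ?_ ?_ ?_ ?_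
  · rintro ⟨a, b⟩ hab
    rw [Finset.mem_product, mem_primSet, mem_primSet] at hab
    obtain ⟨⟨h1, h2⟩, h3, h4⟩ := hab
    simp only at h1 h2 h3 h4
    rw [mem_primSet]
    refine ⟨?_, h2.mul h4⟩
    rw [map_mul, h1, h3]
    push_cast
    ring
  · rintro ⟨a, b⟩ hab ⟨a', b'⟩ hab' heq
    simp only [Finset.coe_product, Set.mem_prod, Finset.mem_coe, mem_primSet] at hab hab' heq
    obtain ⟨⟨h1, h2⟩, h3, h4⟩ := hab
    obtain ⟨⟨h1', h2'⟩, h3', h4'⟩ := hab'
    have hcop : IsCoprime (m : ℤ) (n : ℤ) := Nat.isCoprime_iff_coprime.2 h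
    have hab : IsCoprime a b' := a2_isCoprime (by rw [h1, h3']; exact hcop)
    have h5 : a ∣ a' := hab.dvd_of_dvd_mul_right (by rw [← heq]; exact dvd_mul_right _ _)
    have h6 : a' = a := a2_eq_of_dvd h2 h2' h5 (by rw [h1, h1'])
    subst h6
    have ha0 : a' ≠ 0 := by
      rintro rfl
      exact a2_not_primary_zero h2
    have h7 : b = b' := mul_left_cancel₀ ha0 heq
    rw [h7]
  · intro c hc
    rw [Finset.mem_coe, mem_primSet] at hc
    obtain ⟨a, b, h1, h2, h3, h4, h5⟩ := a2_split hc.2 h hc.1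
    refine ⟨(a, b), ?_, h5⟩
    rw [Finset.mem_coe, Finset.mem_product, mem_primSet, mem_primSet]
    exact ⟨⟨h3, h1⟩, h4, h2⟩
  · rintro ⟨a, b⟩ _
    rfl

theorem sum_primSet_split (p : ℕ) (hp : p.Prime) (h : p % 3 = 1) (a : Eis) (ha : Primary a)
    (hn : a.norm = p) (k : ℕ) (f : Eis → ℂ) :
    ∑ c ∈ primSet (p ^ k), f c = ∑ i ∈ Finset.range (k + 1), f (a ^ i * star a ^ (k - i)) := by
  classical
  symm
  refine Finset.sum_bij (fun i _ => a ^ i * (star a) ^ (k - i)) ?_ ?_ ?_ ?_
  · intro i hi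
    have hi' : i ≤ k := by
      rw [Finset.mem_range] at hi; omega
    rw [mem_primSet]
    refine ⟨?_, Primary.mul (a3_primary_pow ha i) (a3_primary_pow (Primary.star ha) _)⟩
    rw [map_mul, a3_norm_pow, a3_norm_pow, QuadraticAlgebra.norm_star, hn, ← pow_add,
      Nat.add_sub_cancel' hi']
    push_cast; rfl
  · intro i hi j hj he
    have hi' : i ≤ k := by
      rw [Finset.mem_range] at hi; omega
    have hj' : j ≤ k := by
      rw [Finset.mem_range] at hj; omega
    rcases lt_trichotomy i j with h1 | h1 | h1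
    · exact (a3_inj_aux p hp h a hn k i j h1 hj' he).elim
    · exact h1
    · exact (a3_inj_aux p hp h a hn k j i h1 hi' he.symm).elim
  · intro b hb
    rw [mem_primSet] at hb
    obtain ⟨i, hi, hbi⟩ := eq_pow_mul_pow p hp a ha hn k b hb.2 (by rw [hb.1]; push_cast; rfl)
    exact ⟨i, Finset.mem_range.2 (by omega), hbi.symm⟩
  · intro i _
    rfl

theorem sum_primSet_inert (p : ℕ) (hp : p.Prime) (h : p % 3 = 2) (k : ℕ) (f : Eis → ℂ) :
    ∑ c ∈ primSet (p ^ k), f c = if Even k then f ((-(p : Eis)) ^ (k / 2)) else 0 := by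
  have hprim : Primary (-(p : Eis)) := by
    rw [primary_iff, QuadraticAlgebra.re_neg, QuadraticAlgebra.im_neg,
      QuadraticAlgebra.re_natCast, QuadraticAlgebra.im_natCast]
    constructor
    · omega
    · norm_num
  split_ifs with hk
  · have h1 : primSet (p ^ k) = {(-(p : Eis)) ^ (k / 2)} := by
      ext b
      rw [mem_primSet, Finset.mem_singleton]
      constructor
      · rintro ⟨h1, h2⟩
        exact (eq_neg_pow p hp h k b h2 (by rw [h1]; push_cast; rfl)).2
      · rintro rfl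
        refine ⟨?_, a3_primary_pow hprim _⟩
        rw [a3_norm_pow, QuadraticAlgebra.norm_neg, QuadraticAlgebra.norm_natCast]
        push_cast
        rw [← pow_mul, Nat.mul_div_cancel' hk.two_dvd]
    rw [h1, Finset.sum_singleton]
  · apply Finset.sum_eq_zero
    intro b hb
    rw [mem_primSet] at hb
    exact absurd (eq_neg_pow p hp h k b hb.2 (by rw [hb.1]; push_cast; rfl)).1 hk

theorem primSet_three (k : ℕ) (hk : k ≠ 0) : primSet (3 ^ k) = ∅ := by
  rw [Finset.eq_empty_iff_forall_notMem]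
  intro a ha
  rw [mem_primSet] at ha
  have h1 := a3_primary_norm ha.2
  rw [ha.1] at h1
  obtain ⟨j, rfl⟩ := Nat.exists_eq_succ_of_ne_zero hk
  rw [pow_succ] at h1
  push_cast at h1
  omega

theorem primSet_one : primSet 1 = {1} := by
  ext a
  rw [mem_primSet, Finset.mem_singleton]
  constructor
  · rintro ⟨h1, h2⟩
    have hu : IsUnit a := (eis_isUnit_iff a).2 (by rw [h1]; norm_num)
    exact primary_unique 1 a a2_primary_one hu (by rw [mul_one]; exact h2)
  · rintro rfl
    exact ⟨by simp, a2_primary_one⟩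

end BS3
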